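import Pool.Agent.Lib.MP_d610d0_nt.CA.FP.P.cmpS
import Pool.Agent.Lib.MP_d610d0_nt.CA.LC.P.LB

set_option autoImplicit false

/-!
Project CA, section FP: large conductors for boxes with a small first prime, uniformly in the box (proof as in
`CA/LC/P/LB.lean`).
-/

namespace Pool.Agent.CA.FP

open Finset Filter
open Pool.Agent.MP89da58 (tri primChars)
open Pool.Agent.CH (wJ wL)
open Pool.Agent.CH.D (xj Sf R_spc)
open Pool.Agent.CA.LC

/-- **CA LC LB.** Large conductors for boxes of primes. -/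
theorem LBs_core (hLBa : R_LBa) (hcmp : R_cmpS) (hdya : R_dya) (hbxp : R_bxp) (hcof : R_cof)
    (hspc : R_spc) (k A : ℕ) (hk5 : 5 ≤ k) : ∃ B : ℕ, ∀ᶠ J : ℕ in atTop, ∀ R : ℕ,
    (Real.log J) ^ B ≤ (R : ℝ) → (R : ℝ) ≤ (J : ℝ) ^ (4998 / 10000 : ℝ) → ∀ j ∈ Ioc J (2 * J),
    ∀ lo hi : Fin k → ℝ, (∀ i, (J : ℝ) ^ (1 / 12 : ℝ) ≤ lo i) →
    (∀ i, (∀ l, (J : ℝ) ^ (1 / 12 : ℝ) ≤ 2 * hi l) → 2 * hi i ≤ 4 * (J : ℝ) ^ (192 / 100 : ℝ)) →
    ∑ p ∈ primChars R, ‖Sf (fun n => bx k lo hi n) J j p.2‖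
      ≤ (R : ℝ) * (J : ℝ) ^ 2 / (Real.log J) ^ A := by
  obtain ⟨B, hB⟩ := hLBa k (A + (k + 1)) (1 / 1000) (by norm_num)
  refine ⟨B, ?_⟩
  have hL : Tendsto (fun J : ℕ => Real.log (J : ℝ)) atTop atTop :=
    Real.tendsto_log_atTop.comp tendsto_natCast_atTop_atTop
  filter_upwards [hB, LB_log k, eventually_ge_atTop 2,
    hL.eventually_ge_atTop (max 1 (1000 * ((k + 1) * Real.log 2 + Real.log 27)))]
    with J hJB hlog hJ2 hJL R hR1 hR2 j hj lo hi hlo hhi
  have hJ0 : (0 : ℝ) < J := by positivity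
  have hJ1 : (1 : ℝ) < J := by exact_mod_cast (show 1 < J by omega)
  have hL1 : (1 : ℝ) ≤ Real.log J := (le_max_left _ _).trans hJL
  have hL2 : 1000 * ((k + 1) * Real.log 2 + Real.log 27) ≤ Real.log J := (le_max_right _ _).trans hJL
  have hL0 : (0 : ℝ) < Real.log J := by linarith
  have hlog2 : 0 < Real.log 2 := Real.log_pos (by norm_num)
  have hlog27 : 0 < Real.log 27 := Real.log_pos (by norm_num)
  set X : ℕ := 27 * J ^ 3 with hXdef
  set f : Fin k → ArithmeticFunction ℂ := fun i => LB_f (lo i) (hi i) X with hf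
  set w : (Σ q, DirichletCharacter ℂ q) → ℕ → ℂ :=
    fun p n => p.2 (n : ZMod p.1) * (wJ J j n : ℂ) with hw
  -- the sum in terms of the product
  have hS : ∀ p : (Σ q, DirichletCharacter ℂ q),
      Sf (fun n => bx k lo hi n) J j p.2 = ∑ n ∈ Icc 1 X, (∏ i, f i) n * w p n := by
    intro p
    rw [Sf]
    refine sum_congr rfl fun n hn => ?_
    obtain ⟨hn1, hn2⟩ := mem_Icc.1 hn
    rw [hbxp k lo hi n hn1]
    have h1 : (∏ i, pI (lo i) (hi i)) n = (∏ i, f i) n := by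
      refine LB_prod_congr Finset.univ _ _ X (fun i _ m hm => ?_) n hn2
      rw [hf]
      show pI (lo i) (hi i) m = LB_f (lo i) (hi i) X m
      rw [LB_f_apply, if_pos hm]
    rw [h1, hw, mul_assoc]
  simp_rw [hS]
  have hK0 : (0 : ℝ) ≤ (R : ℝ) * (J : ℝ) ^ 2 / (Real.log J) ^ (A + (k + 1)) := by positivity
  have hmain : ∀ e : Fin k → ℕ, ∑ p ∈ primChars R,
      ‖∑ n ∈ Icc 1 X, (∏ i, cut (f i) (e i)) n * w p n‖
        ≤ (R : ℝ) * (J : ℝ) ^ 2 / (Real.log J) ^ (A + (k + 1)) := by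
    intro e
    -- if all terms vanish
    have hzero : (∀ n ∈ Icc 1 X, (∏ i, cut (f i) (e i)) n ≠ 0 → (wJ J j n : ℂ) = 0) →
        ∑ p ∈ primChars R, ‖∑ n ∈ Icc 1 X, (∏ i, cut (f i) (e i)) n * w p n‖
          ≤ (R : ℝ) * (J : ℝ) ^ 2 / (Real.log J) ^ (A + (k + 1)) := by
      intro h
      rw [sum_eq_zero]
      · exact hK0
      · intro p _
        rw [norm_eq_zero]
        refine sum_eq_zero fun n hn => ?_
        by_cases h1 : (∏ i, cut (f i) (e i)) n = 0
        · rw [h1, zero_mul]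
        · rw [hw]
          show _ * (p.2 (n : ZMod p.1) * (wJ J j n : ℂ)) = 0
          rw [h n hn h1, mul_zero, mul_zero]
    set N : Fin k → ℝ := fun i => 2 ^ (e i + 1) with hN
    have hbd : ∀ i, Bd (cut (f i) (e i)) (N i) := fun i => LB_bd _ _ _ _
    obtain ⟨C, hC⟩ := hcof k
    have hsup := (hC (fun i => cut (f i) (e i)) N hbd Finset.univ).2.1
    by_cases hc1 : ∃ i, cut (f i) (e i) = 0
    · obtain ⟨i, hi0⟩ := hc1
      refine hzero fun n _ h => absurd ?_ h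
      rw [prod_eq_zero (mem_univ i) hi0]
      rfl
    push Not at hc1
    by_cases hc2 : 2 ^ (k + 1) * ∏ i, N i < (J : ℝ) ^ 3
    · refine hzero fun n hn h => ?_
      have h1 := (hsup n h).2
      by_contra hne
      have hne' : wJ J j n ≠ 0 := fun h0 => hne (by rw [h0]; norm_num)
      have h2 := ((hspc J (by omega)).2.1 j hj n (mem_Icc.1 hn).1 hne').1
      have h3 : J ^ 3 < n := lt_of_le_of_lt (Nat.pow_le_pow_left (mem_Ioc.1 hj).1.le 3) h2
      have h4 : ((J : ℝ) ^ 3) < n := by exact_mod_cast h3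
      have h5 : (0 : ℝ) < n := by linarith [pow_pos hJ0 3]
      have h6 : (2 : ℝ) ^ (k + 1) * ∏ i, N i = 2 * (2 ^ k * ∏ i, N i) := by ring
      linarith
    push Not at hc2
    by_cases hc3 : 2 ^ k * (27 * (J : ℝ) ^ 3) < ∏ i, N i
    · refine hzero fun n hn h => ?_
      have h1 := (hsup n h).1
      have h2 : ((n : ℕ) : ℝ) ≤ 27 * (J : ℝ) ^ 3 := by
        have := (mem_Icc.1 hn).2
        rw [hXdef] at this
        exact_mod_cast this
      have h3 : (2 : ℝ) ^ k * (n : ℝ) ≤ 2 ^ k * (27 * (J : ℝ) ^ 3) := by gcongr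
      linarith
    push Not at hc3
    -- the main case
    have hNpos : ∀ i, 0 < N i := fun i => by rw [hN]; positivity
    set t : Fin k → ℝ := fun i => Real.log (N i) / Real.log J with ht
    have hJt : ∀ S : Finset (Fin k), (J : ℝ) ^ (∑ i ∈ S, t i) = ∏ i ∈ S, N i := by
      intro S
      rw [Real.rpow_def_of_pos hJ0, mul_sum, Real.exp_sum]
      refine prod_congr rfl fun i _ => ?_
      rw [ht]
      show Real.exp (Real.log J * (Real.log (N i) / Real.log J)) = N i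
      rw [mul_div_cancel₀ _ hL0.ne', Real.exp_log (hNpos i)]
    have hsum : ∑ i, t i = Real.log (∏ i, N i) / Real.log J := by
      rw [Real.log_prod (fun i _ => (hNpos i).ne'), sum_div]
    have hprod0 : 0 < ∏ i, N i := prod_pos fun i _ => hNpos i
    have ht1 : ∀ i, 1 / 13 ≤ t i := by
      intro i
      have h1 := (LB_ne _ _ _ _ (hc1 i)).1
      have h2 : (J : ℝ) ^ (1 / 12 : ℝ) ≤ N i := (hlo i).trans h1
      have h3 := Real.log_le_log (Real.rpow_pos_of_pos hJ0 _) h2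
      rw [Real.log_rpow hJ0] at h3
      rw [ht]
      show 1 / 13 ≤ Real.log (N i) / Real.log J
      rw [le_div_iff₀ hL0]
      linarith
    have ht2 : ∀ i, t i ≤ 193 / 100 := by
      intro i
      have h1 := (LB_ne _ _ _ _ (hc1 i)).2
      have h2 : N i ≤ 4 * (J : ℝ) ^ (192 / 100 : ℝ) := h1.trans (hhi i (fun l =>
        (hlo l).trans ((LB_ne _ _ _ _ (hc1 l)).1.trans (LB_ne _ _ _ _ (hc1 l)).2)))
      have h3 := Real.log_le_log (hNpos i) h2
      rw [Real.log_mul (by norm_num) (Real.rpow_pos_of_pos hJ0 _).ne', Real.log_rpow hJ0] at h3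
      rw [ht]
      show Real.log (N i) / Real.log J ≤ _
      rw [div_le_iff₀ hL0]
      have hk0 : (5 : ℝ) ≤ k := by exact_mod_cast hk5
      have h4 : Real.log 4 = 2 * Real.log 2 := by
        rw [show (4 : ℝ) = 2 ^ 2 by norm_num, Real.log_pow]
        norm_num
      have h5 : 5 * Real.log 2 ≤ k * Real.log 2 := mul_le_mul_of_nonneg_right hk0 hlog2.le
      linarith
    have hs1 : 3 - 1 / 1000 ≤ ∑ i, t i := by
      rw [hsum, le_div_iff₀ hL0]
      have h3 := Real.log_le_log (by positivity) hc2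
      rw [Real.log_pow, Real.log_mul (by positivity) hprod0.ne', Real.log_pow] at h3
      push_cast at h3
      nlinarith
    have hs2 : ∑ i, t i ≤ 3 + 1 / 1000 := by
      rw [hsum, div_le_iff₀ hL0]
      have h3 := Real.log_le_log hprod0 hc3
      rw [Real.log_mul (by positivity) (by positivity), Real.log_mul (by norm_num) (by positivity),
        Real.log_pow, Real.log_pow] at h3
      push_cast at h3
      nlinarith
    obtain ⟨S, hS1, hS2⟩ := hcmp k t hk5 ht1 ht2 hs1 hs2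
    have hlba := hJB R hR1 hR2 j hj (fun i => cut (f i) (e i)) N hbd hc3 S
      (by
        rw [← hJt]
        exact Real.rpow_le_rpow_of_exponent_le hJ1.le hS1)
      (by
        rw [← hJt]
        exact Real.rpow_le_rpow_of_exponent_le hJ1.le hS2)
    refine le_trans (le_of_eq ?_) hlba
    refine sum_congr rfl fun p _ => ?_
    rw [Wf]
    refine congrArg _ (sum_congr rfl fun n _ => ?_)
    rw [hw, mul_assoc]
  have hfs : ∀ i n, f i n ≠ 0 → n ≤ X := by
    intro i n h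
    by_contra hcon
    apply h
    rw [hf]
    show LB_f (lo i) (hi i) X n = 0
    rw [LB_f_apply, if_neg hcon]
  refine (hdya k X _ (primChars R) w _ f hK0 hfs hmain).trans ?_
  calc ((Nat.log 2 X + 1 : ℕ) : ℝ) ^ k * ((R : ℝ) * (J : ℝ) ^ 2 / (Real.log J) ^ (A + (k + 1)))
      ≤ (Real.log J) ^ (k + 1) * ((R : ℝ) * (J : ℝ) ^ 2 / (Real.log J) ^ (A + (k + 1))) := by
        gcongr
    _ = (R : ℝ) * (J : ℝ) ^ 2 / (Real.log J) ^ A := by
        rw [pow_add (Real.log J) A (k + 1)]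
        field_simp



theorem p_LS (hLBa : R_LBa) (hcmp : R_cmpS) (hdya : R_dya) (hbxp : R_bxp) (hcof : R_cof)
    (hspc : R_spc) : I_LS := by
  intro k A hk
  obtain ⟨B, hB⟩ := LBs_core hLBa hcmp hdya hbxp hcof hspc (k + 1) A (by omega)
  refine ⟨B, ?_⟩
  filter_upwards [hB, eventually_ge_atTop 2] with J hJ hJ2 R hR1 hR2 j hj lo hi hbox
  have hJ1 : (1 : ℝ) ≤ J := by exact_mod_cast (show 1 ≤ J by omega)
  have hJ0 : (0 : ℝ) < J := by linarith
  refine hJ R hR1 hR2 j hj lo hi ?_ ?_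
  · intro i
    refine Fin.cases hbox.lo0 (fun i => ?_) i
    exact (Real.rpow_le_rpow_of_exponent_le hJ1 (by norm_num)).trans (hbox.lo1 i)
  · intro i hl
    refine Fin.cases ?_ (fun i => ?_) i
    · have h1 := hbox.hi0
      have h2 : (J : ℝ) ^ (7 / 22 : ℝ) ≤ (J : ℝ) ^ (192 / 100 : ℝ) :=
        Real.rpow_le_rpow_of_exponent_le hJ1 (by norm_num)
      have h3 : 0 < (J : ℝ) ^ (192 / 100 : ℝ) := Real.rpow_pos_of_pos hJ0 _
      linarith
    · have h1 := hbox.hi1 i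
      have h2 := hl 0
      have h3 : 0 < (J : ℝ) ^ (1 / 12 : ℝ) := Real.rpow_pos_of_pos hJ0 _
      have h4 : (J : ℝ) ^ (2 - 1 / 1000 : ℝ) ≤ (J : ℝ) ^ (1 / 12 : ℝ) * (J : ℝ) ^ (192 / 100 : ℝ) := by
        rw [← Real.rpow_add hJ0]
        exact Real.rpow_le_rpow_of_exponent_le hJ1 (by norm_num)
      by_contra hcon
      push Not at hcon
      have h5 : (J : ℝ) ^ (1 / 12 : ℝ) * (2 * (J : ℝ) ^ (192 / 100 : ℝ)) < 2 * hi 0 * hi i.succ := by
        have h6 : 2 * (J : ℝ) ^ (192 / 100 : ℝ) < hi i.succ := by linarith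
        have h7 : 0 < (J : ℝ) ^ (192 / 100 : ℝ) := Real.rpow_pos_of_pos hJ0 _
        calc (J : ℝ) ^ (1 / 12 : ℝ) * (2 * (J : ℝ) ^ (192 / 100 : ℝ))
            < (J : ℝ) ^ (1 / 12 : ℝ) * hi i.succ := by gcongr
          _ ≤ 2 * hi 0 * hi i.succ := by
              apply mul_le_mul_of_nonneg_right h2
              linarith
      nlinarith

end Pool.Agent.CA.FP
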