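import Pool.Agent.Lib.MP_d610d0_nt.CA.FP.Stm
import Pool.Agent.Lib.MP_d610d0_nt.CH.S.P.tel
import Pool.Agent.Lib.MP_d610d0_nt.Mert
import Pool.Agent.Lib.MP_d610d0_nt.Mert2

set_option autoImplicit false

/-!
Project CA, section FP, piece VA: the lower bound for `VV`.
-/

namespace Pool.Agent.CA.FP

open Finset Filter
open Pool.Agent.CH (VV)
open Pool.Agent.CH.S (Pr OP gd V)
open Pool.Agent.Lib.MP_d610d0_nt (Asum Asum_lower Asum_upper Pm mem_Pm tst tst_prime)

private theorem VA_mer_Asum_succ (k : ℕ) : Asum (k + 1) = Asum k +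
    (if (k + 1).Prime then Real.log ((k + 1 : ℕ) : ℝ) / (((k + 1 : ℕ) : ℝ) - 1) else 0) := by
  unfold Asum
  have h : Pm (k + 1) = if (k + 1).Prime then insert (k + 1) (Pm k) else Pm k := by
    ext p
    split_ifs with hc
    · rw [Finset.mem_insert, mem_Pm, mem_Pm]
      constructor
      · rintro ⟨h1, h2⟩
        rcases Nat.eq_or_lt_of_le h1 with h4 | h4
        · left; exact h4
        · right; exact ⟨by omega, h2⟩
      · rintro (h4 | ⟨h1, h2⟩)
        · subst h4; exact ⟨le_rfl, hc⟩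
        · exact ⟨by omega, h2⟩
    · rw [mem_Pm, mem_Pm]
      constructor
      · rintro ⟨h1, h2⟩
        rcases Nat.eq_or_lt_of_le h1 with h4 | h4
        · subst h4; exact absurd h2 hc
        · exact ⟨by omega, h2⟩
      · rintro ⟨h1, h2⟩
        exact ⟨by omega, h2⟩
  rw [h]
  split_ifs with hc
  · rw [Finset.sum_insert, add_comm]
    intro hm
    have := (mem_Pm.mp hm).1
    omega
  · ring

private theorem VA_mer_Pr_self (n : ℕ) : Pr n n = ∅ := by
  unfold Pr
  ext p
  simp only [mem_filter, mem_range, notMem_empty, iff_false]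
  rintro ⟨h1, -, h2⟩
  omega

private theorem VA_mer_Pr_succ (n k : ℕ) (h : n ≤ k) :
    Pr n (k + 1) = if k.Prime then insert k (Pr n k) else Pr n k := by
  unfold Pr
  ext p
  split_ifs with hc
  · simp only [mem_filter, mem_range, mem_insert]
    constructor
    · rintro ⟨h1, h2, h3⟩
      rcases Nat.lt_succ_iff_lt_or_eq.1 h1 with h4 | h4
      · right; exact ⟨h4, h2, h3⟩
      · left; exact h4
    · rintro (h4 | ⟨h1, h2, h3⟩)
      · subst h4; exact ⟨by omega, hc, h⟩
      · exact ⟨by omega, h2, h3⟩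
  · simp only [mem_filter, mem_range]
    constructor
    · rintro ⟨h1, h2, h3⟩
      rcases Nat.lt_succ_iff_lt_or_eq.1 h1 with h4 | h4
      · exact ⟨h4, h2, h3⟩
      · subst h4; exact absurd h2 hc
    · rintro ⟨h1, h2, h3⟩
      exact ⟨by omega, h2, h3⟩

private theorem VA_mer_not_mem (n k : ℕ) : k ∉ Pr n k := by
  unfold Pr
  simp

/-- the sum of `gd` -/
private theorem VA_mer_S (n : ℕ) (hn : 4000 ≤ n) (k : ℕ) (hk : n ≤ k) :
    ∑ p ∈ Pr (n + 1) (k + 1), gd p + (1 - (Asum k - Real.log k)) / Real.log k ≤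
      Real.log (Real.log k) - Real.log (Real.log n) + 2 / Real.log n := by
  induction k, hk using Nat.le_induction with
  | base =>
    have hln : 0 < Real.log n := Real.log_pos (by exact_mod_cast (by omega : 1 < n))
    rw [VA_mer_Pr_self, sum_empty, zero_add, sub_self, zero_add]
    apply div_le_div_of_nonneg_right _ hln.le
    have h1 := Asum_lower n
    have h2 : Real.log n ≤ Real.log ((n : ℝ) + 1) := by
      apply Real.log_le_log
      · exact_mod_cast (by omega : 0 < n)
      · linarith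
    linarith
  | succ k hk ih =>
    have hk0 : (0 : ℝ) < k := by exact_mod_cast (by omega : 0 < k)
    have hlk : 0 < Real.log k := Real.log_pos (by exact_mod_cast (by omega : 1 < k))
    have hlk1 : 0 < Real.log ((k + 1 : ℕ) : ℝ) :=
      Real.log_pos (by exact_mod_cast (by omega : 1 < k + 1))
    have hlkk : Real.log k ≤ Real.log ((k + 1 : ℕ) : ℝ) := by
      apply Real.log_le_log hk0
      push_cast; linarith
    have hE : 0 ≤ 1 - (Asum k - Real.log k) := by
      have := Asum_upper (m := k) (by omega)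
      linarith
    -- the increment
    have hS : ∑ p ∈ Pr (n + 1) (k + 1 + 1), gd p = ∑ p ∈ Pr (n + 1) (k + 1), gd p +
        (Asum (k + 1) - Asum k) / Real.log ((k + 1 : ℕ) : ℝ) := by
      rw [VA_mer_Pr_succ (n + 1) (k + 1) (by omega), VA_mer_Asum_succ]
      split_ifs with hc
      · rw [sum_insert (VA_mer_not_mem _ _)]
        unfold gd
        have : ((k + 1 : ℕ) : ℝ) - 1 ≠ 0 := by
          push_cast
          have := hk0.ne'
          simpa using this
        field_simp
        ring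
      · simp
    rw [hS]
    have h1 : (1 - (Asum k - Real.log k)) / Real.log ((k + 1 : ℕ) : ℝ) ≤
        (1 - (Asum k - Real.log k)) / Real.log k :=
      div_le_div_of_nonneg_left hE hlk hlkk
    have h2 : (Asum (k + 1) - Asum k) / Real.log ((k + 1 : ℕ) : ℝ) +
        (1 - (Asum (k + 1) - Real.log ((k + 1 : ℕ) : ℝ))) / Real.log ((k + 1 : ℕ) : ℝ) =
        (1 - (Asum k - Real.log k)) / Real.log ((k + 1 : ℕ) : ℝ) +
          (1 - Real.log k / Real.log ((k + 1 : ℕ) : ℝ)) := by
      field_simp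
      ring
    have h3 : 1 - Real.log k / Real.log ((k + 1 : ℕ) : ℝ) ≤
        Real.log (Real.log ((k + 1 : ℕ) : ℝ)) - Real.log (Real.log k) := by
      have h4 := Real.log_le_sub_one_of_pos (div_pos hlk hlk1)
      rw [Real.log_div hlk.ne' hlk1.ne'] at h4
      linarith
    linarith

/-- the product -/
private theorem VA_mer_V (n : ℕ) (hn : 3 ≤ n) (k : ℕ) (hk : n ≤ k) :
    0 < V (n + 1) (k + 1) ∧ -Real.log (V (n + 1) (k + 1)) ≤
      ∑ p ∈ Pr (n + 1) (k + 1), gd p + (1 / ((n : ℝ) - 1) - 1 / ((k : ℝ) - 1)) := by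
  induction k, hk using Nat.le_induction with
  | base =>
    unfold V
    rw [VA_mer_Pr_self, sum_empty, prod_empty]
    simp
  | succ k hk ih =>
    have hk3 : (3 : ℝ) ≤ k := by exact_mod_cast (by omega : 3 ≤ k)
    obtain ⟨ih1, ih2⟩ := ih
    unfold V at ih1 ih2 ⊢
    rw [VA_mer_Pr_succ (n + 1) (k + 1) (by omega)]
    have hd : 1 / ((k : ℝ) - 1) - 1 / (((k + 1 : ℕ) : ℝ) - 1) =
        1 / ((k : ℝ) - 1) - 1 / k := by
      push_cast
      rw [add_sub_cancel_right]
    have hd0 : 1 / (k : ℝ) ≤ 1 / ((k : ℝ) - 1) :=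
      one_div_le_one_div_of_le (by linarith) (by linarith)
    split_ifs with hc
    · rw [sum_insert (VA_mer_not_mem _ _), prod_insert (VA_mer_not_mem _ _)]
      have hg : 1 - gd (k + 1) = ((k : ℝ) - 1) / k := by
        unfold gd
        push_cast
        rw [add_sub_cancel_right]
        field_simp
      have hgp : 0 < 1 - gd (k + 1) := by
        rw [hg]; exact div_pos (by linarith) (by linarith)
      have hgv : gd (k + 1) = 1 / (k : ℝ) := by
        unfold gd
        push_cast
        rw [add_sub_cancel_right]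
      refine ⟨mul_pos hgp ih1, ?_⟩
      rw [Real.log_mul hgp.ne' ih1.ne']
      have h1 : -Real.log (1 - gd (k + 1)) ≤ 1 / ((k : ℝ) - 1) := by
        rw [← Real.log_inv, hg, inv_div]
        have h2 := Real.log_le_sub_one_of_pos (x := (k : ℝ) / ((k : ℝ) - 1))
          (div_pos (by linarith) (by linarith))
        have h3 : (k : ℝ) / ((k : ℝ) - 1) - 1 = 1 / ((k : ℝ) - 1) := by
          have : (k : ℝ) - 1 ≠ 0 := by linarith
          field_simp
          ring
        linarith
      linarith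
    · refine ⟨ih1, ?_⟩
      linarith

/-! ### The primes up to 4000 -/

/-- one step of the loop -/
def VA_st (n a : ℕ) : ℕ := cond (tst n) (a * (n - 2) / (n - 1)) a

/-- the loop -/
def VA_loop : ℕ → ℕ → ℕ → Bool
  | 0, _, a => Nat.ble 88000000000 a
  | f + 1, n, a => cond (Nat.ble 1 (VA_st n a)) (VA_loop f (n + 1) (VA_st n a)) false

/-- the product over the odd primes up to `n` -/
noncomputable def VA_Q (n : ℕ) : ℝ := ∏ p ∈ OP n, (1 - gd p)

private theorem VA_OP_succ (k : ℕ) (hk : 2 ≤ k) :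
    OP (k + 1) = if (k + 1).Prime then insert (k + 1) (OP k) else OP k := by
  unfold OP
  ext p
  split_ifs with hc
  · simp only [mem_filter, mem_range, mem_insert]
    constructor
    · rintro ⟨h1, h2, h3⟩
      rcases Nat.lt_succ_iff_lt_or_eq.1 h1 with h4 | h4
      · right; exact ⟨h4, h2, h3⟩
      · left; exact h4
    · rintro (h4 | ⟨h1, h2, h3⟩)
      · subst h4; exact ⟨by omega, hc, by omega⟩
      · exact ⟨by omega, h2, h3⟩
  · simp only [mem_filter, mem_range]
    constructor
    · rintro ⟨h1, h2, h3⟩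
      rcases Nat.lt_succ_iff_lt_or_eq.1 h1 with h4 | h4
      · exact ⟨h4, h2, h3⟩
      · subst h4; exact absurd h2 hc
    · rintro ⟨h1, h2, h3⟩
      exact ⟨by omega, h2, h3⟩

private theorem VA_Q_succ (k : ℕ) (hk : 2 ≤ k) :
    VA_Q (k + 1) = if (k + 1).Prime then (1 - gd (k + 1)) * VA_Q k else VA_Q k := by
  unfold VA_Q
  rw [VA_OP_succ k hk]
  split_ifs with hc
  · rw [prod_insert]
    unfold OP
    simp
  · rfl

private theorem VA_Q_two : VA_Q 2 = 1 := by
  unfold VA_Q
  have : OP 2 = ∅ := by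
    unfold OP
    ext p
    simp only [mem_filter, mem_range, notMem_empty, iff_false]
    rintro ⟨h1, -, h2⟩
    omega
  rw [this, prod_empty]

private theorem VA_gd (k : ℕ) (hk : 2 ≤ k) :
    0 ≤ 1 - gd (k + 1) ∧ 1 - gd (k + 1) ≤ 1 ∧ 1 - gd (k + 1) = ((k : ℝ) - 1) / k := by
  have hk' : (2 : ℝ) ≤ k := by exact_mod_cast hk
  have h1 : 1 - gd (k + 1) = ((k : ℝ) - 1) / k := by
    unfold gd
    push_cast
    rw [add_sub_cancel_right]
    field_simp
  refine ⟨?_, ?_, h1⟩
  · rw [h1]
    exact div_nonneg (by linarith) (by linarith)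
  · unfold gd
    push_cast
    rw [add_sub_cancel_right]
    have : 0 ≤ 1 / (k : ℝ) := by positivity
    linarith

private theorem VA_st_le (k a : ℕ) (hk : 2 ≤ k) (h : (a : ℝ) ≤ 1000000000000 * VA_Q k) :
    ((VA_st (k + 1) a : ℕ) : ℝ) ≤ 1000000000000 * VA_Q (k + 1) := by
  have hk' : (2 : ℝ) ≤ k := by exact_mod_cast hk
  obtain ⟨g1, g2, g3⟩ := VA_gd k hk
  have hst : ((a * (k + 1 - 2) / (k + 1 - 1) : ℕ) : ℝ) ≤ a * (1 - gd (k + 1)) := by
    have e1 : k + 1 - 1 = k := by omega
    have e2 : k + 1 - 2 = k - 1 := by omega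
    rw [e1, e2]
    refine (Nat.cast_div_le).trans (le_of_eq ?_)
    rw [g3, Nat.cast_mul, Nat.cast_sub (by omega)]
    push_cast
    ring
  rw [VA_Q_succ k hk]
  split_ifs with hc
  · have h1 : VA_st (k + 1) a = a * (k + 1 - 2) / (k + 1 - 1) := by
      unfold VA_st
      rw [tst_prime hc]
      rfl
    rw [h1]
    refine hst.trans ?_
    have := mul_le_mul_of_nonneg_right h g1
    linarith
  · have h2 : ((VA_st (k + 1) a : ℕ) : ℝ) ≤ a := by
      unfold VA_st
      cases tst (k + 1)
      · exact le_rfl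
      · refine hst.trans ?_
        have h3 : (0 : ℝ) ≤ a := Nat.cast_nonneg a
        nlinarith
    exact h2.trans h

private theorem VA_loop_spec (f : ℕ) : ∀ k a : ℕ, 2 ≤ k → (a : ℝ) ≤ 1000000000000 * VA_Q k →
    VA_loop f (k + 1) a = true → (88000000000 : ℝ) ≤ 1000000000000 * VA_Q (k + f) := by
  induction f with
  | zero =>
    intro k a _ h hl
    have h1 : 88000000000 ≤ a := Nat.le_of_ble_eq_true hl
    have h2 : (88000000000 : ℝ) ≤ a := by exact_mod_cast h1
    exact h2.trans h
  | succ f ih =>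
    intro k a hk h hl
    have e : VA_loop (f + 1) (k + 1) a =
        cond (Nat.ble 1 (VA_st (k + 1) a)) (VA_loop f (k + 1 + 1) (VA_st (k + 1) a)) false := rfl
    have h1 : Nat.ble 1 (VA_st (k + 1) a) = true := by
      by_contra hcon
      rw [Bool.not_eq_true] at hcon
      rw [e, hcon] at hl
      exact Bool.noConfusion hl
    rw [e, h1] at hl
    have h2 := ih (k + 1) (VA_st (k + 1) a) (by omega) (VA_st_le k a hk h) hl
    have e2 : k + 1 + f = k + (f + 1) := by omega
    rwa [e2] at h2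

private theorem VA_check : VA_loop 3998 3 1000000000000 = true := by decide +kernel

private theorem VA_prod : (0.088 : ℝ) ≤ ∏ p ∈ OP 4000, (1 - gd p) := by
  have h := VA_loop_spec 3998 2 1000000000000 le_rfl (by rw [VA_Q_two]; norm_num) VA_check
  have e : VA_Q (2 + 3998) = ∏ p ∈ OP 4000, (1 - gd p) := rfl
  rw [e] at h
  linarith


theorem p_VA : S_VA := by
  unfold S_VA R_VA
  filter_upwards [eventually_ge_atTop (⌈Real.exp 3000⌉₊ + 1)] with J hJ
  have hJe : Real.exp 3000 ≤ J := by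
    refine (Nat.le_ceil _).trans ?_
    exact_mod_cast (show ⌈Real.exp 3000⌉₊ ≤ J by omega)
  have hJ0 : (0 : ℝ) < J := lt_of_lt_of_le (Real.exp_pos _) hJe
  have hL : 3000 ≤ Real.log J := (Real.le_log_iff_exp_le hJ0).mpr hJe
  have hz0 : 0 < za J := by
    unfold za
    positivity
  have hzlog : Real.log (za J) = Real.log J / 11 := by
    unfold za
    rw [Real.log_rpow hJ0]
    ring
  set z : ℝ := za J with hz
  have hlz : 187 ≤ Real.log z := by linarith
  -- `4096 ≤ z`
  have h4096 : Real.log 4096 = 12 * Real.log 2 := by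
    rw [show (4096 : ℝ) = 2 ^ (12 : ℕ) by norm_num, Real.log_pow]
    norm_num
  have hz4 : (4096 : ℝ) ≤ z := by
    rw [← Real.log_le_log_iff (by norm_num) hz0]
    have h2 := Real.log_two_lt_d9
    rw [h4096]
    linarith
  -- `8.29 ≤ log 4000`
  have h8 : 8.29 ≤ Real.log 4000 := by
    have h1 := Real.log_le_sub_one_of_pos (show (0 : ℝ) < 4096 / 4000 by norm_num)
    rw [Real.log_div (by norm_num) (by norm_num), h4096] at h1
    have h2 := Real.log_two_gt_d9
    linarith
  obtain ⟨-, -, -, -, t5⟩ := Pool.Agent.CH.S.p_tel 4001 (by norm_num)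
  have h5 : VV z = (∏ p ∈ OP 4000, (1 - gd p)) * V (4000 + 1) ⌈z⌉₊ :=
    t5 4000 z (by norm_num) (by push_cast; linarith)
  obtain ⟨k, hk⟩ : ∃ k, ⌈z⌉₊ = k + 1 := ⟨⌈z⌉₊ - 1, by
    have : 0 < ⌈z⌉₊ := Nat.ceil_pos.2 hz0
    omega⟩
  have hkz : (k : ℝ) < z := Nat.lt_ceil.1 (by omega)
  have hk4 : 4000 ≤ k := by
    have h6 : ((4096 : ℕ) : ℝ) ≤ (⌈z⌉₊ : ℝ) := by
      push_cast
      exact hz4.trans (Nat.le_ceil z)
    have h7 : 4096 ≤ ⌈z⌉₊ := by exact_mod_cast h6
    omega
  have hk4' : (4000 : ℝ) ≤ k := by exact_mod_cast hk4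
  have hlk : 0 < Real.log k := Real.log_pos (by linarith)
  have hS := VA_mer_S 4000 le_rfl k hk4
  obtain ⟨hV0, hV⟩ := VA_mer_V 4000 (by norm_num) k hk4
  have hE : 0 ≤ (1 - (Asum k - Real.log k)) / Real.log k := by
    apply div_nonneg _ hlk.le
    have := Asum_upper (m := k) hk4
    linarith
  have hllw : Real.log (Real.log k) ≤ Real.log (Real.log z) :=
    Real.log_le_log hlk (Real.log_le_log (by linarith) hkz.le)
  have h1k : 0 ≤ 1 / ((k : ℝ) - 1) := div_nonneg zero_le_one (by linarith)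
  push_cast at hS hV
  have h24 : 2 / Real.log 4000 ≤ 0.2413 := by
    rw [div_le_iff₀ (by linarith)]
    linarith
  have h1 : -Real.log (V (4000 + 1) (k + 1)) ≤
      Real.log (Real.log z) - Real.log (Real.log 4000) + 0.2416 := by
    have h6 : 1 / ((4000 : ℝ) - 1) ≤ 0.0003 := by norm_num
    linarith
  have hlz0 : 0 < Real.log z := by linarith
  have hl4 : 0 < Real.log 4000 := by linarith
  have h9 : Real.log 4000 / Real.log z * Real.exp (-0.2416) ≤ V (4000 + 1) (k + 1) := by
    rw [← Real.log_le_log_iff (by positivity) hV0,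
      Real.log_mul (by positivity) (Real.exp_pos _).ne', Real.log_div hl4.ne' hlz0.ne',
      Real.log_exp]
    linarith
  have h10 : (0.78 : ℝ) ≤ Real.exp (-0.2416) := by
    have h11 := Real.add_one_le_exp (-0.0302 : ℝ)
    have h12 : ((-0.0302 : ℝ) + 1) ^ 8 ≤ Real.exp (-0.0302) ^ 8 :=
      pow_le_pow_left₀ (by norm_num) h11 8
    rw [← Real.exp_nat_mul] at h12
    have e : ((8 : ℕ) : ℝ) * (-0.0302) = -0.2416 := by norm_num
    rw [e] at h12
    refine le_trans ?_ h12
    norm_num
  have h11 : 8.29 / Real.log z * 0.78 ≤ V (4000 + 1) (k + 1) := by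
    refine le_trans ?_ h9
    gcongr
  rw [h5, hk]
  have h12 : 0.088 * (8.29 / Real.log z * 0.78) ≤
      (∏ p ∈ OP 4000, (1 - gd p)) * V (4000 + 1) (k + 1) :=
    mul_le_mul VA_prod h11 (by positivity) (le_trans (by norm_num) VA_prod)
  refine le_trans ?_ h12
  have h14 : 0.088 * (8.29 / Real.log z * 0.78) = 0.5690256 / Real.log z := by
    ring
  rw [h14, div_le_div_iff₀ (by linarith) hlz0, hzlog]
  linarith

end Pool.Agent.CA.FP
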