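import Pool.Agent.Lib.MP_d610d0_nt.CA.FP.Stm

set_option autoImplicit false

/-!
Project CA, section FP, piece WW: all the weights at once.
-/

namespace Pool.Agent.CA.FP

open Finset Filter

theorem p_WW : S_WW := by
  intro h
  have h1 := h (1 / 11) (4995 / 10000) (1 / 10000) (by norm_num) (by norm_num) (by norm_num)
  have h2 := h (3 / 16) (4995 / 10000) (1 / 10000) (by norm_num) (by norm_num) (by norm_num)
  have h3 : ∀ c ∈ Finset.range 224, ∀ᶠ J : ℕ in atTop, ∃ cp cm : ℕ → ℝ,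
      SWg (1 / 11) (4995 / 10000 - ((c : ℝ) + 1) / 704) (1 / 10000) J cp cm := by
    intro c hc
    have hc' : (c : ℝ) + 1 ≤ 224 := by
      have := Finset.mem_range.1 hc
      exact_mod_cast this
    exact h _ _ _ (by norm_num) (by linarith) (by norm_num)
  rw [← Filter.eventually_all_finset] at h3
  filter_upwards [h1, h2, h3] with J h1 h2 h3
  obtain ⟨cp, cm, h1⟩ := h1
  obtain ⟨cx, cy, h2⟩ := h2
  choose! cq cr h3 using h3
  exact ⟨cm, cx, cq, ⟨cp, h1⟩, ⟨cy, h2⟩, fun c _ hc => ⟨cr c, h3 c (Finset.mem_range.2 hc)⟩⟩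

end Pool.Agent.CA.FP
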