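import Pool.Agent.Lib.MP_d610d0_nt.CA.FP.Stm

set_option autoImplicit false

/-!
Project CA, section FP, piece bgA: the number of the primes `p` with a very large prime factor of `p + 2`.
Adapted from `CA/SV/p_bg.lean`.
-/

namespace Pool.Agent.CA.FP

open Finset Filter
open scoped ArithmeticFunction.Omega
open Pool.Agent.MP89da58 (tri)
open Pool.Agent.CH (zJ wJ wL Rough VV Wt dsum thP EE)
open Pool.Agent.CH.F (mu SW)
open Pool.Agent.CA.SV (Yc GS WS cl De Rc R_sel R_cls)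

open Classical in
/-- The primes `m` of the cofactor `e`. -/
private noncomputable def bgA_T (J j e : ℕ) : Finset ℕ :=
  (range (27 * J ^ 3 + 1)).filter (fun m : ℕ => m.Prime ∧ Rc J < m ∧
    ∃ p : ℕ, p.Prime ∧ p + 2 = e * m ∧ wJ J j p ≠ 0)

/-- the interval of the `m` -/
private theorem bgA_int {J j : ℕ} (hJ : 2500 ≤ J) {e : ℕ} (he : 1 ≤ e) :
    ∃ s N : ℕ, bgA_T J j e ⊆ Ico s (s + N) ∧ (N : ℝ) ≤ 2.0002 * mu J j / e + 2 := by
  classical
  have hJ0 : (0 : ℝ) < J := by exact_mod_cast (by omega : 0 < J)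
  have hJr : (2500 : ℝ) ≤ J := by exact_mod_cast hJ
  have he0 : (0 : ℝ) < e := by exact_mod_cast he
  set x : ℝ := ((j : ℝ) + 1 / 2) ^ 3 with hx
  have hx0 : 0 < x := by positivity
  set t : ℝ := 1 / (2 * J) with ht
  have ht0 : 0 < t := by positivity
  have ht1 : t ≤ 1 := by
    rw [ht, div_le_one (by positivity)]; linarith
  set a : ℝ := x * Real.exp (-t) with ha
  set b : ℝ := x * Real.exp t with hb
  have ha0 : 0 < a := by positivity
  have hab : a ≤ b := by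
    have : Real.exp (-t) ≤ Real.exp t := Real.exp_le_exp.2 (by linarith)
    exact mul_le_mul_of_nonneg_left this hx0.le
  have hba : b - a ≤ 2.0002 * mu J j := by
    have h1 : |Real.exp t - 1 - t| ≤ t ^ 2 := Real.abs_exp_sub_one_sub_id_le (by rw [abs_of_pos ht0]; exact ht1)
    have h2 : 1 - t ≤ Real.exp (-t) := by
      have := Real.add_one_le_exp (-t)
      linarith
    have h3 : Real.exp t - Real.exp (-t) ≤ 2 * t + t ^ 2 := by
      have := (abs_le.1 h1).2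
      linarith
    have h4 : t ^ 2 ≤ 0.0002 * t := by
      have : t ≤ 0.0002 := by
        rw [ht, div_le_iff₀ (by positivity)]; linarith
      nlinarith
    have h5 : mu J j = x * t := by
      unfold Pool.Agent.CH.F.mu
      rw [ht]; ring
    rw [h5, ha, hb]
    have h6 : x * Real.exp t - x * Real.exp (-t) = x * (Real.exp t - Real.exp (-t)) := by ring
    rw [h6]
    have h7 : Real.exp t - Real.exp (-t) ≤ 2.0002 * t := by linarith
    calc x * (Real.exp t - Real.exp (-t)) ≤ x * (2.0002 * t) :=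
          mul_le_mul_of_nonneg_left h7 hx0.le
      _ = 2.0002 * (x * t) := by ring
  refine ⟨⌊(a + 2) / e⌋₊, ⌈(b - a) / e⌉₊ + 1, ?_, ?_⟩
  · intro m hm
    unfold bgA_T at hm
    rw [mem_filter] at hm
    obtain ⟨-, hmp, -, p, hpp, hpe, hpw⟩ := hm
    have hp0 : (0 : ℝ) < p := by exact_mod_cast hpp.pos
    have h1 : |2 * (J : ℝ) * Real.log (p / x)| < 1 := by
      by_contra h
      apply hpw
      unfold wJ tri
      rw [max_eq_left]
      linarith [not_lt.1 h]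
    have h2 : |Real.log (p / x)| < t := by
      rw [abs_mul, abs_of_pos (by positivity : (0 : ℝ) < 2 * J)] at h1
      rw [ht, lt_div_iff₀ (by positivity)]
      linarith
    have h3 := abs_lt.1 h2
    have h4 : a < p := by
      have : Real.exp (-t) < p / x := (Real.lt_log_iff_exp_lt (by positivity)).1 h3.1
      rw [lt_div_iff₀ hx0] at this
      rw [ha]; linarith
    have h5 : (p : ℝ) < b := by
      have : p / x < Real.exp t := (Real.log_lt_iff_lt_exp (by positivity)).1 h3.2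
      rw [div_lt_iff₀ hx0] at this
      rw [hb]; linarith
    have h6 : (p : ℝ) + 2 = e * m := by exact_mod_cast hpe
    rw [mem_Ico]
    constructor
    · have : ((⌊(a + 2) / e⌋₊ : ℕ) : ℝ) ≤ m := by
        refine (Nat.floor_le (by positivity)).trans ?_
        rw [div_le_iff₀ he0]
        linarith
      exact_mod_cast this
    · have h7 : (m : ℝ) < (a + 2) / e + (b - a) / e := by
        rw [← add_div, lt_div_iff₀ he0]
        linarith
      have h8 : (a + 2) / e < (⌊(a + 2) / e⌋₊ : ℝ) + 1 := Nat.lt_floor_add_one _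
      have h9 : (b - a) / e ≤ (⌈(b - a) / e⌉₊ : ℝ) := Nat.le_ceil _
      have h10 : (m : ℝ) < ((⌊(a + 2) / e⌋₊ + (⌈(b - a) / e⌉₊ + 1) : ℕ) : ℝ) := by
        push_cast
        linarith
      exact_mod_cast h10
  · push_cast
    have h1 : (0 : ℝ) ≤ (b - a) / e := div_nonneg (by linarith) he0.le
    have h2 : (⌈(b - a) / e⌉₊ : ℝ) < (b - a) / e + 1 := Nat.ceil_lt_add_one h1
    have h3 : (b - a) / e ≤ 2.0002 * mu J j / e := div_le_div_of_nonneg_right hba he0.le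
    linarith

/-- the sieve for one cofactor -/
private theorem bgA_one (hwin : Pool.Agent.CH.F.S_win) (sel : R_sel) (cls : R_cls) :
    ∀ᶠ J : ℕ in atTop, ∀ j ∈ Ioc J (2 * J), ∀ e : ℕ, 1 ≤ e →
      0.0245 * Real.log J ^ 2 ≤ GS (cl e) (De e (Rc J)) →
      WS (cl e) (De e (Rc J)) ^ 2 ≤ (J : ℝ) ^ (645 / 1000 : ℝ) →
      ((bgA_T J j e).card : ℝ) ≤ (2.0002 * mu J j / e + 2) / (0.0245 * Real.log J ^ 2) +
        (J : ℝ) ^ (645 / 1000 : ℝ) := by
  classical
  have hLt : Tendsto (fun J : ℕ => Real.log J) atTop atTop :=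
    Real.tendsto_log_atTop.comp tendsto_natCast_atTop_atTop
  filter_upwards [eventually_ge_atTop 2500, hLt.eventually_ge_atTop 10] with J hJ hL j hj e he1 hG hW
  have hJ0 : (0 : ℝ) < J := by exact_mod_cast (by omega : 0 < J)
  have hJ1 : (1 : ℝ) < J := by exact_mod_cast (by omega : 1 < J)
  obtain ⟨s, N, hT, hN⟩ := bgA_int (j := j) hJ he1
  have hRY : ∀ q : ℕ, q ≤ Rc J → (q : ℝ) ≤ (J : ℝ) ^ (8 / 25 : ℝ) := by
    intro q hq
    exact le_trans (by exact_mod_cast hq) (Nat.floor_le (Real.rpow_nonneg hJ0.le _))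
  have hDe : ∀ r ∈ De e (Rc J), Squarefree r ∧ ∀ p ∈ r.primeFactors, p.Prime ∧ p ∣ r ∧ ¬ p ∣ e ∧
      p ≤ Rc J := by
    intro r hr
    unfold De at hr
    rw [mem_filter, mem_Icc] at hr
    obtain ⟨⟨hr1, hr2⟩, hrs, hrc⟩ := hr
    refine ⟨hrs, fun p hp => ?_⟩
    have hpp := Nat.prime_of_mem_primeFactors hp
    have hpd := Nat.dvd_of_mem_primeFactors hp
    refine ⟨hpp, hpd, fun hpe => ?_, (Nat.le_of_dvd hr1 hpd).trans hr2⟩
    exact hpp.one_lt.ne' (Nat.eq_one_of_dvd_coprimes hrc hpd hpe)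
  have key := sel (cl e) (De e (Rc J)) (fun r hr => ⟨(hDe r hr).1, fun p hp => ?_⟩)
    (bgA_T J j e) s N hT ?_
  · have hG1 : 1 ≤ 0.0245 * Real.log J ^ 2 := by nlinarith
    set G := GS (cl e) (De e (Rc J)) with hGd
    set g := 0.0245 * Real.log J ^ 2 with hg
    have hG0 : 0 < G := by linarith
    have hN0 : (0 : ℝ) ≤ N := Nat.cast_nonneg _
    have h1 : ((bgA_T J j e).card : ℝ) ≤ N / G + WS (cl e) (De e (Rc J)) ^ 2 / G ^ 2 := by
      have : N / G + WS (cl e) (De e (Rc J)) ^ 2 / G ^ 2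
          = (N * G + WS (cl e) (De e (Rc J)) ^ 2) / G ^ 2 := by
        field_simp
      rw [this, le_div_iff₀ (by positivity)]
      exact key
    have h2 : (N : ℝ) / G ≤ (2.0002 * mu J j / e + 2) / g :=
      div_le_div₀ (hN0.trans hN) hN (by linarith) hG
    have h3 : WS (cl e) (De e (Rc J)) ^ 2 / G ^ 2 ≤ (J : ℝ) ^ (645 / 1000 : ℝ) := by
      refine le_trans (div_le_self (sq_nonneg _) ?_) hW
      nlinarith
    linarith
  · obtain ⟨hpp, -, hpe, -⟩ := (hDe r hr).2 p hp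
    refine ⟨fun a ha => ?_, ?_⟩
    · unfold cl at ha
      exact mem_range.1 (mem_filter.1 ha).1
    · rw [cls e p hpp hpe]
      split_ifs with h
      · rw [h]; norm_num
      · have := hpp.two_le
        omega
  · intro m hm r hr q hq hmem
    obtain ⟨hqp, -, hqe, hqR⟩ := (hDe r hr).2 q hq
    unfold bgA_T at hm
    rw [mem_filter] at hm
    obtain ⟨-, hmp, hmY, p, hpp, hpe, hpw⟩ := hm
    have hqm : q ≠ m := by
      rintro rfl
      omega
    unfold cl at hmem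
    rw [mem_filter] at hmem
    rcases hmem.2 with h | h
    · have : q ∣ m := (Nat.dvd_mod_iff (dvd_refl q)).1 h
      exact hqm ((Nat.prime_dvd_prime_iff_eq hqp hmp).1 this)
    · have h1 : (q : ℤ) ∣ (e : ℤ) * m - 2 := by
        have h2 : ((m % q : ℕ) : ℤ) = (m : ℤ) % (q : ℤ) := by norm_cast
        have h3 : (q : ℤ) ∣ (m : ℤ) - ((m % q : ℕ) : ℤ) := by
          rw [h2]; exact Int.dvd_self_sub_emod
        have h4 : (e : ℤ) * m - 2 = ((e : ℤ) * ((m % q : ℕ) : ℤ) - 2) +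
            (e : ℤ) * ((m : ℤ) - ((m % q : ℕ) : ℤ)) := by ring
        rw [h4]
        exact dvd_add h (h3.mul_left _)
      have h5 : (e : ℤ) * m - 2 = (p : ℤ) := by
        have : (p : ℤ) + 2 = e * m := by exact_mod_cast hpe
        linarith
      rw [h5] at h1
      have h6 : q ∣ p := by exact_mod_cast h1
      have h7 : q = p := (Nat.prime_dvd_prime_iff_eq hqp hpp).1 h6
      -- `p > J^3`
      have h8 := ((hwin J (by omega) j hj).2.1 p hpp.one_lt.le hpw).2.2.1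
      have h9 : (q : ℝ) ≤ (J : ℝ) ^ (3 : ℕ) := by
        refine (hRY q hqR).trans ?_
        rw [← Real.rpow_natCast]
        exact Real.rpow_le_rpow_of_exponent_le hJ1.le (by norm_num)
      have h10 : q ≤ J ^ 3 := by exact_mod_cast h9
      omega

/-- the final comparison -/
private theorem bgA_end : ∀ᶠ J : ℕ in atTop,
    81 * (J : ℝ) ^ (1995 / 1000 : ℝ) ≤ 0.00001 * (J : ℝ) ^ 2 / Real.log J ^ 2 := by
  have h1 : (fun x : ℝ => Real.log x ^ (2 : ℝ)) =o[atTop] fun x : ℝ => x ^ (5 / 1000 : ℝ) :=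
    isLittleO_log_rpow_rpow_atTop 2 (by norm_num)
  have h2 := (h1.bound (by norm_num : (0 : ℝ) < 1 / 8100000))
  have h3 := (tendsto_natCast_atTop_atTop (R := ℝ)).eventually h2
  filter_upwards [h3, eventually_ge_atTop 3] with J hJ hJ3
  have hJ0 : (0 : ℝ) < J := by exact_mod_cast (by omega : 0 < J)
  have hJ1 : (1 : ℝ) < J := by exact_mod_cast (by omega : 1 < J)
  have hL : 0 < Real.log J := Real.log_pos hJ1
  rw [Real.norm_of_nonneg (by positivity), Real.norm_of_nonneg (by positivity)] at hJ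
  have h4 : Real.log J ^ 2 ≤ 1 / 8100000 * (J : ℝ) ^ (5 / 1000 : ℝ) := by
    have : Real.log (J : ℝ) ^ (2 : ℝ) = Real.log J ^ (2 : ℕ) := by
      rw [← Real.rpow_natCast]; norm_num
    rw [this] at hJ
    exact hJ
  rw [le_div_iff₀ (by positivity)]
  have h5 : (J : ℝ) ^ (2 : ℕ) = (J : ℝ) ^ (1995 / 1000 : ℝ) * (J : ℝ) ^ (5 / 1000 : ℝ) := by
    rw [← Real.rpow_add hJ0, ← Real.rpow_natCast]; norm_num
  rw [h5]
  have h6 : 0 ≤ (J : ℝ) ^ (1995 / 1000 : ℝ) := by positivity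
  nlinarith [mul_le_mul_of_nonneg_left h4 h6]

private theorem bgA_mu {J j : ℕ} (hJ : 5 ≤ J) (hj : j ∈ Ioc J (2 * J)) : (J : ℝ) ^ 2 / 2 ≤ mu J j := by
  have hJ0 : (0 : ℝ) < J := by exact_mod_cast (by omega : 0 < J)
  unfold Pool.Agent.CH.F.mu
  have hj1 : (J : ℝ) ≤ j := by exact_mod_cast (mem_Ioc.1 hj).1.le
  rw [le_div_iff₀ (by positivity)]
  have h1 : (J : ℝ) ^ 3 ≤ ((j : ℝ) + 1 / 2) ^ 3 :=
    pow_le_pow_left₀ hJ0.le (by linarith) 3
  nlinarith

/-- the sum over the cofactors -/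
private theorem bgA_sum (hwin : Pool.Agent.CH.F.S_win) (sel : R_sel) (cls : R_cls) (gw : R_gwA) :
    ∀ᶠ J : ℕ in atTop, ∀ j ∈ Ioc J (2 * J), ∀ E : Finset ℕ, ∀ κ : ℝ,
      (∀ e ∈ E, 1 ≤ e ∧ (e : ℝ) ≤ 27 * (J : ℝ) ^ (27 / 20 : ℝ) ∧ Odd e ∧ Rough (za J) e) →
      ∑ e ∈ E, 1 / (e : ℝ) ≤ κ →
      ∑ e ∈ E, ((bgA_T J j e).card : ℝ) ≤
        (2.0002 * κ / 0.0245 + 0.00002) * (mu J j / Real.log J ^ 2) := by
  classical
  have hLt : Tendsto (fun J : ℕ => Real.log J) atTop atTop :=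
    Real.tendsto_log_atTop.comp tendsto_natCast_atTop_atTop
  filter_upwards [eventually_ge_atTop 2500, hLt.eventually_ge_atTop 10, bgA_one hwin sel cls, gw,
    bgA_end] with J hJ hL hone hgw hend j hj E κ hE hκ
  have hJ0 : (0 : ℝ) < J := by exact_mod_cast (by omega : 0 < J)
  have hJ1 : (1 : ℝ) ≤ J := by exact_mod_cast (by omega : 1 ≤ J)
  have hL0 : 0 < Real.log J := by linarith
  set g := 0.0245 * Real.log J ^ 2 with hg
  have hg1 : 1 ≤ g := by rw [hg]; nlinarith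
  have hmu0 := bgA_mu (J := J) (by omega) hj
  have hmu : 0 < mu J j := lt_of_lt_of_le (by positivity) hmu0
  have hcard : (E.card : ℝ) ≤ 27 * (J : ℝ) ^ (27 / 20 : ℝ) := by
    have h1 : E.card ≤ (Icc 1 ⌊27 * (J : ℝ) ^ (27 / 20 : ℝ)⌋₊).card := by
      refine card_le_card fun e he => ?_
      rw [mem_Icc]
      exact ⟨(hE e he).1, Nat.le_floor (hE e he).2.1⟩
    rw [Nat.card_Icc, Nat.add_sub_cancel] at h1
    refine le_trans (by exact_mod_cast h1) (Nat.floor_le (by positivity))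
  have h1 : ∑ e ∈ E, ((bgA_T J j e).card : ℝ) ≤ ∑ e ∈ E, ((2.0002 * mu J j / e + 2) / g +
      (J : ℝ) ^ (645 / 1000 : ℝ)) := by
    refine sum_le_sum fun e he => ?_
    obtain ⟨ha, hb, hc, hd⟩ := hE e he
    exact hone j hj e ha (hgw e hc hd hb).1 (hgw e hc hd hb).2
  have h2 : ∑ e ∈ E, ((2.0002 * mu J j / e + 2) / g + (J : ℝ) ^ (645 / 1000 : ℝ))
      = 2.0002 * mu J j / g * ∑ e ∈ E, 1 / (e : ℝ) +
        (E.card : ℝ) * (2 / g + (J : ℝ) ^ (645 / 1000 : ℝ)) := by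
    rw [mul_sum, ← nsmul_eq_mul, ← sum_const, ← sum_add_distrib]
    refine sum_congr rfl fun e _ => ?_
    ring
  have h3 : 2.0002 * mu J j / g * ∑ e ∈ E, 1 / (e : ℝ) ≤ 2.0002 * mu J j / g * κ :=
    mul_le_mul_of_nonneg_left hκ (by positivity)
  have h4 : (E.card : ℝ) * (2 / g + (J : ℝ) ^ (645 / 1000 : ℝ)) ≤
      81 * (J : ℝ) ^ (1995 / 1000 : ℝ) := by
    have h5 : 2 / g ≤ 2 * (J : ℝ) ^ (645 / 1000 : ℝ) := by
      have h6 : 2 / g ≤ 2 := div_le_self (by norm_num) hg1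
      have h7 : 1 ≤ (J : ℝ) ^ (645 / 1000 : ℝ) := Real.one_le_rpow hJ1 (by norm_num)
      linarith
    have h8 : (J : ℝ) ^ (1995 / 1000 : ℝ) = (J : ℝ) ^ (27 / 20 : ℝ) * (J : ℝ) ^ (645 / 1000 : ℝ) := by
      rw [← Real.rpow_add hJ0]; norm_num
    rw [h8]
    calc (E.card : ℝ) * (2 / g + (J : ℝ) ^ (645 / 1000 : ℝ))
        ≤ (27 * (J : ℝ) ^ (27 / 20 : ℝ)) * (3 * (J : ℝ) ^ (645 / 1000 : ℝ)) := by
          apply mul_le_mul hcard (by linarith) (by positivity) (by positivity)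
      _ = 81 * ((J : ℝ) ^ (27 / 20 : ℝ) * (J : ℝ) ^ (645 / 1000 : ℝ)) := by ring
  have h5 : 2.0002 * mu J j / g * κ = 2.0002 * κ / 0.0245 * (mu J j / Real.log J ^ 2) := by
    rw [hg]
    field_simp
  have h6 : 0.00001 * (J : ℝ) ^ 2 / Real.log J ^ 2 ≤ 0.00002 * (mu J j / Real.log J ^ 2) := by
    rw [mul_div_assoc, ← mul_div_assoc 0.00002 (mu J j), ← mul_div_assoc]
    apply div_le_div_of_nonneg_right _ (by positivity)
    linarith
  rw [h2] at h1
  rw [add_mul]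
  linarith

private theorem bgA_za {J : ℕ} (hJ : 2500 ≤ J) : 2 < za J := by
  unfold za
  have hJr : (2048 : ℝ) < J := by exact_mod_cast (by omega : 2048 < J)
  have h3 : (2 : ℝ) = (2048 : ℝ) ^ (1 / 11 : ℝ) := by
    rw [show (2048 : ℝ) = 2 ^ (11 : ℕ) by norm_num, ← Real.rpow_natCast,
      ← Real.rpow_mul (by norm_num)]
    norm_num
  calc (2 : ℝ) = (2048 : ℝ) ^ (1 / 11 : ℝ) := h3
    _ < (J : ℝ) ^ (1 / 11 : ℝ) := Real.rpow_lt_rpow (by norm_num) hJr (by norm_num)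

private theorem bgA_odd {J e : ℕ} (hJ : 2500 ≤ J) (h : Rough (za J) e) : Odd e := by
  by_contra hne
  rw [Nat.not_odd_iff_even] at hne
  have h2 := h 2 Nat.prime_two hne.two_dvd
  have := bgA_za hJ
  push_cast at h2
  linarith

private theorem bgA_zy {J : ℕ} (hJ : 2500 ≤ J) : za J ≤ ya J := by
  have hJ1 : (1 : ℝ) ≤ J := by exact_mod_cast (by omega : 1 ≤ J)
  unfold za ya
  exact Real.rpow_le_rpow_of_exponent_le hJ1 (by norm_num)

private theorem bgA_ES0 {J e : ℕ} (hJ : 2500 ≤ J) (he : e ∈ ES0 J) :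
    1 ≤ e ∧ (e : ℝ) ≤ 27 * (J : ℝ) ^ (27 / 20 : ℝ) ∧ Odd e ∧ Rough (za J) e := by
  classical
  unfold ES0 at he
  rw [mem_filter, mem_Icc] at he
  obtain ⟨⟨he1, he2⟩, -, her, -⟩ := he
  have h1 : Rough (za J) e := fun p hp hpe => (bgA_zy hJ).trans (her p hp hpe)
  exact ⟨he1, (Nat.le_floor_iff (by positivity)).1 he2, bgA_odd hJ h1, h1⟩

private theorem bgA_ES1 {J e : ℕ} (hJ : 2500 ≤ J) (he : e ∈ ES1 J) :
    1 ≤ e ∧ (e : ℝ) ≤ 27 * (J : ℝ) ^ (27 / 20 : ℝ) ∧ Odd e ∧ Rough (za J) e := by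
  classical
  unfold ES1 at he
  rw [mem_filter, mem_Icc] at he
  obtain ⟨⟨he1, he2⟩, -, q, hq, hqe, her, -, -⟩ := he
  unfold QS at hq
  rw [mem_filter] at hq
  obtain ⟨-, hqp, hqz, -⟩ := hq
  have h1 : Rough (za J) e := by
    intro p hp hpe
    obtain ⟨f, hf⟩ := hqe
    have hf2 : e / q = f := by rw [hf]; exact Nat.mul_div_cancel_left f hqp.pos
    rw [hf] at hpe
    rcases (Nat.Prime.dvd_mul hp).1 hpe with h | h
    · rw [(Nat.prime_dvd_prime_iff_eq hp hqp).1 h]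
      exact hqz
    · rw [hf2] at her
      exact (bgA_zy hJ).trans (her p hp h)
  exact ⟨he1, (Nat.le_floor_iff (by positivity)).1 he2, bgA_odd hJ h1, h1⟩

private theorem bgA_Rc {J m : ℕ} (hJ : 2500 ≤ J) {t : ℝ} (ht : 8 / 25 ≤ t) (hm : (J : ℝ) ^ t < m) :
    Rc J < m := by
  have hJ0 : (0 : ℝ) < J := by exact_mod_cast (by omega : 0 < J)
  have hJ1 : (1 : ℝ) ≤ J := by exact_mod_cast (by omega : 1 ≤ J)
  have h1 : ((Rc J : ℕ) : ℝ) ≤ (J : ℝ) ^ (8 / 25 : ℝ) := Nat.floor_le (Real.rpow_nonneg hJ0.le _)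
  have h2 : (J : ℝ) ^ (8 / 25 : ℝ) ≤ (J : ℝ) ^ t := Real.rpow_le_rpow_of_exponent_le hJ1 ht
  have h3 : ((Rc J : ℕ) : ℝ) < m := by linarith
  exact_mod_cast h3

private theorem bgA_mem {J j p e m : ℕ} (hpp : p.Prime) (hpw : wJ J j p ≠ 0) (hm : m.Prime)
    (hmR : Rc J < m) (he0 : e ≠ 0) (he : p + 2 = m * e) (h1 : p + 2 < 27 * J ^ 3) :
    p ∈ (bgA_T J j e).image (fun m => e * m - 2) := by
  classical
  rw [mem_image]
  refine ⟨m, ?_, ?_⟩
  · unfold bgA_T
    rw [mem_filter, mem_range]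
    refine ⟨?_, hm, hmR, p, hpp, by rw [he]; ring, hpw⟩
    have h2 : m * 1 ≤ m * e := Nat.mul_le_mul_left _ (Nat.one_le_iff_ne_zero.2 he0)
    rw [← he] at h2
    omega
  · show e * m - 2 = p
    rw [mul_comm, ← he]; omega

private theorem bgA_cover0 {J j : ℕ} (hJ : 2500 ≤ J) (hwin : Pool.Agent.CH.F.S_win)
    (hj : j ∈ Ioc J (2 * J)) :
    bg0 J j ≤ ∑ e ∈ ES0 J, (bgA_T J j e).card := by
  classical
  have hw := (hwin J (by omega) j hj).2.1
  have hJ0 : (0 : ℝ) < J := by exact_mod_cast (by omega : 0 < J)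
  unfold bg0
  refine (card_le_card (t := (ES0 J).biUnion (fun e => (bgA_T J j e).image (fun m => e * m - 2)))
    ?_).trans (card_biUnion_le.trans (sum_le_sum fun e _ => card_image_le))
  intro p hp
  rw [mem_filter, mem_Icc] at hp
  obtain ⟨⟨hp1, hp2⟩, hpp, hpw, ⟨hsq, hr, hom⟩, m, hm, hmd, hmY⟩ := hp
  obtain ⟨e, he⟩ := hmd
  have h1 := hw p hp1 hpw
  have hm0 : m ≠ 0 := hm.ne_zero
  have he0 : e ≠ 0 := by rintro rfl; omega
  have hed : e ∣ p + 2 := ⟨m, by rw [he]; ring⟩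
  rw [mem_biUnion]
  have hYpos : 0 < Yc J := Real.rpow_pos_of_pos hJ0 _
  refine ⟨e, ?_, bgA_mem hpp hpw hm (bgA_Rc hJ (t := 33 / 20) (by norm_num) hmY) he0 he
    h1.2.2.2⟩
  unfold ES0
  rw [mem_filter, mem_Icc]
  refine ⟨⟨Nat.one_le_iff_ne_zero.2 he0, Nat.le_floor ?_⟩,
    hsq.squarefree_of_dvd hed, fun q hq hqe => hr q hq (hqe.trans hed), ?_⟩
  · -- `e m = p + 2 ≤ 27 J^3`
    have h2 : (m : ℝ) * e ≤ 27 * (J : ℝ) ^ (3 : ℕ) := by
      have : m * e ≤ 27 * J ^ 3 := by rw [← he]; omega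
      exact_mod_cast this
    have h3 : Yc J * e ≤ 27 * (J : ℝ) ^ (3 : ℕ) :=
      (mul_le_mul_of_nonneg_right hmY.le (Nat.cast_nonneg _)).trans h2
    have h4 : (J : ℝ) ^ (3 : ℕ) = Yc J * (J : ℝ) ^ (27 / 20 : ℝ) := by
      unfold Yc
      rw [← Real.rpow_add hJ0, ← Real.rpow_natCast]
      norm_num
    rw [h4] at h3
    have h5 : Yc J * e ≤ Yc J * (27 * (J : ℝ) ^ (27 / 20 : ℝ)) := by linarith
    exact le_of_mul_le_mul_left h5 hYpos
  · rw [he, ArithmeticFunction.cardFactors_mul hm0 he0,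
      ArithmeticFunction.cardFactors_apply_prime hm] at hom
    omega

private theorem bgA_cover1 {J j : ℕ} (hJ : 2500 ≤ J) (hwin : Pool.Agent.CH.F.S_win)
    (hj : j ∈ Ioc J (2 * J)) :
    bg1 J j ≤ ∑ e ∈ ES1 J, (bgA_T J j e).card := by
  classical
  have hw := (hwin J (by omega) j hj).2.1
  have hJ0 : (0 : ℝ) < J := by exact_mod_cast (by omega : 0 < J)
  have hJ1 : (1 : ℝ) < J := by exact_mod_cast (by omega : 1 < J)
  have hL : 0 < Real.log J := Real.log_pos hJ1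
  unfold bg1
  refine (card_le_card (t := (ES1 J).biUnion (fun e => (bgA_T J j e).image (fun m => e * m - 2)))
    ?_).trans (card_biUnion_le.trans (sum_le_sum fun e _ => card_image_le))
  intro p hp
  rw [mem_filter, mem_Icc] at hp
  obtain ⟨⟨hp1, hp2⟩, hpp, hpw, q, ⟨hsq, hqS, hqd, hr, hom⟩, m, hm, hmd, hmY⟩ := hp
  have hqS' := hqS
  unfold QS at hqS'
  rw [mem_filter] at hqS'
  obtain ⟨-, hqp, hqz, hqy⟩ := hqS'
  have hq0 : (0 : ℝ) < q := by exact_mod_cast hqp.pos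
  set c := mA J q with hc
  -- the size of `q`
  have hc1 : (J : ℝ) ^ ((c : ℝ) / 704) ≤ q := by
    have h1 : (c : ℝ) ≤ 704 * Real.log q / Real.log J := by
      rw [hc]
      unfold mA
      exact Nat.floor_le (div_nonneg (mul_nonneg (by norm_num)
        (Real.log_nonneg (by exact_mod_cast hqp.one_lt.le))) hL.le)
    have h2 : Real.log ((J : ℝ) ^ ((c : ℝ) / 704)) ≤ Real.log q := by
      rw [Real.log_rpow hJ0]
      rw [le_div_iff₀ hL] at h1
      linarith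
    exact (Real.log_le_log_iff (Real.rpow_pos_of_pos hJ0 _) hq0).1 h2
  have hc2 : c < 224 := by
    have h1 : Real.log q < 7 / 22 * Real.log J := by
      have := Real.log_lt_log hq0 hqy
      unfold ya at this
      rwa [Real.log_rpow hJ0] at this
    rw [hc]
    unfold mA
    rw [Nat.floor_lt (div_nonneg (mul_nonneg (by norm_num)
        (Real.log_nonneg (by exact_mod_cast hqp.one_lt.le))) hL.le), div_lt_iff₀ hL]
    push_cast
    linarith
  have hc3 : ((c : ℝ) + 1) / 704 ≤ 7 / 22 := by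
    have : (c : ℝ) + 1 ≤ 224 := by exact_mod_cast hc2
    rw [div_le_iff₀ (by norm_num)]
    linarith
  -- `q < m`
  have hqm : q < m := by
    have h1 : ya J ≤ Y1 c J := by
      unfold ya Y1
      apply Real.rpow_le_rpow_of_exponent_le hJ1.le
      linarith
    have h2 : (q : ℝ) < m := by linarith
    exact_mod_cast h2
  obtain ⟨e, he⟩ := hmd
  have h1 := hw p hp1 hpw
  have hm0 : m ≠ 0 := hm.ne_zero
  have he0 : e ≠ 0 := by rintro rfl; omega
  have hed : e ∣ p + 2 := ⟨m, by rw [he]; ring⟩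
  have hqe : q ∣ e := by
    rw [he] at hqd
    rcases (Nat.Prime.dvd_mul hqp).1 hqd with h | h
    · exact absurd ((Nat.prime_dvd_prime_iff_eq hqp hm).1 h) hqm.ne
    · exact h
  obtain ⟨f, hf⟩ := hqe
  have hf0 : f ≠ 0 := by rintro rfl; rw [mul_zero] at hf; exact he0 hf
  have hf2 : e / q = f := by rw [hf]; exact Nat.mul_div_cancel_left f hqp.pos
  have hnq : (p + 2) / q = m * f := by
    rw [he, hf, show m * (q * f) = q * (m * f) by ring]
    exact Nat.mul_div_cancel_left _ hqp.pos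
  -- the size of `f`
  have hfs : (f : ℝ) ≤ 27 * (J : ℝ) ^ (1 + 1 / 500 + 1 / 704 : ℝ) := by
    have h2 : (m : ℝ) * (q * f) ≤ 27 * (J : ℝ) ^ (3 : ℕ) := by
      have : m * (q * f) ≤ 27 * J ^ 3 := by rw [← hf, ← he]; omega
      exact_mod_cast this
    have hY0 : 0 < Y1 c J := Real.rpow_pos_of_pos hJ0 _
    have hY2 : (J : ℝ) ^ (2 - 1 / 500 - 1 / 704 : ℝ) ≤ m * q := by
      have h3 : (J : ℝ) ^ (2 - 1 / 500 - 1 / 704 : ℝ) = Y1 c J * (J : ℝ) ^ ((c : ℝ) / 704) := by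
        unfold Y1
        rw [← Real.rpow_add hJ0]
        congr 1
        ring
      rw [h3]
      exact mul_le_mul hmY.le hc1 (Real.rpow_nonneg hJ0.le _) (Nat.cast_nonneg _)
    have h4 : (J : ℝ) ^ (3 : ℕ) = (J : ℝ) ^ (2 - 1 / 500 - 1 / 704 : ℝ) *
        (J : ℝ) ^ (1 + 1 / 500 + 1 / 704 : ℝ) := by
      rw [← Real.rpow_add hJ0, ← Real.rpow_natCast]
      norm_num
    have h5 : (J : ℝ) ^ (2 - 1 / 500 - 1 / 704 : ℝ) * f ≤ (J : ℝ) ^ (2 - 1 / 500 - 1 / 704 : ℝ) *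
        (27 * (J : ℝ) ^ (1 + 1 / 500 + 1 / 704 : ℝ)) := by
      calc (J : ℝ) ^ (2 - 1 / 500 - 1 / 704 : ℝ) * f ≤ (m * q) * f :=
            mul_le_mul_of_nonneg_right hY2 (Nat.cast_nonneg _)
        _ = (m : ℝ) * (q * f) := by ring
        _ ≤ 27 * (J : ℝ) ^ (3 : ℕ) := h2
        _ = (J : ℝ) ^ (2 - 1 / 500 - 1 / 704 : ℝ) *
            (27 * (J : ℝ) ^ (1 + 1 / 500 + 1 / 704 : ℝ)) := by rw [h4]; ring
    exact le_of_mul_le_mul_left h5 (Real.rpow_pos_of_pos hJ0 _)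
  rw [mem_biUnion]
  refine ⟨e, ?_, bgA_mem hpp hpw hm (bgA_Rc hJ (t := 2 - 1 / 500 - ((c : ℝ) + 1) / 704)
    (by linarith) hmY) he0 he h1.2.2.2⟩
  unfold ES1
  rw [mem_filter, mem_Icc]
  refine ⟨⟨Nat.one_le_iff_ne_zero.2 he0, Nat.le_floor ?_⟩,
    hsq.squarefree_of_dvd hed, q, hqS, ⟨f, hf⟩, ?_, ?_, ?_⟩
  · have h2 : (e : ℝ) = q * f := by rw [hf]; push_cast; ring
    rw [h2]
    have h3 : (q : ℝ) * f ≤ ya J * (27 * (J : ℝ) ^ (1 + 1 / 500 + 1 / 704 : ℝ)) :=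
      mul_le_mul hqy.le hfs (Nat.cast_nonneg _) (Real.rpow_nonneg hJ0.le _)
    refine h3.trans ?_
    unfold ya
    have h4 : (J : ℝ) ^ (7 / 22 : ℝ) * (27 * (J : ℝ) ^ (1 + 1 / 500 + 1 / 704 : ℝ)) =
        27 * (J : ℝ) ^ (7 / 22 + (1 + 1 / 500 + 1 / 704) : ℝ) := by
      rw [Real.rpow_add hJ0 (7 / 22)]; ring
    rw [h4]
    refine mul_le_mul_of_nonneg_left ?_ (by norm_num)
    exact Real.rpow_le_rpow_of_exponent_le hJ1.le (by norm_num)
  · rw [hf2]
    intro r hrp hrf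
    exact hr r hrp (by rw [hnq]; exact hrf.mul_left m)
  · rw [hf2]
    rw [he, hf, ArithmeticFunction.cardFactors_mul hm0 (mul_ne_zero hqp.ne_zero hf0),
      ArithmeticFunction.cardFactors_mul hqp.ne_zero hf0,
      ArithmeticFunction.cardFactors_apply_prime hm,
      ArithmeticFunction.cardFactors_apply_prime hqp] at hom
    omega
  · rw [hf2]
    exact hfs

theorem p_bgA : S_bgA := by
  classical
  intro hwin sel cls gw se
  filter_upwards [eventually_ge_atTop 2500, bgA_sum hwin sel cls gw, se] with J hJ hsum hse j hj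
  have hmu0 := bgA_mu (J := J) (by omega) hj
  have hJ0 : (0 : ℝ) < J := by exact_mod_cast (by omega : 0 < J)
  have hmu : 0 < mu J j := lt_of_lt_of_le (by positivity) hmu0
  have hq : 0 ≤ mu J j / Real.log J ^ 2 := by positivity
  constructor
  · have h1 := hsum j hj (ES0 J) 0.00001 (fun e he => bgA_ES0 hJ he) hse.1
    have h2 : (bg0 J j : ℝ) ≤ ∑ e ∈ ES0 J, ((bgA_T J j e).card : ℝ) := by
      exact_mod_cast bgA_cover0 hJ hwin hj
    have h3 : (2.0002 * 0.00001 / 0.0245 + 0.00002) * (mu J j / Real.log J ^ 2) ≤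
        0.0009 * (mu J j / Real.log J ^ 2) :=
      mul_le_mul_of_nonneg_right (by norm_num) hq
    rw [mul_div_assoc]
    linarith
  · have h1 := hsum j hj (ES1 J) 0.00013 (fun e he => bgA_ES1 hJ he) hse.2
    have h2 : (bg1 J j : ℝ) ≤ ∑ e ∈ ES1 J, ((bgA_T J j e).card : ℝ) := by
      exact_mod_cast bgA_cover1 hJ hwin hj
    have h3 : (2.0002 * 0.00013 / 0.0245 + 0.00002) * (mu J j / Real.log J ^ 2) ≤
        0.0107 * (mu J j / Real.log J ^ 2) :=
      mul_le_mul_of_nonneg_right (by norm_num) hq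
    rw [mul_div_assoc]
    linarith

end Pool.Agent.CA.FP
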