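import Pool.Agent.Lib.MP_d610d0_nt.CA.FP.Stm

/-!
Project CA, section FP, piece cellA
-/

set_option autoImplicit false

namespace Pool.Agent.CA.FP

open Finset Filter
open Pool.Agent.CH.M2 (S_log2 S_mer)

theorem p_cellA : S_cellA := by
  intro h1 h2
  obtain ⟨C, hC, hmer⟩ := h2
  have hev := (Real.tendsto_log_atTop.comp tendsto_natCast_atTop_atTop).eventually_ge_atTop
    (220000 + 11 * C * 10000 * 1889)
  filter_upwards [hev] with J hJ
  intro S i hi hi2 hS
  simp only [Function.comp_apply] at hJ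
  set L : ℝ := Real.log (J : ℝ) with hLdef
  have hL1 : 220000 ≤ L := by nlinarith
  have hLC : 11 * C * 10000 * 1889 ≤ L := by linarith
  have hL0 : 0 < L := by linarith
  have hi64 : (64 : ℝ) ≤ i := by exact_mod_cast hi
  have hi1889 : (i : ℝ) + 1 ≤ 1889 := by exact_mod_cast hi2
  have hi0 : (0 : ℝ) < i := by linarith
  set a : ℝ := Real.exp ((i : ℝ) / 704 * L) with hadef
  have haL : L / 11 ≤ (i : ℝ) / 704 * L := by nlinarith
  have ha : 20000 ≤ a := by
    have := Real.add_one_le_exp ((i : ℝ) / 704 * L)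
    linarith
  have hmem : ∀ p ∈ S, p.Prime ∧ a ≤ p ∧ (p : ℝ) ≤ Real.exp (((i : ℝ) + 1) / 704 * L) := by
    intro p hp
    obtain ⟨hpp, hm⟩ := hS p hp
    have hp0 : (0 : ℝ) < p := by exact_mod_cast hpp.pos
    have hp1 : (1 : ℝ) ≤ p := by exact_mod_cast hpp.one_lt.le
    have hnn : 0 ≤ 704 * Real.log p / L := by
      have := Real.log_nonneg hp1
      positivity
    unfold mA at hm
    have e1 : (i : ℝ) ≤ 704 * Real.log p / L := by
      rw [← hm]
      exact Nat.floor_le hnn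
    have e2 : 704 * Real.log p / L < (i : ℝ) + 1 := by
      rw [← hm]
      exact Nat.lt_floor_add_one _
    rw [le_div_iff₀ hL0] at e1
    rw [div_lt_iff₀ hL0] at e2
    refine ⟨hpp, ?_, ?_⟩
    · rw [hadef, ← Real.le_log_iff_exp_le hp0]
      linarith
    · rw [← Real.log_le_iff_le_exp hp0]
      linarith
  have hkey := hmer S a (Real.exp (((i : ℝ) + 1) / 704 * L)) (by linarith)
    (Real.exp_le_exp.2 (by nlinarith)) hmem
  rw [hadef, Real.log_exp, Real.log_exp] at hkey
  have e1 : ((i : ℝ) + 1) / 704 * L / ((i : ℝ) / 704 * L) = ((i : ℝ) + 1) / i := by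
    field_simp
  rw [e1] at hkey
  have e2 := h1 i (by omega)
  set q : ℝ := (2 * (i : ℝ) + 1) / (2 * i * (i + 1)) with hqdef
  have hq : (1 : ℝ) / 1889 ≤ q := by
    rw [hqdef, div_le_div_iff₀ (by norm_num) (by positivity)]
    nlinarith
  have e3 : C / ((i : ℝ) / 704 * L) ≤ 1 / 10000 * (1 / 1889) := by
    rw [div_le_iff₀ (by positivity)]
    nlinarith
  have hsum : ∑ p ∈ S, 1 / (p : ℝ) ≤ q * (1 + 1 / 10000) := by
    linarith
  have hterm : ∀ p ∈ S, 1 / ((p : ℝ) - 1) ≤ 1 / (p : ℝ) * (1 + 1 / 10000) := by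
    intro p hp
    obtain ⟨_, hap, _⟩ := hmem p hp
    have hp2 : (20000 : ℝ) ≤ p := ha.trans hap
    have : 1 / (p : ℝ) * (1 + 1 / 10000) = (1 + 1 / 10000) / p := by ring
    rw [this, div_le_div_iff₀ (by linarith) (by linarith)]
    linarith
  calc ∑ p ∈ S, 1 / ((p : ℝ) - 1) ≤ ∑ p ∈ S, 1 / (p : ℝ) * (1 + 1 / 10000) :=
        Finset.sum_le_sum hterm
    _ = (∑ p ∈ S, 1 / (p : ℝ)) * (1 + 1 / 10000) := by rw [Finset.sum_mul]
    _ ≤ q * (1 + 1 / 10000) * (1 + 1 / 10000) := by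
        apply mul_le_mul_of_nonneg_right hsum (by norm_num)
    _ ≤ aA i := by
        have : aA i = 1.0005 * q := by
          unfold aA
          rw [hqdef]
          ring
        rw [this]
        nlinarith

end Pool.Agent.CA.FP
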