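import Pool.Agent.Lib.MP_d610d0_nt.CA.FP.Stm

set_option autoImplicit false

/-!
Piece cor of section FP: summation over the conductors.
-/

namespace Pool.Agent.CA.FP

open Finset Filter
open Pool.Agent.MP89da58 (tri primChars)

private lemma cor_mem {R : ℕ} {p : Σ q, DirichletCharacter ℂ q} :
    p ∈ primChars R ↔ (2 ≤ p.1 ∧ p.1 ≤ R) ∧ p.2.IsPrimitive := by
  classical
  rw [primChars, mem_sigma, mem_filter, mem_Icc]
  simp only [mem_univ, true_and]

private lemma cor_step {R R' : ℕ} (h : R ≤ R') (g : (Σ q, DirichletCharacter ℂ q) → ℝ) :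
    ∑ p ∈ primChars R', g p - ∑ p ∈ primChars R, g p =
      ∑ p ∈ primChars R', (if R < p.1 then g p else 0) := by
  classical
  have h1 : primChars R = (primChars R').filter (fun p => ¬ R < p.1) := by
    ext p
    rw [mem_filter, cor_mem, cor_mem]
    constructor
    · rintro ⟨⟨h2, h3⟩, h4⟩
      exact ⟨⟨⟨h2, h3.trans h⟩, h4⟩, by omega⟩
    · rintro ⟨⟨⟨h2, _⟩, h4⟩, h5⟩
      exact ⟨⟨h2, by omega⟩, h4⟩
  rw [h1, sum_filter, ← sum_sub_distrib]
  apply sum_congr rfl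
  intro p _
  by_cases hp : R < p.1
  · simp [hp]
  · simp [hp]

/-- the core estimate -/
private lemma cor_core (S : (Σ q, DirichletCharacter ℂ q) → ℝ)
    (C : (Σ q, DirichletCharacter ℂ q) → ℝ) (K X1 X2 : ℝ) (R : ℕ → ℕ) (I : ℕ)
    (hK : 0 < K) (hX1 : 0 ≤ X1) (hX2 : 0 ≤ X2) (hS0 : ∀ p, 0 ≤ S p)
    (hRm : ∀ i, R i ≤ R (i + 1)) (hR2 : ∀ i, R (i + 1) ≤ 2 * R i)
    (hC : ∀ p : (Σ q, DirichletCharacter ℂ q), 1 ≤ p.1 → C p ≤ K / p.1)
    (hS : ∀ p ∈ primChars (R 0), S p ≤ X1)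
    (hL : ∀ i < I, ∑ p ∈ primChars (R (i + 1)), S p ≤ (R (i + 1) : ℝ) * X2) :
    ∑ p ∈ primChars (R I), C p * S p ≤ (R 0 : ℝ) ^ 2 * K * X1 + 2 * (I : ℝ) * K * X2 := by
  classical
  induction I with
  | zero =>
    have hcard : ((primChars (R 0)).card : ℝ) ≤ (R 0 : ℝ) ^ 2 := by
      exact_mod_cast Pool.Agent.MP89da58.card_primChars (R 0)
    have h1 : ∑ p ∈ primChars (R 0), C p * S p ≤ ∑ p ∈ primChars (R 0), K * X1 := by
      apply sum_le_sum
      intro p hp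
      have h2 : 2 ≤ p.1 := (cor_mem.1 hp).1.1
      have h3 : (1 : ℝ) ≤ (p.1 : ℝ) := by exact_mod_cast (by omega : 1 ≤ p.1)
      have h4 : C p ≤ K := (hC p (by omega)).trans (div_le_self hK.le h3)
      calc C p * S p ≤ K * S p := mul_le_mul_of_nonneg_right h4 (hS0 p)
        _ ≤ K * X1 := mul_le_mul_of_nonneg_left (hS p hp) hK.le
    rw [sum_const, nsmul_eq_mul] at h1
    have h2 : ((primChars (R 0)).card : ℝ) * (K * X1) ≤ (R 0 : ℝ) ^ 2 * (K * X1) :=
      mul_le_mul_of_nonneg_right hcard (by positivity)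
    push_cast
    linarith
  | succ I ih =>
    have ih' := ih (fun i hi => hL i (by omega))
    have h1 := cor_step (hRm I) (fun p => C p * S p)
    have h2 : ∑ p ∈ primChars (R (I + 1)), (if R I < p.1 then C p * S p else 0) ≤
        2 * K * X2 := by
      rcases Nat.eq_zero_or_pos (R (I + 1)) with hR0 | hR0
      · have h3 : ∑ p ∈ primChars (R (I + 1)), (if R I < p.1 then C p * S p else 0) = 0 := by
          apply sum_eq_zero
          intro p hp
          have := (cor_mem.1 hp).1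
          omega
        rw [h3]
        positivity
      · have hR0' : (0 : ℝ) < (R (I + 1) : ℝ) := by exact_mod_cast hR0
        have h3 : ∀ p ∈ primChars (R (I + 1)), (if R I < p.1 then C p * S p else 0) ≤
            2 * K / (R (I + 1) : ℝ) * S p := by
          intro p hp
          by_cases hp1 : R I < p.1
          · rw [if_pos hp1]
            apply mul_le_mul_of_nonneg_right _ (hS0 p)
            have hp0 : (0 : ℝ) < (p.1 : ℝ) := by exact_mod_cast (by omega : 0 < p.1)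
            have h5 : (R (I + 1) : ℝ) ≤ 2 * (p.1 : ℝ) := by
              have h6 := hR2 I
              exact_mod_cast (by omega : R (I + 1) ≤ 2 * p.1)
            refine (hC p (by omega)).trans ?_
            rw [div_le_div_iff₀ hp0 hR0']
            nlinarith
          · rw [if_neg hp1]
            have := hS0 p
            positivity
        calc ∑ p ∈ primChars (R (I + 1)), (if R I < p.1 then C p * S p else 0)
            ≤ ∑ p ∈ primChars (R (I + 1)), 2 * K / (R (I + 1) : ℝ) * S p := sum_le_sum h3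
          _ = 2 * K / (R (I + 1) : ℝ) * ∑ p ∈ primChars (R (I + 1)), S p := by rw [mul_sum]
          _ ≤ 2 * K / (R (I + 1) : ℝ) * ((R (I + 1) : ℝ) * X2) :=
              mul_le_mul_of_nonneg_left (hL I (by omega)) (by positivity)
          _ = 2 * K * X2 := by field_simp
    rw [← h1] at h2
    push_cast
    linarith

/-- the elementary estimate -/
private lemma cor_num (B : ℕ) (L K r I X1 X2 : ℝ) (hL : 4800 ≤ L) (hX1 : 0 ≤ X1) (hX2 : 0 ≤ X2)
    (hK0 : 0 ≤ K) (hK : K ≤ 800 * L ^ 3) (hr0 : 0 ≤ r) (hr : r ≤ 2 * L ^ B)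
    (hI : I ≤ 3 * L) :
    r ^ 2 * K * X1 + 2 * I * K * X2 ≤ L ^ (2 * B + 4) * X1 + L ^ 5 * X2 := by
  have hL0 : 0 < L := by linarith
  have h1 : r ^ 2 ≤ 4 * L ^ (2 * B) := by
    calc r ^ 2 ≤ (2 * L ^ B) ^ 2 := pow_le_pow_left₀ hr0 hr 2
      _ = 4 * L ^ (2 * B) := by rw [mul_pow, ← pow_mul, mul_comm B 2]; norm_num
  have e1 : r ^ 2 * K ≤ L ^ (2 * B + 4) := by
    calc r ^ 2 * K ≤ (4 * L ^ (2 * B)) * (800 * L ^ 3) := by gcongr
      _ = L ^ (2 * B) * L ^ 3 * 3200 := by ring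
      _ ≤ L ^ (2 * B) * L ^ 3 * L := mul_le_mul_of_nonneg_left (by linarith) (by positivity)
      _ = L ^ (2 * B + 4) := by ring
  have e2 : 2 * I * K ≤ L ^ 5 := by
    calc 2 * I * K ≤ 2 * (3 * L) * (800 * L ^ 3) := by gcongr
      _ = L ^ 4 * 4800 := by ring
      _ ≤ L ^ 4 * L := mul_le_mul_of_nonneg_left hL (by positivity)
      _ = L ^ 5 := by ring
  have e3 := mul_le_mul_of_nonneg_right e1 hX1
  have e4 := mul_le_mul_of_nonneg_right e2 hX2
  linarith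

/-- lower bound for the level -/
private lemma cor_lower (B : ℕ) : ∀ᶠ J : ℕ in atTop,
    (Real.log J) ^ B + 1 ≤ (J : ℝ) ^ (4996 / 10000 : ℝ) := by
  have h2 : ∀ᶠ x : ℝ in atTop, Real.log x ^ (B : ℝ) ≤ 1 / 2 * x ^ (4996 / 10000 : ℝ) := by
    have h3 := (isLittleO_log_rpow_rpow_atTop (B : ℝ)
      (by norm_num : (0 : ℝ) < 4996 / 10000)).bound (by norm_num : (0 : ℝ) < 1 / 2)
    filter_upwards [h3, eventually_ge_atTop 1] with x hx hx1
    have h4 : 0 ≤ Real.log x ^ (B : ℝ) := Real.rpow_nonneg (Real.log_nonneg hx1) _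
    have h5 : 0 ≤ x ^ (4996 / 10000 : ℝ) := Real.rpow_nonneg (by linarith) _
    rwa [Real.norm_of_nonneg h4, Real.norm_of_nonneg h5] at hx
  have h1 : Tendsto (fun x : ℝ => x ^ (4996 / 10000 : ℝ)) atTop atTop :=
    tendsto_rpow_atTop (by norm_num)
  have h6 : ∀ᶠ x : ℝ in atTop, Real.log x ^ B + 1 ≤ x ^ (4996 / 10000 : ℝ) := by
    filter_upwards [h2, h1.eventually_ge_atTop 2] with x hx hx2
    rw [Real.rpow_natCast] at hx
    linarith
  exact tendsto_natCast_atTop_atTop.eventually h6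

theorem p_cor : S_cor := by
  classical
  intro B
  have hlog : Tendsto (fun J : ℕ => Real.log (J : ℝ)) atTop atTop :=
    Real.tendsto_log_atTop.comp tendsto_natCast_atTop_atTop
  filter_upwards [cor_lower B, hlog.eventually_ge_atTop 4800, eventually_ge_atTop 4]
    with J hYJ hL hJ4 S C X1 X2 hX1 hX2 hS0 hC hCz hSJ hBJ
  obtain ⟨L, hLdef⟩ : ∃ L : ℝ, L = Real.log J := ⟨_, rfl⟩
  obtain ⟨s, hsdef⟩ : ∃ s : ℕ, s = Nat.sqrt J := ⟨_, rfl⟩
  have hsJ : s ≤ J := by rw [hsdef]; exact Nat.sqrt_le_self J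
  rw [← hsdef]
  obtain ⟨Y, hYdef⟩ : ∃ Y : ℝ, Y = (J : ℝ) ^ (4996 / 10000 : ℝ) := ⟨_, rfl⟩
  have hJ0 : (0 : ℝ) < (J : ℝ) := by exact_mod_cast (by omega : 0 < J)
  have hJ1 : (1 : ℝ) ≤ (J : ℝ) := by exact_mod_cast (by omega : 1 ≤ J)
  have hYlev : Y ≤ (J : ℝ) ^ (4998 / 10000 : ℝ) := by
    rw [hYdef]
    exact Real.rpow_le_rpow_of_exponent_le hJ1 (by norm_num)
  rw [← hLdef] at hYJ hL hSJ hBJ ⊢
  rw [← hYdef] at hYJ
  have hY0 : 0 ≤ Y := by rw [hYdef]; positivity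
  have hYs : Y ≤ Real.sqrt J := by
    rw [hYdef, Real.sqrt_eq_rpow]
    exact Real.rpow_le_rpow_of_exponent_le hJ1 (by norm_num)
  obtain ⟨Y0, hY0def⟩ : ∃ Y0 : ℕ, Y0 = ⌊Y⌋₊ := ⟨_, rfl⟩
  have hY0le : (Y0 : ℝ) ≤ Y := by rw [hY0def]; exact Nat.floor_le hY0
  have hY0lt : Y < Y0 + 1 := by rw [hY0def]; exact Nat.lt_floor_add_one Y
  have hY0s : Y0 ≤ s := by
    rw [hsdef, Nat.le_sqrt']
    have h1 : (Y0 : ℝ) ^ 2 ≤ (J : ℝ) := by
      have h2 : (Y0 : ℝ) ≤ Real.sqrt J := hY0le.trans hYs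
      calc (Y0 : ℝ) ^ 2 ≤ (Real.sqrt J) ^ 2 := pow_le_pow_left₀ (Nat.cast_nonneg _) h2 2
        _ = J := Real.sq_sqrt hJ0.le
    exact_mod_cast h1
  obtain ⟨R0, hR0def⟩ : ∃ R0 : ℕ, R0 = ⌈L ^ B⌉₊ := ⟨_, rfl⟩
  rw [← hR0def] at hSJ
  have hLB1 : 1 ≤ L ^ B := one_le_pow₀ (by linarith)
  have hR0ge : L ^ B ≤ R0 := by rw [hR0def]; exact Nat.le_ceil _
  have hR0lt : (R0 : ℝ) < L ^ B + 1 := by rw [hR0def]; exact Nat.ceil_lt_add_one (by positivity)
  have hR0pos : 0 < R0 := by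
    have : (0 : ℝ) < R0 := by linarith
    exact_mod_cast this
  have hY0B : L ^ B ≤ Y0 := by linarith
  obtain ⟨R, hRdef⟩ : ∃ R : ℕ → ℕ, R = fun i => min (2 ^ i * R0) Y0 := ⟨_, rfl⟩
  have hR : ∀ i, R i = min (2 ^ i * R0) Y0 := fun i => by rw [hRdef]
  obtain ⟨I, hIdef⟩ : ∃ I : ℕ, I = ⌈2 * L⌉₊ := ⟨_, rfl⟩
  have hIle : (I : ℝ) ≤ 3 * L := by
    have : (I : ℝ) < 2 * L + 1 := by rw [hIdef]; exact Nat.ceil_lt_add_one (by linarith)
    linarith
  have hRI : R I = Y0 := by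
    rw [hR]
    apply min_eq_right
    have h1 : 2 * L ≤ I := by rw [hIdef]; exact Nat.le_ceil _
    have h2 : (J : ℝ) ≤ 2 ^ I := by
      have h3 : Real.log J ≤ Real.log (2 ^ I) := by
        rw [Real.log_pow, ← hLdef]
        have h4 : (0.5 : ℝ) < Real.log 2 := by linarith [Real.log_two_gt_d9]
        nlinarith
      exact (Real.log_le_log_iff hJ0 (by positivity)).1 h3
    have h5 : J ≤ 2 ^ I := by exact_mod_cast h2
    calc Y0 ≤ s := hY0s
      _ ≤ J := hsJ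
      _ ≤ 2 ^ I := h5
      _ = 2 ^ I * 1 := (mul_one _).symm
      _ ≤ 2 ^ I * R0 := Nat.mul_le_mul_left _ hR0pos
  have hRB : ∀ i, L ^ B ≤ (R i : ℝ) := by
    intro i
    rw [hR]
    push_cast
    apply le_min
    · calc L ^ B ≤ R0 := hR0ge
        _ = 1 * (R0 : ℝ) := (one_mul _).symm
        _ ≤ 2 ^ i * (R0 : ℝ) := mul_le_mul_of_nonneg_right (one_le_pow₀ (by norm_num))
            (Nat.cast_nonneg _)
    · exact hY0B
  have hRY : ∀ i, (R i : ℝ) ≤ Y := by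
    intro i
    refine le_trans ?_ hY0le
    rw [hR]
    exact_mod_cast min_le_right _ _
  have hR00 : R 0 ≤ R0 := by
    rw [hR, pow_zero, one_mul]
    exact min_le_left _ _
  have hR0' : (R 0 : ℝ) ≤ 2 * L ^ B := by
    have h1 : (R 0 : ℝ) ≤ R0 := by exact_mod_cast hR00
    linarith
  obtain ⟨K, hKdef⟩ : ∃ K : ℝ, K = 100 * (L + 1) ^ 3 := ⟨_, rfl⟩
  have hK0 : 0 < K := by rw [hKdef]; positivity
  have hK8 : K ≤ 800 * L ^ 3 := by
    rw [hKdef]
    have : (L + 1) ^ 3 ≤ (2 * L) ^ 3 := pow_le_pow_left₀ (by linarith) (by linarith) 3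
    calc 100 * (L + 1) ^ 3 ≤ 100 * (2 * L) ^ 3 := by linarith
      _ = 800 * L ^ 3 := by ring
  have hC0 : ∀ p : (Σ q, DirichletCharacter ℂ q), Y0 < p.1 → C p = 0 := by
    intro p hp
    apply hCz
    rw [← hYdef]
    have : ((Y0 : ℝ) + 1) ≤ p.1 := by exact_mod_cast hp
    linarith
  have hcore := cor_core S C K X1 X2 R I hK0 hX1 hX2 hS0
    (by
      intro i
      rw [hR, hR]
      apply min_le_min _ le_rfl
      exact Nat.mul_le_mul_right _ (Nat.pow_le_pow_right (by norm_num) (Nat.le_succ i)))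
    (by
      intro i
      rw [hR, hR]
      have : 2 ^ (i + 1) * R0 = 2 * (2 ^ i * R0) := by ring
      rw [this]
      omega)
    (by
      intro p hp
      rw [hKdef, hLdef]
      exact (hC p hp).2)
    (by
      intro p hp
      obtain ⟨⟨h1, h2⟩, h3⟩ := cor_mem.1 hp
      exact hSJ p (cor_mem.2 ⟨⟨h1, h2.trans hR00⟩, h3⟩))
    (by
      intro i _
      exact hBJ (R (i + 1)) (hRB _) ((hRY _).trans hYlev))
  have hnum := cor_num B L K (R 0 : ℝ) (I : ℝ) X1 X2 hL hX1 hX2 hK0.le hK8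
    (Nat.cast_nonneg _) hR0' hIle
  refine le_trans ?_ (hcore.trans hnum)
  rw [hRI]
  have h4 := cor_step hY0s (fun p => C p * S p)
  have h5 : ∑ p ∈ primChars s, (if Y0 < p.1 then C p * S p else 0) = 0 := by
    apply sum_eq_zero
    intro p _
    by_cases hp : Y0 < p.1
    · rw [if_pos hp, hC0 p hp, zero_mul]
    · rw [if_neg hp]
  rw [h5, sub_eq_zero] at h4
  exact h4.le

end Pool.Agent.CA.FP
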