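import Pool.Agent.Lib.MP_d610d0_nt.CA.FP.Stm

set_option autoImplicit false

/-! [FP finA] The conclusion. -/

namespace Pool.Agent.CA.FP

open Finset Filter
open scoped ArithmeticFunction.Omega

theorem p_finA : S_finA := by
  intro hG hW h1
  have key : ∀ᶠ J : ℕ in atTop, ∀ j ∈ Ioc J (2 * J),
      0.002 * (J : ℝ) ^ 2 / Real.log J ^ 2 ≤ ((cubeSet4 j).ncard : ℝ) := by
    filter_upwards [hG, hW, h1] with J e1 e2 e3 j hj
    obtain ⟨cm, cx, cq, hWW⟩ := e2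
    exact e3 cm cx cq hWW j hj (e1 j hj)
  obtain ⟨J1, hJ1⟩ := Filter.eventually_atTop.1 key
  refine ⟨0.0005, by norm_num, J1 + 3, fun n hn => ?_⟩
  obtain ⟨m, rfl⟩ : ∃ m, n = m + 1 := ⟨n - 1, by omega⟩
  have hm2 : 2 ≤ m := by omega
  have h := hJ1 m (by omega) (m + 1) (by rw [Finset.mem_Ioc]; omega)
  refine le_trans ?_ h
  have hmR : (2 : ℝ) ≤ m := by exact_mod_cast hm2
  have hL : 0 < Real.log m := Real.log_pos (by linarith)
  have hLL : Real.log m ≤ Real.log ((m + 1 : ℕ) : ℝ) := by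
    apply Real.log_le_log (by linarith)
    push_cast
    linarith
  have hL' : 0 < Real.log ((m + 1 : ℕ) : ℝ) := lt_of_lt_of_le hL hLL
  have hsq' : Real.log m ^ 2 ≤ Real.log ((m + 1 : ℕ) : ℝ) ^ 2 :=
    pow_le_pow_left₀ hL.le hLL 2
  have hmm : ((m + 1 : ℕ) : ℝ) ^ 2 ≤ 4 * (m : ℝ) ^ 2 := by
    push_cast
    nlinarith
  calc 0.0005 * ((m + 1 : ℕ) : ℝ) ^ 2 / Real.log ((m + 1 : ℕ) : ℝ) ^ 2
      ≤ 0.0005 * (4 * (m : ℝ) ^ 2) / Real.log m ^ 2 := by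
        apply div_le_div₀ (by positivity) (by linarith) (by positivity) hsq'
    _ = 0.002 * (m : ℝ) ^ 2 / Real.log m ^ 2 := by
        ring

end Pool.Agent.CA.FP
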