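import Pool.Agent.Lib.MP_d610d0_nt.CA.FP.Stm

set_option autoImplicit false

/-!
Piece `goodA`: all windows are good.
-/

namespace Pool.Agent.CA.FP

open Finset Filter
open Pool.Agent.CH (zJ wJ wL Rough VV Wt dsum thP EE Rk)
open Pool.Agent.CH.F (mu)
open Pool.Agent.CH.D (FL FT Sf)

/-- `EE` is linear in the sequence. -/
lemma goodA_lin {ι : Type*} (S : Finset ι) (J : ℕ) (g : ι → ℕ → ℝ) (w : ι → ℝ) (a : ℤ) (j q : ℕ) :
    EE J (fun n => ∑ s ∈ S, g s n / w s) a j q = ∑ s ∈ S, EE J (g s) a j q / w s := by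
  unfold EE
  have h : ∀ T : Finset ℕ, ∑ n ∈ T, (∑ s ∈ S, g s n / w s) * wJ J j n
      = ∑ s ∈ S, (∑ n ∈ T, g s n * wJ J j n) / w s := by
    intro T
    have : ∀ n ∈ T, (∑ s ∈ S, g s n / w s) * wJ J j n = ∑ s ∈ S, g s n * wJ J j n / w s := by
      intro n _
      rw [Finset.sum_mul]
      exact Finset.sum_congr rfl fun s _ => by ring
    rw [Finset.sum_congr rfl this, Finset.sum_comm]
    exact Finset.sum_congr rfl fun s _ => (Finset.sum_div _ _ _).symm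
  rw [h, h, Finset.mul_sum, ← Finset.sum_sub_distrib]
  exact Finset.sum_congr rfl fun s _ => by ring

/-- Finitely many sequences. -/
lemma goodA_core {ι : Type*} (S : Finset ι) (F : ι → ℕ → ℕ → ℝ) (w : ι → ℝ) (ω : ℝ) (a : ℤ)
    (hw : ∀ s ∈ S, 1 ≤ w s) (hF : ∀ s ∈ S, FinG ω (F s) a) :
    ∀ᶠ J : ℕ in atTop, ∀ c : ℕ → ℝ,
      Wt ((J : ℝ) ^ ω) ((J : ℝ) ^ (4996 / 10000 : ℝ)) c → ∀ j ∈ Ioc J (2 * J),
      |∑ q ∈ Icc 1 (Nat.sqrt J), c q * EE J (fun n => ∑ s ∈ S, F s J n / w s) a j q|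
        ≤ (J : ℝ) ^ 2 / Real.log J ^ 3 := by
  have h1 : ∀ᶠ J : ℕ in atTop, ∀ s ∈ S, ∀ c : ℕ → ℝ,
      Wt ((J : ℝ) ^ ω) ((J : ℝ) ^ (4996 / 10000 : ℝ)) c → ∀ j ∈ Ioc J (2 * J),
      |∑ q ∈ Icc 1 (Nat.sqrt J), c q * EE J (F s J) a j q| ≤ (J : ℝ) ^ 2 / (Real.log J) ^ 4 := by
    rw [Filter.eventually_all_finset]
    intro s hs
    exact hF s hs 4
  have h2 : ∀ᶠ J : ℕ in atTop, ((S.card : ℝ) + 1) ≤ Real.log J :=
    (Real.tendsto_log_atTop.comp tendsto_natCast_atTop_atTop).eventually_ge_atTop _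
  filter_upwards [h1, h2] with J hJ hL c hc j hj
  have hL0 : 0 < Real.log J := by
    have : (0 : ℝ) ≤ S.card := Nat.cast_nonneg _
    linarith
  have e : ∑ q ∈ Icc 1 (Nat.sqrt J), c q * EE J (fun n => ∑ s ∈ S, F s J n / w s) a j q
      = ∑ s ∈ S, (∑ q ∈ Icc 1 (Nat.sqrt J), c q * EE J (F s J) a j q) / w s := by
    have : ∀ q ∈ Icc 1 (Nat.sqrt J), c q * EE J (fun n => ∑ s ∈ S, F s J n / w s) a j q
        = ∑ s ∈ S, c q * EE J (F s J) a j q / w s := by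
      intro q _
      rw [goodA_lin, Finset.mul_sum]
      exact Finset.sum_congr rfl fun s _ => by ring
    rw [Finset.sum_congr rfl this, Finset.sum_comm]
    exact Finset.sum_congr rfl fun s _ => (Finset.sum_div _ _ _).symm
  rw [e]
  refine (Finset.abs_sum_le_sum_abs _ _).trans ?_
  have hX : 0 ≤ (J : ℝ) ^ 2 / Real.log J ^ 4 := by positivity
  calc ∑ s ∈ S, |(∑ q ∈ Icc 1 (Nat.sqrt J), c q * EE J (F s J) a j q) / w s|
      ≤ ∑ s ∈ S, (J : ℝ) ^ 2 / Real.log J ^ 4 := by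
        apply Finset.sum_le_sum
        intro s hs
        have hws := hw s hs
        rw [abs_div, abs_of_pos (by linarith : 0 < w s), div_le_iff₀ (by linarith)]
        refine (hJ s hs c hc j hj).trans ?_
        nlinarith
    _ = (S.card : ℝ) * ((J : ℝ) ^ 2 / Real.log J ^ 4) := by rw [Finset.sum_const, nsmul_eq_mul]
    _ ≤ Real.log J * ((J : ℝ) ^ 2 / Real.log J ^ 4) :=
        mul_le_mul_of_nonneg_right (by linarith) hX
    _ = (J : ℝ) ^ 2 / Real.log J ^ 3 := by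
        field_simp

lemma goodA_prod (S T : Finset ℕ) (P : ℕ → ℕ → Prop) (h : ∀ c ∈ S, ∀ k ∈ T, P c k) :
    ∀ p ∈ S ×ˢ T, P p.1 p.2 := fun p hp =>
  h p.1 (Finset.mem_product.1 hp).1 p.2 (Finset.mem_product.1 hp).2

theorem p_goodA : S_goodA := by
  intro hT h0 h1 hm1 hms hsq hbg
  have g1 := hT 3
  have g2 := goodA_core (Icc 5 9) (fun k => B0 k) (fun k => (k.factorial : ℝ)) (3 / 16) 2
    (fun k _ => by exact_mod_cast Nat.one_le_iff_ne_zero.2 (Nat.factorial_ne_zero k)) h0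
  have h1' : ∀ p ∈ (Ico 64 224 ×ˢ Icc 4 9 : Finset (ℕ × ℕ)), FinG (3 / 16) (B1 p.1 p.2) 2 :=
    goodA_prod _ _ (fun c k => FinG (3 / 16) (B1 c k) 2) h1
  have g3 := goodA_core (Ico 64 224 ×ˢ Icc 4 9 : Finset (ℕ × ℕ)) (fun p => B1 p.1 p.2)
    (fun p => (p.2.factorial : ℝ)) (3 / 16) 2
    (fun p _ => by exact_mod_cast Nat.one_le_iff_ne_zero.2 (Nat.factorial_ne_zero p.2)) h1'
  filter_upwards [g1, g2, g3, hm1, hms, hsq, hbg] with J a1 a2 a3 a4 a5 a6 a7 j hj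
  have e2 : (fun n => ∑ s ∈ Icc 5 9, (fun k => B0 k) s J n / (fun k => (Nat.factorial k : ℝ)) s)
      = RB0 J := by
    funext n
    rfl
  have e3 : (fun n => ∑ s ∈ (Ico 64 224 ×ˢ Icc 4 9 : Finset (ℕ × ℕ)), (fun p : ℕ × ℕ => B1 p.1 p.2) s J n /
      (fun p : ℕ × ℕ => (Nat.factorial p.2 : ℝ)) s) = RB1 J := by
    funext n
    rw [Finset.sum_product]
    rfl
  rw [e2] at a2
  rw [e3] at a3
  exact
    { g1 := fun c hc => a1 c hc j hj
      g2 := fun c hc => a2 c hc j hj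
      g3 := fun c hc => a3 c hc j hj
      g4 := (a4 j hj).1
      g5 := (a4 j hj).2
      g6 := (a5 j hj).1
      g7 := (a5 j hj).2
      g8 := a6 j hj
      g9 := (a7 j hj).1
      g10 := (a7 j hj).2 }

end Pool.Agent.CA.FP
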