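import Pool.Agent.Lib.MP_d610d0_nt.CA.FP.Stm

set_option autoImplicit false

/-!
Project CA, section FP, piece loA: the lower bound.
-/

namespace Pool.Agent.CA.FP

open Finset Filter
open scoped ArithmeticFunction.Omega
open Pool.Agent.MP89da58 (tri)
open Pool.Agent.CH (zJ wJ wL Rough VV Wt dsum thP EE)
open Pool.Agent.CH.F (mu)

private theorem loA_VV (z : ℝ) : 0 ≤ VV z := by
  unfold VV
  refine Finset.prod_nonneg fun p hp => ?_
  have h := (Finset.mem_filter.1 hp).2.2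
  have h1 : (3 : ℝ) ≤ p := by exact_mod_cast h
  have h2 : 1 / ((p : ℝ) - 1) ≤ 1 := by
    rw [div_le_one (by linarith)]
    linarith
  linarith

private theorem loA_sqrt : ∀ᶠ J : ℕ in atTop, (J : ℝ) ^ (4996 / 10000 : ℝ) ≤ Nat.sqrt J := by
  have h1 : Tendsto (fun J : ℕ => (J : ℝ) ^ (4 / 10000 : ℝ)) atTop atTop :=
    (tendsto_rpow_atTop (by norm_num)).comp tendsto_natCast_atTop_atTop
  filter_upwards [h1.eventually_ge_atTop 2, eventually_ge_atTop 1] with J hJ hJ1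
  have hJ0 : (0 : ℝ) < J := by
    have : 0 < J := by omega
    exact_mod_cast this
  have hJ1' : (1 : ℝ) ≤ J := by exact_mod_cast hJ1
  have h2 : (J : ℝ) < ((Nat.sqrt J : ℝ) + 1) ^ 2 := by
    have := Nat.lt_succ_sqrt' J
    exact_mod_cast this
  have h3 : (J : ℝ) = (J : ℝ) ^ (4996 / 10000 : ℝ) * (J : ℝ) ^ (4996 / 10000 : ℝ) *
      ((J : ℝ) ^ (4 / 10000 : ℝ) * (J : ℝ) ^ (4 / 10000 : ℝ)) := by
    rw [← Real.rpow_add hJ0, ← Real.rpow_add hJ0, ← Real.rpow_add hJ0]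
    norm_num
  have h4 : (1 : ℝ) ≤ (J : ℝ) ^ (4996 / 10000 : ℝ) := Real.one_le_rpow hJ1' (by norm_num)
  set u := (J : ℝ) ^ (4996 / 10000 : ℝ) with hu
  set v := (J : ℝ) ^ (4 / 10000 : ℝ) with hv
  have h5 : (2 * u) ^ 2 ≤ J := by
    rw [h3]
    have h6 : 4 ≤ v * v := by nlinarith
    nlinarith [mul_pos (lt_of_lt_of_le one_pos h4) (lt_of_lt_of_le one_pos h4)]
  have h7 : 2 * u < (Nat.sqrt J : ℝ) + 1 := by
    have h8 : (2 * u) ^ 2 < ((Nat.sqrt J : ℝ) + 1) ^ 2 := lt_of_le_of_lt h5 h2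
    exact lt_of_pow_lt_pow_left₀ 2 (by positivity) h8
  linarith

/-- **FP loA.** The lower bound. -/
theorem p_loA : S_loA := by
  intro hwin hsw hnum
  filter_upwards [eventually_ge_atTop 5, loA_sqrt] with J hJ hsq cm cx cq hW j hj hG
  obtain ⟨cp, hSW⟩ := hW.w1
  obtain ⟨h1, h2, -, -⟩ := hwin J hJ j hj
  have hJ0 : (0 : ℝ) < J := by
    have : 0 < J := by omega
    exact_mod_cast this
  have hJ1 : (1 : ℝ) ≤ J := by
    have : 1 ≤ J := by omega
    exact_mod_cast this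
  have hlev : (4995 / 10000 + 1 / 10000 : ℝ) = 4996 / 10000 := by norm_num
  have hwm : Wt ((J : ℝ) ^ (1 / 11 : ℝ)) ((J : ℝ) ^ (4996 / 10000 : ℝ)) cm := by
    have := hSW.wm
    rwa [hlev] at this
  have hthP : ∀ n, 0 ≤ thP n := by
    intro n
    unfold thP
    split_ifs
    · exact Real.log_natCast_nonneg n
    · exact le_rfl
  have hterm : ∑ n ∈ Icc 1 (27 * J ^ 3), thP n * wJ J j n * dsum cm (n + 2) ≤ Sa J j := by
    unfold Sa
    refine Finset.sum_le_sum fun n hn => ?_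
    by_cases h0 : thP n * wJ J j n = 0
    · rw [h0, zero_mul, zero_mul]
    · have hnp : n.Prime := by
        by_contra hc
        apply h0
        unfold thP
        rw [if_neg hc, zero_mul]
      have hw : wJ J j n ≠ 0 := right_ne_zero_of_mul h0
      have hn1 : 1 ≤ n := (Finset.mem_Icc.1 hn).1
      obtain ⟨-, -, h3, -⟩ := h2 n hn1 hw
      have h4 : 5 ^ 3 ≤ J ^ 3 := Nat.pow_le_pow_left hJ 3
      have h5 : n ≠ 2 := by
        intro h
        rw [h] at h3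
        omega
      have h6 : Odd n := hnp.odd_of_ne_two h5
      have h7 : Odd (n + 2) := by
        obtain ⟨a, ha⟩ := h6
        exact ⟨a + 1, by omega⟩
      exact mul_le_mul_of_nonneg_left (hSW.lo (n + 2) h7) (mul_nonneg (hthP n) (h1 n).1)
  have hsum := (hsw J j thP cm _ _ (by omega) hwm hsq).1
  have hmu : 0 ≤ mu J j := by
    unfold mu
    positivity
  have hV := loA_VV (za J)
  have hmm : (1 - lS ((4995 / 10000) / (1 / 11)) - 1 / 2000) * VV (za J) ≤
      ∑ d ∈ Icc 1 (Nat.sqrt J), cm d / (Nat.totient d : ℝ) :=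
    hSW.mm (by norm_num) _ (by rw [hlev]; exact hsq)
  have ha := hnum.1
  have ha0 : 0 ≤ 1 - lS ((4995 / 10000) / (1 / 11)) - 1 / 2000 := by linarith
  have hprod : (1 - lS ((4995 / 10000) / (1 / 11)) - 1 / 2000) * VV (za J) * (0.9999 * mu J j) ≤
      (∑ q ∈ Icc 1 (Nat.sqrt J), cm q / (Nat.totient q : ℝ)) *
        ∑ n ∈ Icc 1 (27 * J ^ 3), thP n * wJ J j n := by
    refine mul_le_mul hmm hG.g4 ?_ ?_
    · exact mul_nonneg (by norm_num) hmu
    · exact le_trans (mul_nonneg ha0 hV) hmm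
  have hwt : Wt (ya J) ((J : ℝ) ^ (4996 / 10000 : ℝ)) cm := by
    refine ⟨hwm.sqf, hwm.odd, hwm.le, fun d hd p hp hpd => ?_, hwm.bd⟩
    refine (hwm.small d hd p hp hpd).trans_le ?_
    exact Real.rpow_le_rpow_of_exponent_le hJ1 (by norm_num)
  have hg1 := (abs_le.1 (hG.g1 cm hwt)).1
  have hVm : 0 ≤ VV (za J) * mu J j := mul_nonneg hV hmu
  have hfin : 0.9989 * VV (za J) * mu J j ≤
      (1 - lS ((4995 / 10000) / (1 / 11)) - 1 / 2000) * VV (za J) * (0.9999 * mu J j) := by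
    have := mul_le_mul_of_nonneg_right ha hVm
    linarith
  rw [hsum] at hterm
  linarith

end Pool.Agent.CA.FP
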