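import Pool.Agent.Lib.MP_d610d0_nt.CA.FP.Stm

set_option autoImplicit false

/-!
Project CA, section FP, piece lwA0: long windows, no small prime.
-/

namespace Pool.Agent.CA.FP

open Finset Filter
open Pool.Agent.MP89da58 (tri)
open Pool.Agent.CH (wL)
open Pool.Agent.CH.M2 (Sp TS S_tup2)
open Pool.Agent.CA.SV (Us Yc R_tup)

private lemma lwA0_wL_nonneg (lam : ℝ) (j n : ℕ) : 0 ≤ wL lam j n := by
  unfold wL tri
  exact le_max_left _ _

private lemma lwA0_Ph_nonneg (r M : ℕ) : 0 ≤ PhA r M := by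
  unfold PhA
  split_ifs
  · positivity
  · exact le_rfl

private lemma lwA0_Ph_zero (r M : ℕ) (h : 1889 ≤ M) : PhA r M = 0 := by
  unfold PhA
  rw [if_neg (by omega)]

private lemma lwA0_cell (J : ℕ) (hJ : 3 ≤ J)
    (h4 : ∀ (S : Finset ℕ) (i : ℕ), 64 ≤ i → i < 1889 →
      (∀ p ∈ S, p.Prime ∧ mA J p = i) → ∑ p ∈ S, 1 / ((p : ℝ) - 1) ≤ aA i) (N i : ℕ) (hi : i < 1889) :
    ∑ p ∈ (Sp (ya J) N).filter (fun p => mA J p = i), 1 / (p : ℝ) ≤ aB i := by
  have hJ3r : (3 : ℝ) ≤ (J : ℝ) := by exact_mod_cast hJ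
  have hJ0 : (0 : ℝ) < J := by linarith
  have hL : 0 < Real.log J := Real.log_pos (by linarith)
  by_cases h : 224 ≤ i
  · have e1 : aB i = aA i := by
      unfold aB
      rw [if_pos h]
    rw [e1]
    refine le_trans ?_ (h4 ((Sp (ya J) N).filter (fun p => mA J p = i)) i (by omega) hi ?_)
    · apply Finset.sum_le_sum
      intro p hp
      rw [mem_filter] at hp
      have hp1 := hp.1
      unfold Sp at hp1
      rw [mem_filter] at hp1
      have hp2 : (2 : ℝ) ≤ p := by exact_mod_cast hp1.2.1.two_le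
      apply one_div_le_one_div_of_le (by linarith)
      linarith
    · intro p hp
      rw [mem_filter] at hp
      have hp1 := hp.1
      unfold Sp at hp1
      rw [mem_filter] at hp1
      exact ⟨hp1.2.1, hp.2⟩
  · have e1 : aB i = 0 := by
      unfold aB
      rw [if_neg h]
    rw [e1]
    apply le_of_eq
    apply Finset.sum_eq_zero
    intro p hp
    exfalso
    rw [mem_filter] at hp
    have hp1 := hp.1
    unfold Sp at hp1
    rw [mem_filter] at hp1
    have hya : 0 < ya J := by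
      unfold ya
      exact Real.rpow_pos_of_pos hJ0 _
    have h5 : Real.log (ya J) ≤ Real.log p := Real.log_le_log hya hp1.2.2
    unfold ya at h5
    rw [Real.log_rpow hJ0] at h5
    have h6 : (224 : ℝ) ≤ 704 * Real.log p / Real.log J := by
      rw [le_div_iff₀ hL]
      linarith
    have h7 : 224 ≤ mA J p := by
      unfold mA
      exact Nat.le_floor (by exact_mod_cast h6)
    rw [hp.2] at h7
    exact h h7

private lemma lwA0_key (h2 : S_tup2) (h3 : R_tup) (hb : R_bxT) (E J j N r : ℕ)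
    (hlam : 0 ≤ Real.log J ^ E) (hL : 0 ≤ Real.log J)
    (hcell : ∀ i : ℕ, i < 1889 →
      ∑ p ∈ (Sp (ya J) N).filter (fun p => mA J p = i), 1 / (p : ℝ) ≤ aB i)
    (hptw : ∀ q : Fin r → ℕ, (∀ i, q i ∈ Sp (ya J) N) →
      Real.log J ^ E * ∑ p ∈ Sp (ya J) N, wL (Real.log J ^ E) j (p * ∏ i, q i) ≤
        1.0005 * (((j : ℝ) + 1 / 2) ^ 3 / Real.log J) *
          ((∏ i, 1 / (q i : ℝ)) * PhA r (∑ i, mA J (q i)))) :
    Real.log J ^ E * ∑ n ∈ Icc 1 N, B0 (r + 1) J n * wL (Real.log J ^ E) j n ≤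
      1.0005 * (((j : ℝ) + 1 / 2) ^ 3 / Real.log J) * ((Us 1889 aB)^[r] (PhA r)) 0 := by
  have hc : 0 ≤ 1.0005 * (((j : ℝ) + 1 / 2) ^ 3 / Real.log J) := by positivity
  have e1 : ∑ n ∈ Icc 1 N, B0 (r + 1) J n * wL (Real.log J ^ E) j n ≤
      TS (Sp (ya J) N) (r + 1) (wL (Real.log J ^ E) j) := by
    refine (hb (r + 1) N (fun _ => ya J) (fun _ => Yc J) (wL (Real.log J ^ E) j)
      (lwA0_wL_nonneg _ _)).trans ?_
    unfold TS
    apply Finset.sum_le_sum_of_subset_of_nonneg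
    · intro q hq
      rw [Fintype.mem_piFinset] at hq ⊢
      intro i
      have h5 := hq i
      rw [mem_filter] at h5
      unfold Sp
      rw [mem_filter]
      exact ⟨h5.1, h5.2.1, h5.2.2.1⟩
    · intro q _ _
      exact lwA0_wL_nonneg _ _ _
  rw [h2] at e1
  refine (mul_le_mul_of_nonneg_left e1 hlam).trans ?_
  unfold TS
  rw [Finset.mul_sum]
  calc ∑ q ∈ Fintype.piFinset (fun _ : Fin r => Sp (ya J) N),
        Real.log J ^ E * ∑ p ∈ Sp (ya J) N, wL (Real.log J ^ E) j (p * ∏ i, q i)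
      ≤ ∑ q ∈ Fintype.piFinset (fun _ : Fin r => Sp (ya J) N),
        1.0005 * (((j : ℝ) + 1 / 2) ^ 3 / Real.log J) *
          ((∏ i, 1 / (q i : ℝ)) * PhA r (∑ i, mA J (q i))) := by
        apply Finset.sum_le_sum
        intro q hq
        exact hptw q (Fintype.mem_piFinset.1 hq)
    _ = 1.0005 * (((j : ℝ) + 1 / 2) ^ 3 / Real.log J) *
        ∑ q ∈ Fintype.piFinset (fun _ : Fin r => Sp (ya J) N),
          (∏ i, 1 / (q i : ℝ)) * PhA r (∑ i, mA J (q i)) := by
        rw [Finset.mul_sum]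
    _ ≤ _ := by
        apply mul_le_mul_of_nonneg_left _ hc
        exact h3 1889 (Sp (ya J) N) (mA J) (fun p => 1 / (p : ℝ)) aB (PhA r) r
          (fun p _ => by positivity) (lwA0_Ph_nonneg r) (lwA0_Ph_zero r) hcell

theorem p_lwA0 : S_lwA0 := by
  intro h2 h3 hb h4 h5 h6 E hE
  filter_upwards [h4, h5 E hE, eventually_ge_atTop 3] with J hJ1 hJ2 hJ3
  intro j hj
  have hJ3r : (3 : ℝ) ≤ (J : ℝ) := by exact_mod_cast hJ3
  have hL : 0 < Real.log J := Real.log_pos (by linarith)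
  have hlam : 0 ≤ Real.log J ^ E := by positivity
  have hza : za J ≤ ya J := by
    unfold za ya
    exact Real.rpow_le_rpow_of_exponent_le (by linarith) (by norm_num)
  have key : ∀ r, Real.log J ^ E *
      ∑ n ∈ Icc 1 (27 * J ^ 3), B0 (r + 1) J n * wL (Real.log J ^ E) j n ≤
      1.0005 * (((j : ℝ) + 1 / 2) ^ 3 / Real.log J) * ((Us 1889 aB)^[r] (PhA r)) 0 := fun r =>
    lwA0_key h2 h3 hb E J j (27 * J ^ 3) r hlam hL.le
      (fun i hi => lwA0_cell J hJ3 hJ1 _ i hi)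
      (fun q hq => hJ2 j hj _ r q (fun i => by
        have h7 := hq i
        unfold Sp at h7
        rw [mem_filter] at h7
        exact ⟨h7.2.1, hza.trans h7.2.2⟩))
  have hsum : Real.log J ^ E * ∑ n ∈ Icc 1 (27 * J ^ 3), RB0 J n * wL (Real.log J ^ E) j n =
      ∑ k ∈ Icc 5 9, 1 / (k.factorial : ℝ) * (Real.log J ^ E *
        ∑ n ∈ Icc 1 (27 * J ^ 3), B0 k J n * wL (Real.log J ^ E) j n) := by
    have e1 : ∀ n, RB0 J n * wL (Real.log J ^ E) j n =
        ∑ k ∈ Icc 5 9, 1 / (k.factorial : ℝ) * (B0 k J n * wL (Real.log J ^ E) j n) := by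
      intro n
      unfold RB0
      rw [Finset.sum_mul]
      apply Finset.sum_congr rfl
      intro k _
      ring
    rw [Finset.sum_congr rfl fun n _ => e1 n, Finset.sum_comm, Finset.mul_sum]
    apply Finset.sum_congr rfl
    intro k _
    rw [← Finset.mul_sum]
    ring
  rw [hsum]
  have h7 : ∑ k ∈ Icc 5 9, 1 / (k.factorial : ℝ) * (Real.log J ^ E *
        ∑ n ∈ Icc 1 (27 * J ^ 3), B0 k J n * wL (Real.log J ^ E) j n) ≤
      1.0005 * (((j : ℝ) + 1 / 2) ^ 3 / Real.log J) * (0.0812 / 3) := by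
    calc _ ≤ ∑ k ∈ Icc 5 9, 1 / (k.factorial : ℝ) *
          (1.0005 * (((j : ℝ) + 1 / 2) ^ 3 / Real.log J) *
            ((Us 1889 aB)^[k - 1] (PhA (k - 1))) 0) := by
          apply Finset.sum_le_sum
          intro k hk
          rw [mem_Icc] at hk
          apply mul_le_mul_of_nonneg_left _ (by positivity)
          have h8 := key (k - 1)
          rw [Nat.sub_add_cancel (by omega)] at h8
          exact h8
      _ = 1.0005 * (((j : ℝ) + 1 / 2) ^ 3 / Real.log J) *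
          ∑ k ∈ Icc 5 9, 1 / (k.factorial : ℝ) * ((Us 1889 aB)^[k - 1] (PhA (k - 1))) 0 := by
          rw [Finset.mul_sum]
          apply Finset.sum_congr rfl
          intro k _
          ring
      _ ≤ _ := mul_le_mul_of_nonneg_left h6 (by positivity)
  refine h7.trans ?_
  have hx : 0 ≤ ((j : ℝ) + 1 / 2) ^ 3 / Real.log J := by positivity
  calc 1.0005 * (((j : ℝ) + 1 / 2) ^ 3 / Real.log J) * (0.0812 / 3)
      = (1.0005 * 0.0812 / 3) * (((j : ℝ) + 1 / 2) ^ 3 / Real.log J) := by ring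
    _ ≤ (0.08125 / 3) * (((j : ℝ) + 1 / 2) ^ 3 / Real.log J) := by
        apply mul_le_mul_of_nonneg_right _ hx
        norm_num
    _ = 0.08125 * (((j : ℝ) + 1 / 2) ^ 3 / (3 * Real.log J)) := by
        rw [mul_comm 3 (Real.log J), ← div_div]
        ring

end Pool.Agent.CA.FP
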