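import Pool.Agent.Lib.MP_d610d0_nt.CA.FP.Stm

set_option autoImplicit false

/-!
Project CA, section FP, piece lwA1: long windows, one small prime.
-/

namespace Pool.Agent.CA.FP

open Finset Filter
open Pool.Agent.MP89da58 (tri)
open Pool.Agent.CH (wJ wL)
open Pool.Agent.CH.M2 (Sp TS S_tup2)
open Pool.Agent.CA.SV (Us R_tup)

private lemma lwA1_wL_nonneg (lam : ℝ) (j n : ℕ) : 0 ≤ wL lam j n := by
  unfold wL tri
  exact le_max_left _ _

private lemma lwA1_PhA_nonneg (r M : ℕ) : 0 ≤ PhA r M := by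
  unfold PhA
  split_ifs
  · positivity
  · exact le_rfl

private lemma lwA1_PhA_zero (r M : ℕ) (h : 1889 ≤ M) : PhA r M = 0 := by
  unfold PhA
  rw [if_neg (by omega)]

/-- Split off the first coordinate. -/
private lemma lwA1_split (k : ℕ) (Q S : Finset ℕ) (h : ℕ → ℝ) :
    ∑ q ∈ Fintype.piFinset (fun i : Fin (k + 1) => (Fin.cons Q (fun _ => S) : Fin (k + 1) → Finset ℕ) i),
      h (∏ i, q i) =
    ∑ q0 ∈ Q, ∑ q ∈ Fintype.piFinset (fun _ : Fin k => S), h (q0 * ∏ i, q i) := by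
  rw [← Finset.sum_product' Q (Fintype.piFinset (fun _ : Fin k => S))
    (fun p q => h (p * ∏ i, q i))]
  refine Finset.sum_nbij' (fun q => (q 0, fun i => q i.succ)) (fun x => Fin.cons x.1 x.2)
    ?_ ?_ ?_ ?_ ?_
  · intro q hq
    rw [Fintype.mem_piFinset] at hq
    rw [mem_product, Fintype.mem_piFinset]
    exact ⟨hq 0, fun i => hq i.succ⟩
  · intro x hx
    rw [mem_product, Fintype.mem_piFinset] at hx
    rw [Fintype.mem_piFinset]
    intro i
    refine Fin.cases ?_ (fun j => ?_) i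
    · exact hx.1
    · exact hx.2 j
  · intro q _
    funext i
    refine Fin.cases ?_ (fun j => ?_) i
    · rfl
    · rfl
  · intro x _
    rfl
  · intro q _
    show h (∏ i, q i) = h (q 0 * ∏ i : Fin k, q i.succ)
    rw [Fin.prod_univ_succ]

open Classical in
/-- The primes in the cell `c`. -/
private noncomputable def lwA1_Q (c J N : ℕ) : Finset ℕ :=
  (range (N + 1)).filter (fun p : ℕ => p.Prime ∧ (J : ℝ) ^ ((c : ℝ) / 704) ≤ (p : ℝ) ∧
    (p : ℝ) ≤ (⌈(J : ℝ) ^ (((c : ℝ) + 1) / 704)⌉₊ : ℝ) - 1)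

/-- Sums over the boxes as double sums. -/
private lemma lwA1_box (h3 : R_bxT) (c k J N : ℕ) (h : ℕ → ℝ) (hh : ∀ n, 0 ≤ h n) :
    ∑ n ∈ Icc 1 N, B1 c k J n * h n ≤
      ∑ q0 ∈ lwA1_Q c J N, TS (Sp (ya J) N) k (fun P => h (q0 * P)) := by
  unfold TS
  rw [← lwA1_split]
  refine (h3 (k + 1) N (lo1 c k J) (hi1 c k J) h hh).trans ?_
  apply Finset.sum_le_sum_of_subset_of_nonneg
  · intro q hq
    rw [Fintype.mem_piFinset] at hq ⊢
    intro i
    have h1 := hq i
    revert h1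
    refine Fin.cases ?_ (fun i => ?_) i
    · intro h1
      rw [mem_filter] at h1
      show q 0 ∈ lwA1_Q c J N
      unfold lwA1_Q
      rw [mem_filter]
      exact h1
    · intro h1
      rw [mem_filter] at h1
      show q i.succ ∈ Sp (ya J) N
      unfold Sp
      rw [mem_filter]
      exact ⟨h1.1, h1.2.1, h1.2.2.1⟩
  · intro q _ _
    exact hh _

private lemma lwA1_mA (c J N : ℕ) (hL : 0 < Real.log J) (hJ : 1 ≤ J) (p : ℕ)
    (hp : p ∈ lwA1_Q c J N) : mA J p = c := by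
  unfold lwA1_Q at hp
  rw [mem_filter] at hp
  obtain ⟨_, hp1, hp2, hp3⟩ := hp
  have hp0 : (0 : ℝ) < p := by exact_mod_cast hp1.pos
  have hJ0 : (0 : ℝ) < J := by exact_mod_cast hJ
  have h1 : (p : ℝ) < (J : ℝ) ^ (((c : ℝ) + 1) / 704) := by
    have h2 : ((p + 1 : ℕ) : ℝ) ≤ ((⌈(J : ℝ) ^ (((c : ℝ) + 1) / 704)⌉₊ : ℕ) : ℝ) := by
      push_cast
      linarith
    have h3 : p + 1 ≤ ⌈(J : ℝ) ^ (((c : ℝ) + 1) / 704)⌉₊ := by exact_mod_cast h2
    exact Nat.lt_ceil.1 (by omega)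
  have h2 : Real.log p < (((c : ℝ) + 1) / 704) * Real.log J := by
    rw [← Real.log_rpow hJ0]
    exact Real.log_lt_log hp0 h1
  have h3 : ((c : ℝ) / 704) * Real.log J ≤ Real.log p := by
    rw [← Real.log_rpow hJ0]
    exact Real.log_le_log (Real.rpow_pos_of_pos hJ0 _) hp2
  unfold mA
  rw [Nat.floor_eq_iff (by positivity)]
  constructor
  · rw [le_div_iff₀ hL]
    linarith
  · rw [div_lt_iff₀ hL]
    linarith

private lemma lwA1_Sp (J N : ℕ) (hL : 0 < Real.log J) (hJ : 1 ≤ J) (p : ℕ)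
    (hp : p ∈ Sp (ya J) N) : p.Prime ∧ za J ≤ p ∧ 224 ≤ mA J p := by
  unfold Sp at hp
  rw [mem_filter] at hp
  obtain ⟨_, hp1, hp2⟩ := hp
  have hp0 : (0 : ℝ) < p := by exact_mod_cast hp1.pos
  have hJ0 : (0 : ℝ) < J := by exact_mod_cast hJ
  have hJ1 : (1 : ℝ) ≤ J := by exact_mod_cast hJ
  refine ⟨hp1, le_trans ?_ hp2, ?_⟩
  · unfold za ya
    exact Real.rpow_le_rpow_of_exponent_le hJ1 (by norm_num)
  · have h3 : (7 / 22 : ℝ) * Real.log J ≤ Real.log p := by
      rw [← Real.log_rpow hJ0]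
      exact Real.log_le_log (Real.rpow_pos_of_pos hJ0 _) hp2
    unfold mA
    rw [Nat.le_floor_iff (by positivity), le_div_iff₀ hL]
    push_cast
    linarith

/-- One box. -/
private lemma lwA1_key (h2 : S_tup2) (ht : R_tup) (h3 : R_bxT) (E J j N c r : ℕ)
    (hc1 : 64 ≤ c) (hc2 : c < 224) (hJ : 1 ≤ J) (hL : 0 < Real.log J)
    (hcell : ∀ (S : Finset ℕ) (i : ℕ), 64 ≤ i → i < 1889 →
      (∀ p ∈ S, p.Prime ∧ mA J p = i) → ∑ p ∈ S, 1 / ((p : ℝ) - 1) ≤ aA i)
    (hptw : ∀ (N r : ℕ) (q : Fin r → ℕ), (∀ i, (q i).Prime ∧ za J ≤ q i) →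
      Real.log J ^ E * ∑ p ∈ Sp (ya J) N, wL (Real.log J ^ E) j (p * ∏ i, q i) ≤
        1.0005 * (((j : ℝ) + 1 / 2) ^ 3 / Real.log J) *
          ((∏ i, 1 / (q i : ℝ)) * PhA r (∑ i, mA J (q i)))) :
    Real.log J ^ E * ∑ n ∈ Icc 1 N, B1 c (r + 1) J n * wL (Real.log J ^ E) j n ≤
      1.0005 * (((j : ℝ) + 1 / 2) ^ 3 / Real.log J) *
        (aA c * ((Us 1889 aB)^[r] (fun i => PhA (r + 1) (c + i))) 0) := by
  have hlam : 0 ≤ Real.log J ^ E := by positivity
  have hJ0 : (0 : ℝ) < J := by exact_mod_cast hJ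
  have hJ1 : (1 : ℝ) ≤ J := by exact_mod_cast hJ
  have hC : 0 ≤ 1.0005 * (((j : ℝ) + 1 / 2) ^ 3 / Real.log J) := by positivity
  have hinv : ∀ p : ℕ, p.Prime → 1 / (p : ℝ) ≤ 1 / ((p : ℝ) - 1) := by
    intro p hp
    have : (2 : ℝ) ≤ p := by exact_mod_cast hp.two_le
    exact one_div_le_one_div_of_le (by linarith) (by linarith)
  -- the sum over the tuples of outer primes
  have hU : ∑ q ∈ Fintype.piFinset (fun _ : Fin r => Sp (ya J) N),
      (∏ i, 1 / (q i : ℝ)) * PhA (r + 1) (c + ∑ i, mA J (q i)) ≤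
        ((Us 1889 aB)^[r] (fun i => PhA (r + 1) (c + i))) 0 := by
    refine ht 1889 (Sp (ya J) N) (mA J) (fun p => 1 / (p : ℝ)) aB
      (fun i => PhA (r + 1) (c + i)) r (fun p _ => by positivity)
      (fun i => lwA1_PhA_nonneg _ _) (fun i hi => lwA1_PhA_zero _ _ (by omega)) ?_
    intro i hi
    by_cases h224 : 224 ≤ i
    · have e : aB i = aA i := by
        unfold aB
        rw [if_pos h224]
      rw [e]
      refine le_trans (Finset.sum_le_sum ?_) (hcell ((Sp (ya J) N).filter (fun p => mA J p = i)) i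
        (by omega) hi ?_)
      · intro p hp
        rw [mem_filter] at hp
        exact hinv p (lwA1_Sp J N hL hJ p hp.1).1
      · intro p hp
        rw [mem_filter] at hp
        exact ⟨(lwA1_Sp J N hL hJ p hp.1).1, hp.2⟩
    · have e : aB i = 0 := by
        unfold aB
        rw [if_neg h224]
      rw [e, Finset.filter_eq_empty_iff.2, Finset.sum_empty]
      intro p hp
      have := (lwA1_Sp J N hL hJ p hp).2.2
      omega
  have hU0 : 0 ≤ ((Us 1889 aB)^[r] (fun i => PhA (r + 1) (c + i))) 0 := by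
    refine le_trans ?_ hU
    apply Finset.sum_nonneg
    intro q _
    exact mul_nonneg (Finset.prod_nonneg fun i _ => by positivity) (lwA1_PhA_nonneg _ _)
  -- one value of the small prime
  have hq0 : ∀ q0 ∈ lwA1_Q c J N, Real.log J ^ E *
      TS (Sp (ya J) N) (r + 1) (fun P => wL (Real.log J ^ E) j (q0 * P)) ≤
      1 / (q0 : ℝ) * (1.0005 * (((j : ℝ) + 1 / 2) ^ 3 / Real.log J) *
        ((Us 1889 aB)^[r] (fun i => PhA (r + 1) (c + i))) 0) := by
    intro q0 hq0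
    have hm := lwA1_mA c J N hL hJ q0 hq0
    unfold lwA1_Q at hq0
    rw [mem_filter] at hq0
    rw [h2]
    unfold TS
    rw [Finset.mul_sum]
    have hz : za J ≤ q0 := by
      refine le_trans ?_ hq0.2.2.1
      unfold za
      apply Real.rpow_le_rpow_of_exponent_le hJ1
      have : (64 : ℝ) ≤ c := by exact_mod_cast hc1
      rw [div_le_div_iff₀ (by norm_num) (by norm_num)]
      linarith
    calc ∑ q ∈ Fintype.piFinset (fun _ : Fin r => Sp (ya J) N),
          Real.log J ^ E * ∑ p ∈ Sp (ya J) N, wL (Real.log J ^ E) j (q0 * (p * ∏ i, q i))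
        ≤ ∑ q ∈ Fintype.piFinset (fun _ : Fin r => Sp (ya J) N),
          1 / (q0 : ℝ) * (1.0005 * (((j : ℝ) + 1 / 2) ^ 3 / Real.log J) *
            ((∏ i, 1 / (q i : ℝ)) * PhA (r + 1) (c + ∑ i, mA J (q i)))) := by
          apply Finset.sum_le_sum
          intro q hq
          rw [Fintype.mem_piFinset] at hq
          have h5 := hptw N (r + 1) (Fin.cons q0 q) (by
            intro i
            refine Fin.cases ?_ (fun i => ?_) i
            · exact ⟨hq0.2.1, hz⟩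
            · have h6 := lwA1_Sp J N hL hJ _ (hq i)
              exact ⟨h6.1, h6.2.1⟩)
          rw [Fin.prod_univ_succ, Fin.prod_univ_succ, Fin.sum_univ_succ] at h5
          simp only [Fin.cons_zero, Fin.cons_succ] at h5
          rw [hm] at h5
          calc Real.log J ^ E * ∑ p ∈ Sp (ya J) N, wL (Real.log J ^ E) j (q0 * (p * ∏ i, q i))
              = Real.log J ^ E * ∑ p ∈ Sp (ya J) N, wL (Real.log J ^ E) j (p * (q0 * ∏ i, q i)) := by
                congr 1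
                apply Finset.sum_congr rfl
                intro p _
                congr 1
                ring
            _ ≤ _ := h5
            _ = _ := by ring
      _ = 1 / (q0 : ℝ) * (1.0005 * (((j : ℝ) + 1 / 2) ^ 3 / Real.log J) *
            ∑ q ∈ Fintype.piFinset (fun _ : Fin r => Sp (ya J) N),
            ((∏ i, 1 / (q i : ℝ)) * PhA (r + 1) (c + ∑ i, mA J (q i)))) := by
          rw [Finset.mul_sum, Finset.mul_sum]
      _ ≤ _ := by
          apply mul_le_mul_of_nonneg_left _ (by positivity)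
          exact mul_le_mul_of_nonneg_left hU hC
  have hsum : ∑ q0 ∈ lwA1_Q c J N, 1 / (q0 : ℝ) ≤ aA c := by
    refine le_trans (Finset.sum_le_sum ?_) (hcell (lwA1_Q c J N) c hc1 (by omega) ?_)
    · intro p hp
      unfold lwA1_Q at hp
      rw [mem_filter] at hp
      exact hinv p hp.2.1
    · intro p hp
      refine ⟨?_, lwA1_mA c J N hL hJ p hp⟩
      unfold lwA1_Q at hp
      rw [mem_filter] at hp
      exact hp.2.1
  calc Real.log J ^ E * ∑ n ∈ Icc 1 N, B1 c (r + 1) J n * wL (Real.log J ^ E) j n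
      ≤ Real.log J ^ E * ∑ q0 ∈ lwA1_Q c J N,
          TS (Sp (ya J) N) (r + 1) (fun P => wL (Real.log J ^ E) j (q0 * P)) :=
        mul_le_mul_of_nonneg_left
          (lwA1_box h3 c (r + 1) J N _ (fun n => lwA1_wL_nonneg _ _ _)) hlam
    _ = ∑ q0 ∈ lwA1_Q c J N, Real.log J ^ E *
          TS (Sp (ya J) N) (r + 1) (fun P => wL (Real.log J ^ E) j (q0 * P)) := by
        rw [Finset.mul_sum]
    _ ≤ ∑ q0 ∈ lwA1_Q c J N, 1 / (q0 : ℝ) * (1.0005 * (((j : ℝ) + 1 / 2) ^ 3 / Real.log J) *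
        ((Us 1889 aB)^[r] (fun i => PhA (r + 1) (c + i))) 0) := Finset.sum_le_sum hq0
    _ = (∑ q0 ∈ lwA1_Q c J N, 1 / (q0 : ℝ)) * (1.0005 * (((j : ℝ) + 1 / 2) ^ 3 / Real.log J) *
        ((Us 1889 aB)^[r] (fun i => PhA (r + 1) (c + i))) 0) := by rw [Finset.sum_mul]
    _ ≤ aA c * (1.0005 * (((j : ℝ) + 1 / 2) ^ 3 / Real.log J) *
        ((Us 1889 aB)^[r] (fun i => PhA (r + 1) (c + i))) 0) :=
        mul_le_mul_of_nonneg_right hsum (mul_nonneg hC hU0)
    _ = _ := by ring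

theorem p_lwA1 : S_lwA1 := by
  intro h2 ht h3 h4 h5 h6 E hE
  filter_upwards [h4, h5 E hE, eventually_ge_atTop 3] with J hJ1 hJ2 hJ3
  intro j hj
  have hJ3r : (3 : ℝ) ≤ (J : ℝ) := by exact_mod_cast hJ3
  have hL : 0 < Real.log J := Real.log_pos (by linarith)
  have hlam : 0 ≤ Real.log J ^ E := by positivity
  have hx : 0 < ((j : ℝ) + 1 / 2) ^ 3 / Real.log J := by positivity
  have key : ∀ c ∈ Ico 64 224, ∀ k ∈ Icc 4 9, Real.log J ^ E *
      ∑ n ∈ Icc 1 (27 * J ^ 3), B1 c k J n * wL (Real.log J ^ E) j n ≤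
      1.0005 * (((j : ℝ) + 1 / 2) ^ 3 / Real.log J) *
        (aA c * ((Us 1889 aB)^[k - 1] (fun i => PhA k (c + i))) 0) := by
    intro c hc k hk
    rw [mem_Ico] at hc
    rw [mem_Icc] at hk
    obtain ⟨r, rfl⟩ : ∃ r, k = r + 1 := ⟨k - 1, by omega⟩
    exact lwA1_key h2 ht h3 E J j (27 * J ^ 3) c r hc.1 hc.2 (by omega) hL
      (fun S i hi1 hi2 hS => hJ1 S i hi1 hi2 hS) (fun N r q hq => hJ2 j hj N r q hq)
  have e1 : Real.log J ^ E * ∑ n ∈ Icc 1 (27 * J ^ 3), RB1 J n * wL (Real.log J ^ E) j n =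
      ∑ k ∈ Icc 4 9, 1 / (k.factorial : ℝ) * ∑ c ∈ Ico 64 224, (Real.log J ^ E *
        ∑ n ∈ Icc 1 (27 * J ^ 3), B1 c k J n * wL (Real.log J ^ E) j n) := by
    simp only [RB1, Finset.sum_mul, Finset.mul_sum]
    rw [Finset.sum_comm]
    rw [Finset.sum_congr rfl (fun c _ => Finset.sum_comm)]
    rw [Finset.sum_comm]
    apply Finset.sum_congr rfl
    intro k _
    apply Finset.sum_congr rfl
    intro c _
    apply Finset.sum_congr rfl
    intro n _
    ring
  rw [e1]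
  calc ∑ k ∈ Icc 4 9, 1 / (k.factorial : ℝ) * ∑ c ∈ Ico 64 224, (Real.log J ^ E *
        ∑ n ∈ Icc 1 (27 * J ^ 3), B1 c k J n * wL (Real.log J ^ E) j n)
      ≤ ∑ k ∈ Icc 4 9, 1 / (k.factorial : ℝ) * ∑ c ∈ Ico 64 224,
        (1.0005 * (((j : ℝ) + 1 / 2) ^ 3 / Real.log J) *
        (aA c * ((Us 1889 aB)^[k - 1] (fun i => PhA k (c + i))) 0)) := by
        apply Finset.sum_le_sum
        intro k hk
        apply mul_le_mul_of_nonneg_left _ (by positivity)
        apply Finset.sum_le_sum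
        intro c hc
        exact key c hc k hk
    _ = 1.0005 * (((j : ℝ) + 1 / 2) ^ 3 / Real.log J) *
        (∑ k ∈ Icc 4 9, 1 / (k.factorial : ℝ) * ∑ c ∈ Ico 64 224,
          aA c * ((Us 1889 aB)^[k - 1] (fun i => PhA k (c + i))) 0) := by
        rw [Finset.mul_sum]
        apply Finset.sum_congr rfl
        intro k _
        rw [← Finset.mul_sum]
        ring
    _ ≤ 1.0005 * (((j : ℝ) + 1 / 2) ^ 3 / Real.log J) * (0.6481 / 3) := by
        apply mul_le_mul_of_nonneg_left h6 (by positivity)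
    _ = (1.0005 * 0.6481 / 3) * (((j : ℝ) + 1 / 2) ^ 3 / Real.log J) := by ring
    _ ≤ (0.6485 / 3) * (((j : ℝ) + 1 / 2) ^ 3 / Real.log J) := by
        apply mul_le_mul_of_nonneg_right _ hx.le
        norm_num
    _ = 0.6485 * (((j : ℝ) + 1 / 2) ^ 3 / (3 * Real.log J)) := by
        field_simp

end Pool.Agent.CA.FP
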