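import Pool.Agent.Lib.MP_d610d0_nt.CA.FP.Stm

set_option autoImplicit false

/-!
Project CA, section FP: piece m1A (the mass of the primes in every window, two-sided).
-/

namespace Pool.Agent.CA.FP

open Finset Filter
open ArithmeticFunction (vonMangoldt)
open Pool.Agent.MP89da58 (tri primChars)
open Pool.Agent.CH (zJ wJ wL Rough VV Wt dsum thP EE Rk)
open Pool.Agent.CH.F (mu SW)
open Pool.Agent.CH.D (FL FT Sf xj R_grp R_cfs R_pp R_m1a)

private theorem m1A_wL (lam : ℝ) (j n : ℕ) : 0 ≤ wL lam j n ∧ wL lam j n ≤ 1 := by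
  unfold wL tri
  refine ⟨le_max_left _ _, max_le zero_le_one ?_⟩
  have := abs_nonneg (lam * Real.log (n / ((j : ℝ) + 1 / 2) ^ 3))
  linarith

private theorem m1A_thP (n : ℕ) : 0 ≤ vonMangoldt n - thP n := by
  unfold thP
  split_ifs with h
  · rw [ArithmeticFunction.vonMangoldt_apply_prime h, sub_self]
  · rw [sub_zero]
    exact ArithmeticFunction.vonMangoldt_nonneg

/-- the asymptotic inequalities -/
private theorem m1A_ev (E : ℕ) : ∀ᶠ J : ℕ in atTop, (Real.log J) ^ E * (J : ℝ) ^ (8 / 5 : ℝ)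
    ≤ 0.00001 * (J : ℝ) ^ 3 ∧ 1 / Real.log J ≤ 0.00001 ∧ 4000000 ≤ Real.log J ∧ 1 ≤ J := by
  have h1 : ∀ᶠ x : ℝ in atTop, (Real.log x) ^ E ≤ 0.00001 * x := by
    have h := (Real.isLittleO_pow_log_id_atTop (n := E)).def (c := 0.00001) (by norm_num)
    filter_upwards [h, eventually_ge_atTop 1] with x hx hx1
    have h2 : ‖(Real.log x) ^ E‖ = (Real.log x) ^ E :=
      Real.norm_of_nonneg (pow_nonneg (Real.log_nonneg hx1) _)
    rw [h2] at hx
    simpa [abs_of_nonneg (by linarith : (0 : ℝ) ≤ x)] using hx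
  have h2 : ∀ᶠ x : ℝ in atTop, 4000000 ≤ Real.log x :=
    Real.tendsto_log_atTop.eventually_ge_atTop _
  have h3 := (tendsto_natCast_atTop_atTop (R := ℝ)).eventually h1
  have h4 := (tendsto_natCast_atTop_atTop (R := ℝ)).eventually h2
  filter_upwards [h3, h4, eventually_ge_atTop 1] with J hJ1 hJ2 hJ3
  have hJr : (1 : ℝ) ≤ J := by exact_mod_cast hJ3
  refine ⟨?_, ?_, hJ2, hJ3⟩
  · calc (Real.log J) ^ E * (J : ℝ) ^ (8 / 5 : ℝ) ≤ (0.00001 * J) * (J : ℝ) ^ (2 : ℝ) := by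
          apply mul_le_mul hJ1 (Real.rpow_le_rpow_of_exponent_le hJr (by norm_num))
            (by positivity) (by positivity)
      _ = 0.00001 * (J : ℝ) ^ 3 := by
          rw [Real.rpow_two]
          ring
  · rw [div_le_iff₀ (by linarith)]
    linarith

theorem p_m1A : S_m1A := by
  intro hpp hm1a hCM
  obtain ⟨E0, hE0⟩ := hCM 1
  filter_upwards [hE0 (E0 + 1) (Nat.le_succ _), hm1a (E0 + 1) (Nat.succ_pos _), hpp,
    m1A_ev (E0 + 1)] with J g1 g2 g34 g5678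
  obtain ⟨g3, g4⟩ := g34
  obtain ⟨g5, g6, g7, g8⟩ := g5678
  intro j hj1
  set L : ℝ := Real.log J with hLdef
  have hL : 0 < L := by linarith
  have hJ1 : (1 : ℝ) ≤ J := by exact_mod_cast g8
  set E := E0 + 1 with hE
  have k0 := g1 j hj1
  have k1 := g2 j hj1
  have hjJ : (J : ℝ) ≤ j := by
    have := (Finset.mem_Ioc.1 hj1).1
    exact_mod_cast this.le
  have hxj : (J : ℝ) ^ 3 ≤ xj j := by
    unfold xj
    apply pow_le_pow_left₀ (by linarith)
    linarith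
  have hxj0 : 0 < xj j := lt_of_lt_of_le (by positivity) hxj
  have k2 : xj j / L ≤ 0.00001 * xj j := by
    rw [div_eq_mul_one_div, mul_comm]
    exact mul_le_mul_of_nonneg_right g6 hxj0.le
  have k3 : ∑ n ∈ Icc 1 (27 * J ^ 3), vonMangoldt n * wL (L ^ E) j n
      - ∑ n ∈ Icc 1 (27 * J ^ 3), FT J n * wL (L ^ E) j n ≤ (J : ℝ) ^ (8 / 5 : ℝ) := by
    rw [← Finset.sum_sub_distrib]
    refine le_trans (Finset.sum_le_sum ?_) g4
    intro n _
    rw [← sub_mul]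
    exact mul_le_of_le_one_right (m1A_thP n) (m1A_wL _ _ _).2
  have k3' : 0 ≤ ∑ n ∈ Icc 1 (27 * J ^ 3), vonMangoldt n * wL (L ^ E) j n
      - ∑ n ∈ Icc 1 (27 * J ^ 3), FT J n * wL (L ^ E) j n := by
    rw [← Finset.sum_sub_distrib]
    refine Finset.sum_nonneg ?_
    intro n _
    rw [← sub_mul]
    exact mul_nonneg (m1A_thP n) (m1A_wL _ _ _).1
  have k4 : L ^ E * (∑ n ∈ Icc 1 (27 * J ^ 3), vonMangoldt n * wL (L ^ E) j n
      - ∑ n ∈ Icc 1 (27 * J ^ 3), FT J n * wL (L ^ E) j n) ≤ 0.00001 * xj j :=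
    (mul_le_mul_of_nonneg_left k3 (pow_nonneg hL.le _)).trans (g5.trans (by linarith))
  have k4' : 0 ≤ L ^ E * (∑ n ∈ Icc 1 (27 * J ^ 3), vonMangoldt n * wL (L ^ E) j n
      - ∑ n ∈ Icc 1 (27 * J ^ 3), FT J n * wL (L ^ E) j n) :=
    mul_nonneg (pow_nonneg hL.le _) k3'
  have k5 := abs_le.1 k0
  have k1' := abs_le.1 k1
  have k6 : (J : ℝ) ^ 3 / L ^ 1 ≤ 0.00001 * xj j := by
    rw [pow_one]
    exact (div_le_div_of_nonneg_right hxj hL.le).trans k2
  rw [mul_sub] at k4 k4'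
  have k7 : 0.9999 * xj j ≤ 2 * (J : ℝ) * ∑ n ∈ Icc 1 (27 * J ^ 3), FT J n * wJ J j n := by
    linarith [k5.1, k5.2, k1'.1, k1'.2]
  have k7' : 2 * (J : ℝ) * ∑ n ∈ Icc 1 (27 * J ^ 3), FT J n * wJ J j n ≤ 1.0001 * xj j := by
    linarith [k5.1, k5.2, k1'.1, k1'.2]
  have k8 : ∀ c : ℝ, c * mu J j = c * xj j / (2 * J) := by
    intro c
    unfold mu xj
    ring
  have k9 : (0 : ℝ) < 2 * J := by linarith
  constructor
  · show 0.9999 * mu J j ≤ ∑ n ∈ Icc 1 (27 * J ^ 3), FT J n * wJ J j n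
    rw [k8, div_le_iff₀ k9]
    linarith
  · show ∑ n ∈ Icc 1 (27 * J ^ 3), FT J n * wJ J j n ≤ 1.0001 * mu J j
    rw [k8, le_div_iff₀ k9]
    linarith

end Pool.Agent.CA.FP
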