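import Pool.Agent.Lib.MP_d610d0_nt.CA.FP.Stm

set_option autoImplicit false

/-!
Project CA, section FP, piece msA: the mass of the switched sequences.
-/

namespace Pool.Agent.CA.FP

open Finset Filter
open Pool.Agent.CH (wJ wL)
open Pool.Agent.CH.F (mu)

private theorem msA_swap {ι : Type*} (I : Finset ι) (F : ι → ℕ → ℕ → ℝ) (w : ι → ℝ) (J : ℕ)
    (v : ℕ → ℝ) (c : ℝ) :
    c * ∑ n ∈ Icc 1 (27 * J ^ 3), (∑ i ∈ I, w i * F i J n) * v n =
      ∑ i ∈ I, w i * (c * ∑ n ∈ Icc 1 (27 * J ^ 3), F i J n * v n) := by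
  have h1 : ∀ n, (∑ i ∈ I, w i * F i J n) * v n = ∑ i ∈ I, w i * (F i J n * v n) := by
    intro n
    rw [Finset.sum_mul]
    refine Finset.sum_congr rfl fun k _ => ?_
    ring
  simp only [h1]
  rw [Finset.sum_comm, Finset.mul_sum]
  refine Finset.sum_congr rfl fun k _ => ?_
  rw [← Finset.mul_sum]
  ring

/-- The comparison for finite combinations with nonnegative weights. -/
private theorem msA_gen {ι : Type*} (I : Finset ι) (F : ι → ℕ → ℕ → ℝ) (w : ι → ℝ)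
    (hw : ∀ i ∈ I, 0 ≤ w i) (hF : ∀ i ∈ I, CMw (F i)) (W : ℝ) (hW : ∑ i ∈ I, w i ≤ W) :
    ∃ E0 : ℕ, ∀ E : ℕ, E0 ≤ E → ∀ᶠ J : ℕ in atTop, ∀ j ∈ Ioc J (2 * J),
      2 * (J : ℝ) * ∑ n ∈ Icc 1 (27 * J ^ 3), (∑ i ∈ I, w i * F i J n) * wJ J j n ≤
        (Real.log J) ^ E * ∑ n ∈ Icc 1 (27 * J ^ 3), (∑ i ∈ I, w i * F i J n) *
          wL ((Real.log J) ^ E) j n + W * ((J : ℝ) ^ 3 / (Real.log J) ^ 2) := by
  classical
  have h1 : ∀ i : ι, ∃ E0 : ℕ, i ∈ I → ∀ E : ℕ, E0 ≤ E → ∀ᶠ J : ℕ in atTop,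
      ∀ j ∈ Ioc J (2 * J), |2 * (J : ℝ) * ∑ n ∈ Icc 1 (27 * J ^ 3), F i J n * wJ J j n
        - (Real.log J) ^ E * ∑ n ∈ Icc 1 (27 * J ^ 3), F i J n * wL ((Real.log J) ^ E) j n|
        ≤ (J : ℝ) ^ 3 / (Real.log J) ^ 2 := by
    intro i
    by_cases hi : i ∈ I
    · obtain ⟨E0, hE0⟩ := hF i hi 2
      exact ⟨E0, fun _ => hE0⟩
    · exact ⟨0, fun h => absurd h hi⟩
  choose E0 hE0 using h1
  refine ⟨∑ i ∈ I, E0 i, fun E hE => ?_⟩
  have hEk : ∀ i ∈ I, E0 i ≤ E := by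
    intro i hi
    have := Finset.single_le_sum (f := E0) (fun i _ => Nat.zero_le _) hi
    omega
  have h2 : ∀ᶠ J : ℕ in atTop, ∀ i ∈ I, ∀ j ∈ Ioc J (2 * J),
      |2 * (J : ℝ) * ∑ n ∈ Icc 1 (27 * J ^ 3), F i J n * wJ J j n
        - (Real.log J) ^ E * ∑ n ∈ Icc 1 (27 * J ^ 3), F i J n * wL ((Real.log J) ^ E) j n|
        ≤ (J : ℝ) ^ 3 / (Real.log J) ^ 2 := by
    rw [Filter.eventually_all_finset]
    intro i hi
    exact hE0 i hi E (hEk i hi)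
  filter_upwards [h2] with J h3
  intro j hj
  rw [msA_swap, msA_swap]
  have h11 : ∀ i ∈ I, w i *
      (2 * (J : ℝ) * ∑ n ∈ Icc 1 (27 * J ^ 3), F i J n * wJ J j n) ≤
      w i *
      ((Real.log J) ^ E * ∑ n ∈ Icc 1 (27 * J ^ 3), F i J n * wL ((Real.log J) ^ E) j n) +
      w i * ((J : ℝ) ^ 3 / (Real.log J) ^ 2) := by
    intro i hi
    rw [← mul_add]
    have h12 := (abs_le.mp (h3 i hi j hj)).2
    refine mul_le_mul_of_nonneg_left ?_ (hw i hi)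
    linarith
  refine (Finset.sum_le_sum h11).trans ?_
  rw [Finset.sum_add_distrib, ← Finset.sum_mul]
  have h13 : (∑ i ∈ I, w i) * ((J : ℝ) ^ 3 / (Real.log J) ^ 2) ≤
      W * ((J : ℝ) ^ 3 / (Real.log J) ^ 2) :=
    mul_le_mul_of_nonneg_right hW (by positivity)
  linarith

private theorem msA_f0 : ∑ k ∈ Icc 5 9, 1 / ((k.factorial : ℕ) : ℝ) ≤ 1 := by
  have h : Icc 5 9 = {5, 6, 7, 8, 9} := by decide
  rw [h]
  norm_num [Nat.factorial]

private theorem msA_f1 : ∑ k ∈ Icc 4 9, 1 / ((k.factorial : ℕ) : ℝ) ≤ 1 := by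
  have h : Icc 4 9 = {4, 5, 6, 7, 8, 9} := by decide
  rw [h]
  norm_num [Nat.factorial]

private theorem msA_RB0 (J n : ℕ) :
    RB0 J n = ∑ k ∈ Icc 5 9, 1 / ((k.factorial : ℕ) : ℝ) * B0 k J n := by
  unfold RB0
  refine Finset.sum_congr rfl fun k _ => ?_
  ring

private theorem msA_RB1 (J n : ℕ) :
    RB1 J n = ∑ i ∈ (Ico 64 224) ×ˢ (Icc 4 9), 1 / ((i.2.factorial : ℕ) : ℝ) * B1 i.1 i.2 J n := by
  unfold RB1
  rw [Finset.sum_product]
  refine Finset.sum_congr rfl fun c _ => Finset.sum_congr rfl fun k _ => ?_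
  ring

/-- The final comparison of the two error terms. -/
private theorem msA_end (J j : ℕ) (a b S Sl W : ℝ) (hJ : 1 ≤ J) (hj : j ∈ Ioc J (2 * J))
    (hab : a < b) (hW : 0 ≤ W) (hL : 3 * W / (b - a) ≤ Real.log J) (hL0 : 0 < Real.log J)
    (h1 : 2 * (J : ℝ) * S ≤ Sl + W * ((J : ℝ) ^ 3 / (Real.log J) ^ 2))
    (h2 : Sl ≤ a * (((j : ℝ) + 1 / 2) ^ 3 / (3 * Real.log J))) :
    S ≤ b * mu J j / (3 * Real.log J) := by
  have hJ0 : (0 : ℝ) < J := by exact_mod_cast hJ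
  have hjJ : (J : ℝ) ≤ (j : ℝ) + 1 / 2 := by
    have h7 : J < j := (Finset.mem_Ioc.mp hj).1
    have h8 : (J : ℝ) < (j : ℝ) := by exact_mod_cast h7
    linarith
  have hx : (J : ℝ) ^ 3 ≤ ((j : ℝ) + 1 / 2) ^ 3 := pow_le_pow_left₀ hJ0.le hjJ 3
  obtain ⟨x, hxdef⟩ : ∃ x : ℝ, x = ((j : ℝ) + 1 / 2) ^ 3 := ⟨_, rfl⟩
  rw [← hxdef] at h2 hx
  have hx0 : 0 < x := lt_of_lt_of_le (by positivity) hx
  have hba : 0 < b - a := by linarith
  have h14 : W * ((J : ℝ) ^ 3 / (Real.log J) ^ 2) ≤ (b - a) * (x / (3 * Real.log J)) := by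
    have h15 : 3 * W ≤ (b - a) * Real.log J := by
      rw [div_le_iff₀ hba] at hL
      linarith
    have h16 : W * ((J : ℝ) ^ 3 / (Real.log J) ^ 2) ≤ W * (x / (Real.log J) ^ 2) := by
      refine mul_le_mul_of_nonneg_left ?_ hW
      exact div_le_div_of_nonneg_right hx (by positivity)
    refine h16.trans ?_
    have h17 : W * (x / (Real.log J) ^ 2) = (3 * W) * (x / (3 * (Real.log J) ^ 2)) := by
      field_simp
    have h18 : (b - a) * (x / (3 * Real.log J)) =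
        ((b - a) * Real.log J) * (x / (3 * (Real.log J) ^ 2)) := by
      field_simp
    rw [h17, h18]
    exact mul_le_mul_of_nonneg_right h15 (by positivity)
  have h19 : 2 * (J : ℝ) * S ≤ b * (x / (3 * Real.log J)) := by
    have h20 : b * (x / (3 * Real.log J)) =
        a * (x / (3 * Real.log J)) + (b - a) * (x / (3 * Real.log J)) := by ring
    rw [h20]
    linarith
  unfold mu
  rw [← hxdef]
  have h21 : b * (x / (2 * (J : ℝ))) / (3 * Real.log J) =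
      b * (x / (3 * Real.log J)) / (2 * (J : ℝ)) := by
    field_simp
  rw [h21, le_div_iff₀ (by positivity)]
  linarith

private theorem msA_w1 (I K : Finset ℕ) (hK : ∑ k ∈ K, 1 / ((k.factorial : ℕ) : ℝ) ≤ 1) :
    ∑ i ∈ I ×ˢ K, 1 / ((i.2.factorial : ℕ) : ℝ) ≤ (I.card : ℝ) := by
  rw [Finset.sum_product]
  have h1 : ∀ c ∈ I, ∑ k ∈ K, 1 / ((k.factorial : ℕ) : ℝ) ≤ 1 := fun c _ => hK
  refine (Finset.sum_le_sum h1).trans ?_
  simp

private theorem msA_c1 (I K : Finset ℕ) (h : ∀ c ∈ I, ∀ k ∈ K, CMw (B1 c k)) :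
    ∀ i ∈ I ×ˢ K, CMw (B1 i.1 i.2) := by
  intro i hi
  rw [Finset.mem_product] at hi
  exact h i.1 hi.1 i.2 hi.2

theorem p_msA : S_msA := by
  intro hC0 hC1 hl0 hl1
  obtain ⟨E0, hE0⟩ := msA_gen (Icc 5 9) (fun k => B0 k)
    (fun k => 1 / ((k.factorial : ℕ) : ℝ)) (fun k _ => by positivity) hC0 1 msA_f0
  have hw1 : ∑ i ∈ (Ico 64 224) ×ˢ (Icc 4 9), 1 / ((i.2.factorial : ℕ) : ℝ) ≤ 160 := by
    refine (msA_w1 (Ico 64 224) (Icc 4 9) msA_f1).trans ?_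
    rw [Nat.card_Ico]
    norm_num
  obtain ⟨E1, hE1⟩ := msA_gen ((Ico 64 224) ×ˢ (Icc 4 9)) (fun i => B1 i.1 i.2)
    (fun i => 1 / ((i.2.factorial : ℕ) : ℝ)) (fun i _ => by positivity)
    (msA_c1 (Ico 64 224) (Icc 4 9) hC1) 160 hw1
  obtain ⟨E, hE⟩ : ∃ E : ℕ, E = 1 + E0 + E1 := ⟨_, rfl⟩
  have hE1' : 1 ≤ E := by omega
  have hL : ∀ᶠ J : ℕ in atTop, (4800000 : ℝ) ≤ Real.log J :=
    (Real.tendsto_log_atTop.comp tendsto_natCast_atTop_atTop).eventually_ge_atTop 4800000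
  filter_upwards [hE0 E (by omega), hE1 E (by omega), hl0 E hE1', hl1 E hE1', hL,
    eventually_ge_atTop 1] with J h0 h1 h2 h3 h4 h5
  intro j hj
  have hL0 : 0 < Real.log J := by linarith
  refine ⟨?_, ?_⟩
  · have h6 := h0 j hj
    simp only [← msA_RB0] at h6
    exact msA_end J j 0.08125 0.0813 _ _ 1 h5 hj (by norm_num) (by norm_num)
      (le_trans (by norm_num) h4) hL0 h6 (h2 j hj)
  · have h6 := h1 j hj
    simp only [← msA_RB1] at h6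
    exact msA_end J j 0.6485 0.6486 _ _ 160 h5 hj (by norm_num) (by norm_num)
      (le_trans (by norm_num) h4) hL0 h6 (h3 j hj)

end Pool.Agent.CA.FP
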