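import Pool.Agent.Lib.MP_d610d0_nt.CA.FP.Stm
import Pool.Agent.Lib.MP_d610d0_nt.CH.S.Stm
import Pool.Agent.Lib.MP_d610d0_nt.Mert
import Pool.Agent.Lib.MP_d610d0_nt.Mert2

set_option autoImplicit false

namespace Pool.Agent.CA.FP

open Finset Filter
open Pool.Agent.CH (VV)
open Pool.Agent.CH.S (Pr gd)
open Pool.Agent.Lib.MP_d610d0_nt (Asum Asum_lower Asum_upper Pm mem_Pm)

private theorem mvg_Asum_succ (k : ℕ) : Asum (k + 1) = Asum k +
    (if (k + 1).Prime then Real.log ((k + 1 : ℕ) : ℝ) / (((k + 1 : ℕ) : ℝ) - 1) else 0) := by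
  unfold Asum
  have h : Pm (k + 1) = if (k + 1).Prime then insert (k + 1) (Pm k) else Pm k := by
    ext p
    split_ifs with hc
    · rw [Finset.mem_insert, mem_Pm, mem_Pm]
      constructor
      · rintro ⟨h1, h2⟩
        rcases Nat.eq_or_lt_of_le h1 with h4 | h4
        · left; exact h4
        · right; exact ⟨by omega, h2⟩
      · rintro (h4 | ⟨h1, h2⟩)
        · subst h4; exact ⟨le_rfl, hc⟩
        · exact ⟨by omega, h2⟩
    · rw [mem_Pm, mem_Pm]
      constructor
      · rintro ⟨h1, h2⟩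
        rcases Nat.eq_or_lt_of_le h1 with h4 | h4
        · subst h4; exact absurd h2 hc
        · exact ⟨by omega, h2⟩
      · rintro ⟨h1, h2⟩
        exact ⟨by omega, h2⟩
  rw [h]
  split_ifs with hc
  · rw [Finset.sum_insert, add_comm]
    intro hm
    have := (mem_Pm.mp hm).1
    omega
  · ring

private theorem mvg_Pr_self (n : ℕ) : Pr n n = ∅ := by
  unfold Pr
  ext p
  simp only [mem_filter, mem_range, notMem_empty, iff_false]
  rintro ⟨h1, -, h2⟩
  omega

private theorem mvg_Pr_succ (n k : ℕ) (h : n ≤ k) :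
    Pr n (k + 1) = if k.Prime then insert k (Pr n k) else Pr n k := by
  unfold Pr
  ext p
  split_ifs with hc
  · simp only [mem_filter, mem_range, mem_insert]
    constructor
    · rintro ⟨h1, h2, h3⟩
      rcases Nat.lt_succ_iff_lt_or_eq.1 h1 with h4 | h4
      · right; exact ⟨h4, h2, h3⟩
      · left; exact h4
    · rintro (h4 | ⟨h1, h2, h3⟩)
      · subst h4; exact ⟨by omega, hc, h⟩
      · exact ⟨by omega, h2, h3⟩
  · simp only [mem_filter, mem_range]
    constructor
    · rintro ⟨h1, h2, h3⟩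
      rcases Nat.lt_succ_iff_lt_or_eq.1 h1 with h4 | h4
      · exact ⟨h4, h2, h3⟩
      · subst h4; exact absurd h2 hc
    · rintro ⟨h1, h2, h3⟩
      exact ⟨by omega, h2, h3⟩

private theorem mvg_not_mem (n k : ℕ) : k ∉ Pr n k := by
  unfold Pr
  simp

/-- One step of the partial summation. -/
private theorem mvg_step (a b D x A A' : ℝ) (ha : 1 ≤ a) (hab : a ≤ b) (hD : D = A - a + 1)
    (hD0 : 0 ≤ D) (hx : 1 < x) (hba : b - a ≤ 1 / x) :
    Real.log b - Real.log a - (1 / (x - 1) - 1 / x) - D / a ≤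
      (A' - A) / b - (A' - b + 1) / b := by
  have hb : 1 ≤ b := ha.trans hab
  have h1 : (A' - A) / b - (A' - b + 1) / b = -(D / b) + (b - a) / b := by
    rw [hD]
    field_simp
    ring
  have h2 : D / b ≤ D / a := div_le_div_of_nonneg_left hD0 (by linarith) hab
  have h3 : Real.log b - Real.log a ≤ (b - a) / a := by
    have h4 := Real.log_le_sub_one_of_pos (div_pos (by linarith : 0 < b) (by linarith : 0 < a))
    rw [Real.log_div (by linarith) (by linarith)] at h4
    have h5 : b / a - 1 = (b - a) / a := by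
      have : a ≠ 0 := by linarith
      field_simp
    linarith
  have h4 : (b - a) / a - (b - a) / b = (b - a) ^ 2 / (a * b) := by
    have h5 : a ≠ 0 := by linarith
    have h6 : b ≠ 0 := by linarith
    field_simp
  have h5 : (b - a) ^ 2 / (a * b) ≤ (b - a) ^ 2 := by
    apply div_le_self (sq_nonneg _)
    nlinarith
  have h6 : (b - a) ^ 2 ≤ (1 / x) ^ 2 := pow_le_pow_left₀ (by linarith) hba 2
  have h7 : (1 / x) ^ 2 ≤ 1 / (x - 1) - 1 / x := by
    have h8 : 1 / (x - 1) - 1 / x = 1 / (x * (x - 1)) := by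
      have h9 : x - 1 ≠ 0 := by linarith
      have h10 : x ≠ 0 := by linarith
      field_simp
      ring
    rw [h8, div_pow, one_pow]
    apply one_div_le_one_div_of_le
    · exact mul_pos (by linarith) (by linarith)
    · nlinarith
  linarith

/-- The lower bound for the sum of `gd`. -/
private theorem mvg_S (n : ℕ) (hn : 4000 ≤ n) (k : ℕ) (hk : n ≤ k) :
    Real.log (Real.log k) - Real.log (Real.log n) - 2 / Real.log n -
        (1 / ((n : ℝ) - 1) - 1 / ((k : ℝ) - 1)) ≤
      ∑ p ∈ Pr (n + 1) (k + 1), gd p - (Asum k - Real.log k + 1) / Real.log k := by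
  induction k, hk using Nat.le_induction with
  | base =>
    have hln : 0 < Real.log n := Real.log_pos (by exact_mod_cast (by omega : 1 < n))
    rw [mvg_Pr_self, sum_empty, zero_sub, sub_self, sub_self, sub_zero, zero_sub, neg_le_neg_iff]
    apply div_le_div_of_nonneg_right _ hln.le
    have h1 := Asum_upper (m := n) (by omega)
    linarith
  | succ k hk ih =>
    have hk4 : (4000 : ℝ) ≤ k := by exact_mod_cast (by omega : 4000 ≤ k)
    have hk0 : (0 : ℝ) < k := by linarith
    have hlk : 1 ≤ Real.log k := by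
      rw [Real.le_log_iff_exp_le hk0]
      have := Real.exp_one_lt_d9
      linarith
    have hlkk : Real.log k ≤ Real.log ((k + 1 : ℕ) : ℝ) := by
      apply Real.log_le_log hk0
      push_cast; linarith
    have hdk : Real.log ((k + 1 : ℕ) : ℝ) - Real.log k ≤ 1 / (k : ℝ) := by
      have h5 := Real.log_le_sub_one_of_pos (x := ((k + 1 : ℕ) : ℝ) / k)
        (div_pos (by push_cast; linarith) hk0)
      rw [Real.log_div (by push_cast; linarith) hk0.ne'] at h5
      have h6 : ((k + 1 : ℕ) : ℝ) / k - 1 = 1 / (k : ℝ) := by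
        push_cast
        field_simp
        ring
      linarith
    have hD0 : 0 ≤ Asum k - Real.log k + 1 := by
      have h1 := Asum_lower k
      have h2 : Real.log k ≤ Real.log ((k : ℝ) + 1) := Real.log_le_log hk0 (by linarith)
      linarith
    -- the increment
    have hS : ∑ p ∈ Pr (n + 1) (k + 1 + 1), gd p = ∑ p ∈ Pr (n + 1) (k + 1), gd p +
        (Asum (k + 1) - Asum k) / Real.log ((k + 1 : ℕ) : ℝ) := by
      have hlk1 : Real.log ((k + 1 : ℕ) : ℝ) ≠ 0 := by linarith
      rw [mvg_Pr_succ (n + 1) (k + 1) (by omega), mvg_Asum_succ]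
      split_ifs with hc
      · rw [sum_insert (mvg_not_mem _ _)]
        unfold gd
        have : ((k + 1 : ℕ) : ℝ) - 1 ≠ 0 := by
          push_cast
          have := hk0.ne'
          simpa using this
        field_simp
        ring
      · simp
    rw [hS]
    have h1 := mvg_step (Real.log k) (Real.log ((k + 1 : ℕ) : ℝ)) (Asum k - Real.log k + 1) k
      (Asum k) (Asum (k + 1)) hlk hlkk rfl hD0 (by linarith) hdk
    have h2 : ((k + 1 : ℕ) : ℝ) - 1 = k := by
      push_cast
      ring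
    rw [h2]
    linarith

/-- The product. -/
private theorem mvg_V (a b : ℕ) (ha : 3 ≤ a) :
    ∏ p ∈ Pr a b, (1 - gd p) ≤ Real.exp (-∑ p ∈ Pr a b, gd p) := by
  rw [← sum_neg_distrib, Real.exp_sum]
  apply Finset.prod_le_prod
  · intro p hp
    have hp3 : 3 ≤ p := by
      unfold Pr at hp
      rw [mem_filter] at hp
      omega
    have hp3' : (3 : ℝ) ≤ p := by exact_mod_cast hp3
    unfold gd
    have h1 : 1 / ((p : ℝ) - 1) ≤ 1 := by
      rw [div_le_one (by linarith)]
      linarith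
    linarith
  · intro p _
    have := Real.add_one_le_exp (-gd p)
    linarith

/-- Splitting the product. -/
private theorem mvg_split (a b : ℕ) (ha : 3 ≤ a) (hab : a ≤ b) :
    ∏ p ∈ (range b).filter (fun p : ℕ => p.Prime ∧ 2 < p), (1 - 1 / ((p : ℝ) - 1)) =
      (∏ p ∈ (range a).filter (fun p : ℕ => p.Prime ∧ 2 < p), (1 - 1 / ((p : ℝ) - 1))) *
        ∏ p ∈ Pr a b, (1 - gd p) := by
  have h1 : (range b).filter (fun p : ℕ => p.Prime ∧ 2 < p) =
      (range a).filter (fun p : ℕ => p.Prime ∧ 2 < p) ∪ Pr a b := by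
    unfold Pr
    ext p
    simp only [mem_filter, mem_range, mem_union]
    constructor
    · rintro ⟨h1, h2, h3⟩
      rcases lt_or_ge p a with h4 | h4
      · left; exact ⟨h4, h2, h3⟩
      · right; exact ⟨h1, h2, h4⟩
    · rintro (⟨h1, h2, h3⟩ | ⟨h1, h2, h3⟩)
      · exact ⟨by omega, h2, h3⟩
      · exact ⟨h1, h2, by omega⟩
  have h2 : Disjoint ((range a).filter (fun p : ℕ => p.Prime ∧ 2 < p)) (Pr a b) := by
    rw [Finset.disjoint_left]
    intro p hp hp2
    unfold Pr at hp2
    rw [mem_filter, mem_range] at hp hp2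
    omega
  rw [h1, prod_union h2]
  rfl

theorem p_mvg : S_mvg := by
  intro w w' ε hw hww hε
  have hw' : 0 < w' := lt_of_lt_of_le hw hww
  have hη : 0 < Real.log (1 + ε) := Real.log_pos (by linarith)
  obtain ⟨η, hηd⟩ : ∃ η, η = Real.log (1 + ε) := ⟨_, rfl⟩
  rw [← hηd] at hη
  have hT : Tendsto (fun J : ℕ => (J : ℝ) ^ w) atTop atTop :=
    (tendsto_rpow_atTop hw).comp tendsto_natCast_atTop_atTop
  filter_upwards [hT.eventually_ge_atTop (Real.exp (6 / η) + 2), hT.eventually_ge_atTop (2 / η + 3),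
    hT.eventually_ge_atTop 5000, eventually_ge_atTop 2] with J h1 h2 h3 hJ2
  have hJ1 : (1 : ℝ) < J := by exact_mod_cast (by omega : 1 < J)
  have hJ0 : (0 : ℝ) < J := by linarith
  have hLJ : 0 < Real.log J := Real.log_pos hJ1
  have hpow : (J : ℝ) ^ w ≤ (J : ℝ) ^ w' := Real.rpow_le_rpow_of_exponent_le hJ1.le hww
  have hm : ⌈(J : ℝ) ^ w⌉₊ ≤ ⌈(J : ℝ) ^ w'⌉₊ := Nat.ceil_mono hpow
  have hm1 : 5000 ≤ ⌈(J : ℝ) ^ w⌉₊ := by
    have := Nat.le_ceil ((J : ℝ) ^ w)
    have h4 : (5000 : ℝ) ≤ ⌈(J : ℝ) ^ w⌉₊ := by linarith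
    exact_mod_cast h4
  obtain ⟨n, hn⟩ : ∃ n, ⌈(J : ℝ) ^ w⌉₊ = n + 1 := ⟨⌈(J : ℝ) ^ w⌉₊ - 1, by omega⟩
  obtain ⟨k, hk⟩ : ∃ k, ⌈(J : ℝ) ^ w'⌉₊ = k + 1 := ⟨⌈(J : ℝ) ^ w'⌉₊ - 1, by omega⟩
  have hnk : n ≤ k := by omega
  have hn4 : 4000 ≤ n := by omega
  have hn4' : (4000 : ℝ) ≤ n := by exact_mod_cast hn4
  have hk4' : (4000 : ℝ) ≤ k := by exact_mod_cast (by omega : 4000 ≤ k)
  have hnJ : (n : ℝ) < (J : ℝ) ^ w := Nat.lt_ceil.1 (by omega)
  have hnJ2 : (J : ℝ) ^ w ≤ n + 1 := by
    have := Nat.le_ceil ((J : ℝ) ^ w)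
    rw [hn] at this
    push_cast at this
    exact this
  have hkJ2 : (J : ℝ) ^ w' ≤ k + 1 := by
    have := Nat.le_ceil ((J : ℝ) ^ w')
    rw [hk] at this
    push_cast at this
    exact this
  have hln : 0 < Real.log n := Real.log_pos (by linarith)
  have hlk : 0 < Real.log k := Real.log_pos (by linarith)
  have hlnk : Real.log n ≤ Real.log k := Real.log_le_log (by linarith) (by exact_mod_cast hnk)
  have hlnw : Real.log n ≤ w * Real.log J := by
    rw [← Real.log_rpow hJ0]
    exact Real.log_le_log (by linarith) hnJ.le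
  have hlkw : w' * Real.log J ≤ Real.log k + 1 := by
    rw [← Real.log_rpow hJ0]
    have h4 : Real.log ((J : ℝ) ^ w') ≤ Real.log (k + 1) :=
      Real.log_le_log (Real.rpow_pos_of_pos hJ0 _) hkJ2
    have h5 : Real.log ((k : ℝ) + 1) ≤ Real.log k + 1 := by
      have h5 := Real.log_le_sub_one_of_pos (x := ((k : ℝ) + 1) / k)
        (div_pos (by linarith) (by linarith))
      rw [Real.log_div (by linarith) (by linarith)] at h5
      have h6 : ((k : ℝ) + 1) / k - 1 ≤ 1 := by
        rw [sub_le_iff_le_add, div_le_iff₀ (by linarith)]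
        linarith
      linarith
    linarith
  -- the sum
  have hS := mvg_S n hn4 k hnk
  have hD0 : 0 ≤ (Asum k - Real.log k + 1) / Real.log k := by
    apply div_nonneg _ hlk.le
    have h4 := Asum_lower k
    have h5 : Real.log k ≤ Real.log ((k : ℝ) + 1) := Real.log_le_log (by linarith) (by linarith)
    linarith
  have h1k : 0 ≤ 1 / ((k : ℝ) - 1) := div_nonneg zero_le_one (by linarith)
  -- the logarithms
  have hl1 : Real.log (Real.log n) ≤ Real.log (w * Real.log J) := Real.log_le_log hln hlnw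
  have hl2 : Real.log (w' * Real.log J) ≤ Real.log (Real.log k) + 1 / Real.log n := by
    have h4 := Real.log_le_sub_one_of_pos (x := (w' * Real.log J) / Real.log k)
      (div_pos (mul_pos hw' hLJ) hlk)
    rw [Real.log_div (mul_pos hw' hLJ).ne' hlk.ne'] at h4
    have h5 : (w' * Real.log J) / Real.log k - 1 ≤ 1 / Real.log k := by
      rw [sub_le_iff_le_add, div_le_iff₀ hlk, add_mul, one_div, inv_mul_cancel₀ hlk.ne']
      linarith
    have h6 : 1 / Real.log k ≤ 1 / Real.log n := one_div_le_one_div_of_le hln hlnk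
    linarith
  have hl3 : Real.log (w * Real.log J) - Real.log (w' * Real.log J) = Real.log (w / w') := by
    rw [Real.log_mul hw.ne' hLJ.ne', Real.log_mul hw'.ne' hLJ.ne', Real.log_div hw.ne' hw'.ne']
    ring
  -- the error is small
  have he1 : 3 / Real.log n ≤ η / 2 := by
    have h4 : 6 / η ≤ Real.log n := by
      rw [Real.le_log_iff_exp_le (by linarith)]
      linarith
    rw [div_le_iff₀ hη] at h4
    rw [div_le_iff₀ hln]
    linarith
  have he2 : 1 / ((n : ℝ) - 1) ≤ η / 2 := by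
    have h4 : 2 / η ≤ (n : ℝ) - 1 := by linarith
    rw [div_le_iff₀ hη] at h4
    rw [div_le_iff₀ (by linarith)]
    linarith
  have hsum : -∑ p ∈ Pr (n + 1) (k + 1), gd p ≤ Real.log (w / w') + η := by
    have h6 : 3 / Real.log n = 2 / Real.log n + 1 / Real.log n := by
      rw [← add_div]; norm_num
    linarith
  have hV : ∏ p ∈ Pr (n + 1) (k + 1), (1 - gd p) ≤ (1 + ε) * (w / w') := by
    refine (mvg_V (n + 1) (k + 1) (by omega)).trans ?_
    refine (Real.exp_le_exp.2 hsum).trans ?_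
    rw [Real.exp_add, Real.exp_log (div_pos hw hw'), hηd, Real.exp_log (by linarith), mul_comm]
  have hV0 : 0 ≤ VV ((J : ℝ) ^ w) := by
    unfold VV
    apply prod_nonneg
    intro p hp
    rw [mem_filter] at hp
    have hp3 : (3 : ℝ) ≤ p := by exact_mod_cast hp.2.2
    have h4 : 1 / ((p : ℝ) - 1) ≤ 1 := by
      rw [div_le_one (by linarith)]
      linarith
    linarith
  have hfin : VV ((J : ℝ) ^ w') = VV ((J : ℝ) ^ w) * ∏ p ∈ Pr (n + 1) (k + 1), (1 - gd p) := by
    unfold VV
    rw [hn, hk]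
    exact mvg_split (n + 1) (k + 1) (by omega) (by omega)
  rw [hfin, mul_comm]
  exact mul_le_mul_of_nonneg_right hV hV0

end Pool.Agent.CA.FP
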