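import Pool.Agent.Lib.MP_d610d0_nt.CA.FP.P.kron

set_option autoImplicit false

/-!
Project CA, section FP: numerics, no small prime.
-/

namespace Pool.Agent.CA.FP

open Finset
open Pool.Agent.CA.SV (Us)

/-- The natural numbers for `aB`. -/
def aNF (i : ℕ) : ℕ := if 224 ≤ i then 10 ^ 8 * 10005 * (2 * i + 1) / (20000 * i * (i + 1)) + 1 else 0

/-- The natural numbers for `PhA`. -/
def pNF (r M : ℕ) : ℕ := if M < 1889 then 704 * 10 ^ 8 / max 224 (2112 - M - r) + 1 else 0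

theorem aA_nonneg (i : ℕ) : 0 ≤ aA i := by
  unfold aA
  positivity

theorem aB_nonneg (i : ℕ) : 0 ≤ aB i := by
  unfold aB
  split_ifs
  · exact aA_nonneg i
  · exact le_refl _

theorem PhA_nonneg (r M : ℕ) : 0 ≤ PhA r M := by
  unfold PhA
  split_ifs
  · positivity
  · exact le_refl _

theorem aA_le (i : ℕ) (hi : 1 ≤ i) :
    (10 : ℝ) ^ 8 * aA i ≤ ((10 ^ 8 * 10005 * (2 * i + 1) / (20000 * i * (i + 1)) + 1 : ℕ) : ℝ) := by
  refine le_trans (le_of_eq ?_) (kr_div (10 ^ 8 * 10005 * (2 * i + 1)) (20000 * i * (i + 1)))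
  unfold aA
  have h1 : (0 : ℝ) < i := by exact_mod_cast hi
  push_cast
  field_simp
  norm_num

theorem aB_le (i : ℕ) : (10 : ℝ) ^ 8 * aB i ≤ (aNF i : ℝ) := by
  unfold aB aNF
  by_cases h : 224 ≤ i
  · rw [if_pos h, if_pos h]
    exact aA_le i (by omega)
  · rw [if_neg h, if_neg h]
    simp

theorem PhA_le (r M : ℕ) : (10 : ℝ) ^ 8 * PhA r M ≤ (pNF r M : ℝ) := by
  unfold PhA pNF
  by_cases h : M < 1889
  · rw [if_pos h, if_pos h]
    refine le_trans (le_of_eq ?_) (kr_div (704 * 10 ^ 8) (max 224 (2112 - M - r)))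
    push_cast
    ring
  · rw [if_neg h, if_neg h]
    simp

theorem pNF_zero (r M : ℕ) (h : 1889 ≤ M) : pNF r M = 0 := by
  unfold pNF
  rw [if_neg (by omega)]

theorem nA0_key (r V : ℕ)
    (h1 : (evN (fun i => aNF (1889 - 1 - i)) 1 1889) ^ r * evN (pNF r) 1 1889 < 2 ^ 320)
    (h2 : (evN (fun i => aNF (1889 - 1 - i)) (2 ^ 320) 1889) ^ r * evN (pNF r) (2 ^ 320) 1889 /
      (2 ^ 320) ^ (1889 - 1) % 2 ^ 320 ≤ V) :
    ((Us 1889 aB)^[r] (PhA r)) 0 ≤ (V : ℝ) / (10 ^ 8) ^ (r + 1) := by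
  have h3 := (kr_le 1889 aB (PhA r) aNF (pNF r) (10 ^ 8) (by norm_num) aB_nonneg (PhA_nonneg r)
    (fun i _ => aB_le i) (PhA_le r) r 0).2
  rw [kron1 1889 r aNF (pNF r) (2 ^ 320) (by norm_num) (pNF_zero r) h1] at h3
  rw [le_div_iff₀ (by positivity), mul_comm]
  refine le_trans h3 ?_
  exact_mod_cast h2

theorem nA0_4 : ((Us 1889 aB)^[4] (PhA 4)) 0 ≤ 3.05804 := by
  have h := nA0_key 4 (305804 * 10 ^ 35) (by decide +kernel) (by decide +kernel)
  refine le_trans h (le_of_eq ?_)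
  norm_num

theorem nA0_5 : ((Us 1889 aB)^[5] (PhA 5)) 0 ≤ 1.1024 := by
  have h := nA0_key 5 (11024 * 10 ^ 44) (by decide +kernel) (by decide +kernel)
  refine le_trans h (le_of_eq ?_)
  norm_num

theorem nA0_6 : ((Us 1889 aB)^[6] (PhA 6)) 0 ≤ 0.13747 := by
  have h := nA0_key 6 (13747 * 10 ^ 51) (by decide +kernel) (by decide +kernel)
  refine le_trans h (le_of_eq ?_)
  norm_num

theorem nA0_7 : ((Us 1889 aB)^[7] (PhA 7)) 0 ≤ 0.00241 := by
  have h := nA0_key 7 (241 * 10 ^ 59) (by decide +kernel) (by decide +kernel)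
  refine le_trans h (le_of_eq ?_)
  norm_num

theorem nA0_8 : ((Us 1889 aB)^[8] (PhA 8)) 0 ≤ 0.0000001 := by
  have h := nA0_key 8 (10 ^ 65) (by decide +kernel) (by decide +kernel)
  refine le_trans h (le_of_eq ?_)
  norm_num

theorem p_nA0 : S_nA0 := by
  unfold S_nA0 R_nA0
  have e : (Icc 5 9 : Finset ℕ) = {5, 6, 7, 8, 9} := by decide
  rw [e, sum_insert (by decide), sum_insert (by decide), sum_insert (by decide),
    sum_insert (by decide), sum_singleton]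
  have f5 : ((Nat.factorial 5 : ℕ) : ℝ) = 120 := by norm_num [Nat.factorial]
  have f6 : ((Nat.factorial 6 : ℕ) : ℝ) = 720 := by norm_num [Nat.factorial]
  have f7 : ((Nat.factorial 7 : ℕ) : ℝ) = 5040 := by norm_num [Nat.factorial]
  have f8 : ((Nat.factorial 8 : ℕ) : ℝ) = 40320 := by norm_num [Nat.factorial]
  have f9 : ((Nat.factorial 9 : ℕ) : ℝ) = 362880 := by norm_num [Nat.factorial]
  rw [f5, f6, f7, f8, f9]
  have h4 := nA0_4
  have h5 := nA0_5
  have h6 := nA0_6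
  have h7 := nA0_7
  have h8 := nA0_8
  norm_num only [show 5 - 1 = 4 from rfl, show 6 - 1 = 5 from rfl, show 7 - 1 = 6 from rfl,
    show 8 - 1 = 7 from rfl, show 9 - 1 = 8 from rfl] at *
  linarith

end Pool.Agent.CA.FP
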