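import Pool.Agent.Lib.MP_d610d0_nt.CA.FP.P.nA0

set_option autoImplicit false

/-!
Project CA, section FP: numerics, one small prime.
-/

namespace Pool.Agent.CA.FP

open Finset
open Pool.Agent.CA.SV (Us)

/-- The natural numbers for the cells of the small prime. -/
def qNF (i : ℕ) : ℕ :=
  if 64 ≤ i ∧ i < 224 then 10 ^ 8 * 10005 * (2 * i + 1) / (20000 * i * (i + 1)) + 1 else 0

theorem nA1_key (k r V : ℕ)
    (h1 : evN (fun i => qNF (1889 - 1 - i)) 1 1889 *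
      ((evN (fun i => aNF (1889 - 1 - i)) 1 1889) ^ r * evN (pNF k) 1 1889) < 2 ^ 320)
    (h2 : evN (fun i => qNF (1889 - 1 - i)) (2 ^ 320) 1889 *
      ((evN (fun i => aNF (1889 - 1 - i)) (2 ^ 320) 1889) ^ r * evN (pNF k) (2 ^ 320) 1889) /
      (2 ^ 320) ^ (1889 - 1) % 2 ^ 320 ≤ V) :
    ∑ c ∈ Ico 64 224, aA c * ((Us 1889 aB)^[r] (fun i => PhA k (c + i))) 0 ≤
      (V : ℝ) / (10 ^ 8) ^ (r + 2) := by
  have h3 : ∀ s, 0 ≤ ((Us 1889 aB)^[r] (PhA k)) s ∧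
      (10 ^ 8) ^ (r + 1) * ((Us 1889 aB)^[r] (PhA k)) s ≤ (((UsN 1889 aNF)^[r] (pNF k)) s : ℕ) :=
    kr_le 1889 aB (PhA k) aNF (pNF k) (10 ^ 8) (by norm_num) aB_nonneg (PhA_nonneg k)
      (fun i _ => aB_le i) (PhA_le k) r
  have h4 := kron2 1889 r qNF aNF (pNF k) (2 ^ 320) (by norm_num) (pNF_zero k) h1
  rw [le_div_iff₀ (by positivity), sum_mul]
  have h5 : ∑ c ∈ Ico 64 224, aA c * ((Us 1889 aB)^[r] (fun i => PhA k (c + i))) 0 *
      (10 ^ 8) ^ (r + 2) ≤ ((UsN 1889 qNF ((UsN 1889 aNF)^[r] (pNF k)) 0 : ℕ) : ℝ) := by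
    unfold UsN
    push_cast
    have h6 : ∑ c ∈ Ico 64 224, aA c * ((Us 1889 aB)^[r] (fun i => PhA k (c + i))) 0 *
        (10 ^ 8) ^ (r + 2) ≤ ∑ c ∈ Ico 64 224, (qNF c : ℝ) *
          (((UsN 1889 aNF)^[r] (pNF k)) (0 + c) : ℕ) := by
      apply sum_le_sum
      intro c hc
      rw [mem_Ico] at hc
      rw [kr_shift 1889 aB (PhA k) c r 0]
      have h7 := h3 (c + 0)
      rw [show 0 + c = c + 0 by omega]
      have h8 : (10 : ℝ) ^ 8 * aA c ≤ (qNF c : ℝ) := by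
        unfold qNF
        rw [if_pos ⟨hc.1, hc.2⟩]
        exact aA_le c (by omega)
      calc aA c * ((Us 1889 aB)^[r] (PhA k)) (c + 0) * (10 ^ 8) ^ (r + 2)
          = (10 ^ 8 * aA c) * ((10 ^ 8) ^ (r + 1) * ((Us 1889 aB)^[r] (PhA k)) (c + 0)) := by ring
        _ ≤ (qNF c : ℝ) * (((UsN 1889 aNF)^[r] (pNF k)) (c + 0) : ℕ) := by
            apply mul_le_mul h8 h7.2 _ (Nat.cast_nonneg _)
            exact mul_nonneg (by positivity) h7.1
    refine le_trans h6 ?_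
    apply sum_le_sum_of_subset_of_nonneg
    · intro i hi
      rw [mem_Ico] at hi
      rw [mem_range]
      omega
    · intro i _ _
      exact mul_nonneg (Nat.cast_nonneg _) (Nat.cast_nonneg _)
  refine le_trans h5 ?_
  rw [h4]
  exact_mod_cast h2

theorem nA1_4 : ∑ c ∈ Ico 64 224, aA c * ((Us 1889 aB)^[3] (fun i => PhA 4 (c + i))) 0 ≤ 4.5802 := by
  have h := nA1_key 4 3 (45802 * 10 ^ 36) (by decide +kernel) (by decide +kernel)
  refine le_trans h (le_of_eq ?_)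
  norm_num

theorem nA1_5 : ∑ c ∈ Ico 64 224, aA c * ((Us 1889 aB)^[4] (fun i => PhA 5 (c + i))) 0 ≤ 2.8872 := by
  have h := nA1_key 5 4 (28872 * 10 ^ 44) (by decide +kernel) (by decide +kernel)
  refine le_trans h (le_of_eq ?_)
  norm_num

theorem nA1_6 : ∑ c ∈ Ico 64 224, aA c * ((Us 1889 aB)^[5] (fun i => PhA 6 (c + i))) 0 ≤ 0.7858 := by
  have h := nA1_key 6 5 (7858 * 10 ^ 52) (by decide +kernel) (by decide +kernel)
  refine le_trans h (le_of_eq ?_)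
  norm_num

theorem nA1_7 : ∑ c ∈ Ico 64 224, aA c * ((Us 1889 aB)^[6] (fun i => PhA 7 (c + i))) 0 ≤ 0.0567 := by
  have h := nA1_key 7 6 (567 * 10 ^ 60) (by decide +kernel) (by decide +kernel)
  refine le_trans h (le_of_eq ?_)
  norm_num

theorem nA1_8 : ∑ c ∈ Ico 64 224, aA c * ((Us 1889 aB)^[7] (fun i => PhA 8 (c + i))) 0 ≤ 0.0003 := by
  have h := nA1_key 8 7 (3 * 10 ^ 68) (by decide +kernel) (by decide +kernel)
  refine le_trans h (le_of_eq ?_)
  norm_num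

theorem nA1_9 : ∑ c ∈ Ico 64 224, aA c * ((Us 1889 aB)^[8] (fun i => PhA 9 (c + i))) 0 ≤ 0.0000001 := by
  have h := nA1_key 9 8 (10 ^ 73) (by decide +kernel) (by decide +kernel)
  refine le_trans h (le_of_eq ?_)
  norm_num

theorem p_nA1 : S_nA1 := by
  unfold S_nA1 R_nA1
  have e : (Icc 4 9 : Finset ℕ) = {4, 5, 6, 7, 8, 9} := by decide
  rw [e, sum_insert (by decide), sum_insert (by decide), sum_insert (by decide),
    sum_insert (by decide), sum_insert (by decide), sum_singleton]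
  have f4 : ((Nat.factorial 4 : ℕ) : ℝ) = 24 := by norm_num [Nat.factorial]
  have f5 : ((Nat.factorial 5 : ℕ) : ℝ) = 120 := by norm_num [Nat.factorial]
  have f6 : ((Nat.factorial 6 : ℕ) : ℝ) = 720 := by norm_num [Nat.factorial]
  have f7 : ((Nat.factorial 7 : ℕ) : ℝ) = 5040 := by norm_num [Nat.factorial]
  have f8 : ((Nat.factorial 8 : ℕ) : ℝ) = 40320 := by norm_num [Nat.factorial]
  have f9 : ((Nat.factorial 9 : ℕ) : ℝ) = 362880 := by norm_num [Nat.factorial]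
  rw [f4, f5, f6, f7, f8, f9]
  have h4 := nA1_4
  have h5 := nA1_5
  have h6 := nA1_6
  have h7 := nA1_7
  have h8 := nA1_8
  have h9 := nA1_9
  rw [show 4 - 1 = 3 from rfl, show 5 - 1 = 4 from rfl, show 6 - 1 = 5 from rfl,
    show 7 - 1 = 6 from rfl, show 8 - 1 = 7 from rfl, show 9 - 1 = 8 from rfl]
  linarith

end Pool.Agent.CA.FP
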