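import Pool.Agent.Lib.MP_d610d0_nt.CA.FP.Stm

set_option autoImplicit false

/-!
Piece `nE0`: the number of the tuples and the size of the largest term.
-/

namespace Pool.Agent.CA.FP

open Finset
open Pool.Agent.CA.SV (Us)

/-- The number of the `r`-tuples of numbers `≥ 224` with sum `≤ 950 - s`. -/
def nE0_N (r s : ℕ) : ℕ := if s + 224 * r ≤ 950 then Nat.choose (950 - s - 224 * r + r) r else 0

lemma nE0_rec (r s : ℕ) : nE0_N (r + 1) s = nE0_N (r + 1) (s + 1) + nE0_N r (s + 224) := by
  unfold nE0_N
  by_cases h : s + 224 * (r + 1) ≤ 950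
  · rw [if_pos h, if_pos (by omega : s + 224 + 224 * r ≤ 950)]
    by_cases h1 : s + 1 + 224 * (r + 1) ≤ 950
    · rw [if_pos h1]
      obtain ⟨M, hM⟩ : ∃ M, 950 - s - 224 * (r + 1) = M + 1 := ⟨950 - s - 224 * (r + 1) - 1, by omega⟩
      have e1 : 950 - (s + 1) - 224 * (r + 1) = M := by omega
      have e2 : 950 - (s + 224) - 224 * r = M + 1 := by omega
      rw [hM, e1, e2, show M + 1 + (r + 1) = (M + 1 + r) + 1 by ring, Nat.choose_succ_succ,
        show M + (r + 1) = M + 1 + r by ring]
      ring
    · rw [if_neg h1]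
      have e1 : 950 - s - 224 * (r + 1) = 0 := by omega
      have e2 : 950 - (s + 224) - 224 * r = 0 := by omega
      rw [e1, e2]
      simp
  · rw [if_neg h, if_neg (by omega), if_neg (by omega)]

lemma nE0_aB (i : ℕ) : 0 ≤ aB (224 + i) ∧ aB (224 + i) ≤ 0.0044567 := by
  unfold aB aA
  rw [if_pos (by omega)]
  have h0 : (224 : ℝ) ≤ ((224 + i : ℕ) : ℝ) := by exact_mod_cast (by omega : 224 ≤ 224 + i)
  generalize ((224 + i : ℕ) : ℝ) = x at h0
  constructor
  · positivity
  · have e : 1.0005 * (2 * x + 1) / (2 * x * (x + 1)) = 1.0005 / 2 * (1 / x + 1 / (x + 1)) := by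
      field_simp
      ring
    rw [e]
    have h1 : 1 / x ≤ 1 / 224 := one_div_le_one_div_of_le (by norm_num) h0
    have h2 : 1 / (x + 1) ≤ 1 / 225 := one_div_le_one_div_of_le (by norm_num) (by linarith)
    have h3 : 1.0005 / 2 * (1 / x + 1 / (x + 1)) ≤ 1.0005 / 2 * (1 / 224 + 1 / 225) := by
      apply mul_le_mul_of_nonneg_left (by linarith) (by norm_num)
    refine h3.trans ?_
    norm_num

lemma nE0_iter (r : ℕ) : ∀ s : ℕ, 0 ≤ ((Us 951 aB)^[r] (In 951)) s ∧
    ((Us 951 aB)^[r] (In 951)) s ≤ (0.0044567 : ℝ) ^ r * (nE0_N r s : ℝ) := by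
  induction r with
  | zero =>
    intro s
    simp only [Function.iterate_zero, id_eq, pow_zero, one_mul]
    unfold In nE0_N
    by_cases h : s < 951
    · rw [if_pos h, if_pos (by omega)]
      simp
    · rw [if_neg h, if_neg (by omega)]
      simp
  | succ r ih =>
    intro s
    rw [Function.iterate_succ_apply']
    set f := (Us 951 aB)^[r] (In 951) with hf
    have e : Us 951 aB f s = ∑ x ∈ range 727, aB (224 + x) * f (s + (224 + x)) := by
      unfold Us
      rw [show (951 : ℕ) = 224 + 727 by norm_num, Finset.sum_range_add]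
      have : ∑ x ∈ range 224, aB x * f (s + x) = 0 := by
        apply Finset.sum_eq_zero
        intro x hx
        have hx' := Finset.mem_range.1 hx
        unfold aB
        rw [if_neg (by omega), zero_mul]
      rw [this, zero_add]
    rw [e]
    constructor
    · apply Finset.sum_nonneg
      intro x _
      exact mul_nonneg (nE0_aB x).1 (ih _).1
    · calc ∑ x ∈ range 727, aB (224 + x) * f (s + (224 + x))
          ≤ ∑ x ∈ range 727, (0.0044567 : ℝ) ^ (r + 1) *
            ((nE0_N (r + 1) (s + x) : ℝ) - (nE0_N (r + 1) (s + (x + 1)) : ℝ)) := by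
            apply Finset.sum_le_sum
            intro x _
            have h1 := nE0_rec r (s + x)
            have h2 : (nE0_N (r + 1) (s + x) : ℝ)
                = (nE0_N (r + 1) (s + x + 1) : ℝ) + (nE0_N r (s + x + 224) : ℝ) := by
              exact_mod_cast h1
            rw [h2, show s + (x + 1) = s + x + 1 by ring, show s + (224 + x) = s + x + 224 by ring]
            have h3 := ih (s + x + 224)
            have h4 := nE0_aB x
            calc aB (224 + x) * f (s + x + 224)
                ≤ 0.0044567 * ((0.0044567 : ℝ) ^ r * (nE0_N r (s + x + 224) : ℝ)) :=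
                  mul_le_mul h4.2 h3.2 h3.1 (by norm_num)
              _ = _ := by rw [pow_succ]; ring
        _ = (0.0044567 : ℝ) ^ (r + 1) *
            ((nE0_N (r + 1) (s + 0) : ℝ) - (nE0_N (r + 1) (s + 727) : ℝ)) := by
            rw [← Finset.mul_sum, Finset.sum_range_sub' (fun x => (nE0_N (r + 1) (s + x) : ℝ))]
        _ ≤ _ := by
            apply mul_le_mul_of_nonneg_left _ (by positivity)
            have e0 : (nE0_N (r + 1) (s + 0) : ℝ) = (nE0_N (r + 1) s : ℝ) := rfl
            have : (0 : ℝ) ≤ (nE0_N (r + 1) (s + 727) : ℝ) := Nat.cast_nonneg _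
            linarith

theorem p_nE0 : S_nE0 := by
  have h := (nE0_iter 4 0).2
  have h1 : nE0_N 4 0 = 424270 := by decide +kernel
  rw [h1] at h
  unfold S_nE0 R_nE0
  norm_num at h ⊢
  linarith

end Pool.Agent.CA.FP
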