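import Pool.Agent.Lib.MP_d610d0_nt.CA.FP.Stm

/-!
Project CA, section FP, piece nE1: numerics, cofactors with one small prime.
-/

set_option autoImplicit false

namespace Pool.Agent.CA.FP

open Finset Filter
open Pool.Agent.CA.SV (Us)

/-- integer upper bound for `10 ^ 12 * aA i` -/
def nE1_a (i : ℕ) : ℕ := 10 ^ 12 * 10005 * (2 * i + 1) / (20000 * i * (i + 1)) + 1

/-- one step of the recursion with natural numbers -/
def nE1_U (Φ : ℕ → ℕ) : ℕ → ℕ := fun s => ∑ i ∈ range 35, nE1_a (224 + i) * Φ (s + i)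

/-- the start of the recursion -/
def nE1_I (s : ℕ) : ℕ := if s < 35 then 1 else 0

private lemma nE1_a_le {i : ℕ} (hi : 0 < i) : aA i ≤ (nE1_a i : ℝ) / 10 ^ 12 := by
  have hi' : (0 : ℝ) < i := by exact_mod_cast hi
  have hden : 0 < 20000 * i * (i + 1) := by positivity
  have h1 : 10 ^ 12 * 10005 * (2 * i + 1) < nE1_a i * (20000 * i * (i + 1)) := by
    unfold nE1_a
    exact Nat.lt_mul_of_div_lt (Nat.lt_succ_self _) hden
  have h2 : (10 : ℝ) ^ 12 * 10005 * (2 * i + 1) ≤ nE1_a i * (20000 * i * (i + 1)) := by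
    exact_mod_cast h1.le
  unfold aA
  rw [div_le_div_iff₀ (by positivity) (by positivity)]
  linarith

private lemma nE1_a_nn (i : ℕ) : 0 ≤ aA i := by
  unfold aA
  positivity

/-- the shift -/
private lemma nE1_shift {b : ℕ} {Φ ψ : ℕ → ℝ} (h : ∀ t, ψ t = Φ (b + 224 + t))
    (h0 : ∀ t, 35 ≤ t → ψ t = 0) :
    (∀ t, Us 35 (fun i => aA (224 + i)) ψ t = Us 707 aB Φ (b + t)) ∧
    ∀ t, 35 ≤ t → Us 35 (fun i => aA (224 + i)) ψ t = 0 := by
  constructor
  · intro t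
    unfold Us
    rw [show (707 : ℕ) = 224 + (35 + 448) by norm_num, Finset.sum_range_add, Finset.sum_range_add]
    have h1 : ∑ i ∈ range 224, aB i * Φ (b + t + i) = 0 := by
      refine Finset.sum_eq_zero fun i hi => ?_
      have := Finset.mem_range.1 hi
      unfold aB
      rw [if_neg (by omega), zero_mul]
    have h2 : ∑ i ∈ range 448, aB (224 + (35 + i)) * Φ (b + t + (224 + (35 + i))) = 0 := by
      refine Finset.sum_eq_zero fun i _ => ?_
      have := h0 (t + (35 + i)) (by omega)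
      rw [h] at this
      rw [show b + t + (224 + (35 + i)) = b + 224 + (t + (35 + i)) by ring, this, mul_zero]
    rw [h1, h2, zero_add, add_zero]
    refine Finset.sum_congr rfl fun i _ => ?_
    rw [h, show b + t + (224 + i) = b + 224 + (t + i) by ring]
    unfold aB
    rw [if_pos (by omega)]
  · intro t ht
    unfold Us
    exact Finset.sum_eq_zero fun i _ => by rw [h0 (t + i) (by omega), mul_zero]

/-- the comparison -/
private lemma nE1_cmp {k : ℕ} {ψ : ℕ → ℝ} {Φ : ℕ → ℕ}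
    (h : ∀ t, 0 ≤ ψ t ∧ ψ t ≤ (Φ t : ℝ) / (10 ^ 12) ^ k) :
    ∀ t, 0 ≤ Us 35 (fun i => aA (224 + i)) ψ t ∧
      Us 35 (fun i => aA (224 + i)) ψ t ≤ (nE1_U Φ t : ℝ) / (10 ^ 12) ^ (k + 1) := by
  intro t
  unfold Us nE1_U
  constructor
  · exact Finset.sum_nonneg fun i _ => mul_nonneg (nE1_a_nn _) (h _).1
  · push_cast
    rw [Finset.sum_div]
    refine Finset.sum_le_sum fun i _ => ?_
    calc aA (224 + i) * ψ (t + i)
        ≤ ((nE1_a (224 + i) : ℝ) / 10 ^ 12) * ((Φ (t + i) : ℝ) / (10 ^ 12) ^ k) :=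
          mul_le_mul (nE1_a_le (by omega)) (h _).2 (h _).1 (by positivity)
      _ = _ := by rw [div_mul_div_comm, pow_succ' ((10 : ℝ) ^ 12) k]

private lemma nE1_num : (∑ c ∈ Ico 64 224, nE1_a c) * (nE1_U (nE1_U (nE1_U nE1_I)) 0) * 100000 ≤
    78 * 10 ^ 48 := by
  decide +kernel

theorem p_nE1 : S_nE1 := by
  change _ ≤ _
  have hI : ∀ t, In 35 t = In 707 (448 + 224 + t) := by
    intro t
    unfold In
    by_cases h : t < 35
    · rw [if_pos h, if_pos (by omega)]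
    · rw [if_neg h, if_neg (by omega)]
  have hI0 : ∀ t, 35 ≤ t → In 35 t = 0 := fun t ht => by
    unfold In
    rw [if_neg (by omega)]
  obtain ⟨a1, a0⟩ := nE1_shift (b := 448) hI hI0
  obtain ⟨b1, b0⟩ := nE1_shift (b := 224) (Φ := Us 707 aB (In 707)) (fun t => by
    rw [a1 t]) a0
  obtain ⟨c1, _⟩ := nE1_shift (b := 0) (Φ := Us 707 aB (Us 707 aB (In 707))) (fun t => by
    rw [b1 t, zero_add]) b0
  have hJ : ∀ t, 0 ≤ In 35 t ∧ In 35 t ≤ (nE1_I t : ℝ) / (10 ^ 12) ^ 0 := by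
    intro t
    unfold In nE1_I
    split_ifs <;> simp
  have h3 := (nE1_cmp (nE1_cmp (nE1_cmp hJ)) 0)
  have h4 : ((Us 707 aB)^[3] (In 707)) 0 = Us 707 aB (Us 707 aB (Us 707 aB (In 707))) (0 + 0) := rfl
  rw [h4, ← c1 0]
  obtain ⟨h3a, h3b⟩ := h3
  rw [← Finset.sum_mul]
  have h5 : ∑ c ∈ Ico 64 224, aA c ≤ ((∑ c ∈ Ico 64 224, nE1_a c : ℕ) : ℝ) / 10 ^ 12 := by
    rw [Nat.cast_sum, Finset.sum_div]
    refine Finset.sum_le_sum fun c hc => nE1_a_le ?_
    have := (Finset.mem_Ico.1 hc).1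
    omega
  have hnum := nE1_num
  generalize (∑ c ∈ Ico 64 224, nE1_a c) = A at hnum h5
  generalize nE1_U (nE1_U (nE1_U nE1_I)) 0 = B at hnum h3b
  have h6 : ((A * B * 100000 : ℕ) : ℝ) ≤ ((78 * 10 ^ 48 : ℕ) : ℝ) := Nat.cast_le.2 hnum
  push_cast at h6
  have hA : (0 : ℝ) ≤ (A : ℝ) / 10 ^ 12 := div_nonneg (Nat.cast_nonneg A) (by norm_num)
  have h7 := mul_le_mul h5 h3b h3a hA
  have h8 : (A : ℝ) / 10 ^ 12 * ((B : ℝ) / (10 ^ 12) ^ (0 + 1 + 1 + 1)) ≤ 78 / 100000 := by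
    rw [div_mul_div_comm, div_le_div_iff₀ (by positivity) (by norm_num)]
    norm_num at h6 ⊢
    linarith
  linarith

end Pool.Agent.CA.FP
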