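import Pool.Agent.Lib.MP_d610d0_nt.CA.FP.Stm

set_option autoImplicit false

/-!
Piece [CA FP oneA] of MP_d610d0_nt: the lower bound for the number of primes in one window.
-/

namespace Pool.Agent.CA.FP

open Finset
open scoped ArithmeticFunction.Omega
open Pool.Agent.CH (zJ wJ Rough VV thP)
open Pool.Agent.CH.F (mu)

private lemma oneA_th (J p : ℕ) (hJ1 : 1 ≤ J) (hp : p ∈ Icc 1 (27 * J ^ 3)) :
    0 ≤ thP p ∧ thP p ≤ 3 * Real.log J + 4 := by
  rw [mem_Icc] at hp
  have hJR : (1 : ℝ) ≤ (J : ℝ) := by exact_mod_cast hJ1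
  have hp1 : (1 : ℝ) ≤ (p : ℝ) := by exact_mod_cast hp.1
  have hp2 : (p : ℝ) ≤ 27 * (J : ℝ) ^ 3 := by exact_mod_cast hp.2
  have hlog : 0 ≤ Real.log J := Real.log_nonneg hJR
  have h27 : Real.log 27 ≤ 4 := by
    rw [Real.log_le_iff_le_exp (by norm_num)]
    have h3 := Real.exp_one_gt_d9
    have h4 : Real.exp 4 = Real.exp 1 ^ 4 := by
      rw [← Real.exp_nat_mul]
      norm_num
    rw [h4]
    have h5 : (2.7 : ℝ) ^ 4 ≤ Real.exp 1 ^ 4 := pow_le_pow_left₀ (by norm_num) (by linarith) 4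
    norm_num at h5
    linarith
  unfold thP
  split_ifs with h
  · refine ⟨Real.log_nonneg hp1, ?_⟩
    have h3 : Real.log p ≤ Real.log (27 * (J : ℝ) ^ 3) := Real.log_le_log (by linarith) hp2
    rw [Real.log_mul (by norm_num) (by positivity), Real.log_pow] at h3
    push_cast at h3
    linarith
  · exact ⟨le_refl _, by linarith⟩

private lemma oneA_ev : ∀ᶠ J : ℕ in Filter.atTop, 10000 ≤ Real.log J ∧
    (J : ℝ) ^ (23 / 12 : ℝ) + 108 ≤ (J : ℝ) ^ 2 / Real.log J ^ 3 ∧ 2 < za J := by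
  have h1 : ∀ᶠ x : ℝ in Filter.atTop, 10000 ≤ Real.log x :=
    Real.tendsto_log_atTop.eventually_ge_atTop 10000
  have h3 : ∀ᶠ x : ℝ in Filter.atTop, ‖Real.log x ^ (3 : ℝ)‖ ≤ (1 / 109) * ‖x ^ (1 / 12 : ℝ)‖ :=
    (isLittleO_log_rpow_rpow_atTop (3 : ℝ) (show (0 : ℝ) < 1 / 12 by norm_num)).bound
      (by norm_num)
  have h4 : ∀ᶠ x : ℝ in Filter.atTop, (1 : ℝ) ≤ x := Filter.eventually_ge_atTop 1
  have h6 : ∀ᶠ x : ℝ in Filter.atTop, (2 : ℝ) < x ^ (1 / 11 : ℝ) :=
    (tendsto_rpow_atTop (show (0 : ℝ) < 1 / 11 by norm_num)).eventually_gt_atTop 2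
  have h5 : ∀ᶠ x : ℝ in Filter.atTop, 10000 ≤ Real.log x ∧
      x ^ (23 / 12 : ℝ) + 108 ≤ x ^ 2 / Real.log x ^ 3 ∧ (2 : ℝ) < x ^ (1 / 11 : ℝ) := by
    filter_upwards [h1, h3, h4, h6] with x a c d e
    refine ⟨a, ?_, e⟩
    have e1 : (1 : ℝ) ≤ x ^ (23 / 12 : ℝ) := Real.one_le_rpow d (by norm_num)
    have e2 : 0 < Real.log x ^ 3 := by positivity
    rw [le_div_iff₀ e2]
    have e3 : Real.log x ^ (3 : ℝ) = Real.log x ^ 3 := by
      rw [show (3 : ℝ) = ((3 : ℕ) : ℝ) by norm_num, Real.rpow_natCast]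
    rw [e3, Real.norm_of_nonneg e2.le, Real.norm_of_nonneg (by positivity)] at c
    have e4 : x ^ (23 / 12 : ℝ) * x ^ (1 / 12 : ℝ) = x ^ 2 := by
      rw [← Real.rpow_add (by linarith), ← Real.rpow_natCast]
      norm_num
    have e5 : (0 : ℝ) ≤ x ^ (23 / 12 : ℝ) := by linarith
    calc (x ^ (23 / 12 : ℝ) + 108) * Real.log x ^ 3
        ≤ (109 * x ^ (23 / 12 : ℝ)) * (1 / 109 * x ^ (1 / 12 : ℝ)) :=
          mul_le_mul (by linarith) c e2.le (by linarith)
      _ = x ^ (23 / 12 : ℝ) * x ^ (1 / 12 : ℝ) := by ring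
      _ = x ^ 2 := e4
  exact (tendsto_natCast_atTop_atTop (R := ℝ)).eventually h5

private lemma oneA_q12 (J j q : ℕ) (hJ : 1 ≤ J) (hz : 2 < za J) (hj : j ≤ 2 * J) (hq : za J ≤ q) :
    j < q ^ 12 := by
  have hJR : (1 : ℝ) ≤ (J : ℝ) := by exact_mod_cast hJ
  have h0 : (0 : ℝ) ≤ za J := by linarith
  have h11 : za J ^ 11 = J := by
    unfold za
    rw [← Real.rpow_natCast, ← Real.rpow_mul (by linarith)]
    norm_num
  have h1 : (J : ℝ) * 2 < za J ^ 12 := by
    rw [pow_succ, h11]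
    exact mul_lt_mul_of_pos_left hz (by linarith)
  have h2 : za J ^ 12 ≤ (q : ℝ) ^ 12 := pow_le_pow_left₀ h0 hq 12
  have h3 : (j : ℝ) ≤ 2 * J := by exact_mod_cast hj
  have h4 : (j : ℝ) < (q : ℝ) ^ 12 := by linarith
  exact_mod_cast h4

theorem p_oneA : S_oneA := by
  classical
  intro hV hwin hlo htq hup hpt
  filter_upwards [hV, hlo, htq, hup, oneA_ev, Filter.eventually_ge_atTop 5] with J hV1 hlo htq hup hev hJ5
  intro cm cx cq hW j hj hG
  have hlo1 := hlo cm cx cq hW j hj hG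
  have htq1 := htq cm cx cq hW j hj hG
  obtain ⟨hu0, hu1⟩ := hup cm cx cq hW j hj hG
  have hsq := hG.g8
  obtain ⟨hL250, hE, hz2⟩ := hev
  obtain ⟨hw01, hwsup, -, -⟩ := hwin J hJ5 j hj
  rw [mem_Ioc] at hj
  set L := Real.log J with hLdef
  set V := VV (za J) with hVdef
  set m := mu J j with hmdef
  have hL0 : 0 < L := by linarith
  have hJR : (5 : ℝ) ≤ (J : ℝ) := by exact_mod_cast hJ5
  have hJ0 : (0 : ℝ) < (J : ℝ) := by linarith
  have hm : (J : ℝ) ^ 2 / 2 ≤ m := by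
    rw [hmdef]
    unfold mu
    rw [le_div_iff₀ (by positivity)]
    have h1 : (J : ℝ) ≤ (j : ℝ) + 1 / 2 := by
      have : (J : ℝ) ≤ (j : ℝ) := by exact_mod_cast hj.1.le
      linarith
    have h2 := pow_le_pow_left₀ hJ0.le h1 3
    calc (J : ℝ) ^ 2 / 2 * (2 * J) = (J : ℝ) ^ 3 := by ring
      _ ≤ _ := h2
  have hm0 : 0 ≤ m := le_trans (by positivity) hm
  have hV0 : 0 < V := lt_of_lt_of_le (by positivity) hV1
  -- the weighted inequality
  have hwt : Sa J j - 1 / 2 * Ta J j - T0 J j - 1 / 2 * T1 J j - (3 * L + 4) * (sqa J j : ℝ) ≤ Pa J j := by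
    set D := (Icc 1 (27 * J ^ 3)).filter (fun p : ℕ => wJ J j p ≠ 0 ∧ Rough (za J) (p + 2) ∧
      ¬ Squarefree (p + 2)) with hD
    have hDc : (D.card : ℝ) ≤ (sqa J j : ℝ) := by
      unfold sqa
      have h1 : D.image (fun p => p + 2) ⊆ (Ioo (j ^ 3) ((j + 1) ^ 3)).filter
          (fun n : ℕ => ∃ q : ℕ, q.Prime ∧ za J ≤ q ∧ q ^ 2 ∣ n) := by
        intro n hn
        rw [mem_image] at hn
        obtain ⟨p, hp, rfl⟩ := hn
        rw [hD, mem_filter, mem_Icc] at hp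
        obtain ⟨⟨hp1, -⟩, hw, hR, hS⟩ := hp
        obtain ⟨w1, w2, -, -⟩ := hwsup p hp1 hw
        rw [mem_filter, mem_Ioo]
        refine ⟨⟨by omega, w2⟩, ?_⟩
        rw [Nat.squarefree_iff_prime_squarefree] at hS
        push Not at hS
        obtain ⟨q, hq, hqd⟩ := hS
        exact ⟨q, hq, hR q hq (dvd_trans (dvd_mul_right q q) hqd), by rw [sq]; exact hqd⟩
      have h2 := card_le_card h1
      rw [card_image_of_injective _ (fun a b h => by simpa using h)] at h2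
      exact_mod_cast h2
    have h1 : ∀ p ∈ Icc 1 (27 * J ^ 3),
        thP p * wJ J j p * (if Rough (za J) (p + 2) then 1 else 0)
        - 1 / 2 * (thP p * wJ J j p * (if Rough (za J) (p + 2) then
            ((((QS J).filter (fun q => q ∣ p + 2)).card : ℕ) : ℝ) else 0))
        - thP p * wJ J j p * (if C0 J (p + 2) then 1 else 0)
        - 1 / 2 * (thP p * wJ J j p * (if ∃ q : ℕ, C1 J q (p + 2) then 1 else 0))
        - (if (wJ J j p ≠ 0 ∧ Rough (za J) (p + 2) ∧ ¬ Squarefree (p + 2)) then (3 * L + 4) else 0)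
        ≤ thP p * wJ J j p * (if Rough (za J) (p + 2) ∧ Ω (p + 2) ≤ 4 then 1 else 0) := by
      intro p hp
      obtain ⟨t0, t1⟩ := oneA_th J p (by omega) hp
      obtain ⟨w0, w1⟩ := hw01 p
      set t := thP p * wJ J j p with ht
      have ht0 : 0 ≤ t := mul_nonneg t0 w0
      have ht1 : t ≤ 3 * L + 4 := by
        calc t ≤ thP p * 1 := mul_le_mul_of_nonneg_left w1 t0
          _ ≤ 3 * L + 4 := by rw [mul_one]; exact t1
      have a0 : (0 : ℝ) ≤ (if C0 J (p + 2) then 1 else 0) := by split_ifs <;> norm_num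
      have a1 : (0 : ℝ) ≤ (if ∃ q : ℕ, C1 J q (p + 2) then 1 else 0) := by split_ifs <;> norm_num
      have a2 : (0 : ℝ) ≤ ((((QS J).filter (fun q => q ∣ p + 2)).card : ℕ) : ℝ) := by positivity
      have a3 : (0 : ℝ) ≤ 3 * L + 4 := by linarith
      have b0 := mul_nonneg ht0 a0
      have b1 := mul_nonneg ht0 a1
      have b2 := mul_nonneg ht0 a2
      by_cases hR : Rough (za J) (p + 2)
      · rw [if_pos hR, if_pos hR]
        by_cases hS : Squarefree (p + 2)
        · have h2 := hpt J (p + 2) (by omega) hS hR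
          have eD : (if (wJ J j p ≠ 0 ∧ Rough (za J) (p + 2) ∧ ¬ Squarefree (p + 2)) then
              (3 * L + 4) else (0 : ℝ)) = 0 := if_neg (fun h => h.2.2 hS)
          rw [eD]
          have h3 : (if Rough (za J) (p + 2) ∧ Ω (p + 2) ≤ 4 then (1 : ℝ) else 0)
              = (if Ω (p + 2) ≤ 4 then (1 : ℝ) else 0) := by
            by_cases h4 : Ω (p + 2) ≤ 4
            · rw [if_pos ⟨hR, h4⟩, if_pos h4]
            · rw [if_neg (fun h => h4 h.2), if_neg h4]
          rw [h3]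
          have h5 := mul_le_mul_of_nonneg_left h2 ht0
          linarith
        · by_cases hw : wJ J j p = 0
          · have : t = 0 := by rw [ht, hw, mul_zero]
            have eD : (if (wJ J j p ≠ 0 ∧ Rough (za J) (p + 2) ∧ ¬ Squarefree (p + 2)) then
              (3 * L + 4) else (0 : ℝ)) = 0 := if_neg (fun h => h.1 hw)
            rw [this, eD]
            simp
          · have eD : (if (wJ J j p ≠ 0 ∧ Rough (za J) (p + 2) ∧ ¬ Squarefree (p + 2)) then
              (3 * L + 4) else (0 : ℝ)) = 3 * L + 4 := if_pos ⟨hw, hR, hS⟩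
            rw [eD]
            have a4 : (0 : ℝ) ≤ (if Rough (za J) (p + 2) ∧ Ω (p + 2) ≤ 4 then (1 : ℝ) else 0) := by
              split_ifs <;> norm_num
            have b4 := mul_nonneg ht0 a4
            linarith
      · have eD : (if (wJ J j p ≠ 0 ∧ Rough (za J) (p + 2) ∧ ¬ Squarefree (p + 2)) then
            (3 * L + 4) else (0 : ℝ)) = 0 := if_neg (fun h => hR h.2.1)
        have eP : (if Rough (za J) (p + 2) ∧ Ω (p + 2) ≤ 4 then (1 : ℝ) else 0) = 0 :=
          if_neg (fun h => hR h.1)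
        rw [if_neg hR, if_neg hR, eD, eP]
        linarith
    have h2 := sum_le_sum h1
    rw [sum_sub_distrib, sum_sub_distrib, sum_sub_distrib, sum_sub_distrib, ← mul_sum, ← mul_sum,
      ← sum_filter, sum_const, nsmul_eq_mul] at h2
    have h3 : (D.card : ℝ) * (3 * L + 4) ≤ (3 * L + 4) * (sqa J j : ℝ) := by
      rw [mul_comm]
      exact mul_le_mul_of_nonneg_left hDc (by linarith)
    unfold Sa Ta T0 T1 Pa
    linarith
  -- the main analytic inequality
  have hmain : 0.02 * (J : ℝ) ^ 2 / L ≤ Pa J j := by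
    have hVm0 : 0 ≤ V * m := by positivity
    have hJ2 : 0 < (J : ℝ) ^ 2 := by positivity
    have hmL : 0 ≤ m / L := by positivity
    have h1 : (3 * L + 4) * (0.0529 * V * m / (3 * L)) ≤ 0.053 * (V * m) := by
      have e1 : (3 * L + 4) * (0.0529 * V * m / (3 * L)) = (0.0529 + 0.0529 * 4 / (3 * L)) * (V * m) := by
        field_simp
      rw [e1]
      apply mul_le_mul_of_nonneg_right _ hVm0
      have e2 : 0.0529 * 4 / (3 * L) ≤ 0.0001 := by
        rw [div_le_iff₀ (by positivity)]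
        linarith
      linarith
    have h1' : (3 * L + 4) * (0.4219 * V * m / (3 * L)) ≤ 0.422 * (V * m) := by
      have e1 : (3 * L + 4) * (0.4219 * V * m / (3 * L)) = (0.4219 + 0.4219 * 4 / (3 * L)) * (V * m) := by
        field_simp
      rw [e1]
      apply mul_le_mul_of_nonneg_right _ hVm0
      have e2 : 0.4219 * 4 / (3 * L) ≤ 0.0001 := by
        rw [div_le_iff₀ (by positivity)]
        linarith
      linarith
    have h2 : (3 * L + 4) * ((J : ℝ) ^ (23 / 12 : ℝ) + 108) ≤ 4 * ((J : ℝ) ^ 2 / L ^ 2) := by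
      have e1 : (3 * L + 4) ≤ 4 * L := by linarith
      have e3 : (0 : ℝ) ≤ (J : ℝ) ^ (23 / 12 : ℝ) := by positivity
      calc (3 * L + 4) * ((J : ℝ) ^ (23 / 12 : ℝ) + 108)
          ≤ (4 * L) * ((J : ℝ) ^ 2 / L ^ 3) := mul_le_mul e1 hE (by positivity) (by positivity)
        _ = 4 * ((J : ℝ) ^ 2 / L ^ 2) := by
            field_simp
    have h2' : (3 * L + 4) * ((J : ℝ) ^ 2 / L ^ 3) ≤ 4 * ((J : ℝ) ^ 2 / L ^ 2) := by
      have e1 : (3 * L + 4) ≤ 4 * L := by linarith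
      calc (3 * L + 4) * ((J : ℝ) ^ 2 / L ^ 3)
          ≤ (4 * L) * ((J : ℝ) ^ 2 / L ^ 3) := mul_le_mul_of_nonneg_right e1 (by positivity)
        _ = 4 * ((J : ℝ) ^ 2 / L ^ 2) := by
            field_simp
    have h3 : (J : ℝ) ^ 2 / L ^ 3 ≤ (J : ℝ) ^ 2 / L ^ 2 := by
      apply div_le_div_of_nonneg_left hJ2.le (by positivity)
      exact pow_le_pow_right₀ (by linarith) (by norm_num)
    have h4 : (J : ℝ) ^ 2 / L ^ 2 ≤ 0.0001 * ((J : ℝ) ^ 2 / L) := by
      rw [show (J : ℝ) ^ 2 / L ^ 2 = (1 / L) * ((J : ℝ) ^ 2 / L) by field_simp]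
      apply mul_le_mul_of_nonneg_right _ (by positivity)
      rw [div_le_iff₀ hL0]
      linarith
    have h5 : 6.2 * (m / L) ≤ V * m := by
      calc 6.2 * (m / L) = 6.2 / L * m := by ring
        _ ≤ V * m := mul_le_mul_of_nonneg_right hV1 hm0
    have h9 : (3 * L + 4) * (0.0009 * m / L ^ 2) ≤ 0.0028 * (m / L) := by
      have e1 : (3 * L + 4) * (0.0009 * m / L ^ 2) = (0.0027 + 0.0036 / L) * (m / L) := by
        field_simp
        ring
      rw [e1]
      apply mul_le_mul_of_nonneg_right _ hmL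
      have e2 : 0.0036 / L ≤ 0.0001 := by
        rw [div_le_iff₀ hL0]
        linarith
      linarith
    have h9' : (3 * L + 4) * (0.0107 * m / L ^ 2) ≤ 0.0322 * (m / L) := by
      have e1 : (3 * L + 4) * (0.0107 * m / L ^ 2) = (0.0321 + 0.0428 / L) * (m / L) := by
        field_simp
        ring
      rw [e1]
      apply mul_le_mul_of_nonneg_right _ hmL
      have e2 : 0.0428 / L ≤ 0.0001 := by
        rw [div_le_iff₀ hL0]
        linarith
      linarith
    have h10 : 0.5 * ((J : ℝ) ^ 2 / L) ≤ m / L := by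
      rw [show 0.5 * ((J : ℝ) ^ 2 / L) = ((J : ℝ) ^ 2 / 2) / L by ring]
      exact div_le_div_of_nonneg_right hm hL0.le
    have h6 : (3 * L + 4) * (72 + (J : ℝ) ^ 2 / L ^ 3
        + 0.0529 * V * m / (3 * L) + 0.0009 * m / L ^ 2) =
        (3 * L + 4) * 72 + (3 * L + 4) * ((J : ℝ) ^ 2 / L ^ 3)
        + (3 * L + 4) * (0.0529 * V * m / (3 * L)) + (3 * L + 4) * (0.0009 * m / L ^ 2) := by ring
    rw [h6] at hu0
    have h6' : (3 * L + 4) * (72 + (J : ℝ) ^ 2 / L ^ 3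
        + 0.4219 * V * m / (3 * L) + 0.0107 * m / L ^ 2) =
        (3 * L + 4) * 72 + (3 * L + 4) * ((J : ℝ) ^ 2 / L ^ 3)
        + (3 * L + 4) * (0.4219 * V * m / (3 * L)) + (3 * L + 4) * (0.0107 * m / L ^ 2) := by ring
    rw [h6'] at hu1
    have h7 : (3 * L + 4) * (sqa J j : ℝ) ≤ (3 * L + 4) * (J : ℝ) ^ (23 / 12 : ℝ) :=
      mul_le_mul_of_nonneg_left hsq (by linarith)
    have h8 : 0.9989 * V * m = 0.9989 * (V * m) := by ring
    rw [h8] at hlo1
    have h8' : 1.4454 * V * m = 1.4454 * (V * m) := by ring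
    rw [h8'] at htq1
    have h11 : 0.02 * (J : ℝ) ^ 2 / L = 0.02 * ((J : ℝ) ^ 2 / L) := by ring
    rw [h11]
    have h12 : (3 * L + 4) * ((J : ℝ) ^ (23 / 12 : ℝ) + 108)
        = (3 * L + 4) * (J : ℝ) ^ (23 / 12 : ℝ) + (3 * L + 4) * 72 + 1 / 2 * ((3 * L + 4) * 72) := by ring
    rw [h12] at h2
    linarith
  -- the counting
  set S := (Icc 1 (27 * J ^ 3)).filter (fun p : ℕ => p.Prime ∧ wJ J j p ≠ 0 ∧ Rough (za J) (p + 2) ∧
    Ω (p + 2) ≤ 4) with hSdef
  have hfin : (cubeSet4 j).Finite := by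
    refine Set.Finite.subset (Ioo (j ^ 3) ((j + 1) ^ 3)).finite_toSet ?_
    intro p hp
    simp only [coe_Ioo, Set.mem_Ioo]
    obtain ⟨-, h1, h2, -⟩ := hp
    exact ⟨h1, by omega⟩
  have hsub : (S : Set ℕ) ⊆ cubeSet4 j := by
    intro p hp
    simp only [hSdef, coe_filter, Set.mem_ofPred_eq, mem_Icc] at hp
    obtain ⟨⟨hp1, hp2⟩, hpp, hw, hR, hO⟩ := hp
    obtain ⟨w1, w2, -, -⟩ := hwsup p hp1 hw
    exact ⟨hpp, w1, w2, hO, fun q hq hqd => oneA_q12 J j q (by omega) hz2 hj.2 (hR q hq hqd)⟩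
  have hcard : (S.card : ℝ) ≤ ((cubeSet4 j).ncard : ℝ) := by
    have := Set.ncard_le_ncard hsub hfin
    rw [Set.ncard_coe_finset] at this
    exact_mod_cast this
  have hdiff : Pa J j ≤ 4 * L * S.card := by
    unfold Pa
    have h1 : ∀ p ∈ Icc 1 (27 * J ^ 3),
        thP p * wJ J j p * (if Rough (za J) (p + 2) ∧ Ω (p + 2) ≤ 4 then 1 else 0)
        ≤ (if (p.Prime ∧ wJ J j p ≠ 0 ∧ Rough (za J) (p + 2) ∧ Ω (p + 2) ≤ 4) then 4 * L else 0) := by
      intro p hp
      obtain ⟨t0, t1⟩ := oneA_th J p (by omega) hp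
      obtain ⟨w0, w1⟩ := hw01 p
      have c0 : (0 : ℝ) ≤ (if (p.Prime ∧ wJ J j p ≠ 0 ∧ Rough (za J) (p + 2) ∧ Ω (p + 2) ≤ 4)
          then 4 * L else 0) := by
        split_ifs
        · positivity
        · exact le_refl _
      by_cases hR : Rough (za J) (p + 2) ∧ Ω (p + 2) ≤ 4
      · by_cases hpp : p.Prime
        · by_cases hw : wJ J j p = 0
          · have e0 : thP p * wJ J j p = 0 := by rw [hw, mul_zero]
            rw [e0, zero_mul]
            exact c0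
          · rw [if_pos hR, if_pos ⟨hpp, hw, hR.1, hR.2⟩, mul_one]
            calc thP p * wJ J j p ≤ thP p * 1 := mul_le_mul_of_nonneg_left w1 t0
              _ ≤ 4 * L := by rw [mul_one]; linarith
        · have : thP p = 0 := by unfold thP; rw [if_neg hpp]
          rw [this, zero_mul, zero_mul]
          exact c0
      · rw [if_neg hR, mul_zero]
        exact c0
    refine le_trans (sum_le_sum h1) ?_
    rw [← sum_filter, sum_const, nsmul_eq_mul, mul_comm]
  have hfinal : 0.02 * (J : ℝ) ^ 2 / L ≤ 4 * L * ((cubeSet4 j).ncard : ℝ) :=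
    le_trans (le_trans hmain hdiff) (mul_le_mul_of_nonneg_left hcard (by positivity))
  rw [div_le_iff₀ (by positivity)]
  rw [div_le_iff₀ hL0] at hfinal
  nlinarith

end Pool.Agent.CA.FP
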