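import Pool.Agent.Lib.MP_d610d0_nt.CA.FP.Stm

set_option autoImplicit false

/-!
Project CA, section FP, piece parg: choice of the parameters.
-/

namespace Pool.Agent.CA.FP

open Finset Filter

private theorem parg_find (y : ℝ) (hy : 16 ≤ y) : ∃ m : ℕ, 2 ≤ m ∧ (2 : ℝ) ^ 2 ^ m ≤ y ∧
    y < ((2 : ℝ) ^ 2 ^ m) ^ 2 := by
  classical
  have hex : ∃ k : ℕ, y < (2 : ℝ) ^ 2 ^ k := by
    obtain ⟨n, hn⟩ := pow_unbounded_of_one_lt y (one_lt_two)
    exact ⟨n, lt_of_lt_of_le hn (pow_le_pow_right₀ one_le_two Nat.lt_two_pow_self.le)⟩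
  have hk := Nat.find_spec hex
  have h3 : 3 ≤ Nat.find hex := by
    by_contra h
    have h' : Nat.find hex ≤ 2 := by omega
    have h1 : (2 : ℝ) ^ 2 ^ (Nat.find hex) ≤ (2 : ℝ) ^ 2 ^ 2 :=
      pow_le_pow_right₀ one_le_two (Nat.pow_le_pow_right (by norm_num) h')
    have h2 : (2 : ℝ) ^ 2 ^ 2 = 16 := by norm_num
    linarith
  refine ⟨Nat.find hex - 1, by omega, ?_, ?_⟩
  · have := Nat.find_min hex (m := Nat.find hex - 1) (by omega)
    exact not_lt.1 this
  · rw [← pow_mul, ← pow_succ]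
    rw [Nat.sub_add_cancel (by omega)]
    exact hk

theorem p_parg : S_parg := by
  intro w k e hw hwk he
  obtain ⟨η, hη, hη1, hη2⟩ : ∃ η : ℝ, 0 < η ∧ 51 * η ≤ e ∧ 2 * η ≤ w := by
    refine ⟨min (e / 51) (w / 2), lt_min (by positivity) (by positivity), ?_, ?_⟩
    · have := min_le_left (e / 51) (w / 2)
      linarith
    · have := min_le_right (e / 51) (w / 2)
      linarith
  have hk : 0 < k := lt_of_lt_of_le hw hwk
  refine ⟨max 3 (2 * k / η), le_max_left _ _, ?_⟩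
  intro C0 a0
  have hy : Filter.Tendsto (fun J : ℕ => (J : ℝ) ^ η) Filter.atTop Filter.atTop :=
    (tendsto_rpow_atTop hη).comp tendsto_natCast_atTop_atTop
  filter_upwards [hy.eventually_ge_atTop (16 + (a0 : ℝ) ^ 2 + C0 ^ 2),
    Filter.eventually_ge_atTop 1] with J h1 h3
  have hJ1 : (1 : ℝ) ≤ J := by exact_mod_cast h3
  have hJ0 : (0 : ℝ) < J := by linarith
  set y : ℝ := (J : ℝ) ^ η with hydef
  have hy16 : 16 ≤ y := by nlinarith [sq_nonneg (a0 : ℝ), sq_nonneg C0]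
  obtain ⟨m, hm2, hmy, hym⟩ := parg_find y hy16
  have hX1 : (1 : ℝ) ≤ (2 : ℝ) ^ 2 ^ m := one_le_pow₀ one_le_two
  have hcast : ((2 ^ 2 ^ m + 1 : ℕ) : ℝ) = (2 : ℝ) ^ 2 ^ m + 1 := by push_cast; rfl
  have hlogy : Real.log y = η * Real.log J := by
    rw [hydef, Real.log_rpow hJ0]
  have hlogD : Real.log ((J : ℝ) ^ k) = k * Real.log J := by
    rw [Real.log_rpow hJ0]
  generalize hX : (2 : ℝ) ^ 2 ^ m = X at hmy hym hX1 hcast
  have hXpos : 0 < X := by linarith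
  refine ⟨m, hm2, ?_, ?_, ?_, ?_⟩
  · have h4 : (a0 : ℝ) ^ 2 < X ^ 2 := by nlinarith [sq_nonneg C0]
    have h5 : (a0 : ℝ) < X := lt_of_pow_lt_pow_left₀ 2 hXpos.le h4
    have h6 : (a0 : ℝ) ≤ ((2 ^ 2 ^ m + 1 : ℕ) : ℝ) := by
      rw [hcast]
      linarith
    exact_mod_cast h6
  · have h4 : C0 ^ 2 < X ^ 2 := by nlinarith [sq_nonneg (a0 : ℝ)]
    have h5 : C0 ≤ X := (le_abs_self C0).trans (abs_lt_of_sq_lt_sq h4 hXpos.le).le
    have h6 : C0 * X ^ 50 ≤ X * X ^ 50 := mul_le_mul_of_nonneg_right h5 (by positivity)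
    have h7 : X * X ^ 50 = X ^ 51 := by ring
    have h8 : X ^ 51 ≤ y ^ 51 := pow_le_pow_left₀ hXpos.le hmy 51
    have h9 : y ^ 51 ≤ (J : ℝ) ^ e := by
      rw [hydef, ← Real.rpow_natCast, ← Real.rpow_mul hJ0.le]
      apply Real.rpow_le_rpow_of_exponent_le hJ1
      push_cast
      linarith
    rw [hX]
    linarith
  · rw [hcast]
    have h4 : X + 1 ≤ y ^ 2 := by nlinarith
    have h5 : y ^ 2 ≤ (J : ℝ) ^ w := by
      rw [hydef, ← Real.rpow_natCast, ← Real.rpow_mul hJ0.le]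
      apply Real.rpow_le_rpow_of_exponent_le hJ1
      push_cast
      linarith
    linarith
  · rw [hlogD, hcast]
    have h4 : Real.log y ≤ 2 * Real.log X := by
      have h5 : Real.log y ≤ Real.log (X ^ 2) := Real.log_le_log (by linarith) hym.le
      rw [Real.log_pow] at h5
      exact_mod_cast h5
    have h6 : Real.log X ≤ Real.log (X + 1) := Real.log_le_log hXpos (by linarith)
    rw [hlogy] at h4
    have h7 : 0 ≤ Real.log (X + 1) := Real.log_nonneg (by linarith)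
    have h8 : k * Real.log J ≤ 2 * k / η * Real.log (X + 1) := by
      rw [div_mul_eq_mul_div, le_div_iff₀ hη]
      nlinarith
    exact h8.trans (mul_le_mul_of_nonneg_right (le_max_right _ _) h7)

end Pool.Agent.CA.FP
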