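import Pool.Agent.Lib.MP_d610d0_nt.CA.FP.Stm

set_option autoImplicit false

/-!
Project CA, section FP, piece ptA: the weighted inequality.
-/

namespace Pool.Agent.CA.FP

open Finset Filter
open scoped ArithmeticFunction.Omega
open Pool.Agent.CH (Rough)

private lemma ptA_ya_le {J : ℕ} (hJ : 1 ≤ J) : ya J ≤ (J : ℝ) := by
  have h1 : (1 : ℝ) ≤ (J : ℝ) := by exact_mod_cast hJ
  have h2 := Real.rpow_le_rpow_of_exponent_le h1 (show (7 / 22 : ℝ) ≤ 1 by norm_num)
  rw [Real.rpow_one] at h2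
  exact h2

private lemma ptA_large {J n p : ℕ} (hJ : 1 ≤ J) (hr : Rough (za J) n) (hp : p.Prime)
    (hpn : p ∣ n) (hq : p ∉ QS J) : ya J ≤ (p : ℝ) := by
  classical
  by_contra hcon
  push Not at hcon
  apply hq
  unfold QS
  rw [Finset.mem_filter, Finset.mem_range]
  refine ⟨?_, hp, hr p hp hpn, hcon⟩
  have h1 : (p : ℝ) < (J : ℝ) := lt_of_lt_of_le hcon (ptA_ya_le hJ)
  have h2 : p < J := by exact_mod_cast h1
  omega

theorem p_ptA : S_ptA := by
  classical
  intro J n hJ hsq hr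
  have hC0 : ∀ c : Prop, ∀ [Decidable c], (0 : ℝ) ≤ (if c then (1 : ℝ) else 0) := by
    intro c _
    split_ifs <;> norm_num
  have hle : (if Ω n ≤ 4 then (1 : ℝ) else 0) = 1 ∨
      ((if Ω n ≤ 4 then (1 : ℝ) else 0) = 0 ∧ 5 ≤ Ω n) := by
    by_cases h : Ω n ≤ 4
    · left; rw [if_pos h]
    · right; rw [if_neg h]; exact ⟨rfl, by omega⟩
  have h1 := hC0 (C0 J n)
  have h2 := hC0 (∃ q : ℕ, C1 J q n)
  obtain ⟨F, hF⟩ : ∃ F : Finset ℕ, F = (QS J).filter (fun q => q ∣ n) := ⟨_, rfl⟩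
  have hc0 : (0 : ℝ) ≤ (F.card : ℝ) := Nat.cast_nonneg _
  rw [← hF]
  rcases hle with hle | ⟨hle, h5⟩
  · rw [hle]
    linarith
  rw [hle]
  rcases Nat.lt_or_ge F.card 2 with hlt | hge
  · rcases Nat.lt_or_ge F.card 1 with h0 | h1'
    · -- no small prime
      have hF0 : F = ∅ := Finset.card_eq_zero.1 (by omega)
      have hC : C0 J n := by
        refine ⟨hsq, ?_, h5⟩
        intro p hp hpn
        refine ptA_large hJ hr hp hpn fun hq => ?_
        have : p ∈ F := by rw [hF]; exact Finset.mem_filter.2 ⟨hq, hpn⟩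
        rw [hF0] at this
        exact absurd this (Finset.notMem_empty _)
      rw [if_pos hC]
      linarith
    · obtain ⟨q, hq⟩ := Finset.card_eq_one.1 (show F.card = 1 by omega)
      have hqF : q ∈ F := by rw [hq]; exact Finset.mem_singleton_self _
      have hqF' := hqF
      rw [hF] at hqF'
      obtain ⟨hqQ, hqn⟩ := Finset.mem_filter.1 hqF'
      have hqp : q.Prime := by
        unfold QS at hqQ
        exact (Finset.mem_filter.1 hqQ).2.1
      have hC : ∃ q : ℕ, C1 J q n := by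
        refine ⟨q, hsq, hqQ, hqn, ?_, h5⟩
        intro p hp hpn
        have hpn' : p ∣ n := hpn.trans (Nat.div_dvd_of_dvd hqn)
        refine ptA_large hJ hr hp hpn' fun hpQ => ?_
        have hpF : p ∈ F := by rw [hF]; exact Finset.mem_filter.2 ⟨hpQ, hpn'⟩
        rw [hq, Finset.mem_singleton] at hpF
        rw [hpF] at hpn
        have h3 : q * q ∣ n := by
          obtain ⟨c, hc⟩ := hpn
          refine ⟨c, ?_⟩
          rw [mul_assoc, ← hc, Nat.mul_div_cancel' hqn]
        exact hqp.one_lt.ne' (Nat.isUnit_iff.1 (hsq q h3))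
      rw [if_pos hC]
      have hc1 : (F.card : ℝ) = 1 := by rw [hq]; simp
      rw [hc1]
      linarith
  · have h3 : (2 : ℝ) ≤ (F.card : ℝ) := by exact_mod_cast hge
    linarith

end Pool.Agent.CA.FP
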