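import Pool.Agent.Lib.MP_d610d0_nt.CA.FP.Stm

/-!
Project CA, section FP: boxes of primes, sorted by the first prime.
-/

set_option autoImplicit false

namespace Pool.Agent.CA.FP

open Finset Filter
open Pool.Agent.CA

open Classical in
/-- the tuples counted by `bx` -/
private noncomputable def rb1_T (k : ℕ) (lo hi : Fin k → ℝ) (n : ℕ) : Finset (Fin k → ℕ) :=
  (Fintype.piFinset (fun i : Fin k => (range (n + 1)).filter
    (fun p : ℕ => p.Prime ∧ lo i ≤ (p : ℝ) ∧ (p : ℝ) ≤ hi i))).filter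
      (fun q => ∏ i, q i = n)

private theorem rb1_bx (k : ℕ) (lo hi : Fin k → ℝ) (n : ℕ) :
    bx k lo hi n = ((rb1_T k lo hi n).card : ℝ) := rfl

private theorem rb1_mem (k : ℕ) (lo hi : Fin k → ℝ) (n : ℕ) (q : Fin k → ℕ) :
    q ∈ rb1_T k lo hi n ↔ (∀ i, q i < n + 1 ∧ (q i).Prime ∧ lo i ≤ (q i : ℝ) ∧ (q i : ℝ) ≤ hi i) ∧
      ∏ i, q i = n := by
  unfold rb1_T
  simp only [Finset.mem_filter, Fintype.mem_piFinset, Finset.mem_range]

private theorem rb1_cons (k : ℕ) (lo hi : Fin (k + 1) → ℝ) (n p : ℕ) (q : Fin (k + 1) → ℕ) :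
    q ∈ rb1_T (k + 1) (Fin.cons (p : ℝ) (Fin.tail lo)) (Fin.cons (p : ℝ) (Fin.tail hi)) n ↔
      (q 0 = p ∧ p < n + 1 ∧ p.Prime ∧ ∀ i : Fin k, q i.succ < n + 1 ∧ (q i.succ).Prime ∧
        lo i.succ ≤ (q i.succ : ℝ) ∧ (q i.succ : ℝ) ≤ hi i.succ) ∧ ∏ i, q i = n := by
  rw [rb1_mem, Fin.forall_fin_succ]
  simp only [Fin.cons_zero, Fin.cons_succ, Fin.tail]
  constructor
  · rintro ⟨⟨⟨h1, h2, h3, h4⟩, h5⟩, h6⟩
    have h7 : q 0 = p := by
      have : (q 0 : ℝ) = p := le_antisymm h4 h3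
      exact_mod_cast this
    rw [h7] at h1 h2
    exact ⟨⟨h7, h1, h2, h5⟩, h6⟩
  · rintro ⟨⟨h7, h1, h2, h5⟩, h6⟩
    refine ⟨⟨⟨?_, ?_, ?_, ?_⟩, h5⟩, h6⟩
    · rw [h7]
      exact h1
    · rw [h7]
      exact h2
    · rw [h7]
    · rw [h7]

/-- [FP rb1] -/
theorem p_rb1 : S_rb1 := by
  intro k lo hi n hn
  constructor
  · intro p hp
    rw [rb1_bx] at hp
    have h : (rb1_T (k + 1) (Fin.cons (p : ℝ) (Fin.tail lo)) (Fin.cons (p : ℝ) (Fin.tail hi)) n).card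
        ≠ 0 := by
      exact_mod_cast hp
    obtain ⟨q, hq⟩ := Finset.card_ne_zero.1 h
    rw [rb1_cons] at hq
    rw [← hq.2, ← hq.1.1]
    exact Finset.dvd_prod_of_mem _ (Finset.mem_univ _)
  · intro N hN
    rw [rb1_bx, Finset.card_eq_sum_card_fiberwise (f := fun q : Fin (k + 1) → ℕ => q 0)
      (t := ((range (N + 1)).filter (fun p : ℕ => p.Prime)).filter
        (fun p : ℕ => lo 0 ≤ p ∧ (p : ℝ) ≤ hi 0)), Nat.cast_sum]
    · refine Finset.sum_congr rfl fun p hp => ?_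
      rw [rb1_bx]
      congr 2
      ext q
      rw [Finset.mem_filter, rb1_cons, rb1_mem, Fin.forall_fin_succ]
      simp only [Finset.mem_filter, Finset.mem_range] at hp
      constructor
      · rintro ⟨⟨⟨⟨h1, h2, h3, h4⟩, h5⟩, h6⟩, h7⟩
        rw [h7] at h1 h2
        exact ⟨⟨h7, h1, h2, h5⟩, h6⟩
      · rintro ⟨⟨h7, h1, h2, h5⟩, h6⟩
        refine ⟨⟨⟨⟨?_, ?_, ?_, ?_⟩, h5⟩, h6⟩, h7⟩
        · rw [h7]
          exact h1
        · rw [h7]
          exact h2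
        · rw [h7]
          exact hp.2.1
        · rw [h7]
          exact hp.2.2
    · intro q hq
      rw [Finset.mem_coe, rb1_mem] at hq
      obtain ⟨h1, h2, h3, h4⟩ := hq.1 0
      rw [Finset.mem_coe, Finset.mem_filter, Finset.mem_filter, Finset.mem_range]
      exact ⟨⟨lt_of_lt_of_le h1 (by omega), h2⟩, h3, h4⟩

end Pool.Agent.CA.FP
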