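import Pool.Agent.Lib.MP_d610d0_nt.CA.FP.Stm

set_option autoImplicit false

/-!
Project CA, section FP: piece rb2 (the trivial bound for the multiples of `p` in a window).
-/

namespace Pool.Agent.CA.FP

open Finset Filter
open Pool.Agent.CH (wJ)

/-- The number of tuples is at most a power of the number of prime factors. -/
private theorem rb2_bx (k : ℕ) (lo hi : Fin k → ℝ) (n : ℕ) (hn : 1 ≤ n) :
    bx k lo hi n ≤ ((n.primeFactors.card : ℕ) : ℝ) ^ k := by
  classical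
  unfold bx
  rw [← Nat.cast_pow, Nat.cast_le]
  have hsub : (Fintype.piFinset (fun i : Fin k => (range (n + 1)).filter
      (fun p : ℕ => p.Prime ∧ lo i ≤ (p : ℝ) ∧ (p : ℝ) ≤ hi i))).filter
      (fun q => ∏ i, q i = n) ⊆ Fintype.piFinset (fun _ : Fin k => n.primeFactors) := by
    intro q hq
    rw [mem_filter, Fintype.mem_piFinset] at hq
    rw [Fintype.mem_piFinset]
    intro i
    have h1 := hq.1 i
    rw [mem_filter] at h1
    rw [Nat.mem_primeFactors]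
    refine ⟨h1.2.1, ?_, by omega⟩
    rw [← hq.2]
    exact dvd_prod_of_mem q (mem_univ i)
  refine (card_le_card hsub).trans (le_of_eq ?_)
  rw [Fintype.card_piFinset, prod_const, card_univ, Fintype.card_fin]

/-- A number up to `27 J ^ 3` has at most `5 L` prime factors. -/
private theorem rb2_pf (J n : ℕ) (hJ : 1 ≤ J) (hL : 10 ≤ Real.log J) (hn : 1 ≤ n)
    (hn2 : n ≤ 27 * J ^ 3) : ((n.primeFactors.card : ℕ) : ℝ) ≤ 5 * Real.log J := by
  have h1 : 2 ^ n.primeFactors.card ≤ n := by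
    refine le_trans ?_ (Nat.le_of_dvd hn (Nat.prod_primeFactors_dvd n))
    exact pow_card_le_prod _ _ _ fun q hq => (Nat.prime_of_mem_primeFactors hq).two_le
  have h2 : (2 : ℝ) ^ n.primeFactors.card ≤ 27 * (J : ℝ) ^ 3 := by
    exact_mod_cast h1.trans hn2
  have hJ0 : (0 : ℝ) < J := by exact_mod_cast hJ
  have h3 := Real.log_le_log (by positivity) h2
  rw [Real.log_pow, Real.log_mul (by norm_num) (by positivity), Real.log_pow] at h3
  have h4 : Real.log 27 ≤ 5 * Real.log 2 := by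
    rw [show (5 : ℝ) * Real.log 2 = Real.log (2 ^ 5) by rw [Real.log_pow]; norm_num]
    exact Real.log_le_log (by norm_num) (by norm_num)
  have h5 := Real.log_two_gt_d9
  have h6 : 3 * Real.log J ≤ (9 / 2) * Real.log 2 * Real.log J := by nlinarith
  push_cast at h3
  by_contra hcon
  push Not at hcon
  have h7 : 5 * Real.log J * Real.log 2 < n.primeFactors.card * Real.log 2 :=
    mul_lt_mul_of_pos_right hcon (by linarith)
  nlinarith

/-- The number of the multiples of `p` in a window. -/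
private theorem rb2_cnt (J j p : ℕ) (hj2 : j ≤ 2 * J) (hp : 1 ≤ p) (hpJ : p ≤ J) :
    ((((Ioo (j ^ 3) ((j + 1) ^ 3)).filter (fun n => p ∣ n)).card : ℕ) : ℝ) ≤
      20 * (J : ℝ) ^ 2 / p := by
  classical
  have hJ1 : 1 ≤ J := hp.trans hpJ
  have h1 : ((Ioo (j ^ 3) ((j + 1) ^ 3)).filter (fun n => p ∣ n)).card ≤
      (Ioc (j ^ 3 / p) ((j + 1) ^ 3 / p)).card := by
    refine card_le_card_of_injOn (fun n => n / p) ?_ ?_
    · intro n hn
      have hn' : n ∈ (Ioo (j ^ 3) ((j + 1) ^ 3)).filter (fun n => p ∣ n) := hn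
      rw [mem_filter, mem_Ioo] at hn'
      obtain ⟨⟨ha, hb⟩, c, rfl⟩ := hn'
      have hc : p * c / p = c := Nat.mul_div_cancel_left c hp
      change p * c / p ∈ (↑(Ioc (j ^ 3 / p) ((j + 1) ^ 3 / p)) : Set ℕ)
      rw [hc, mem_coe, mem_Ioc]
      constructor
      · rw [Nat.div_lt_iff_lt_mul hp]
        calc j ^ 3 < p * c := ha
          _ = c * p := by ring
      · rw [Nat.le_div_iff_mul_le hp]
        calc c * p = p * c := by ring
          _ ≤ (j + 1) ^ 3 := hb.le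
    · intro a ha b hb hab
      have ha' : a ∈ (Ioo (j ^ 3) ((j + 1) ^ 3)).filter (fun n => p ∣ n) := ha
      have hb' : b ∈ (Ioo (j ^ 3) ((j + 1) ^ 3)).filter (fun n => p ∣ n) := hb
      rw [mem_filter] at ha' hb'
      calc a = p * (a / p) := (Nat.mul_div_cancel' ha'.2).symm
        _ = p * (b / p) := by
          have : a / p = b / p := hab
          rw [this]
        _ = b := Nat.mul_div_cancel' hb'.2
  rw [Nat.card_Ioc] at h1
  have hp0 : (0 : ℝ) < p := by exact_mod_cast hp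
  have h2 : (((j + 1) ^ 3 / p - j ^ 3 / p : ℕ) : ℝ) ≤ 19 * (J : ℝ) ^ 2 / p + 1 := by
    have h3 : j ^ 3 / p ≤ (j + 1) ^ 3 / p :=
      Nat.div_le_div_right (Nat.pow_le_pow_left (by omega) 3)
    rw [Nat.cast_sub h3]
    have h4 : (((j + 1) ^ 3 / p : ℕ) : ℝ) ≤ ((j : ℝ) + 1) ^ 3 / p := by
      have := @Nat.cast_div_le ℝ _ _ _ ((j + 1) ^ 3) p
      push_cast at this
      exact this
    have h5 : (j : ℝ) ^ 3 / p - 1 ≤ ((j ^ 3 / p : ℕ) : ℝ) := by
      have h6 : j ^ 3 < (j ^ 3 / p + 1) * p := by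
        have := Nat.lt_mul_div_succ (j ^ 3) (b := p) hp
        rwa [mul_comm] at this
      have h7 : (j : ℝ) ^ 3 < (((j ^ 3 / p : ℕ) : ℝ) + 1) * p := by exact_mod_cast h6
      have h8 : (j : ℝ) ^ 3 / p < ((j ^ 3 / p : ℕ) : ℝ) + 1 := by
        rw [div_lt_iff₀ hp0]
        exact h7
      linarith
    have h9 : ((j : ℝ) + 1) ^ 3 / p ≤ (j : ℝ) ^ 3 / p + 19 * (J : ℝ) ^ 2 / p := by
      rw [← add_div]
      refine div_le_div_of_nonneg_right ?_ hp0.le
      have ha : (j : ℝ) ≤ 2 * J := by exact_mod_cast hj2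
      have hb : (1 : ℝ) ≤ J := by exact_mod_cast hJ1
      have hc : (0 : ℝ) ≤ j := Nat.cast_nonneg j
      nlinarith
    linarith
  have h3 : (1 : ℝ) ≤ (J : ℝ) ^ 2 / p := by
    rw [le_div_iff₀ hp0, one_mul]
    have ha : (p : ℝ) ≤ J := by exact_mod_cast hpJ
    have hb : (1 : ℝ) ≤ J := by exact_mod_cast hJ1
    nlinarith
  calc ((((Ioo (j ^ 3) ((j + 1) ^ 3)).filter (fun n => p ∣ n)).card : ℕ) : ℝ)
      ≤ (((j + 1) ^ 3 / p - j ^ 3 / p : ℕ) : ℝ) := by exact_mod_cast h1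
    _ ≤ 19 * (J : ℝ) ^ 2 / p + 1 := h2
    _ ≤ 19 * (J : ℝ) ^ 2 / p + (J : ℝ) ^ 2 / p := by linarith
    _ = 20 * (J : ℝ) ^ 2 / p := by ring

/-- Powers of the logarithm. -/
private theorem rb2_ev (k : ℕ) : ∀ᶠ J : ℕ in atTop, 1 ≤ J ∧ 10 ≤ Real.log J ∧
    20 * (5 * Real.log J) ^ (k + 1) ≤ (J : ℝ) ^ (1 / 100 : ℝ) := by
  have h1 : ∀ᶠ x : ℝ in atTop, Real.log x ^ (k + 2) ≤ x ^ (1 / 100 : ℝ) := by
    have h := (isLittleO_log_rpow_rpow_atTop ((k + 2 : ℕ) : ℝ)
      (show (0 : ℝ) < 1 / 100 by norm_num)).bound (show (0 : ℝ) < 1 by norm_num)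
    filter_upwards [h, eventually_ge_atTop (1 : ℝ)] with x hx hx1
    rw [one_mul, Real.rpow_natCast] at hx
    have h0 : (0 : ℝ) ≤ x ^ (1 / 100 : ℝ) := Real.rpow_nonneg (by linarith) _
    rw [Real.norm_of_nonneg h0] at hx
    exact (Real.le_norm_self _).trans hx
  have h2 : ∀ᶠ x : ℝ in atTop, max 10 (20 * 5 ^ (k + 1)) ≤ Real.log x :=
    Real.tendsto_log_atTop.eventually_ge_atTop _
  filter_upwards [tendsto_natCast_atTop_atTop.eventually h1,
    tendsto_natCast_atTop_atTop.eventually h2, eventually_ge_atTop 1] with J a b c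
  refine ⟨c, (le_max_left _ _).trans b, ?_⟩
  have b2 : 20 * 5 ^ (k + 1) ≤ Real.log (J : ℝ) := (le_max_right _ _).trans b
  have b1 : 10 ≤ Real.log (J : ℝ) := (le_max_left _ _).trans b
  calc 20 * (5 * Real.log J) ^ (k + 1) = (20 * 5 ^ (k + 1)) * Real.log J ^ (k + 1) := by
        rw [mul_pow]; ring
    _ ≤ Real.log J * Real.log J ^ (k + 1) :=
        mul_le_mul_of_nonneg_right b2 (by positivity)
    _ = Real.log J ^ (k + 2) := by ring
    _ ≤ _ := a

theorem p_rb2 : S_rb2 := by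
  classical
  intro hwin k
  filter_upwards [rb2_ev k, eventually_ge_atTop 5] with J hJ hJ5 j hj lo hi p hp hpJ hdvd
  obtain ⟨hJ1, hL, hpow⟩ := hJ
  obtain ⟨hw1, hw2, -, -⟩ := hwin J hJ5 j hj
  rw [mem_Ioc] at hj
  have hJ0 : (0 : ℝ) < J := by exact_mod_cast hJ1
  have hp0 : (0 : ℝ) < p := by exact_mod_cast hp
  have hL0 : (0 : ℝ) ≤ Real.log J := by linarith
  have hsub : ∀ n ∈ Icc 1 (27 * J ^ 3), bx (k + 1) lo hi n * wJ J j n ≤
      if n ∈ (Ioo (j ^ 3) ((j + 1) ^ 3)).filter (fun n => p ∣ n) then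
        (5 * Real.log J) ^ (k + 1) else 0 := by
    intro n hn
    rw [mem_Icc] at hn
    by_cases hb : bx (k + 1) lo hi n = 0
    · rw [hb, zero_mul]
      split_ifs <;> positivity
    by_cases hw : wJ J j n = 0
    · rw [hw, mul_zero]
      split_ifs <;> positivity
    have h1 := hdvd n hn.1 hb
    obtain ⟨h2, h3, -, -⟩ := hw2 n hn.1 hw
    rw [if_pos (by rw [mem_filter, mem_Ioo]; exact ⟨⟨h2, by omega⟩, h1⟩)]
    have h4 : (0 : ℝ) ≤ bx (k + 1) lo hi n := Nat.cast_nonneg _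
    calc bx (k + 1) lo hi n * wJ J j n ≤ bx (k + 1) lo hi n * 1 :=
          mul_le_mul_of_nonneg_left (hw1 n).2 h4
      _ = bx (k + 1) lo hi n := mul_one _
      _ ≤ ((n.primeFactors.card : ℕ) : ℝ) ^ (k + 1) := rb2_bx _ _ _ _ hn.1
      _ ≤ (5 * Real.log J) ^ (k + 1) :=
          pow_le_pow_left₀ (Nat.cast_nonneg _) (rb2_pf J n hJ1 hL hn.1 hn.2) _
  refine (sum_le_sum hsub).trans ?_
  rw [← sum_filter, sum_const, nsmul_eq_mul]
  have hc : ((((Icc 1 (27 * J ^ 3)).filter (fun n =>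
      n ∈ (Ioo (j ^ 3) ((j + 1) ^ 3)).filter (fun n => p ∣ n))).card : ℕ) : ℝ) ≤
      20 * (J : ℝ) ^ 2 / p := by
    refine le_trans ?_ (rb2_cnt J j p hj.2 hp hpJ)
    rw [Nat.cast_le]
    refine card_le_card fun n hn => ?_
    rw [mem_filter] at hn
    exact hn.2
  have hr : (J : ℝ) ^ (2 + 1 / 100 : ℝ) = (J : ℝ) ^ 2 * (J : ℝ) ^ (1 / 100 : ℝ) := by
    rw [Real.rpow_add hJ0]
    norm_num
  rw [hr]
  calc _ ≤ 20 * (J : ℝ) ^ 2 / p * (5 * Real.log J) ^ (k + 1) :=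
        mul_le_mul_of_nonneg_right hc (by positivity)
    _ = (J : ℝ) ^ 2 * (20 * (5 * Real.log J) ^ (k + 1)) / p := by ring
    _ ≤ (J : ℝ) ^ 2 * (J : ℝ) ^ (1 / 100 : ℝ) / p := by
        refine div_le_div_of_nonneg_right ?_ hp0.le
        exact mul_le_mul_of_nonneg_left hpow (by positivity)

end Pool.Agent.CA.FP
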