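import Pool.Agent.Lib.MP_d610d0_nt.CA.FP.Stm

set_option autoImplicit false

/-!
Piece redA of section FP: from characters to residue classes, in every window, general sifting limit.
-/

namespace Pool.Agent.CA.FP

open Finset Filter
open Pool.Agent.MP89da58 (tri primChars)
open Pool.Agent.CH (zJ wJ wL Rough VV Wt dsum thP EE)
open Pool.Agent.CH.D (FL FT Sf R_grp R_cfs)

private lemma redA_mem {R : ℕ} {p : Σ q, DirichletCharacter ℂ q} :
    p ∈ primChars R ↔ (2 ≤ p.1 ∧ p.1 ≤ R) ∧ p.2.IsPrimitive := by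
  classical
  rw [primChars, mem_sigma, mem_filter, mem_Icc]
  simp only [mem_univ, true_and]

/-- the characters -/
private lemma redA_C (hcfs : R_cfs) {z Q : ℝ} {c : ℕ → ℝ} {J : ℕ} (hW : Wt z Q c) (hJ : 2 ≤ J)
    (a : ℤ) (p : Σ q, DirichletCharacter ℂ q) :
    (1 ≤ p.1 → ‖p.2⁻¹ (a : ZMod p.1) *
      ((∑ q ∈ (Icc 1 J).filter (fun q => p.1 ∣ q), c q / Nat.totient q : ℝ) : ℂ)‖
        ≤ 100 * (Real.log J + 1) ^ 3 / p.1) ∧
    (Q < p.1 → 1 ≤ p.1 → p.2⁻¹ (a : ZMod p.1) *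
      ((∑ q ∈ (Icc 1 J).filter (fun q => p.1 ∣ q), c q / Nat.totient q : ℝ) : ℂ) = 0) := by
  constructor
  · intro hp
    rw [norm_mul, Complex.norm_real, Real.norm_eq_abs]
    have h1 := (hcfs z Q c J p.1 hW hJ hp).1
    have h2 : ‖p.2⁻¹ (a : ZMod p.1)‖ ≤ 1 := DirichletCharacter.norm_le_one _ _
    calc ‖p.2⁻¹ (a : ZMod p.1)‖ *
          |∑ q ∈ (Icc 1 J).filter (fun q => p.1 ∣ q), c q / Nat.totient q|
        ≤ 1 * (100 * (Real.log J + 1) ^ 3 / p.1) :=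
          mul_le_mul h2 h1 (abs_nonneg _) zero_le_one
      _ = _ := one_mul _
  · intro hQ hp
    rw [(hcfs z Q c J p.1 hW hJ hp).2 hQ, Complex.ofReal_zero, mul_zero]

/-- coprimality -/
private lemma redA_cop {z Q : ℝ} {c : ℕ → ℝ} (hW : Wt z Q c) {a : ℤ} (ha : a = 2 ∨ a = -2)
    {q : ℕ} (hq : c q ≠ 0) : IsCoprime a (q : ℤ) ∧ ∀ n, Rough z n → n.Coprime q := by
  constructor
  · obtain ⟨k, hk⟩ := hW.odd q hq
    rw [hk]
    rcases ha with rfl | rfl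
    · exact ⟨-(k : ℤ), 1, by push_cast; ring⟩
    · exact ⟨(k : ℤ), 1, by push_cast; ring⟩
  · intro n hn
    by_contra hc
    obtain ⟨p, hp, hpn, hpq⟩ := Nat.Prime.not_coprime_iff_dvd.1 hc
    exact absurd (hW.small q hq p hp hpq) (not_lt.2 (hn p hp hpn))

/-- the elementary estimate -/
private lemma redA_num (A B : ℕ) (L Z : ℝ) (hL : 10 ≤ L) (hZ : 0 ≤ Z) :
    L ^ (2 * B + 4) * (Z / L ^ (A + 2 * B + 5)) + L ^ 5 * (Z / L ^ (A + 6)) ≤ Z / L ^ A := by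
  have hL0 : 0 < L := by linarith
  have e1 : L ^ (2 * B + 4) * (Z / L ^ (A + 2 * B + 5)) = 1 / L * (Z / L ^ A) := by
    have : L ^ (A + 2 * B + 5) = L ^ (2 * B + 4) * L * L ^ A := by
      rw [← pow_succ, ← pow_add]
      congr 1
      ring
    rw [this]
    field_simp
  have e2 : L ^ 5 * (Z / L ^ (A + 6)) = 1 / L * (Z / L ^ A) := by
    have : L ^ (A + 6) = L ^ 5 * L * L ^ A := by
      rw [← pow_succ, ← pow_add]
      congr 1
      ring
    rw [this]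
    field_simp
  have e3 : 1 / L ≤ 1 / 2 := by
    rw [div_le_div_iff₀ hL0 (by norm_num)]
    linarith
  have hZA : 0 ≤ Z / L ^ A := by positivity
  have e4 := mul_le_mul_of_nonneg_right e3 hZA
  rw [e1, e2]
  linarith

theorem p_redA : S_redA := by
  classical
  intro hgrp hcfs hcor ω F hLC hSC hrough a ha A
  obtain ⟨B, hB⟩ := hLC (A + 6)
  have hS1 := hSC (A + 2 * B + 5) (B + 1)
  have hlog : Tendsto (fun J : ℕ => Real.log (J : ℝ)) atTop atTop :=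
    Real.tendsto_log_atTop.comp tendsto_natCast_atTop_atTop
  filter_upwards [hB, hS1, hrough, hcor B, hlog.eventually_ge_atTop 10,
    eventually_ge_atTop 4] with J hBJ hSJ hrJ hcJ hL hJ4 c hW j hj
  obtain ⟨s, hsdef⟩ : ∃ s : ℕ, s = Nat.sqrt J := ⟨_, rfl⟩
  have hs2 : 2 ≤ s := by rw [hsdef]; exact Nat.le_sqrt.2 (by omega)
  have hsJ : s ≤ J := by rw [hsdef]; exact Nat.sqrt_le_self J
  have hs1 : (1 : ℝ) ≤ (s : ℝ) := by exact_mod_cast (by omega : 1 ≤ s)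
  have hJ0 : (0 : ℝ) < (J : ℝ) := by exact_mod_cast (by omega : 0 < J)
  have hLB1 : 1 ≤ Real.log J ^ B := one_le_pow₀ (by linarith)
  rw [← hsdef] at hcJ ⊢
  obtain ⟨C, hCdef⟩ : ∃ C : (Σ q, DirichletCharacter ℂ q) → ℂ, C = fun p =>
      p.2⁻¹ (a : ZMod p.1) *
      ((∑ q ∈ (Icc 1 s).filter (fun q => p.1 ∣ q), c q / Nat.totient q : ℝ) : ℂ) := ⟨_, rfl⟩
  have hCv : ∀ p, C p = p.2⁻¹ (a : ZMod p.1) *
      ((∑ q ∈ (Icc 1 s).filter (fun q => p.1 ∣ q), c q / Nat.totient q : ℝ) : ℂ) := fun p => by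
    rw [hCdef]
  have hC : ∀ p : (Σ q, DirichletCharacter ℂ q), 1 ≤ p.1 →
      0 ≤ ‖C p‖ ∧ ‖C p‖ ≤ 100 * (Real.log J + 1) ^ 3 / p.1 := by
    intro p hp
    refine ⟨norm_nonneg _, ?_⟩
    rw [hCv]
    refine ((redA_C hcfs hW hs2 a p).1 hp).trans ?_
    apply div_le_div_of_nonneg_right _ (Nat.cast_nonneg _)
    have h1 : Real.log s ≤ Real.log J :=
      Real.log_le_log (by linarith) (by exact_mod_cast hsJ)
    have h2 : 0 ≤ Real.log s := Real.log_nonneg hs1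
    have := pow_le_pow_left₀ (show 0 ≤ Real.log s + 1 by linarith)
      (show Real.log s + 1 ≤ Real.log J + 1 by linarith) 3
    linarith
  have hC0 : ∀ p : (Σ q, DirichletCharacter ℂ q), (J : ℝ) ^ (4996 / 10000 : ℝ) < p.1 →
      ‖C p‖ = 0 := by
    intro p hp
    have h1 : (0 : ℝ) < p.1 := lt_of_le_of_lt (by positivity) hp
    have h2 : 0 < p.1 := by exact_mod_cast h1
    rw [hCv, (redA_C hcfs hW hs2 a p).2 hp h2, norm_zero]
  have hcore := hcJ (fun p => ‖Sf (F J) J j p.2‖) (fun p => ‖C p‖)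
    ((J : ℝ) ^ 2 / Real.log J ^ (A + 2 * B + 5)) ((J : ℝ) ^ 2 / Real.log J ^ (A + 6))
    (by positivity) (by positivity) (fun p => norm_nonneg _) hC hC0
    (by
      intro p hp
      obtain ⟨⟨h1, h2⟩, h3⟩ := redA_mem.1 hp
      refine hSJ p.1 p.2 h1 ?_ h3 j hj
      have h4 : (p.1 : ℝ) ≤ (⌈Real.log J ^ B⌉₊ : ℝ) := by exact_mod_cast h2
      have h5 : (⌈Real.log J ^ B⌉₊ : ℝ) < Real.log J ^ B + 1 :=
        Nat.ceil_lt_add_one (by positivity)
      have h6 : Real.log J ^ (B + 1) = Real.log J * Real.log J ^ B := by ring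
      have h7 : 2 * Real.log J ^ B ≤ Real.log J * Real.log J ^ B :=
        mul_le_mul_of_nonneg_right (by linarith) (by positivity)
      linarith)
    (by
      intro R hR1 hR2
      have h1 := hBJ R hR1 hR2 j hj
      rw [mul_div_assoc] at h1
      exact h1)
  refine le_trans ?_ (hcore.trans (redA_num A B (Real.log J) ((J : ℝ) ^ 2) hL (by positivity)))
  have hcop : ∀ q ∈ Icc 1 s, c q ≠ 0 → IsCoprime a (q : ℤ) ∧
      ∀ n, 1 ≤ n → F J n ≠ 0 → wJ J j n ≠ 0 → n.Coprime q := by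
    intro q _ hq
    obtain ⟨h1, h2⟩ := redA_cop hW ha hq
    exact ⟨h1, fun n hn hFn hwn => h2 n (hrJ j hj n hn hFn hwn)⟩
  have h1 := hgrp J j s (F J) c a hcop
  have h2 : |∑ q ∈ Icc 1 s, c q * EE J (F J) a j q| =
      ‖((∑ q ∈ Icc 1 s, c q * EE J (F J) a j q : ℝ) : ℂ)‖ := by
    rw [Complex.norm_real, Real.norm_eq_abs]
  rw [h2, h1]
  refine (norm_sum_le _ _).trans (le_of_eq ?_)
  apply sum_congr rfl
  intro p _
  rw [norm_mul, ← hCv]

end Pool.Agent.CA.FP
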