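import Pool.Agent.Lib.MP_d610d0_nt.CA.FP.Stm

set_option autoImplicit false

/-!
Piece redB of section FP: from characters to residue classes when the small first prime may divide the modulus.
-/

namespace Pool.Agent.CA.FP

open Finset Filter
open Pool.Agent.MP89da58 (tri primChars)
open Pool.Agent.CH (zJ wJ wL Rough VV Wt dsum thP EE)
open Pool.Agent.CH.D (FL FT Sf R_grp R_cfs)

private lemma redB_mem {R : ℕ} {p : Σ q, DirichletCharacter ℂ q} :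
    p ∈ primChars R ↔ (2 ≤ p.1 ∧ p.1 ≤ R) ∧ p.2.IsPrimitive := by
  classical
  rw [primChars, mem_sigma, mem_filter, mem_Icc]
  simp only [mem_univ, true_and]

private lemma redB_wJ (J j n : ℕ) : 0 ≤ wJ J j n := le_max_left _ _

private lemma redB_bx0 (k : ℕ) (lo hi : Fin k → ℝ) (n : ℕ) : 0 ≤ bx k lo hi n := Nat.cast_nonneg _

/-- the prime factors of the numbers in a box with the first prime `p` -/
private lemma redB_fac {k : ℕ} {lo hi : Fin (k + 1) → ℝ} {p n : ℕ}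
    (h : bx (k + 1) (Fin.cons (p : ℝ) (Fin.tail lo)) (Fin.cons (p : ℝ) (Fin.tail hi)) n ≠ 0)
    {r : ℕ} (hr : r.Prime) (hrn : r ∣ n) : r = p ∨ ∃ i : Fin k, lo i.succ ≤ (r : ℝ) := by
  classical
  have hne : ((Fintype.piFinset (fun i : Fin (k + 1) => (range (n + 1)).filter
    (fun q : ℕ => q.Prime ∧
      (Fin.cons (p : ℝ) (Fin.tail lo) : Fin (k + 1) → ℝ) i ≤ (q : ℝ) ∧
      (q : ℝ) ≤ (Fin.cons (p : ℝ) (Fin.tail hi) : Fin (k + 1) → ℝ) i))).filter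
      (fun q => ∏ i, q i = n)).Nonempty := by
    rw [Finset.nonempty_iff_ne_empty]
    intro he
    apply h
    unfold bx
    rw [he]
    simp
  obtain ⟨q, hq⟩ := hne
  rw [Finset.mem_filter, Fintype.mem_piFinset] at hq
  obtain ⟨hq1, hq2⟩ := hq
  rw [← hq2] at hrn
  obtain ⟨i, -, hi⟩ := (Prime.dvd_finsetProd_iff hr.prime _).1 hrn
  have h3 := hq1 i
  rw [Finset.mem_filter] at h3
  have he : r = q i := (Nat.prime_dvd_prime_iff_eq hr h3.2.1).1 hi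
  rw [← he] at h3
  obtain ⟨_, _, h4, h5⟩ := h3
  refine Fin.cases (fun h4 h5 => Or.inl ?_) (fun i h4 _ => Or.inr ⟨i, ?_⟩) i h4 h5
  · rw [Fin.cons_zero] at h4 h5
    exact_mod_cast le_antisymm h5 h4
  · rw [Fin.cons_succ] at h4
    exact h4

/-! ### Linearity in the sequence -/

private lemma redB_EE {J : ℕ} {f : ℕ → ℝ} {P : Finset ℕ} {G : ℕ → ℕ → ℝ}
    (h : ∀ n ∈ Icc 1 (27 * J ^ 3), f n = ∑ p ∈ P, G p n) (a : ℤ) (j q : ℕ) :
    EE J f a j q = ∑ p ∈ P, EE J (G p) a j q := by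
  unfold EE
  rw [sum_sub_distrib]
  congr 1
  · rw [sum_comm]
    apply sum_congr rfl
    intro n hn
    rw [h n (mem_filter.1 hn).1, sum_mul]
  · rw [← mul_sum, sum_comm]
    congr 1
    apply sum_congr rfl
    intro n hn
    rw [h n hn, sum_mul]

private lemma redB_Sf {J : ℕ} {f : ℕ → ℝ} {P : Finset ℕ} {G : ℕ → ℕ → ℝ}
    (h : ∀ n ∈ Icc 1 (27 * J ^ 3), f n = ∑ p ∈ P, G p n) (j : ℕ) {r : ℕ}
    (χ : DirichletCharacter ℂ r) : Sf f J j χ = ∑ p ∈ P, Sf (G p) J j χ := by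
  unfold Sf
  rw [sum_comm]
  apply sum_congr rfl
  intro n hn
  rw [h n hn, Complex.ofReal_sum, sum_mul, sum_mul]

private lemma redB_Sf_le {J j : ℕ} {g : ℕ → ℝ} (hg : ∀ n, 0 ≤ g n) {r : ℕ}
    (χ : DirichletCharacter ℂ r) :
    ‖Sf g J j χ‖ ≤ ∑ n ∈ Icc 1 (27 * J ^ 3), g n * wJ J j n := by
  unfold Sf
  refine (norm_sum_le _ _).trans (sum_le_sum fun n _ => ?_)
  rw [norm_mul, norm_mul, Complex.norm_real, Complex.norm_real, Real.norm_of_nonneg (hg n),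
    Real.norm_of_nonneg (redB_wJ J j n)]
  have h1 : ‖χ (n : ZMod r)‖ ≤ 1 := DirichletCharacter.norm_le_one _ _
  exact mul_le_mul_of_nonneg_right (mul_le_of_le_one_right (hg n) h1) (redB_wJ J j n)

private lemma redB_Sf_zero {J j : ℕ} {g : ℕ → ℝ} {p r : ℕ} (hp : p.Prime) (hpr : p ∣ r)
    (hdiv : ∀ n, 1 ≤ n → g n ≠ 0 → p ∣ n) (χ : DirichletCharacter ℂ r) :
    Sf g J j χ = 0 := by
  unfold Sf
  apply sum_eq_zero
  intro n hn
  rw [mem_Icc] at hn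
  by_cases h : g n = 0
  · rw [h]
    simp
  · have h1 := hdiv n hn.1 h
    have h2 : ¬ IsUnit (n : ZMod r) := by
      rw [ZMod.isUnit_iff_coprime]
      intro hc
      exact Nat.Prime.not_dvd_one hp (hc ▸ Nat.dvd_gcd h1 hpr)
    rw [χ.map_nonunit h2]
    simp

private lemma redB_EE_div {J j p q : ℕ} {g : ℕ → ℝ} (hp : p.Prime) (hpq : p ∣ q) (hq : Odd q)
    (hdiv : ∀ n, 1 ≤ n → g n ≠ 0 → p ∣ n) :
    EE J g 2 j q = - ((1 / (Nat.totient q : ℝ)) * ∑ n ∈ Icc 1 (27 * J ^ 3), g n * wJ J j n) := by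
  unfold EE
  rw [sum_eq_zero, zero_sub]
  intro n hn
  rw [mem_filter, mem_Icc] at hn
  by_cases h : g n = 0
  · rw [h, zero_mul]
  · exfalso
    have h1 := hdiv n hn.1.1 h
    have h2 : (p : ℤ) ∣ (n : ℤ) - 2 := (Int.natCast_dvd_natCast.2 hpq).trans hn.2
    have h3 : (p : ℤ) ∣ 2 := by
      have h4 : (p : ℤ) ∣ (n : ℤ) := Int.natCast_dvd_natCast.2 h1
      have := dvd_sub h4 h2
      simpa using this
    have h4 : p ∣ 2 := by exact_mod_cast h3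
    have h5 : p = 2 := (Nat.prime_dvd_prime_iff_eq hp Nat.prime_two).1 h4
    rw [h5] at hpq
    exact (Nat.not_even_iff_odd.2 hq) (even_iff_two_dvd.2 hpq)

/-! ### One prime -/

private lemma redB_one (hgrp : R_grp) {z Q : ℝ} {c : ℕ → ℝ} (hW : Wt z Q c) {J j s p : ℕ}
    (hp : p.Prime) (g : ℕ → ℝ) (hg0 : ∀ n, 0 ≤ g n) (hdiv : ∀ n, 1 ≤ n → g n ≠ 0 → p ∣ n)
    (hfac : ∀ n, 1 ≤ n → g n ≠ 0 → ∀ r : ℕ, r.Prime → r ∣ n → r = p ∨ z ≤ r) :
    ‖((∑ q ∈ Icc 1 s, c q * EE J g 2 j q : ℝ) : ℂ) -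
      ∑ χ ∈ primChars s, χ.2⁻¹ ((2 : ℤ) : ZMod χ.1) *
        ((∑ q ∈ (Icc 1 s).filter (fun q => χ.1 ∣ q), c q / Nat.totient q : ℝ) : ℂ) *
          Sf g J j χ.2‖ ≤
    (∑ n ∈ Icc 1 (27 * J ^ 3), g n * wJ J j n) *
        |∑ q ∈ (Icc 1 s).filter (fun q => p ∣ q), c q / Nat.totient q| +
      ∑ χ ∈ primChars s,
        |∑ q ∈ (Icc 1 s).filter (fun q => χ.1 ∣ q ∧ p ∣ q), c q / Nat.totient q| *
        ‖Sf g J j χ.2‖ := by
  classical
  obtain ⟨M, hM⟩ : ∃ M : ℝ, M = ∑ n ∈ Icc 1 (27 * J ^ 3), g n * wJ J j n := ⟨_, rfl⟩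
  have hM0 : 0 ≤ M := by
    rw [hM]
    exact sum_nonneg fun n _ => mul_nonneg (hg0 n) (redB_wJ J j n)
  rw [← hM]
  obtain ⟨T, hT⟩ : ∃ T : ℝ, T = ∑ q ∈ (Icc 1 s).filter (fun q => p ∣ q), c q / Nat.totient q :=
    ⟨_, rfl⟩
  rw [← hT]
  obtain ⟨c', hc'⟩ : ∃ c' : ℕ → ℝ, ∀ q, c' q = if p ∣ q then 0 else c q := ⟨_, fun q => rfl⟩
  have h1 : ∑ q ∈ Icc 1 s, c q * EE J g 2 j q =
      -(M * T) + ∑ q ∈ Icc 1 s, c' q * EE J g 2 j q := by
    rw [← sum_filter_add_sum_filter_not (Icc 1 s) (fun q => p ∣ q)]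
    congr 1
    · rw [hT, mul_sum, ← sum_neg_distrib]
      apply sum_congr rfl
      intro q hq
      rw [mem_filter] at hq
      by_cases h0 : c q = 0
      · rw [h0]
        ring
      · rw [redB_EE_div hp hq.2 (hW.odd q h0) hdiv, ← hM]
        ring
    · rw [sum_filter]
      apply sum_congr rfl
      intro q _
      rw [hc']
      by_cases h : p ∣ q
      · rw [if_neg (not_not.2 h), if_pos h, zero_mul]
      · rw [if_pos h, if_neg h]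
  have h2 := hgrp J j s g c' 2 (by
    intro q _ hq
    rw [hc'] at hq
    have hpq : ¬ p ∣ q := fun h => hq (if_pos h)
    rw [if_neg hpq] at hq
    constructor
    · obtain ⟨k, hk⟩ := hW.odd q hq
      rw [hk]
      exact ⟨-(k : ℤ), 1, by push_cast; ring⟩
    · intro n hn hgn _
      by_contra hc
      obtain ⟨r, hr, hrn, hrq⟩ := Nat.Prime.not_coprime_iff_dvd.1 hc
      rcases hfac n hn hgn r hr hrn with h | h
      · exact hpq (h ▸ hrq)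
      · exact absurd (hW.small q hq r hr hrq) (not_lt.2 h))
  have h3 : ∀ r : ℕ, ∑ q ∈ (Icc 1 s).filter (fun q => r ∣ q), c' q / Nat.totient q =
      ∑ q ∈ (Icc 1 s).filter (fun q => r ∣ q), c q / Nat.totient q -
      ∑ q ∈ (Icc 1 s).filter (fun q => r ∣ q ∧ p ∣ q), c q / Nat.totient q := by
    intro r
    rw [← filter_filter, sum_filter (fun q => p ∣ q), ← sum_sub_distrib]
    apply sum_congr rfl
    intro q _
    rw [hc']
    by_cases h : p ∣ q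
    · rw [if_pos h, if_pos h, zero_div, sub_self]
    · rw [if_neg h, if_neg h, sub_zero]
  have h4 : ((∑ q ∈ Icc 1 s, c q * EE J g 2 j q : ℝ) : ℂ) -
      ∑ χ ∈ primChars s, χ.2⁻¹ ((2 : ℤ) : ZMod χ.1) *
        ((∑ q ∈ (Icc 1 s).filter (fun q => χ.1 ∣ q), c q / Nat.totient q : ℝ) : ℂ) *
          Sf g J j χ.2 =
      -((M * T : ℝ) : ℂ) - ∑ χ ∈ primChars s, χ.2⁻¹ ((2 : ℤ) : ZMod χ.1) *
        ((∑ q ∈ (Icc 1 s).filter (fun q => χ.1 ∣ q ∧ p ∣ q), c q / Nat.totient q : ℝ) : ℂ) *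
          Sf g J j χ.2 := by
    rw [h1, Complex.ofReal_add, h2, Complex.ofReal_neg, add_sub_assoc, sub_eq_add_neg (-_ : ℂ)]
    congr 1
    rw [← sum_sub_distrib, ← sum_neg_distrib]
    apply sum_congr rfl
    intro χ _
    rw [h3 χ.1, Complex.ofReal_sub]
    ring
  rw [h4]
  refine (norm_sub_le _ _).trans (add_le_add ?_ ?_)
  · rw [norm_neg, Complex.norm_real, Real.norm_eq_abs, abs_mul, abs_of_nonneg hM0]
  · refine (norm_sum_le _ _).trans (sum_le_sum fun χ _ => ?_)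
    rw [norm_mul, norm_mul, Complex.norm_real, Real.norm_eq_abs]
    refine mul_le_mul_of_nonneg_right ?_ (norm_nonneg _)
    have h5 : ‖χ.2⁻¹ (((2 : ℤ) : ZMod χ.1))‖ ≤ 1 := DirichletCharacter.norm_le_one _ _
    exact mul_le_of_le_one_left (abs_nonneg _) h5

/-- the terms with `p ∣ q` in the coefficients -/
private lemma redB_D {z Q : ℝ} {c : ℕ → ℝ} (hcfs : R_cfs) (hW : Wt z Q c) {s r p : ℕ}
    (hp : p.Prime) (hs : 2 ≤ s) (hr : 1 ≤ r) (hpr : ¬ p ∣ r) :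
    (p : ℝ) * |∑ q ∈ (Icc 1 s).filter (fun q => r ∣ q ∧ p ∣ q), c q / Nat.totient q|
      ≤ 100 * (Real.log s + 1) ^ 3 / r ∧
    (Q < r → ∑ q ∈ (Icc 1 s).filter (fun q => r ∣ q ∧ p ∣ q), c q / Nat.totient q = 0) := by
  have e : (Icc 1 s).filter (fun q => r ∣ q ∧ p ∣ q) = (Icc 1 s).filter (fun q => r * p ∣ q) := by
    apply filter_congr
    intro q _
    constructor
    · rintro ⟨h1, h2⟩
      exact ((Nat.coprime_comm.1 ((Nat.Prime.coprime_iff_not_dvd hp).2 hpr))).mul_dvd_of_dvd_of_dvd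
        h1 h2
    · intro h
      exact ⟨(dvd_mul_right r p).trans h, (dvd_mul_left p r).trans h⟩
  have hp0 : (0 : ℝ) < p := by exact_mod_cast hp.pos
  have hr0 : (0 : ℝ) < r := by exact_mod_cast hr
  have h := hcfs z Q c s (r * p) hW hs (Nat.mul_pos hr hp.pos)
  rw [e]
  constructor
  · have h1 := mul_le_mul_of_nonneg_left h.1 hp0.le
    refine h1.trans (le_of_eq ?_)
    push_cast
    field_simp
  · intro hQ
    apply h.2
    refine lt_of_lt_of_le hQ ?_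
    push_cast
    have : (1 : ℝ) ≤ p := by exact_mod_cast hp.one_le
    nlinarith

/-! ### Numbers -/

private lemma redB_num1 (A B : ℕ) (L Z : ℝ) (hL : 10 ≤ L) (_hZ : 0 ≤ Z) :
    L ^ (2 * B + 4) * (Z / L ^ (A + 2 * B + 6)) + L ^ 5 * (Z / L ^ (A + 7)) ≤
      2 * (Z / L ^ (A + 2)) := by
  have hL0 : 0 < L := by linarith
  have e1 : L ^ (2 * B + 4) * (Z / L ^ (A + 2 * B + 6)) = Z / L ^ (A + 2) := by
    have : L ^ (A + 2 * B + 6) = L ^ (2 * B + 4) * L ^ (A + 2) := by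
      rw [← pow_add]
      congr 1
      ring
    rw [this]
    field_simp
  have e2 : L ^ 5 * (Z / L ^ (A + 7)) = Z / L ^ (A + 2) := by
    have : L ^ (A + 7) = L ^ 5 * L ^ (A + 2) := by
      rw [← pow_add]
      congr 1
      ring
    rw [this]
    field_simp
  rw [e1, e2]
  linarith

/-- the final numerical inequality; `X = J ^ (2 + 1/100)`, `w = J ^ (-1/12)` -/
private lemma redB_num2 (A B : ℕ) (L Z Y X w : ℝ) (hL : 1000 ≤ L) (hZ : 0 ≤ Z) (_hY : 0 < Y)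
    (hXw : X * w * Y = Z) (hXw0 : 0 ≤ X * w) (h : L ^ (2 * B + A + 8) ≤ Y) :
    (1 + L) * (w * (X * (100 * (L + 1) ^ 3 + L ^ (2 * B + 4))) + L ^ 5 * (Z / L ^ (A + 9))) +
      2 * (Z / L ^ (A + 2)) ≤ Z / L ^ A := by
  have hL0 : 0 < L := by linarith
  have hZA : 0 ≤ Z / L ^ A := by positivity
  have e2 : L ^ 5 * (Z / L ^ (A + 9)) = Z / L ^ A / L ^ 4 := by
    have : L ^ (A + 9) = L ^ 5 * (L ^ A * L ^ 4) := by
      rw [← pow_add, ← pow_add]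
      congr 1
      ring
    rw [this]
    field_simp
  have e3 : Z / L ^ (A + 2) = Z / L ^ A / L ^ 2 := by
    rw [pow_add]
    field_simp
  -- first term
  have h1 : 100 * (L + 1) ^ 3 ≤ L ^ (2 * B + 4) := by
    have a1 : (L + 1) ^ 3 ≤ (2 * L) ^ 3 := pow_le_pow_left₀ (by linarith) (by linarith) 3
    have a2 : (1 : ℝ) ≤ L ^ (2 * B) := one_le_pow₀ (by linarith)
    have a3 : L ^ (2 * B + 4) = L ^ (2 * B) * L ^ 4 := pow_add _ _ _
    have a4 : 800 * L ^ 3 ≤ L ^ 4 := by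
      have : L ^ 4 = L * L ^ 3 := by ring
      rw [this]
      exact mul_le_mul_of_nonneg_right (by linarith) (by positivity)
    rw [a3]
    nlinarith [pow_pos hL0 4, pow_pos hL0 3]
  have h2 : (1 + L) * (100 * (L + 1) ^ 3 + L ^ (2 * B + 4)) * L ^ (A + 2) ≤ L ^ (2 * B + A + 8) := by
    have a1 : L ^ (2 * B + A + 8) = L * L * L ^ (2 * B + 4) * L ^ (A + 2) := by
      rw [← pow_two, ← pow_add, ← pow_add]
      congr 1
      ring
    rw [a1]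
    apply mul_le_mul_of_nonneg_right _ (by positivity)
    have a2 : (0 : ℝ) ≤ L ^ (2 * B + 4) := by positivity
    have a3 : 4 * L ≤ L * L := by nlinarith
    nlinarith
  have h3 : (1 + L) * (w * (X * (100 * (L + 1) ^ 3 + L ^ (2 * B + 4)))) ≤ Z / L ^ (A + 2) := by
    rw [le_div_iff₀ (by positivity)]
    calc (1 + L) * (w * (X * (100 * (L + 1) ^ 3 + L ^ (2 * B + 4)))) * L ^ (A + 2)
        = X * w * ((1 + L) * (100 * (L + 1) ^ 3 + L ^ (2 * B + 4)) * L ^ (A + 2)) := by ring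
      _ ≤ X * w * Y := mul_le_mul_of_nonneg_left (h2.trans h) hXw0
      _ = Z := hXw
  have h4 : (1 + L) * (Z / L ^ A / L ^ 4) ≤ Z / L ^ A / L ^ 2 := by
    rw [le_div_iff₀ (by positivity)]
    have : (1 + L) * (Z / L ^ A / L ^ 4) * L ^ 2 = ((1 + L) / L ^ 2) * (Z / L ^ A) := by
      field_simp
    rw [this]
    have h5 : (1 + L) / L ^ 2 ≤ 1 := by
      rw [div_le_one (by positivity)]
      nlinarith
    exact mul_le_of_le_one_left hZA h5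
  have h5 : Z / L ^ A / L ^ 2 ≤ 1 / 4 * (Z / L ^ A) := by
    rw [div_le_iff₀ (by positivity)]
    have : (1 : ℝ) ≤ 1 / 4 * L ^ 2 := by nlinarith
    nlinarith
  rw [e2, mul_add]
  rw [e3] at h3 ⊢
  linarith

private lemma redB_ev (m : ℕ) (e : ℝ) (he : 0 < e) :
    ∀ᶠ J : ℕ in atTop, Real.log J ^ m ≤ (J : ℝ) ^ e := by
  have h := isLittleO_log_rpow_rpow_atTop (s := e) (m : ℝ) he
  have h2 := (h.bound (c := 1) one_pos).and (eventually_ge_atTop 1)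
  have h3 := tendsto_natCast_atTop_atTop.eventually h2
  filter_upwards [h3] with J hJ
  have h4 : 0 ≤ Real.log J := Real.log_nonneg hJ.2
  have h5 : (0 : ℝ) ≤ (J : ℝ) ^ e := by positivity
  have h6 := hJ.1
  rw [one_mul, Real.norm_of_nonneg h5, Real.rpow_natCast,
    Real.norm_of_nonneg (pow_nonneg h4 _)] at h6
  exact h6

/-- the harmonic sum -/
private lemma redB_harm {J : ℕ} {P : Finset ℕ} (hP : ∀ p ∈ P, 1 ≤ p ∧ p ≤ J) :
    ∑ p ∈ P, 1 / (p : ℝ) ≤ 1 + Real.log J := by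
  have h1 : P ⊆ Icc 1 J := fun p hp => mem_Icc.2 (hP p hp)
  have h2 : ∑ p ∈ P, 1 / (p : ℝ) ≤ ∑ p ∈ Icc 1 J, 1 / (p : ℝ) :=
    sum_le_sum_of_subset_of_nonneg h1 fun _ _ _ => by positivity
  refine h2.trans ?_
  have h3 := harmonic_le_one_add_log J
  rw [harmonic_eq_sum_Icc] at h3
  push_cast at h3
  simpa [one_div] using h3

/-- the coefficients -/
private lemma redB_C (hcfs : R_cfs) {z Q : ℝ} {c : ℕ → ℝ} {J : ℕ} (hW : Wt z Q c) (hJ : 2 ≤ J)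
    (a : ℤ) (p : Σ q, DirichletCharacter ℂ q) :
    (1 ≤ p.1 → ‖p.2⁻¹ (a : ZMod p.1) *
      ((∑ q ∈ (Icc 1 J).filter (fun q => p.1 ∣ q), c q / Nat.totient q : ℝ) : ℂ)‖
        ≤ 100 * (Real.log J + 1) ^ 3 / p.1) ∧
    (Q < p.1 → 1 ≤ p.1 → p.2⁻¹ (a : ZMod p.1) *
      ((∑ q ∈ (Icc 1 J).filter (fun q => p.1 ∣ q), c q / Nat.totient q : ℝ) : ℂ) = 0) := by
  constructor
  · intro hp
    rw [norm_mul, Complex.norm_real, Real.norm_eq_abs]
    have h1 := (hcfs z Q c J p.1 hW hJ hp).1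
    have h2 : ‖p.2⁻¹ (a : ZMod p.1)‖ ≤ 1 := DirichletCharacter.norm_le_one _ _
    calc ‖p.2⁻¹ (a : ZMod p.1)‖ *
          |∑ q ∈ (Icc 1 J).filter (fun q => p.1 ∣ q), c q / Nat.totient q|
        ≤ 1 * (100 * (Real.log J + 1) ^ 3 / p.1) :=
          mul_le_mul h2 h1 (abs_nonneg _) zero_le_one
      _ = _ := one_mul _
  · intro hQ hp
    rw [(hcfs z Q c J p.1 hW hJ hp).2 hQ, Complex.ofReal_zero, mul_zero]

/-- the terms with the coefficients `D`, one prime -/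
private lemma redB_T2 (hcfs : R_cfs) {z : ℝ} {c : ℕ → ℝ} {J j B p : ℕ} {X1 X2 : ℝ}
    (hW : Wt z ((J : ℝ) ^ (4996 / 10000 : ℝ)) c) (hp : p.Prime) (hJ4 : 4 ≤ J)
    (hcJ : ∀ (s Cf : (Σ q, DirichletCharacter ℂ q) → ℝ) (X1 X2 : ℝ), 0 ≤ X1 → 0 ≤ X2 →
      (∀ p, 0 ≤ s p) →
      (∀ p : (Σ q, DirichletCharacter ℂ q), 1 ≤ p.1 →
        0 ≤ Cf p ∧ Cf p ≤ 100 * (Real.log J + 1) ^ 3 / p.1) →
      (∀ p : (Σ q, DirichletCharacter ℂ q), (J : ℝ) ^ (4996 / 10000 : ℝ) < p.1 → Cf p = 0) →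
      (∀ p ∈ primChars ⌈(Real.log J) ^ B⌉₊, s p ≤ X1) →
      (∀ R : ℕ, (Real.log J) ^ B ≤ (R : ℝ) → (R : ℝ) ≤ (J : ℝ) ^ (4998 / 10000 : ℝ) →
        ∑ p ∈ primChars R, s p ≤ (R : ℝ) * X2) →
      ∑ p ∈ primChars (Nat.sqrt J), Cf p * s p ≤
        (Real.log J) ^ (2 * B + 4) * X1 + (Real.log J) ^ 5 * X2)
    (hX1 : 0 ≤ X1) (hX2 : 0 ≤ X2) (g : ℕ → ℝ) (hdiv : ∀ n, 1 ≤ n → g n ≠ 0 → p ∣ n)
    (h1 : ∀ χ : (Σ q, DirichletCharacter ℂ q), ‖Sf g J j χ.2‖ ≤ X1)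
    (h2 : ∀ R : ℕ, (Real.log J) ^ B ≤ (R : ℝ) → (R : ℝ) ≤ (J : ℝ) ^ (4998 / 10000 : ℝ) →
      ∑ χ ∈ primChars R, ‖Sf g J j χ.2‖ ≤ (R : ℝ) * X2) :
    ∑ χ ∈ primChars (Nat.sqrt J),
        |∑ q ∈ (Icc 1 (Nat.sqrt J)).filter (fun q => χ.1 ∣ q ∧ p ∣ q), c q / Nat.totient q| *
        ‖Sf g J j χ.2‖ ≤
      1 / (p : ℝ) * ((Real.log J) ^ (2 * B + 4) * X1 + (Real.log J) ^ 5 * X2) := by
  classical
  have hs2 : 2 ≤ Nat.sqrt J := Nat.le_sqrt.2 (by omega)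
  have hsJ : Nat.sqrt J ≤ J := Nat.sqrt_le_self J
  have hp0 : (0 : ℝ) < p := by exact_mod_cast hp.pos
  have hlog : 100 * (Real.log (Nat.sqrt J) + 1) ^ 3 ≤ 100 * (Real.log J + 1) ^ 3 := by
    have hs1 : (1 : ℝ) ≤ (Nat.sqrt J : ℝ) := by exact_mod_cast (by omega : 1 ≤ Nat.sqrt J)
    have h1 : Real.log (Nat.sqrt J) ≤ Real.log J :=
      Real.log_le_log (by linarith) (by exact_mod_cast hsJ)
    have h2 : 0 ≤ Real.log (Nat.sqrt J) := Real.log_nonneg hs1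
    have := pow_le_pow_left₀ (show 0 ≤ Real.log (Nat.sqrt J) + 1 by linarith)
      (show Real.log (Nat.sqrt J) + 1 ≤ Real.log J + 1 by linarith) 3
    linarith
  have hL0 : 0 ≤ Real.log J := Real.log_nonneg (by exact_mod_cast (by omega : 1 ≤ J))
  have h := hcJ (fun χ => ‖Sf g J j χ.2‖)
    (fun χ => if p ∣ χ.1 then 0 else (p : ℝ) *
      |∑ q ∈ (Icc 1 (Nat.sqrt J)).filter (fun q => χ.1 ∣ q ∧ p ∣ q), c q / Nat.totient q|)
    X1 X2 hX1 hX2 (fun χ => norm_nonneg _)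
    (by
      intro χ hχ
      by_cases hpr : p ∣ χ.1
      · simp only [if_pos hpr]
        exact ⟨le_rfl, by positivity⟩
      · simp only [if_neg hpr]
        refine ⟨by positivity, ((redB_D hcfs hW hp hs2 hχ hpr).1).trans ?_⟩
        exact div_le_div_of_nonneg_right hlog (Nat.cast_nonneg _))
    (by
      intro χ hχ
      have h3 : (0 : ℝ) < χ.1 := lt_of_le_of_lt (by positivity) hχ
      have h4 : 0 < χ.1 := by exact_mod_cast h3
      by_cases hpr : p ∣ χ.1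
      · simp only [if_pos hpr]
      · simp only [if_neg hpr]
        rw [(redB_D hcfs hW hp hs2 h4 hpr).2 hχ, abs_zero, mul_zero])
    (fun χ _ => h1 χ) h2
  refine le_trans (le_of_eq ?_) (mul_le_mul_of_nonneg_left h (by positivity))
  rw [mul_sum]
  apply sum_congr rfl
  intro χ _
  by_cases hpr : p ∣ χ.1
  · rw [redB_Sf_zero hp hpr hdiv χ.2]
    simp
  · simp only [if_neg hpr]
    field_simp

theorem p_redB : S_redB := by
  classical
  intro hgrp hcfs hcor _ hrb1 hrb2 hLS hSS k lo hi hbox A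
  obtain ⟨B, hB⟩ := hLS k (A + 9) hbox.k4
  have hS1 := hSS k lo hi hbox (A + 2 * B + 6) (B + 1)
  have hlog : Tendsto (fun J : ℕ => Real.log (J : ℝ)) atTop atTop :=
    Real.tendsto_log_atTop.comp tendsto_natCast_atTop_atTop
  filter_upwards [hB, hS1, hbox.bx, hcor B, hrb2 k, redB_ev (2 * B + A + 8) (11 / 150)
    (by norm_num), hlog.eventually_ge_atTop 1000, eventually_ge_atTop 4]
    with J hBJ hSJ hbJ hcJ hr2J hevJ hL hJ4 c hW j hj
  have hJ0 : (0 : ℝ) < (J : ℝ) := by exact_mod_cast (by omega : 0 < J)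
  have hJ1 : (1 : ℝ) ≤ (J : ℝ) := by exact_mod_cast (by omega : 1 ≤ J)
  have hs2 : 2 ≤ Nat.sqrt J := Nat.le_sqrt.2 (by omega)
  have hsJ : Nat.sqrt J ≤ J := Nat.sqrt_le_self J
  have hs1 : (1 : ℝ) ≤ (Nat.sqrt J : ℝ) := by exact_mod_cast (by omega : 1 ≤ Nat.sqrt J)
  have hlog3 : 100 * (Real.log (Nat.sqrt J) + 1) ^ 3 ≤ 100 * (Real.log J + 1) ^ 3 := by
    have h1 : Real.log (Nat.sqrt J) ≤ Real.log J :=
      Real.log_le_log (by linarith) (by exact_mod_cast hsJ)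
    have h2 : 0 ≤ Real.log (Nat.sqrt J) := Real.log_nonneg hs1
    have := pow_le_pow_left₀ (show 0 ≤ Real.log (Nat.sqrt J) + 1 by linarith)
      (show Real.log (Nat.sqrt J) + 1 ≤ Real.log J + 1 by linarith) 3
    linarith
  have hLB1 : 1 ≤ Real.log J ^ B := one_le_pow₀ (by linarith)
  -- the sequences
  obtain ⟨F, hF⟩ : ∃ F : ℕ → ℝ, F = fun n => bx (k + 1) (lo J) (hi J) n := ⟨_, rfl⟩
  obtain ⟨G, hG⟩ : ∃ G : ℕ → ℕ → ℝ, G = fun (p : ℕ) (n : ℕ) =>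
    bx (k + 1) (Fin.cons (p : ℝ) (Fin.tail (lo J))) (Fin.cons (p : ℝ) (Fin.tail (hi J))) n :=
    ⟨_, rfl⟩
  obtain ⟨P, hP⟩ : ∃ P : Finset ℕ, P = ((range (27 * J ^ 3 + 1)).filter
    (fun p : ℕ => p.Prime)).filter (fun p : ℕ => lo J 0 ≤ p ∧ (p : ℝ) ≤ hi J 0) := ⟨_, rfl⟩
  have hFG : ∀ n ∈ Icc 1 (27 * J ^ 3), F n = ∑ p ∈ P, G p n := by
    intro n hn
    rw [mem_Icc] at hn
    rw [hF, hG, hP]
    exact (hrb1 k (lo J) (hi J) n hn.1).2 (27 * J ^ 3) hn.2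
  have hdiv : ∀ p n, 1 ≤ n → G p n ≠ 0 → p ∣ n := by
    intro p n hn h
    rw [hG] at h
    exact (hrb1 k (lo J) (hi J) n hn).1 p h
  have hG0 : ∀ p n, 0 ≤ G p n := by
    intro p n
    rw [hG]
    exact redB_bx0 _ _ _ _
  have hPp : ∀ p ∈ P, p.Prime ∧ (J : ℝ) ^ (1 / 12 : ℝ) ≤ p ∧ (p : ℝ) ≤ (J : ℝ) ^ (7 / 22 : ℝ) ∧
      (p : ℝ) ≤ hi J 0 ∧ p ≤ J := by
    intro p hp
    rw [hP, mem_filter, mem_filter] at hp
    have h1 : (p : ℝ) ≤ (J : ℝ) ^ (7 / 22 : ℝ) := hp.2.2.trans hbJ.hi0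
    refine ⟨hp.1.2, hbJ.lo0.trans hp.2.1, h1, hp.2.2, ?_⟩
    have h2 : (J : ℝ) ^ (7 / 22 : ℝ) ≤ (J : ℝ) ^ (1 : ℝ) :=
      Real.rpow_le_rpow_of_exponent_le hJ1 (by norm_num)
    rw [Real.rpow_one] at h2
    exact_mod_cast h1.trans h2
  have hfac : ∀ p n, 1 ≤ n → G p n ≠ 0 → ∀ r : ℕ, r.Prime → r ∣ n →
      r = p ∨ (J : ℝ) ^ (3 / 16 : ℝ) ≤ r := by
    intro p n _ h r hr hrn
    rw [hG] at h
    rcases redB_fac h hr hrn with h1 | ⟨i, h1⟩
    · exact Or.inl h1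
    · right
      have h2 : (J : ℝ) ^ (3 / 16 : ℝ) ≤ (J : ℝ) ^ (7 / 22 : ℝ) :=
        Real.rpow_le_rpow_of_exponent_le hJ1 (by norm_num)
      exact (h2.trans (hbJ.lo1 i)).trans h1
  have hBx : ∀ p ∈ P, BoxSJ k J (Fin.cons (p : ℝ) (Fin.tail (lo J)))
      (Fin.cons (p : ℝ) (Fin.tail (hi J))) := by
    intro p hp
    obtain ⟨h1, h2, h3, h4, h5⟩ := hPp p hp
    refine ⟨by rw [Fin.cons_zero]; exact h2, by rw [Fin.cons_zero]; exact h3, ?_, ?_⟩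
    · intro i
      rw [Fin.cons_succ]
      exact hbJ.lo1 i
    · intro i
      rw [Fin.cons_succ, Fin.cons_zero]
      have h6 : Fin.tail (hi J) i = hi J i.succ := rfl
      rw [h6]
      by_cases h7 : 0 ≤ hi J i.succ
      · exact (mul_le_mul_of_nonneg_right h4 h7).trans (hbJ.hi1 i)
      · push Not at h7
        have h8 : (p : ℝ) * hi J i.succ ≤ 0 :=
          mul_nonpos_of_nonneg_of_nonpos (Nat.cast_nonneg _) h7.le
        exact h8.trans (by positivity)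
  -- the numbers
  obtain ⟨L, hLd⟩ : ∃ L : ℝ, L = Real.log J := ⟨_, rfl⟩
  obtain ⟨Z, hZd⟩ : ∃ Z : ℝ, Z = (J : ℝ) ^ 2 := ⟨_, rfl⟩
  obtain ⟨X, hXd⟩ : ∃ X : ℝ, X = (J : ℝ) ^ (2 + 1 / 100 : ℝ) := ⟨_, rfl⟩
  obtain ⟨w, hwd⟩ : ∃ w : ℝ, w = (J : ℝ) ^ (-(1 / 12) : ℝ) := ⟨_, rfl⟩
  have hX0 : 0 < X := by rw [hXd]; positivity
  have hw0 : 0 < w := by rw [hwd]; positivity
  have hZ0 : 0 ≤ Z := by rw [hZd]; positivity
  have hL0 : 0 < L := by rw [hLd]; linarith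
  have hpw : ∀ p ∈ P, 1 / (p : ℝ) ≤ w := by
    intro p hp
    obtain ⟨h1, h2, -⟩ := hPp p hp
    rw [hwd, Real.rpow_neg hJ0.le, one_div]
    exact inv_anti₀ (by positivity) h2
  -- one prime
  obtain ⟨C, hCd⟩ : ∃ C : (Σ q, DirichletCharacter ℂ q) → ℂ, ∀ χ, C χ =
      χ.2⁻¹ ((2 : ℤ) : ZMod χ.1) *
      ((∑ q ∈ (Icc 1 (Nat.sqrt J)).filter (fun q => χ.1 ∣ q), c q / Nat.totient q : ℝ) : ℂ) :=
    ⟨_, fun χ => rfl⟩
  have hone : ∀ p ∈ P, ‖((∑ q ∈ Icc 1 (Nat.sqrt J), c q * EE J (G p) 2 j q : ℝ) : ℂ) -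
      ∑ χ ∈ primChars (Nat.sqrt J), C χ * Sf (G p) J j χ.2‖ ≤
      1 / (p : ℝ) * (w * (X * (100 * (L + 1) ^ 3 + L ^ (2 * B + 4))) +
        L ^ 5 * (Z / L ^ (A + 9))) := by
    intro p hp
    obtain ⟨p1, p2, p3, p4, p5⟩ := hPp p hp
    have hp0 : (0 : ℝ) < p := by exact_mod_cast p1.pos
    have hM : ∑ n ∈ Icc 1 (27 * J ^ 3), G p n * wJ J j n ≤ X / p := by
      have := hr2J j hj (Fin.cons (p : ℝ) (Fin.tail (lo J))) (Fin.cons (p : ℝ) (Fin.tail (hi J)))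
        p p1.one_le p5 (fun n hn h => (hrb1 k (lo J) (hi J) n hn).1 p h)
      rw [hG, hXd]
      exact this
    have hM0 : 0 ≤ ∑ n ∈ Icc 1 (27 * J ^ 3), G p n * wJ J j n :=
      sum_nonneg fun n _ => mul_nonneg (hG0 p n) (redB_wJ J j n)
    have h1 := redB_one hgrp hW (J := J) (j := j) (s := Nat.sqrt J) p1 (G p) (hG0 p) (hdiv p)
      (hfac p)
    simp only [← hCd] at h1
    have h2 := redB_T2 hcfs (X1 := X / p) (X2 := Z / L ^ (A + 9)) hW p1 hJ4 hcJ (by positivity)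
      (by positivity) (j := j) (G p) (hdiv p)
      (fun χ => (redB_Sf_le (hG0 p) χ.2).trans hM)
      (by
        intro R hR1 hR2
        have := hBJ R hR1 hR2 j hj _ _ (hBx p hp)
        rw [mul_div_assoc] at this
        rw [hG, hLd, hZd]
        exact this)
    rw [← hLd] at h2
    have h3 : |∑ q ∈ (Icc 1 (Nat.sqrt J)).filter (fun q => p ∣ q), c q / Nat.totient q| ≤
        100 * (L + 1) ^ 3 / p := by
      refine ((hcfs _ _ c (Nat.sqrt J) p hW hs2 p1.one_le).1).trans ?_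
      rw [hLd]
      exact div_le_div_of_nonneg_right hlog3 (Nat.cast_nonneg _)
    have h4 : (∑ n ∈ Icc 1 (27 * J ^ 3), G p n * wJ J j n) *
        |∑ q ∈ (Icc 1 (Nat.sqrt J)).filter (fun q => p ∣ q), c q / Nat.totient q| ≤
        1 / (p : ℝ) * (w * (X * (100 * (L + 1) ^ 3))) := by
      refine (mul_le_mul hM h3 (abs_nonneg _) (by positivity)).trans ?_
      have h5 : X / p * (100 * (L + 1) ^ 3 / p) =
          1 / (p : ℝ) * (1 / (p : ℝ) * (X * (100 * (L + 1) ^ 3))) := by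
        field_simp
      rw [h5]
      apply mul_le_mul_of_nonneg_left _ (by positivity)
      exact mul_le_mul_of_nonneg_right (hpw p hp) (by positivity)
    have h5 : 1 / (p : ℝ) * (L ^ (2 * B + 4) * (X / p) + L ^ 5 * (Z / L ^ (A + 9))) ≤
        1 / (p : ℝ) * (w * (X * L ^ (2 * B + 4)) + L ^ 5 * (Z / L ^ (A + 9))) := by
      apply mul_le_mul_of_nonneg_left _ (by positivity)
      have h6 : L ^ (2 * B + 4) * (X / p) = 1 / (p : ℝ) * (X * L ^ (2 * B + 4)) := by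
        field_simp
      rw [h6]
      have h7 := mul_le_mul_of_nonneg_right (hpw p hp)
        (show 0 ≤ X * L ^ (2 * B + 4) by positivity)
      linarith
    refine h1.trans ((add_le_add h4 (h2.trans h5)).trans (le_of_eq ?_))
    ring
  -- the conductors
  have hC : ∀ χ : (Σ q, DirichletCharacter ℂ q), 1 ≤ χ.1 →
      0 ≤ ‖C χ‖ ∧ ‖C χ‖ ≤ 100 * (Real.log J + 1) ^ 3 / χ.1 := by
    intro χ hχ
    refine ⟨norm_nonneg _, ?_⟩
    rw [hCd]
    refine ((redB_C hcfs hW hs2 2 χ).1 hχ).trans ?_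
    exact div_le_div_of_nonneg_right hlog3 (Nat.cast_nonneg _)
  have hC0 : ∀ χ : (Σ q, DirichletCharacter ℂ q), (J : ℝ) ^ (4996 / 10000 : ℝ) < χ.1 →
      ‖C χ‖ = 0 := by
    intro χ hχ
    have h1 : (0 : ℝ) < χ.1 := lt_of_le_of_lt (by positivity) hχ
    have h2 : 0 < χ.1 := by exact_mod_cast h1
    rw [hCd, (redB_C hcfs hW hs2 2 χ).2 hχ h2, norm_zero]
  have hmain := hcJ (fun χ => ‖Sf F J j χ.2‖) (fun χ => ‖C χ‖)
    (Z / L ^ (A + 2 * B + 6)) (Z / L ^ (A + 7))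
    (by positivity) (by positivity) (fun p => norm_nonneg _) hC hC0
    (by
      intro χ hχ
      obtain ⟨⟨h1, h2⟩, h3⟩ := redB_mem.1 hχ
      have h8 := hSJ χ.1 χ.2 h1 (by
        have h4 : (χ.1 : ℝ) ≤ (⌈Real.log J ^ B⌉₊ : ℝ) := by exact_mod_cast h2
        have h5 : (⌈Real.log J ^ B⌉₊ : ℝ) < Real.log J ^ B + 1 :=
          Nat.ceil_lt_add_one (by positivity)
        have h6 : Real.log J ^ (B + 1) = Real.log J * Real.log J ^ B := by ring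
        have h7 : 2 * Real.log J ^ B ≤ Real.log J * Real.log J ^ B :=
          mul_le_mul_of_nonneg_right (by linarith) (by positivity)
        linarith) h3 j hj
      rw [hF, hZd, hLd]
      exact h8)
    (by
      intro R hR1 hR2
      have h1 := hBJ R hR1 hR2 j hj _ _ hbJ
      rw [mul_div_assoc] at h1
      rw [hF]
      refine h1.trans (mul_le_mul_of_nonneg_left ?_ (Nat.cast_nonneg _))
      rw [hZd, hLd]
      apply div_le_div_of_nonneg_left (by positivity) (by positivity)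
      exact pow_le_pow_right₀ (by linarith) (by omega))
  rw [← hLd] at hmain
  have hmain2 := hmain.trans (redB_num1 A B L Z (by rw [hLd]; linarith) hZ0)
  -- the sum over the primes
  have e1 : ((∑ q ∈ Icc 1 (Nat.sqrt J), c q * EE J F 2 j q : ℝ) : ℂ) -
      ∑ χ ∈ primChars (Nat.sqrt J), C χ * Sf F J j χ.2 =
      ∑ p ∈ P, (((∑ q ∈ Icc 1 (Nat.sqrt J), c q * EE J (G p) 2 j q : ℝ) : ℂ) -
        ∑ χ ∈ primChars (Nat.sqrt J), C χ * Sf (G p) J j χ.2) := by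
    rw [sum_sub_distrib]
    congr 1
    · rw [← Complex.ofReal_sum, sum_comm]
      congr 1
      apply sum_congr rfl
      intro q _
      rw [redB_EE hFG, mul_sum]
    · rw [sum_comm]
      apply sum_congr rfl
      intro χ _
      rw [redB_Sf hFG, mul_sum]
  have e2 : ‖((∑ q ∈ Icc 1 (Nat.sqrt J), c q * EE J F 2 j q : ℝ) : ℂ) -
      ∑ χ ∈ primChars (Nat.sqrt J), C χ * Sf F J j χ.2‖ ≤
      (1 + L) * (w * (X * (100 * (L + 1) ^ 3 + L ^ (2 * B + 4))) + L ^ 5 * (Z / L ^ (A + 9))) := by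
    rw [e1]
    refine (norm_sum_le _ _).trans ((sum_le_sum hone).trans ?_)
    rw [← sum_mul]
    apply mul_le_mul_of_nonneg_right _ (by positivity)
    rw [hLd]
    exact redB_harm fun p hp => ⟨(hPp p hp).1.one_le, (hPp p hp).2.2.2.2⟩
  have e3 : ‖∑ χ ∈ primChars (Nat.sqrt J), C χ * Sf F J j χ.2‖ ≤ 2 * (Z / L ^ (A + 2)) := by
    refine (norm_sum_le _ _).trans (le_trans (le_of_eq ?_) hmain2)
    apply sum_congr rfl
    intro χ _
    rw [norm_mul]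
  have e4 : |∑ q ∈ Icc 1 (Nat.sqrt J), c q * EE J F 2 j q| =
      ‖((∑ q ∈ Icc 1 (Nat.sqrt J), c q * EE J F 2 j q : ℝ) : ℂ)‖ := by
    rw [Complex.norm_real, Real.norm_eq_abs]
  have e5 : X * w * (J : ℝ) ^ (11 / 150 : ℝ) = Z := by
    rw [hXd, hwd, hZd, ← Real.rpow_add hJ0, ← Real.rpow_add hJ0, ← Real.rpow_natCast]
    norm_num
  have e6 := redB_num2 A B L Z ((J : ℝ) ^ (11 / 150 : ℝ)) X w (by rw [hLd]; exact hL) hZ0
    (by positivity) e5 (by positivity) (by rw [hLd]; exact hevJ)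
  have e7 : |∑ q ∈ Icc 1 (Nat.sqrt J), c q * EE J F 2 j q| ≤ Z / L ^ A := by
    rw [e4]
    refine le_trans ?_ e6
    have := norm_add_le (((∑ q ∈ Icc 1 (Nat.sqrt J), c q * EE J F 2 j q : ℝ) : ℂ) -
      ∑ χ ∈ primChars (Nat.sqrt J), C χ * Sf F J j χ.2)
      (∑ χ ∈ primChars (Nat.sqrt J), C χ * Sf F J j χ.2)
    rw [sub_add_cancel] at this
    linarith
  rw [hF, hZd, hLd] at e7
  exact e7

end Pool.Agent.CA.FP
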