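import Pool.Agent.Lib.MP_d610d0_nt.CA.FP.Stm

set_option autoImplicit false

/-!
Project CA, section FP, piece rrA: pointwise properties of the switched sequences.
-/

namespace Pool.Agent.CA.FP

open Finset Filter
open scoped ArithmeticFunction.Omega
open Pool.Agent.CH (Rough)
open Pool.Agent.CA.SV (Yc)

private theorem rrA_get (l : List ℕ) : ∏ i : Fin l.length, l.get i = l.prod :=
  Fin.prod_univ_getElem l

private theorem rrA_bx_nonneg (k : ℕ) (lo hi : Fin k → ℝ) (n : ℕ) : 0 ≤ bx k lo hi n := by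
  unfold bx
  positivity

private theorem rrA_pow (z : ℝ) (n : ℕ) (hz : 0 ≤ z) (hn : n ≠ 0) (hr : Rough z n) :
    z ^ (n.primeFactorsList.length) ≤ (n : ℝ) := by
  have h2 : (n : ℝ) = ∏ i : Fin n.primeFactorsList.length, ((n.primeFactorsList.get i : ℕ) : ℝ) := by
    rw [← Nat.cast_prod, rrA_get, Nat.prod_primeFactorsList hn]
  have h3 : ∏ _i : Fin n.primeFactorsList.length, z
      ≤ ∏ i : Fin n.primeFactorsList.length, ((n.primeFactorsList.get i : ℕ) : ℝ) := by
    apply Finset.prod_le_prod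
    · intro i _
      exact hz
    · intro i _
      have hm : n.primeFactorsList.get i ∈ n.primeFactorsList := List.get_mem _ _
      exact hr _ (Nat.prime_of_mem_primeFactorsList hm) (Nat.dvd_of_mem_primeFactorsList hm)
  rw [Finset.prod_const, Finset.card_univ, Fintype.card_fin] at h3
  rw [← h2] at h3
  exact h3

private theorem rrA_perm (z Y : ℝ) (n : ℕ) (hn : n ≠ 0) (hs : Squarefree n) (hr : Rough z n)
    (hY : ∀ m : ℕ, m.Prime → m ∣ n → (m : ℝ) ≤ Y) :
    (n.primeFactorsList.length.factorial : ℝ) ≤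
      bx (n.primeFactorsList.length) (fun _ => z) (fun _ => Y) n := by
  classical
  have hnd : n.primeFactorsList.Nodup := (Nat.squarefree_iff_nodup_primeFactorsList hn).1 hs
  unfold bx
  rw [Nat.cast_le]
  have h1 : (Finset.univ : Finset (Equiv.Perm (Fin n.primeFactorsList.length))).card
      = (n.primeFactorsList.length).factorial := by
    rw [Finset.card_univ, Fintype.card_perm, Fintype.card_fin]
  rw [← h1]
  apply Finset.card_le_card_of_injOn (fun σ => fun i => n.primeFactorsList.get (σ i))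
  · intro σ _
    rw [Finset.mem_coe, Finset.mem_filter, Fintype.mem_piFinset]
    refine ⟨fun i => ?_, ?_⟩
    · rw [Finset.mem_filter, Finset.mem_range]
      have hm : n.primeFactorsList.get (σ i) ∈ n.primeFactorsList := List.get_mem _ _
      have hp := Nat.prime_of_mem_primeFactorsList hm
      have hd := Nat.dvd_of_mem_primeFactorsList hm
      exact ⟨Nat.lt_succ_of_le (Nat.le_of_dvd (Nat.pos_of_ne_zero hn) hd), hp, hr _ hp hd,
        hY _ hp hd⟩
    · show ∏ i, n.primeFactorsList.get (σ i) = n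
      rw [Equiv.prod_comp σ (fun i => n.primeFactorsList.get i), rrA_get,
        Nat.prod_primeFactorsList hn]
  · intro σ _ τ _ hst
    apply Equiv.ext
    intro i
    have h2 := congrFun hst i
    exact (List.nodup_iff_injective_get.1 hnd) h2

private theorem rrA_perm1 (a b z Y : ℝ) (q n : ℕ) (hq : q.Prime) (ha : a ≤ q) (hb : (q : ℝ) ≤ b)
    (hn : n ≠ 0) (hs : Squarefree n) (hr : Rough z n)
    (hY : ∀ m : ℕ, m.Prime → m ∣ n → (m : ℝ) ≤ Y) :
    (n.primeFactorsList.length.factorial : ℝ) ≤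
      bx (n.primeFactorsList.length + 1) (Fin.cons a (fun _ => z)) (Fin.cons b (fun _ => Y))
        (q * n) := by
  classical
  have hnd : n.primeFactorsList.Nodup := (Nat.squarefree_iff_nodup_primeFactorsList hn).1 hs
  have hqn : 0 < q * n := Nat.mul_pos hq.pos (Nat.pos_of_ne_zero hn)
  unfold bx
  rw [Nat.cast_le]
  have h1 : (Finset.univ : Finset (Equiv.Perm (Fin n.primeFactorsList.length))).card
      = (n.primeFactorsList.length).factorial := by
    rw [Finset.card_univ, Fintype.card_perm, Fintype.card_fin]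
  rw [← h1]
  apply Finset.card_le_card_of_injOn
    (fun σ => (Fin.cons q (fun i => n.primeFactorsList.get (σ i)) :
      Fin (n.primeFactorsList.length + 1) → ℕ))
  · intro σ _
    rw [Finset.mem_coe, Finset.mem_filter, Fintype.mem_piFinset]
    refine ⟨fun i => ?_, ?_⟩
    · rw [Finset.mem_filter, Finset.mem_range]
      refine Fin.cases ?_ (fun i => ?_) i
      · simp only [Fin.cons_zero]
        exact ⟨Nat.lt_succ_of_le (Nat.le_of_dvd hqn (Dvd.intro _ rfl)), hq, ha, hb⟩
      · simp only [Fin.cons_succ]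
        have hm : n.primeFactorsList.get (σ i) ∈ n.primeFactorsList := List.get_mem _ _
        have hp := Nat.prime_of_mem_primeFactorsList hm
        have hd := Nat.dvd_of_mem_primeFactorsList hm
        exact ⟨Nat.lt_succ_of_le (Nat.le_of_dvd hqn (dvd_mul_of_dvd_right hd q)), hp, hr _ hp hd,
          hY _ hp hd⟩
    · show ∏ i, (Fin.cons q (fun i => n.primeFactorsList.get (σ i)) :
        Fin (n.primeFactorsList.length + 1) → ℕ) i = q * n
      rw [Fin.prod_univ_succ]
      simp only [Fin.cons_zero, Fin.cons_succ]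
      rw [Equiv.prod_comp σ (fun i => n.primeFactorsList.get i), rrA_get,
        Nat.prod_primeFactorsList hn]
  · intro σ _ τ _ hst
    apply Equiv.ext
    intro i
    have h2 := congrFun hst i.succ
    simp only [Fin.cons_succ] at h2
    exact (List.nodup_iff_injective_get.1 hnd) h2

private theorem rrA_cell (J q : ℕ) (hJ : 3 ≤ J) (hq : q ∈ QS J) :
    64 ≤ mA J q ∧ mA J q < 224 ∧ (J : ℝ) ^ ((mA J q : ℝ) / 704) ≤ q ∧
      (q : ℝ) < (J : ℝ) ^ (((mA J q : ℝ) + 1) / 704) := by
  classical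
  unfold QS at hq
  rw [Finset.mem_filter] at hq
  obtain ⟨-, hqp, hza, hya⟩ := hq
  have hJ3 : (3 : ℝ) ≤ J := by exact_mod_cast hJ
  have hJ0 : (0 : ℝ) < J := by linarith
  have hL : 0 < Real.log J := Real.log_pos (by linarith)
  have hq0 : (0 : ℝ) < q := by exact_mod_cast hqp.pos
  have h1 : 1 / 11 * Real.log J ≤ Real.log q := by
    rw [← Real.log_rpow hJ0]
    exact Real.log_le_log (by positivity) hza
  have h2 : Real.log q < 7 / 22 * Real.log J := by
    rw [← Real.log_rpow hJ0]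
    exact Real.log_lt_log hq0 hya
  have h3 : (64 : ℝ) ≤ 704 * Real.log q / Real.log J := by
    rw [le_div_iff₀ hL]
    linarith
  have h4 : 704 * Real.log q / Real.log J < 224 := by
    rw [div_lt_iff₀ hL]
    linarith
  have h5 : ((mA J q : ℕ) : ℝ) ≤ 704 * Real.log q / Real.log J :=
    Nat.floor_le (by linarith)
  have h6 : 704 * Real.log q / Real.log J < (mA J q : ℝ) + 1 := Nat.lt_floor_add_one _
  refine ⟨?_, ?_, ?_, ?_⟩
  · exact Nat.le_floor (by exact_mod_cast h3)
  · have : ((mA J q : ℕ) : ℝ) < 224 := lt_of_le_of_lt h5 h4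
    exact_mod_cast this
  · rw [← Real.log_le_log_iff (by positivity) hq0, Real.log_rpow hJ0]
    rw [le_div_iff₀ hL] at h5
    linarith
  · rw [← Real.log_lt_log_iff hq0 (by positivity), Real.log_rpow hJ0]
    rw [div_lt_iff₀ hL] at h6
    linarith

private theorem rrA_B0_nonneg (k J n : ℕ) : 0 ≤ B0 k J n / (k.factorial : ℝ) :=
  div_nonneg (rrA_bx_nonneg _ _ _ _) (by positivity)

private theorem rrA_B1_nonneg (c k J n : ℕ) : 0 ≤ B1 c k J n / (k.factorial : ℝ) :=
  div_nonneg (rrA_bx_nonneg _ _ _ _) (by positivity)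

theorem p_rrA : S_rrA := by
  have hE : ∀ᶠ J : ℕ in atTop, (27 : ℝ) < (J : ℝ) ^ (2 / 11 : ℝ) :=
    ((tendsto_rpow_atTop (by norm_num)).comp tendsto_natCast_atTop_atTop).eventually_gt_atTop 27
  filter_upwards [eventually_ge_atTop 3, hE] with J hJ h27 n hn
  have hn0 : n ≠ 0 := by omega
  have hJ3 : (3 : ℝ) ≤ J := by exact_mod_cast hJ
  have hJ0 : (0 : ℝ) < J := by linarith
  have hJ1 : (1 : ℝ) ≤ J := by linarith
  have hya1 : 1 ≤ ya J := Real.one_le_rpow hJ1 (by norm_num)
  have hX : 27 * (J : ℝ) ^ 3 < (J : ℝ) ^ (35 / 11 : ℝ) := by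
    have h1 : (J : ℝ) ^ (35 / 11 : ℝ) = (J : ℝ) ^ (2 / 11 : ℝ) * (J : ℝ) ^ 3 := by
      rw [← Real.rpow_natCast (J : ℝ) 3, ← Real.rpow_add hJ0]
      norm_num
    rw [h1]
    exact mul_lt_mul_of_pos_right h27 (by positivity)
  refine ⟨⟨?_, ?_⟩, ?_, ?_⟩
  · exact Finset.sum_nonneg (fun k _ => rrA_B0_nonneg k J n)
  · exact Finset.sum_nonneg (fun c _ => Finset.sum_nonneg (fun k _ => rrA_B1_nonneg c k J n))
  · rintro ⟨hs, hr, ho⟩ hle hY
    rw [ArithmeticFunction.cardFactors_apply] at ho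
    have hle' : (n : ℝ) ≤ 27 * (J : ℝ) ^ 3 := by exact_mod_cast hle
    have h9 : n.primeFactorsList.length ≤ 9 := by
      by_contra hcon
      push Not at hcon
      have h1 := rrA_pow (ya J) n (by linarith) hn0 hr
      have h2 : ya J ^ 10 ≤ ya J ^ (n.primeFactorsList.length) :=
        pow_le_pow_right₀ hya1 (by omega)
      have h3 : ya J ^ 10 = (J : ℝ) ^ (35 / 11 : ℝ) := by
        unfold ya
        rw [← Real.rpow_natCast, ← Real.rpow_mul hJ0.le]
        norm_num
      linarith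
    have h1 := rrA_perm (ya J) (Yc J) n hn0 hs hr hY
    have h2 : 1 ≤ B0 (n.primeFactorsList.length) J n / (n.primeFactorsList.length.factorial : ℝ) := by
      rw [le_div_iff₀ (by positivity), one_mul]
      exact h1
    exact h2.trans (Finset.single_le_sum (f := fun k => B0 k J n / (k.factorial : ℝ))
      (fun k _ => rrA_B0_nonneg k J n) (Finset.mem_Icc.2 ⟨ho, h9⟩))
  · rintro q ⟨hs, hq, hqn, hr, ho⟩ hle hY
    obtain ⟨hc1, hc2, hc3, hc4⟩ := rrA_cell J q hJ hq
    have hq' := hq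
    unfold QS at hq'
    rw [Finset.mem_filter] at hq'
    obtain ⟨-, hqp, hza, hya⟩ := hq'
    obtain ⟨m, hm⟩ : ∃ m, m = n / q := ⟨_, rfl⟩
    have hnm : n = q * m := by rw [hm, Nat.mul_div_cancel' hqn]
    rw [← hm] at hr
    have hm0 : m ≠ 0 := by
      rintro rfl
      exact hn0 (by rw [hnm, mul_zero])
    have hms : Squarefree m := Squarefree.squarefree_of_dvd ⟨q, by rw [hnm]; ring⟩ hs
    have hmY : ∀ p : ℕ, p.Prime → p ∣ m → (p : ℝ) ≤ Y1 (mA J q) J := fun p hp hpm =>
      hY p hp (hnm ▸ dvd_mul_of_dvd_right hpm q)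
    have hlen : 4 ≤ m.primeFactorsList.length := by
      rw [hnm, ArithmeticFunction.cardFactors_mul hqp.ne_zero hm0,
        ArithmeticFunction.cardFactors_apply_prime hqp, ArithmeticFunction.cardFactors_apply] at ho
      omega
    have hle' : (n : ℝ) ≤ 27 * (J : ℝ) ^ 3 := by exact_mod_cast hle
    have h9 : m.primeFactorsList.length ≤ 9 := by
      by_contra hcon
      push Not at hcon
      have h1 := rrA_pow (ya J) m (by linarith) hm0 hr
      have h2 : ya J ^ 10 ≤ ya J ^ (m.primeFactorsList.length) :=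
        pow_le_pow_right₀ hya1 (by omega)
      have h3 : ya J ^ 10 = (J : ℝ) ^ (35 / 11 : ℝ) := by
        unfold ya
        rw [← Real.rpow_natCast, ← Real.rpow_mul hJ0.le]
        norm_num
      have h4 : (m : ℝ) ≤ n := by
        rw [hnm]
        exact_mod_cast Nat.le_mul_of_pos_left m hqp.pos
      linarith
    have hb : (q : ℝ) ≤ (⌈(J : ℝ) ^ (((mA J q : ℝ) + 1) / 704)⌉₊ : ℝ) - 1 := by
      have h1 : q < ⌈(J : ℝ) ^ (((mA J q : ℝ) + 1) / 704)⌉₊ := Nat.lt_ceil.2 hc4
      have h2 : ((q + 1 : ℕ) : ℝ) ≤ (⌈(J : ℝ) ^ (((mA J q : ℝ) + 1) / 704)⌉₊ : ℝ) := by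
        exact_mod_cast h1
      push_cast at h2
      linarith
    have h1 := rrA_perm1 ((J : ℝ) ^ ((mA J q : ℝ) / 704))
      ((⌈(J : ℝ) ^ (((mA J q : ℝ) + 1) / 704)⌉₊ : ℝ) - 1) (ya J) (Y1 (mA J q) J) q m hqp hc3 hb
      hm0 hms hr hmY
    rw [← hnm] at h1
    have h2 : 1 ≤ B1 (mA J q) (m.primeFactorsList.length) J n /
        (m.primeFactorsList.length.factorial : ℝ) := by
      rw [le_div_iff₀ (by positivity), one_mul]
      exact h1
    refine h2.trans ((Finset.single_le_sum (f := fun k => B1 (mA J q) k J n / (k.factorial : ℝ))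
      (fun k _ => rrA_B1_nonneg _ k J n) (Finset.mem_Icc.2 ⟨hlen, h9⟩)).trans ?_)
    exact Finset.single_le_sum (f := fun c => ∑ k ∈ Icc 4 9, B1 c k J n / (k.factorial : ℝ))
      (fun c _ => Finset.sum_nonneg (fun k _ => rrA_B1_nonneg c k J n))
      (Finset.mem_Ico.2 ⟨hc1, hc2⟩)

end Pool.Agent.CA.FP
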