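import Pool.Agent.Lib.MP_d610d0_nt.CA.FP.Stm
import Pool.Agent.Lib.MP_d610d0_nt.CH.F.P.rr

set_option autoImplicit false

/-!
Project CA, section FP, piece seA: the sums of `1 / e` over the cofactors.
-/

namespace Pool.Agent.CA.FP

open Finset Filter
open scoped ArithmeticFunction.Omega
open Pool.Agent.CH (Rough Rk)
open Pool.Agent.CH.M2 (Sp TS S_tup1)
open Pool.Agent.CA.SV (Us R_tup)
open Pool.Agent.CH.F (cf_rr_nonneg cf_rr_perm cf_rr_get)

private lemma seA_In_nonneg (K i : ℕ) : 0 ≤ In K i := by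
  unfold In
  split_ifs
  · exact zero_le_one
  · exact le_rfl

private lemma seA_pow (z : ℝ) (n : ℕ) (hz : 0 ≤ z) (hn : n ≠ 0) (hr : Rough z n) :
    z ^ (n.primeFactorsList.length) ≤ (n : ℝ) := by
  have h2 : (n : ℝ) = ∏ i : Fin n.primeFactorsList.length, ((n.primeFactorsList.get i : ℕ) : ℝ) := by
    rw [← Nat.cast_prod, cf_rr_get, Nat.prod_primeFactorsList hn]
  have h3 : ∏ _i : Fin n.primeFactorsList.length, z
      ≤ ∏ i : Fin n.primeFactorsList.length, ((n.primeFactorsList.get i : ℕ) : ℝ) := by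
    apply Finset.prod_le_prod
    · intro i _
      exact hz
    · intro i _
      have hm : n.primeFactorsList.get i ∈ n.primeFactorsList := List.get_mem _ _
      exact hr _ (Nat.prime_of_mem_primeFactorsList hm) (Nat.dvd_of_mem_primeFactorsList hm)
  rw [Finset.prod_const, Finset.card_univ, Fintype.card_fin] at h3
  rw [← h2] at h3
  exact h3

/-- the sum over the tuples -/
private lemma seA_tuple {J K : ℕ} {X : ℝ} (hL : 0 < Real.log J)
    (hX2 : 704 * Real.log X < K * Real.log J) {N k : ℕ} (q : Fin k → ℕ)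
    (hq : ∀ i, q i ∈ Sp (ya J) N) :
    (if ((∏ i, q i : ℕ) : ℝ) ≤ X then 1 / ((∏ i, q i : ℕ) : ℝ) else 0) ≤
      (∏ i, 1 / (q i : ℝ)) * In K (∑ i, mA J (q i)) := by
  have hp : ∀ i, (q i).Prime ∧ ya J ≤ (q i : ℝ) := fun i => by
    have h1 := hq i
    unfold Sp at h1
    exact (Finset.mem_filter.1 h1).2
  have hpos : ∀ i, (0 : ℝ) < (q i : ℝ) := fun i => by exact_mod_cast (hp i).1.pos
  split_ifs with h
  · have hprod : (0 : ℝ) < ((∏ i, q i : ℕ) : ℝ) := by
      rw [Nat.cast_prod]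
      exact Finset.prod_pos fun i _ => hpos i
    have h1 : ((∑ i, mA J (q i) : ℕ) : ℝ) * Real.log J ≤
        704 * Real.log ((∏ i, q i : ℕ) : ℝ) := by
      rw [Nat.cast_prod, Real.log_prod (fun i _ => (hpos i).ne'), Nat.cast_sum, Finset.sum_mul,
        Finset.mul_sum]
      refine Finset.sum_le_sum fun i _ => ?_
      have h2 : 0 ≤ 704 * Real.log (q i) / Real.log J := by
        have h4 : 0 ≤ Real.log (q i) := Real.log_natCast_nonneg _
        positivity
      have h5 := Nat.floor_le h2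
      rw [le_div_iff₀ hL] at h5
      exact h5
    have h2 : Real.log ((∏ i, q i : ℕ) : ℝ) ≤ Real.log X := Real.log_le_log hprod h
    have h3 : ((∑ i, mA J (q i) : ℕ) : ℝ) * Real.log J < K * Real.log J := by linarith
    have h4 : ((∑ i, mA J (q i) : ℕ) : ℝ) < K := lt_of_mul_lt_mul_right h3 hL.le
    have h5 : ∑ i, mA J (q i) < K := by exact_mod_cast h4
    unfold In
    rw [if_pos h5, mul_one, Nat.cast_prod, Finset.prod_div_distrib, Finset.prod_const_one]
  · exact mul_nonneg (Finset.prod_nonneg fun i _ => by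
      have := hpos i
      positivity) (seA_In_nonneg _ _)

private lemma seA_inv {p : ℕ} (hp : p.Prime) : 1 / (p : ℝ) ≤ 1 / ((p : ℝ) - 1) := by
  have h2 : (2 : ℝ) ≤ p := by exact_mod_cast hp.two_le
  exact one_div_le_one_div_of_le (by linarith) (by linarith)

/-- the cells -/
private lemma seA_cell {J : ℕ} (hJ : 3 ≤ J)
    (hc : ∀ (S : Finset ℕ) (i : ℕ), 64 ≤ i → i < 1889 →
      (∀ p ∈ S, p.Prime ∧ mA J p = i) → ∑ p ∈ S, 1 / ((p : ℝ) - 1) ≤ aA i)
    (N i : ℕ) (hi : i < 1889) :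
    ∑ p ∈ (Sp (ya J) N).filter (fun p => mA J p = i), 1 / (p : ℝ) ≤ aB i := by
  have hJ3 : (3 : ℝ) ≤ J := by exact_mod_cast hJ
  have hJ0 : (0 : ℝ) < J := by linarith
  have hL : 0 < Real.log J := Real.log_pos (by linarith)
  unfold aB
  split_ifs with h
  · refine le_trans (Finset.sum_le_sum fun p hp => ?_) (hc ((Sp (ya J) N).filter
      (fun p => mA J p = i)) i (by omega) hi (fun p hp => ?_))
    · rw [Finset.mem_filter] at hp
      unfold Sp at hp
      exact seA_inv (Finset.mem_filter.1 hp.1).2.1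
    · rw [Finset.mem_filter] at hp
      unfold Sp at hp
      exact ⟨(Finset.mem_filter.1 hp.1).2.1, hp.2⟩
  · apply le_of_eq
    apply Finset.sum_eq_zero
    intro p hp
    exfalso
    rw [Finset.mem_filter] at hp
    unfold Sp at hp
    obtain ⟨h1, h2⟩ := hp
    have h3 := (Finset.mem_filter.1 h1).2
    have h4 : 7 / 22 * Real.log J ≤ Real.log p := by
      rw [← Real.log_rpow hJ0]
      exact Real.log_le_log (by positivity) h3.2
    have h5 : (224 : ℝ) ≤ 704 * Real.log p / Real.log J := by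
      rw [le_div_iff₀ hL]
      linarith
    have h6 : 224 ≤ mA J p := Nat.le_floor (by exact_mod_cast h5)
    omega

/-- the sum over squarefree rough numbers with `k` prime factors -/
private lemma seA_core (htup1 : S_tup1) (htup : R_tup) {J : ℕ} (hJ : 3 ≤ J)
    (hc : ∀ (S : Finset ℕ) (i : ℕ), 64 ≤ i → i < 1889 →
      (∀ p ∈ S, p.Prime ∧ mA J p = i) → ∑ p ∈ S, 1 / ((p : ℝ) - 1) ≤ aA i)
    (K k : ℕ) (hK : K ≤ 1889) (X : ℝ) (hX0 : 0 < X)
    (hX2 : 704 * Real.log X < K * Real.log J) (E : Finset ℕ)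
    (hE : ∀ e ∈ E, e ∈ Icc 1 ⌊X⌋₊ ∧ Squarefree e ∧ Rough (ya J) e ∧
      e.primeFactorsList.length = k) :
    ∑ e ∈ E, 1 / (e : ℝ) ≤ 1 / (k.factorial : ℝ) * ((Us K aB)^[k] (In K)) 0 := by
  classical
  have hJ3 : (3 : ℝ) ≤ J := by exact_mod_cast hJ
  have hJ0 : (0 : ℝ) < J := by linarith
  have hL : 0 < Real.log J := Real.log_pos (by linarith)
  obtain ⟨N, hN⟩ : ∃ N : ℕ, N = ⌊X⌋₊ := ⟨_, rfl⟩
  rw [← hN] at hE
  obtain ⟨h, hh⟩ : ∃ h : ℕ → ℝ, h = fun n : ℕ => if (n : ℝ) ≤ X then 1 / (n : ℝ) else 0 := ⟨_, rfl⟩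
  have hh0 : ∀ n, 0 ≤ h n := fun n => by
    rw [hh]
    simp only
    split_ifs
    · positivity
    · exact le_rfl
  have h1 : ∀ e ∈ E, 1 / (e : ℝ) ≤ Rk (ya J) k e * h e := by
    intro e he
    obtain ⟨h2, hsq, hr, ho⟩ := hE e he
    rw [Finset.mem_Icc] at h2
    have heX : (e : ℝ) ≤ X := by
      have := h2.2
      rw [hN] at this
      exact (Nat.le_floor_iff hX0.le).1 this
    have hp := cf_rr_perm (ya J) e (by omega) hsq hr
    rw [ho] at hp
    have hhe : h e = 1 / (e : ℝ) := by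
      rw [hh]
      simp only
      rw [if_pos heX]
    rw [← hhe]
    exact le_mul_of_one_le_left (hh0 e) hp
  have h2 : ∑ e ∈ E, 1 / (e : ℝ) ≤ ∑ n ∈ Icc 1 N, Rk (ya J) k n * h n := by
    refine (Finset.sum_le_sum h1).trans ?_
    exact Finset.sum_le_sum_of_subset_of_nonneg (fun e he => (hE e he).1) fun n _ _ =>
      mul_nonneg (cf_rr_nonneg (ya J) k n) (hh0 n)
  refine h2.trans ((htup1 (ya J) N k h hh0).trans ?_)
  rw [div_eq_mul_one_div, mul_comm]
  refine mul_le_mul_of_nonneg_left ?_ (by positivity)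
  have h4 : TS (Sp (ya J) N) k h ≤ ∑ q ∈ Fintype.piFinset (fun _ : Fin k => Sp (ya J) N),
      (∏ i, (fun p : ℕ => 1 / (p : ℝ)) (q i)) * In K (∑ i, mA J (q i)) := by
    unfold TS
    refine Finset.sum_le_sum fun q hq => ?_
    rw [hh]
    exact seA_tuple hL hX2 q (Fintype.mem_piFinset.1 hq)
  refine h4.trans ?_
  refine htup K (Sp (ya J) N) (mA J) (fun p => 1 / (p : ℝ)) aB (In K) k
    (fun p _ => by positivity) (fun i => seA_In_nonneg K i) (fun i hi => ?_) (fun i hi => ?_)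
  · unfold In
    rw [if_neg (by omega)]
  · exact seA_cell hJ hc N i (by omega)

private lemma seA_aA (c : ℕ) : 0 ≤ aA c := by
  unfold aA
  positivity

/-- the sum over the small primes -/
private lemma seA_QS {J : ℕ} (hJ : 3 ≤ J)
    (hc : ∀ (S : Finset ℕ) (i : ℕ), 64 ≤ i → i < 1889 →
      (∀ p ∈ S, p.Prime ∧ mA J p = i) → ∑ p ∈ S, 1 / ((p : ℝ) - 1) ≤ aA i) :
    ∑ q ∈ QS J, 1 / (q : ℝ) ≤ ∑ c ∈ Ico 64 224, aA c := by
  classical
  have hJ3 : (3 : ℝ) ≤ J := by exact_mod_cast hJ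
  have hJ0 : (0 : ℝ) < J := by linarith
  have hL : 0 < Real.log J := Real.log_pos (by linarith)
  have hpr : ∀ q ∈ QS J, q.Prime ∧ za J ≤ q ∧ (q : ℝ) < ya J := by
    intro q hq
    unfold QS at hq
    exact (Finset.mem_filter.1 hq).2
  have hmap : ∀ q ∈ QS J, mA J q ∈ Ico 64 224 := by
    intro q hq
    obtain ⟨hqp, hza, hya⟩ := hpr q hq
    have hq0 : (0 : ℝ) < q := by exact_mod_cast hqp.pos
    have h1 : 1 / 11 * Real.log J ≤ Real.log q := by
      rw [← Real.log_rpow hJ0]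
      exact Real.log_le_log (by positivity) hza
    have h2 : Real.log q < 7 / 22 * Real.log J := by
      rw [← Real.log_rpow hJ0]
      exact Real.log_lt_log hq0 hya
    have h3 : (64 : ℝ) ≤ 704 * Real.log q / Real.log J := by
      rw [le_div_iff₀ hL]
      linarith
    have h4 : 704 * Real.log q / Real.log J < 224 := by
      rw [div_lt_iff₀ hL]
      linarith
    have h5 : ((mA J q : ℕ) : ℝ) ≤ 704 * Real.log q / Real.log J := Nat.floor_le (by linarith)
    rw [Finset.mem_Ico]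
    refine ⟨Nat.le_floor (by exact_mod_cast h3), ?_⟩
    have : ((mA J q : ℕ) : ℝ) < 224 := lt_of_le_of_lt h5 h4
    exact_mod_cast this
  rw [← Finset.sum_fiberwise_of_maps_to hmap]
  refine Finset.sum_le_sum fun c hcm => ?_
  rw [Finset.mem_Ico] at hcm
  refine le_trans (Finset.sum_le_sum fun p hp => ?_) (hc ((QS J).filter
    (fun p => mA J p = c)) c (by omega) (by omega) (fun p hp => ?_))
  · rw [Finset.mem_filter] at hp
    exact seA_inv (hpr p hp.1).1
  · rw [Finset.mem_filter] at hp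
    exact ⟨(hpr p hp.1).1, hp.2⟩

private lemma seA_27 : Real.log 27 ≤ 4 := by
  rw [Real.log_le_iff_le_exp (by norm_num)]
  have h1 : (2.7 : ℝ) ≤ Real.exp 1 := by linarith [Real.exp_one_gt_d9]
  have h2 : (2.7 : ℝ) ^ 4 ≤ Real.exp 1 ^ 4 := pow_le_pow_left₀ (by norm_num) h1 4
  rw [← Real.exp_nat_mul] at h2
  have h3 : ((4 : ℕ) : ℝ) * 1 = 4 := by norm_num
  rw [h3] at h2
  refine le_trans ?_ h2
  norm_num

theorem p_seA : S_seA := by
  classical
  intro htup1 htup hcell hE0 hE1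
  have hlogJ : ∀ᶠ J : ℕ in atTop, (10000 : ℝ) ≤ Real.log J :=
    (Real.tendsto_log_atTop.comp tendsto_natCast_atTop_atTop).eventually_ge_atTop 10000
  filter_upwards [hcell, hlogJ, eventually_ge_atTop 3] with J hc hL hJ
  have hJ3 : (3 : ℝ) ≤ J := by exact_mod_cast hJ
  have hJ0 : (0 : ℝ) < J := by linarith
  have hJ1 : (1 : ℝ) ≤ J := by linarith
  have hL0 : 0 < Real.log J := by linarith
  have h27 := seA_27
  have hya0 : 0 < ya J := by
    unfold ya
    positivity
  have hya1 : 1 ≤ ya J := Real.one_le_rpow hJ1 (by norm_num)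
  have hlya : Real.log (ya J) = 7 / 22 * Real.log J := by
    unfold ya
    rw [Real.log_rpow hJ0]
  -- the length of a rough number below `X`
  have hlen : ∀ (X : ℝ) (k : ℕ), 0 < X → Real.log X < (k + 1 : ℕ) * (7 / 22 * Real.log J) →
      ∀ e : ℕ, e ≠ 0 → Rough (ya J) e → (e : ℝ) ≤ X → k ≤ e.primeFactorsList.length →
      e.primeFactorsList.length = k := by
    intro X k hX0 hX e he hr heX hk
    by_contra hne
    have h1 := seA_pow (ya J) e hya0.le he hr
    have h2 : ya J ^ (k + 1) ≤ ya J ^ (e.primeFactorsList.length) :=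
      pow_le_pow_right₀ hya1 (by omega)
    have h3 : ya J ^ (k + 1) ≤ X := by linarith
    have h4 := Real.log_le_log (by positivity) h3
    rw [Real.log_pow, hlya] at h4
    linarith
  constructor
  · -- no small prime
    have hX0 : (0 : ℝ) < 27 * (J : ℝ) ^ (27 / 20 : ℝ) := by positivity
    have hlX : Real.log (27 * (J : ℝ) ^ (27 / 20 : ℝ)) = Real.log 27 + 27 / 20 * Real.log J := by
      rw [Real.log_mul (by norm_num) (by positivity), Real.log_rpow hJ0]
    have h := seA_core htup1 htup hJ hc 951 4 (by norm_num) (27 * (J : ℝ) ^ (27 / 20 : ℝ)) hX0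
      (by rw [hlX]; push_cast; linarith) (ES0 J) (by
        intro e he
        unfold ES0 at he
        rw [Finset.mem_filter] at he
        obtain ⟨h1, hsq, hr, ho⟩ := he
        rw [ArithmeticFunction.cardFactors_apply] at ho
        have h2 := Finset.mem_Icc.1 h1
        refine ⟨h1, hsq, hr, ?_⟩
        refine hlen (27 * (J : ℝ) ^ (27 / 20 : ℝ)) 4 hX0 ?_ e (by omega) hr
          ((Nat.le_floor_iff hX0.le).1 h2.2) ho
        rw [hlX]
        push_cast
        linarith)
    refine h.trans ?_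
    have h2 : ((4 : ℕ).factorial : ℝ) = 24 := by norm_num [Nat.factorial]
    rw [h2]
    exact hE0
  · -- one small prime
    obtain ⟨X, hX⟩ : ∃ X : ℝ, X = 27 * (J : ℝ) ^ (1 + 1 / 500 + 1 / 704 : ℝ) := ⟨_, rfl⟩
    have hX0 : (0 : ℝ) < X := by
      rw [hX]
      positivity
    have hlX : Real.log X = Real.log 27 + (1 + 1 / 500 + 1 / 704) * Real.log J := by
      rw [hX, Real.log_mul (by norm_num) (by positivity), Real.log_rpow hJ0]
    obtain ⟨E, hEdef⟩ : ∃ E : Finset ℕ, E = (Icc 1 ⌊X⌋₊).filter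
        (fun e => Squarefree e ∧ Rough (ya J) e ∧ 3 ≤ Ω e) := ⟨_, rfl⟩
    have hB := seA_core htup1 htup hJ hc 707 3 (by norm_num) X hX0
      (by rw [hlX]; push_cast; linarith) E (by
        intro e he
        rw [hEdef, Finset.mem_filter] at he
        obtain ⟨h1, hsq, hr, ho⟩ := he
        rw [ArithmeticFunction.cardFactors_apply] at ho
        have h2 := Finset.mem_Icc.1 h1
        refine ⟨h1, hsq, hr, ?_⟩
        refine hlen X 3 hX0 ?_ e (by omega) hr ((Nat.le_floor_iff hX0.le).1 h2.2) ho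
        rw [hlX]
        push_cast
        linarith)
    have hA := seA_QS hJ hc
    -- the decomposition
    have hdec : ∀ e ∈ ES1 J, ∃ q ∈ QS J, q ∣ e ∧ e / q ∈ E ∧ q ≠ 0 := by
      intro e he
      unfold ES1 at he
      rw [Finset.mem_filter] at he
      obtain ⟨h1, hsq, q, hq, hqe, hr, ho, hle⟩ := he
      have h2 := Finset.mem_Icc.1 h1
      have hqp : q.Prime := by
        unfold QS at hq
        exact (Finset.mem_filter.1 hq).2.1
      refine ⟨q, hq, hqe, ?_, hqp.ne_zero⟩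
      rw [hEdef, Finset.mem_filter, Finset.mem_Icc]
      refine ⟨⟨Nat.div_pos (Nat.le_of_dvd (by omega) hqe) hqp.pos, ?_⟩, ?_, hr, ho⟩
      · rw [Nat.le_floor_iff hX0.le, hX]
        exact hle
      · exact Squarefree.squarefree_of_dvd (Nat.div_dvd_of_dvd hqe) hsq
    choose! φ hφ1 hφ2 hφ3 hφ4 using hdec
    have hmul : ∀ e ∈ ES1 J, e = φ e * (e / φ e) := fun e he =>
      (Nat.mul_div_cancel' (hφ2 e he)).symm
    have hsum : ∑ e ∈ ES1 J, 1 / (e : ℝ) ≤
        ∑ y ∈ QS J ×ˢ E, 1 / (y.1 : ℝ) * (1 / (y.2 : ℝ)) := by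
      have h1 : ∑ e ∈ ES1 J, 1 / (e : ℝ) =
          ∑ y ∈ (ES1 J).image (fun e => (φ e, e / φ e)), 1 / (y.1 : ℝ) * (1 / (y.2 : ℝ)) := by
        rw [Finset.sum_image]
        · refine Finset.sum_congr rfl fun e he => ?_
          simp only
          have h2 : (e : ℝ) = (φ e : ℝ) * ((e / φ e : ℕ) : ℝ) := by
            rw [← Nat.cast_mul, ← hmul e he]
          rw [one_div_mul_one_div, ← h2]
        · intro e he e' he' hee
          simp only [Prod.mk.injEq] at hee
          rw [hmul e he, hmul e' he', hee.2, hee.1]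
      rw [h1]
      refine Finset.sum_le_sum_of_subset_of_nonneg ?_ fun y _ _ => by positivity
      intro y hy
      rw [Finset.mem_image] at hy
      obtain ⟨e, he, rfl⟩ := hy
      exact Finset.mem_product.2 ⟨hφ1 e he, hφ3 e he⟩
    refine hsum.trans ?_
    have hprod : ∑ y ∈ QS J ×ˢ E, 1 / (y.1 : ℝ) * (1 / (y.2 : ℝ)) =
        (∑ q ∈ QS J, 1 / (q : ℝ)) * ∑ e ∈ E, 1 / (e : ℝ) := by
      rw [Finset.sum_product, Finset.sum_mul_sum]
    rw [hprod]
    have hB0 : 0 ≤ ∑ e ∈ E, 1 / (e : ℝ) := Finset.sum_nonneg fun e _ => by positivity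
    have hA0 : 0 ≤ ∑ c ∈ Ico 64 224, aA c := Finset.sum_nonneg fun c _ => seA_aA c
    refine (mul_le_mul hA hB hB0 hA0).trans ?_
    have h2 : ((3 : ℕ).factorial : ℝ) = 6 := by norm_num [Nat.factorial]
    rw [h2]
    have h3 := hE1
    unfold R_nE1 at h3
    rw [← Finset.sum_mul] at h3
    linarith

end Pool.Agent.CA.FP
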