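import Pool.Agent.Lib.MP_d610d0_nt.CA.FP.Stm
import Pool.Agent.Lib.MP_d610d0_nt.CA.FP.FL

set_option autoImplicit false

/-!
Project CA, section FP, piece sg: the sieve weights for a general sifting limit and level.
-/

namespace Pool.Agent.CA.FP

open Finset Filter
open Pool.Agent.BVall (RepB)
open Pool.Agent.CH (Rough VV Wt dsum)
open Pool.Agent.CH.S (OP Pr gd V th UpC LoC RepC p_pt p_rep p_tel p_mer p_conv p_comp Mer)

/-- The indicator of the divisibility. -/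
private noncomputable def sg_rho (n : ℕ) : ℕ → ℝ := fun p => if p ∣ n then 1 else 0

private theorem sg_rho_bd (n p : ℕ) : 0 ≤ sg_rho n p ∧ sg_rho n p ≤ 1 := by
  unfold sg_rho
  split_ifs <;> norm_num

private theorem sg_disj (X k : ℕ) : Disjoint (OP X) (Pr (X + 1) k) := by
  rw [Finset.disjoint_left]
  intro p hp hp'
  unfold OP at hp
  unfold Pr at hp'
  rw [Finset.mem_filter, Finset.mem_range] at hp hp'
  omega

private theorem sg_mem (X : ℕ) (z : ℝ) (hX : ((X + 1 : ℕ) : ℝ) ≤ z) (hX2 : 2 ≤ X) :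
    ∀ p ∈ OP X ∪ Pr (X + 1) ⌈z⌉₊, p.Prime ∧ 2 < p ∧ (p : ℝ) < z := by
  intro p hp
  rcases Finset.mem_union.1 hp with h | h
  · unfold OP at h
    rw [Finset.mem_filter, Finset.mem_range] at h
    refine ⟨h.2.1, h.2.2, lt_of_lt_of_le ?_ hX⟩
    exact_mod_cast h.1
  · unfold Pr at h
    rw [Finset.mem_filter, Finset.mem_range] at h
    exact ⟨h.2.1, by omega, Nat.lt_ceil.1 h.1⟩

/-- The product of the two indicators. -/
private theorem sg_prod (X : ℕ) (z : ℝ) (hX : ((X + 1 : ℕ) : ℝ) ≤ z) (hX2 : 2 ≤ X) (n : ℕ)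
    (hn : Odd n) :
    (Rough z n → (∏ p ∈ OP X, (1 - sg_rho n p)) *
      (∏ p ∈ Pr (X + 1) ⌈z⌉₊, (1 - sg_rho n p)) = 1) ∧
    (¬ Rough z n → (∏ p ∈ OP X, (1 - sg_rho n p)) *
      (∏ p ∈ Pr (X + 1) ⌈z⌉₊, (1 - sg_rho n p)) = 0) := by
  rw [← Finset.prod_union (sg_disj X ⌈z⌉₊)]
  constructor
  · intro h
    apply Finset.prod_eq_one
    intro p hp
    obtain ⟨h1, h2, h3⟩ := sg_mem X z hX hX2 p hp
    have : ¬ p ∣ n := fun hd => absurd (h p h1 hd) (not_le.2 h3)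
    unfold sg_rho
    rw [if_neg this, sub_zero]
  · intro h
    unfold Rough at h
    push Not at h
    obtain ⟨p, hp, hd, hz⟩ := h
    have hp2 : p ≠ 2 := by
      rintro rfl
      rw [← Nat.not_even_iff_odd] at hn
      exact hn (even_iff_two_dvd.2 hd)
    have hp3 : 2 < p := lt_of_le_of_ne hp.two_le (Ne.symm hp2)
    have hmem : p ∈ OP X ∪ Pr (X + 1) ⌈z⌉₊ := by
      rw [Finset.mem_union]
      by_cases hpX : p ≤ X
      · left
        unfold OP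
        rw [Finset.mem_filter, Finset.mem_range]
        exact ⟨by omega, hp, hp3⟩
      · right
        unfold Pr
        rw [Finset.mem_filter, Finset.mem_range]
        exact ⟨Nat.lt_ceil.2 hz, hp, by omega⟩
    apply Finset.prod_eq_zero hmem
    unfold sg_rho
    rw [if_pos hd, sub_self]

private theorem sg_nn (P : Finset ℕ) (n : ℕ) : 0 ≤ ∏ p ∈ P, (1 - sg_rho n p) :=
  Finset.prod_nonneg fun p _ => by linarith [(sg_rho_bd n p).2]

private theorem sg_gd {p : ℕ} (hp : 2 < p) : 0 ≤ gd p ∧ gd p ≤ 1 := by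
  have h1 : (3 : ℝ) ≤ p := by exact_mod_cast hp
  unfold gd
  constructor
  · apply div_nonneg zero_le_one
    linarith
  · rw [div_le_one (by linarith)]
    linarith

private theorem sg_low {Ap Am Bp Bm I1 I2 : ℝ} (h1 : Am ≤ I1) (h2 : I1 ≤ Ap) (h3 : Bm ≤ I2)
    (h4 : I2 ≤ Bp) (h5 : 0 ≤ I1) (h6 : 0 ≤ I2) : Ap * Bm + Am * Bp - Ap * Bp ≤ I1 * I2 := by
  have k1 : Ap * Bm ≤ Ap * I2 := mul_le_mul_of_nonneg_left h3 (h5.trans h2)
  have k2 : Am * Bp ≤ I1 * Bp := mul_le_mul_of_nonneg_right h1 (h6.trans h4)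
  have k3 : 0 ≤ (Ap - I1) * (Bp - I2) := mul_nonneg (by linarith) (by linarith)
  nlinarith

private theorem sg_up {Ap Bp V0 V1 u : ℝ} (h0 : 0 ≤ V0) (h1 : 0 < V1) (hu : 0 < u)
    (a2 : Ap ≤ (1 + 1 / 10000) * V0) (b1 : V1 ≤ Bp)
    (b2 : Bp ≤ V1 * (1 + u)) : Ap * Bp ≤ (1 + 1 / 5000) * (1 + u) * (V0 * V1) := by
  have hv : 0 ≤ V0 * V1 := mul_nonneg h0 h1.le
  calc Ap * Bp ≤ ((1 + 1 / 10000) * V0) * (V1 * (1 + u)) :=
        mul_le_mul a2 b2 (h1.le.trans b1) (by positivity)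
    _ = (1 + 1 / 10000) * (1 + u) * (V0 * V1) := by ring
    _ ≤ (1 + 1 / 5000) * (1 + u) * (V0 * V1) := by gcongr; norm_num

private theorem sg_lo {Ap Am Bp Bm V0 V1 u l : ℝ} (h0 : 0 ≤ V0) (h1 : 0 < V1)
    (hu8 : u ≤ 0.8) (hl1 : l ≤ 1.01) (a1 : V0 ≤ Ap)
    (a2 : Ap ≤ (1 + 1 / 10000) * V0) (a3 : (1 - 1 / 10000) * V0 ≤ Am) (b1 : V1 ≤ Bp)
    (b2 : Bp ≤ V1 * (1 + u)) (b3 : V1 * (1 - l) ≤ Bm) :
    (1 - l - 1 / 2000) * (V0 * V1) ≤ Ap * Bm + Am * Bp - Ap * Bp := by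
  have hv : 0 ≤ V0 * V1 := mul_nonneg h0 h1.le
  have hA : 0 ≤ Ap := h0.trans a1
  have k1 : (1 - l) * (V0 * V1) - 0.000001 * (V0 * V1) ≤ Ap * Bm := by
    have k0 : Ap * (V1 * (1 - l)) ≤ Ap * Bm := mul_le_mul_of_nonneg_left b3 hA
    rcases le_or_gt 0 (1 - l) with h | h
    · have : V0 * (V1 * (1 - l)) ≤ Ap * (V1 * (1 - l)) :=
        mul_le_mul_of_nonneg_right a1 (mul_nonneg h1.le h)
      nlinarith
    · have h2 : ((1 + 1 / 10000) * V0) * (V1 * (1 - l)) ≤ Ap * (V1 * (1 - l)) :=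
        mul_le_mul_of_nonpos_right a2 (mul_nonpos_of_nonneg_of_nonpos h1.le h.le)
      have h3 : ((1 + 1 / 10000) * V0) * (V1 * (1 - l)) =
        (1 - l) * (V0 * V1) + 1 / 10000 * (1 - l) * (V0 * V1) := by ring
      have h4 : -0.000001 * (V0 * V1) ≤ 1 / 10000 * (1 - l) * (V0 * V1) := by
        apply mul_le_mul_of_nonneg_right _ hv
        linarith
      linarith
  have k2 : (Ap - Am) * Bp ≤ 0.00036 * (V0 * V1) := by
    have k3 : (Ap - Am) ≤ 0.0002 * V0 := by linarith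
    have k4 : 0 ≤ Bp := h1.le.trans b1
    have k5 : Bp ≤ V1 * 1.8 := b2.trans (mul_le_mul_of_nonneg_left (by linarith) h1.le)
    calc (Ap - Am) * Bp ≤ (0.0002 * V0) * Bp := mul_le_mul_of_nonneg_right k3 k4
      _ ≤ (0.0002 * V0) * (V1 * 1.8) := mul_le_mul_of_nonneg_left k5 (by positivity)
      _ = 0.00036 * (V0 * V1) := by ring
  nlinarith

private theorem sg_u2 : uS 2 ≤ 0.8 := by
  have h : ⌊(20 : ℝ) * 2⌋₊ = 40 := by norm_num
  unfold uS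
  rw [h]
  have h1 : uN 40 = 786200 / 10 ^ 6 := by
    unfold uN
    rw [if_pos (by norm_num)]
    norm_num [tu]
  rw [h1]
  norm_num

private theorem sg_l2 : lS 2 ≤ 1.01 := by
  have h : ⌊(20 : ℝ) * 2⌋₊ = 40 := by norm_num
  unfold lS
  rw [h]
  have h1 : lN 40 = 1007712 / 10 ^ 6 := by
    unfold lN
    rw [if_pos (by norm_num)]
    norm_num [tl]
  rw [h1]
  norm_num

/-- Piece sg. -/
theorem p_sg : S_sg := by
  intro hss hpar w k e hw hwk he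
  obtain ⟨U, L, hSS⟩ := hss
  obtain ⟨S, hS3, hpar'⟩ := hpar w k e hw hwk he
  obtain ⟨ε, hε, hLS⟩ := q_LS uS lS U L (35724 / 10000) hSS S hS3
  obtain ⟨a0, ha0, hM⟩ := p_mer ε hε
  obtain ⟨C0, hF⟩ := q_fl
  have hk : 0 < k := lt_of_lt_of_le hw hwk
  filter_upwards [hpar' C0 a0, eventually_ge_atTop 2] with J hJ hJ2
  obtain ⟨m, hm2, hma, hmC, hmz, hlog⟩ := hJ
  have hJ1 : (1 : ℝ) < J := by exact_mod_cast (by omega : 1 < J)
  have hJ0 : (0 : ℝ) < J := by linarith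
  have hlJ : 0 < Real.log J := Real.log_pos hJ1
  obtain ⟨Fp, Fm, hRp, hRm, hpt0, hFp, hFm⟩ := hF m hm2
  obtain ⟨X, hX⟩ : ∃ X : ℕ, X = 2 ^ 2 ^ m := ⟨_, rfl⟩
  rw [← hX] at hma hmz hlog hRp hRm hpt0 hFp hFm
  have hXr : ((2 : ℝ) ^ 2 ^ m) = (X : ℝ) := by rw [hX]; push_cast; rfl
  rw [hXr] at hmC hRp hRm
  have hX2 : 2 ≤ X := by omega
  have ha3 : 3 ≤ X + 1 := by omega
  have hs : Real.log ((J : ℝ) ^ k) / Real.log ((J : ℝ) ^ w) = k / w := by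
    rw [Real.log_rpow hJ0, Real.log_rpow hJ0]
    field_simp
  have hzD : (J : ℝ) ^ w ≤ (J : ℝ) ^ k := Real.rpow_le_rpow_of_exponent_le hJ1.le hwk
  have hD1 : 1 < (J : ℝ) ^ k := Real.one_lt_rpow hJ1 hk
  have hprod : (J : ℝ) ^ e * (J : ℝ) ^ k = (J : ℝ) ^ (k + e) := by
    rw [← Real.rpow_add hJ0, add_comm]
  have hzz : 2 * w ≤ k → ((J : ℝ) ^ w) ^ 2 ≤ (J : ℝ) ^ k := by
    intro h
    rw [← Real.rpow_natCast, ← Real.rpow_mul hJ0.le]
    apply Real.rpow_le_rpow_of_exponent_le hJ1.le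
    push_cast
    linarith
  generalize hz : (J : ℝ) ^ w = z at *
  generalize hD : (J : ℝ) ^ k = D at *
  generalize hQ0 : (J : ℝ) ^ e = Q0 at *
  obtain ⟨hUp, hLo⟩ := hLS (X + 1) ha3 (hM (X + 1) hma) D z hmz hzD hlog
  have hz3 : (3 : ℝ) ≤ z := by
    have : (3 : ℝ) ≤ ((X + 1 : ℕ) : ℝ) := by exact_mod_cast ha3
    linarith
  -- representations
  have hB1 := (p_rep (X + 1) ⌈z⌉₊ true D hD1 (fun h => absurd h (by simp))).mono
    (Q' := fun T => ∏ p ∈ T, (p : ℝ) ≤ D) (fun T _ h => le_of_lt h)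
  have hA1 := hRp.mono (Q' := fun T => ∏ p ∈ T, (p : ℝ) ≤ Q0) (fun T _ h => le_trans h hmC)
  have hA2 := hRm.mono (Q' := fun T => ∏ p ∈ T, (p : ℝ) ≤ Q0) (fun T _ h => le_trans h hmC)
  obtain ⟨hc1, -⟩ := p_comp (OP X) (Pr (X + 1) ⌈z⌉₊) Q0 D Fp Fm _ _ (sg_disj X _)
    hA1 hA2 hB1 hB1
  obtain ⟨cp, hWp, hdp, hNp⟩ := p_conv z (Q0 * D) _ _ (sg_mem X z hmz hX2) hc1
  rw [hprod] at hWp
  have hpw : ∀ n : ℕ, Odd n →
      (Fm (sg_rho n) ≤ ∏ p ∈ OP X, (1 - sg_rho n p) ∧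
        ∏ p ∈ OP X, (1 - sg_rho n p) ≤ Fp (sg_rho n)) ∧
      (th (X + 1) (sg_rho n) ⌈z⌉₊ false D ≤
          ∏ p ∈ Pr (X + 1) ⌈z⌉₊, (1 - sg_rho n p) ∧
        ∏ p ∈ Pr (X + 1) ⌈z⌉₊, (1 - sg_rho n p) ≤
          th (X + 1) (sg_rho n) ⌈z⌉₊ true D) := fun n _ =>
    ⟨hpt0 _ (fun p _ => sg_rho_bd n p),
      p_pt (X + 1) (sg_rho n) ⌈z⌉₊ D (fun p _ => sg_rho_bd n p)⟩
  have hup : ∀ n : ℕ, Odd n → (open Classical in if Rough z n then (1 : ℝ) else 0) ≤ dsum cp n := by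
    intro n hn
    obtain ⟨⟨h1, h2⟩, h3, h4⟩ := hpw n hn
    have hn0 : n ≠ 0 := by rintro rfl; simp at hn
    have hle : (∏ p ∈ OP X, (1 - sg_rho n p)) *
        (∏ p ∈ Pr (X + 1) ⌈z⌉₊, (1 - sg_rho n p)) ≤ dsum cp n := by
      rw [hdp n hn0]
      exact mul_le_mul h2 h4 (sg_nn _ n) ((sg_nn _ n).trans h2)
    obtain ⟨k1, k2⟩ := sg_prod X z hmz hX2 n hn
    by_cases hR : Rough z n
    · rw [if_pos hR]
      rwa [k1 hR] at hle
    · rw [if_neg hR]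
      rwa [k2 hR] at hle
  -- main terms
  obtain ⟨t1, t2, t3, t4, t5⟩ := p_tel (X + 1) ha3
  have hVV := t5 X z hX2 (by push_cast at hmz; exact hmz)
  have g0 : ∀ p ∈ OP X, 0 ≤ gd p ∧ gd p ≤ 1 := fun p hp =>
    sg_gd (sg_mem X z hmz hX2 p (Finset.mem_union_left _ hp)).2.1
  have g1 : ∀ p ∈ Pr (X + 1) ⌈z⌉₊, 0 ≤ gd p ∧ gd p ≤ 1 := fun p hp =>
    sg_gd (sg_mem X z hmz hX2 p (Finset.mem_union_right _ hp)).2.1
  have hV0 : 0 ≤ ∏ p ∈ OP X, (1 - gd p) :=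
    Finset.prod_nonneg fun p hp => by linarith [(g0 p hp).2]
  obtain ⟨r1, r2⟩ := hpt0 gd g0
  obtain ⟨q1, q2⟩ := p_pt (X + 1) gd ⌈z⌉₊ D g1
  unfold UpC at hUp
  rw [hs] at hUp
  have hV1 := (t1 ⌈z⌉₊).1
  have hkw1 : 1 ≤ k / w := by rw [le_div_iff₀ hw]; linarith
  have hu0 : 0 < uS (k / w) := hSS.u_pos _ hkw1
  have hmp : ∀ N : ℕ, (J : ℝ) ^ (k + e) ≤ N →
      ∑ d ∈ Icc 1 N, cp d / (Nat.totient d : ℝ) ≤ (1 + 1 / 5000) * (1 + uS (k / w)) * VV z := by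
    intro N hN
    rw [hNp N (by rw [hprod]; exact hN), hVV]
    exact sg_up hV0 hV1 hu0 hFp q2 hUp
  by_cases h2w : 2 * w ≤ k
  · have hz2 := hzz h2w
    have hLo := hLo hz2
    have hkD : ((⌈z⌉₊ : ℕ) : ℝ) ≤ D := by
      have h1 := Nat.ceil_lt_add_one (show 0 ≤ z by linarith)
      nlinarith
    have hB2 := (p_rep (X + 1) ⌈z⌉₊ false D hD1 (fun _ => hkD)).mono
      (Q' := fun T => ∏ p ∈ T, (p : ℝ) ≤ D) (fun T _ h => le_of_lt h)
    obtain ⟨-, hc2⟩ := p_comp (OP X) (Pr (X + 1) ⌈z⌉₊) Q0 D Fp Fm _ _ (sg_disj X _)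
      hA1 hA2 hB1 hB2
    obtain ⟨cm, hWm, hdm, hNm⟩ := p_conv z (Q0 * D) _ _ (sg_mem X z hmz hX2) hc2
    rw [hprod] at hWm
    unfold LoC at hLo
    rw [hs] at hLo
    have hkw2 : 2 ≤ k / w := by rw [le_div_iff₀ hw]; linarith
    have hu8 : uS (k / w) ≤ 0.8 := (hSS.u_anti 2 _ (by norm_num) hkw2).trans sg_u2
    have hl1 : lS (k / w) ≤ 1.01 := (hSS.l_anti 2 _ le_rfl hkw2).trans sg_l2
    refine ⟨cp, cm, ?_⟩
    constructor
    · rw [hz]; exact hWp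
    · rw [hz]; exact hWm
    · intro n hn
      rw [hz]
      obtain ⟨⟨h1, h2⟩, h3, h4⟩ := hpw n hn
      have hn0 : n ≠ 0 := by rintro rfl; simp at hn
      have hle : dsum cm n ≤ (∏ p ∈ OP X, (1 - sg_rho n p)) *
          (∏ p ∈ Pr (X + 1) ⌈z⌉₊, (1 - sg_rho n p)) := by
        rw [hdm n hn0]
        exact sg_low h1 h2 h3 h4 (sg_nn _ n) (sg_nn _ n)
      obtain ⟨k1, k2⟩ := sg_prod X z hmz hX2 n hn
      by_cases hR : Rough z n
      · rw [if_pos hR]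
        rwa [k1 hR] at hle
      · rw [if_neg hR]
        rwa [k2 hR] at hle
    · intro n hn
      rw [hz]
      exact hup n hn
    · intro N hN
      rw [hz]
      exact hmp N hN
    · intro _ N hN
      rw [hz, hNm N (by rw [hprod]; exact hN), hVV]
      exact sg_lo hV0 hV1 hu8 hl1 r2 hFp hFm q2 hUp hLo
  · refine ⟨cp, fun _ => 0, ?_⟩
    constructor
    · rw [hz]; exact hWp
    · constructor <;> simp
    · intro n hn
      have : dsum (fun _ => 0) n = 0 := by unfold dsum; simp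
      rw [this]
      split_ifs <;> norm_num
    · intro n hn
      rw [hz]
      exact hup n hn
    · intro N hN
      rw [hz]
      exact hmp N hN
    · intro h
      exact absurd h h2w

end Pool.Agent.CA.FP
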