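import Pool.Agent.Lib.MP_d610d0_nt.CA.FP.Stm

set_option autoImplicit false

/-!
Project CA, section FP, piece swG: exchange of the summations.
-/

namespace Pool.Agent.CA.FP

open Finset Filter
open scoped ArithmeticFunction.Omega
open Pool.Agent.CH (zJ wJ wL Rough VV Wt dsum thP EE)
open Pool.Agent.CH.F (mu)

/-- the divisor sum as a sum over `[1, s]` -/
private theorem swG_dsum (z Q : ℝ) (s : ℕ) (c : ℕ → ℝ) (hs : Q ≤ s)
    (hc : Wt z Q c) (m : ℕ) (hm : m ≠ 0) :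
    dsum c m = ∑ q ∈ Icc 1 s, (if q ∣ m then c q else 0) := by
  rw [← Finset.sum_filter]
  unfold dsum
  symm
  apply Finset.sum_subset
  · intro q hq
    rw [Finset.mem_filter] at hq
    exact Nat.mem_divisors.2 ⟨hq.2, hm⟩
  · intro q hq hq'
    by_contra h0
    apply hq'
    rw [Finset.mem_filter, Finset.mem_Icc]
    have h1 : (q : ℝ) ≤ (s : ℝ) := (hc.le q h0).trans hs
    exact ⟨⟨Nat.pos_of_mem_divisors hq, by exact_mod_cast h1⟩, Nat.dvd_of_mem_divisors hq⟩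

private theorem swG_main (J j s : ℕ) (z Q : ℝ) (f c : ℕ → ℝ) (hJ : Q ≤ s)
    (hc : Wt z Q c) (a : ℤ) (t : ℕ → ℕ)
    (hs : ∀ n ∈ Icc 1 (27 * J ^ 3), f n * wJ J j n ≠ 0 →
      t n ≠ 0 ∧ ∀ q : ℕ, q ∣ t n ↔ (q : ℤ) ∣ (n : ℤ) - a) :
    ∑ n ∈ Icc 1 (27 * J ^ 3), f n * wJ J j n * dsum c (t n)
      = ∑ q ∈ Icc 1 s, c q * EE J f a j q
        + (∑ q ∈ Icc 1 s, c q / (Nat.totient q : ℝ)) *
          ∑ n ∈ Icc 1 (27 * J ^ 3), f n * wJ J j n := by
  have h1 : ∀ n ∈ Icc 1 (27 * J ^ 3), f n * wJ J j n * dsum c (t n) =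
      ∑ q ∈ Icc 1 s, c q * (if (q : ℤ) ∣ (n : ℤ) - a then f n * wJ J j n else 0) := by
    intro n hn
    by_cases h0 : f n * wJ J j n = 0
    · rw [h0, zero_mul]
      symm
      apply Finset.sum_eq_zero
      intro q _
      rw [ite_self, mul_zero]
    · obtain ⟨h2, h3⟩ := hs n hn h0
      rw [swG_dsum z Q s c hJ hc (t n) h2, Finset.mul_sum]
      apply Finset.sum_congr rfl
      intro q _
      by_cases h4 : q ∣ t n
      · rw [if_pos h4, if_pos ((h3 q).1 h4)]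
        ring
      · rw [if_neg h4, if_neg (fun h5 => h4 ((h3 q).2 h5))]
        ring
  rw [Finset.sum_congr rfl h1, Finset.sum_comm, Finset.sum_mul, ← Finset.sum_add_distrib]
  apply Finset.sum_congr rfl
  intro q _
  rw [← Finset.mul_sum, ← Finset.sum_filter]
  unfold EE
  ring

theorem p_swG : S_swG := by
  intro J j f c z Q hJ hc hs
  refine ⟨?_, ?_⟩
  · apply swG_main J j (Nat.sqrt J) z Q f c hs hc (-2) (fun n => n + 2)
    intro n _ _
    refine ⟨by omega, ?_⟩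
    intro q
    rw [← Int.natCast_dvd_natCast]
    have : ((n + 2 : ℕ) : ℤ) = (n : ℤ) - (-2) := by push_cast; ring
    rw [this]
  · intro h0
    apply swG_main J j (Nat.sqrt J) z Q f c hs hc 2 (fun n => n - 2)
    intro n _ hn
    have h3 : 3 ≤ n := by
      by_contra h4
      exact hn (h0 n (by omega))
    refine ⟨by omega, ?_⟩
    intro q
    rw [← Int.natCast_dvd_natCast]
    have : ((n - 2 : ℕ) : ℤ) = (n : ℤ) - 2 := by omega
    rw [this]

end Pool.Agent.CA.FP
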