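import Pool.Agent.Lib.MP_d610d0_nt.CA.FP.Stm

set_option autoImplicit false

/-!
Piece `tab`: the piecewise linear supersolution of the linear sieve equations.
-/

namespace Pool.Agent.CA.FP

open Finset

/-- Piecewise linear function with right values `a` and left limits `b`. -/
noncomputable def tab_pl (a b : ℕ → ℝ) (s : ℝ) : ℝ :=
  (1 - (20 * s - ⌊20 * s⌋₊)) * a ⌊20 * s⌋₊ + (20 * s - ⌊20 * s⌋₊) * b ⌊20 * s⌋₊

/-- Its integral from `s` on, with node values `V`. -/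
noncomputable def tab_pi (a b V : ℕ → ℝ) (s : ℝ) : ℝ :=
  (1 - (20 * s - ⌊20 * s⌋₊)) * V ⌊20 * s⌋₊ + (20 * s - ⌊20 * s⌋₊) * V (⌊20 * s⌋₊ + 1)
    - (20 * s - ⌊20 * s⌋₊) * (1 - (20 * s - ⌊20 * s⌋₊)) * (a ⌊20 * s⌋₊ - b ⌊20 * s⌋₊) / 40

structure tab_P (i0 : ℕ) (a b V : ℕ → ℝ) : Prop where
  ab : ∀ i, i0 ≤ i → b i ≤ a i
  ba : ∀ i, i0 ≤ i → a (i + 1) ≤ b i
  pos : ∀ i, i0 ≤ i → 0 < a i
  step : ∀ i, i0 ≤ i → V i = V (i + 1) + (a i + b i) / 40
  nn : ∀ i, i0 ≤ i → 0 ≤ V i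

lemma tab_cell (i0 : ℕ) (s : ℝ) (hs : (i0 : ℝ) ≤ 20 * s) :
    ∃ (i : ℕ) (t : ℝ), i0 ≤ i ∧ 0 ≤ t ∧ t < 1 ∧ 20 * s = i + t := by
  have h0 : (0 : ℝ) ≤ 20 * s := le_trans (Nat.cast_nonneg _) hs
  refine ⟨⌊20 * s⌋₊, 20 * s - ⌊20 * s⌋₊, Nat.le_floor hs, ?_, ?_, by ring⟩
  · have := Nat.floor_le h0
    linarith
  · have := Nat.lt_floor_add_one (20 * s)
    linarith

lemma tab_floor (i : ℕ) (s t : ℝ) (h : 20 * s = i + t) (h0 : 0 ≤ t) (h1 : t < 1) :
    ⌊20 * s⌋₊ = i := by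
  rw [Nat.floor_eq_iff (by rw [h]; positivity)]
  constructor <;> linarith

lemma tab_pl_eq (a b : ℕ → ℝ) (i : ℕ) (s t : ℝ) (h : 20 * s = i + t) (h0 : 0 ≤ t) (h1 : t < 1) :
    tab_pl a b s = (1 - t) * a i + t * b i := by
  unfold tab_pl
  rw [tab_floor i s t h h0 h1, h]
  ring

lemma tab_pi_eq (a b V : ℕ → ℝ) (i : ℕ) (s t : ℝ) (h : 20 * s = i + t) (h0 : 0 ≤ t) (h1 : t < 1) :
    tab_pi a b V s = (1 - t) * V i + t * V (i + 1) - t * (1 - t) * (a i - b i) / 40 := by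
  unfold tab_pi
  rw [tab_floor i s t h h0 h1, h]
  ring

section gen
variable {i0 : ℕ} {a b V : ℕ → ℝ}

lemma tab_P.anti (H : tab_P i0 a b V) (i : ℕ) (hi : i0 ≤ i) (n : ℕ) : a (i + n) ≤ a i := by
  induction n with
  | zero => simp
  | succ n ih =>
    have h1 := H.ba (i + n) (by omega)
    have h2 := H.ab (i + n) (by omega)
    rw [← Nat.add_assoc]
    linarith

lemma tab_P.anti' (H : tab_P i0 a b V) (i j : ℕ) (hi : i0 ≤ i) (hj : i < j) : a j ≤ b i := by
  obtain ⟨n, rfl⟩ : ∃ n, j = i + 1 + n := ⟨j - (i + 1), by omega⟩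
  have h1 := H.anti (i + 1) (by omega) n
  have h2 := H.ba i hi
  linarith

lemma tab_P.bpos (H : tab_P i0 a b V) (i : ℕ) (hi : i0 ≤ i) : 0 < b i :=
  lt_of_lt_of_le (H.pos (i + 1) (by omega)) (H.ba i hi)

/-- bounds of the linear interpolation -/
lemma tab_P.lin (H : tab_P i0 a b V) (i : ℕ) (hi : i0 ≤ i) (t : ℝ) (h0 : 0 ≤ t) (h1 : t ≤ 1) :
    b i ≤ (1 - t) * a i + t * b i ∧ (1 - t) * a i + t * b i ≤ a i := by
  have h := H.ab i hi
  constructor
  · nlinarith [mul_nonneg (sub_nonneg.2 h1) (sub_nonneg.2 h)]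
  · nlinarith [mul_nonneg h0 (sub_nonneg.2 h)]

lemma tab_P.sum (H : tab_P i0 a b V) (i : ℕ) (hi : i0 ≤ i) (n : ℕ) (c : ℝ) (hc : c ≤ a (i + n)) :
    (n : ℝ) / 20 * c ≤ V i - V (i + n) := by
  induction n with
  | zero => simp
  | succ n ih =>
    have h1 := H.ba (i + n) (by omega)
    have h2 := H.ab (i + n) (by omega)
    have h3 := H.step (i + n) (by omega)
    rw [← Nat.add_assoc] at hc ⊢
    have h4 := ih (by linarith)
    push_cast
    linarith

lemma tab_P.f_anti (H : tab_P i0 a b V) (x y : ℝ) (hx : (i0 : ℝ) ≤ 20 * x) (hxy : x ≤ y) :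
    tab_pl a b y ≤ tab_pl a b x := by
  obtain ⟨i, t, hi, ht0, ht1, hxt⟩ := tab_cell i0 x hx
  obtain ⟨j, u, hj, hu0, hu1, hyu⟩ := tab_cell i0 y (by linarith)
  rw [tab_pl_eq a b i x t hxt ht0 ht1, tab_pl_eq a b j y u hyu hu0 hu1]
  have hij : i ≤ j := by
    rw [← tab_floor i x t hxt ht0 ht1, ← tab_floor j y u hyu hu0 hu1]
    exact Nat.floor_le_floor (by linarith)
  rcases Nat.lt_or_ge i j with h | h
  · have h1 := (H.lin i hi t ht0 ht1.le).1
    have h2 := (H.lin j hj u hu0 hu1.le).2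
    have h3 := H.anti' i j hi h
    linarith
  · have e : i = j := le_antisymm hij h
    subst e
    have htu : t ≤ u := by linarith
    nlinarith [mul_nonneg (sub_nonneg.2 htu) (sub_nonneg.2 (H.ab i hi))]

lemma tab_P.f_pos (H : tab_P i0 a b V) (x : ℝ) (hx : (i0 : ℝ) ≤ 20 * x) : 0 < tab_pl a b x := by
  obtain ⟨i, t, hi, ht0, ht1, hxt⟩ := tab_cell i0 x hx
  rw [tab_pl_eq a b i x t hxt ht0 ht1]
  exact lt_of_lt_of_le (H.bpos i hi) (H.lin i hi t ht0 ht1.le).1

lemma tab_P.F_nn (H : tab_P i0 a b V) (x : ℝ) (hx : (i0 : ℝ) ≤ 20 * x) : 0 ≤ tab_pi a b V x := by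
  obtain ⟨i, t, hi, ht0, ht1, hxt⟩ := tab_cell i0 x hx
  rw [tab_pi_eq a b V i x t hxt ht0 ht1, H.step i hi]
  have h1 := H.nn (i + 1) (by omega)
  have h2 := (H.pos i hi).le
  have h3 := (H.bpos i hi).le
  have e : (1 - t) * (V (i + 1) + (a i + b i) / 40) + t * V (i + 1) - t * (1 - t) * (a i - b i) / 40
      = V (i + 1) + (1 - t) * ((1 - t) * a i + (1 + t) * b i) / 40 := by ring
  rw [e]
  have h4 : 0 ≤ 1 - t := by linarith
  positivity

lemma tab_P.F_le (H : tab_P i0 a b V) (i : ℕ) (x t : ℝ) (hi : i0 ≤ i) (ht0 : 0 ≤ t) (ht1 : t < 1)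
    (hxt : 20 * x = i + t) : tab_pi a b V x ≤ (1 - t) * V i + t * V (i + 1) := by
  rw [tab_pi_eq a b V i x t hxt ht0 ht1]
  have h4 : 0 ≤ 1 - t := by linarith
  have h5 := H.ab i hi
  have : 0 ≤ t * (1 - t) * (a i - b i) / 40 := by
    apply div_nonneg _ (by norm_num)
    exact mul_nonneg (mul_nonneg ht0 h4) (by linarith)
  linarith

lemma tab_P.F_int (H : tab_P i0 a b V) (x y : ℝ) (hx : (i0 : ℝ) ≤ 20 * x) (hxy : x ≤ y) :
    (y - x) * tab_pl a b y ≤ tab_pi a b V x - tab_pi a b V y := by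
  obtain ⟨i, t, hi, ht0, ht1, hxt⟩ := tab_cell i0 x hx
  obtain ⟨j, u, hj, hu0, hu1, hyu⟩ := tab_cell i0 y (by linarith)
  rw [tab_pi_eq a b V i x t hxt ht0 ht1, tab_pl_eq a b j y u hyu hu0 hu1,
    tab_pi_eq a b V j y u hyu hu0 hu1]
  have hij : i ≤ j := by
    rw [← tab_floor i x t hxt ht0 ht1, ← tab_floor j y u hyu hu0 hu1]
    exact Nat.floor_le_floor (by linarith)
  have hyx : y - x = ((j : ℝ) + u - (i + t)) / 20 := by linarith
  rw [hyx]
  rcases Nat.lt_or_ge i j with h | h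
  · have h1 := (H.lin i hi t ht0 ht1.le).1
    have h2 := (H.lin j hj u hu0 hu1.le).2
    have h3 := H.anti' i j hi h
    obtain ⟨n, rfl⟩ : ∃ n, j = i + 1 + n := ⟨j - (i + 1), by omega⟩
    have h4 := H.sum (i + 1) (by omega) n ((1 - u) * a (i + 1 + n) + u * b (i + 1 + n)) h2
    have h5 := H.step i hi
    have h6 := H.step (i + 1 + n) (by omega)
    have h7 := H.ab (i + 1 + n) (by omega)
    have h8 := H.ab i hi
    set c := (1 - u) * a (i + 1 + n) + u * b (i + 1 + n) with hc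
    have hcb : c ≤ b i := by linarith
    -- first cell
    have e1 : (1 - t) / 20 * c ≤ (1 - t) * V i + t * V (i + 1) - t * (1 - t) * (a i - b i) / 40
        - V (i + 1) := by
      rw [h5]
      have : (1 - t) * (V (i + 1) + (a i + b i) / 40) + t * V (i + 1) - t * (1 - t) * (a i - b i) / 40
        - V (i + 1) = (1 - t) / 20 * (b i + (1 - t) * (a i - b i) / 2) := by ring
      rw [this]
      apply mul_le_mul_of_nonneg_left _ (by linarith)
      have : 0 ≤ (1 - t) * (a i - b i) / 2 :=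
        div_nonneg (mul_nonneg (by linarith) (by linarith)) (by norm_num)
      linarith
    -- last cell
    have e2 : u / 20 * c ≤ V (i + 1 + n) - ((1 - u) * V (i + 1 + n) + u * V (i + 1 + n + 1)
        - u * (1 - u) * (a (i + 1 + n) - b (i + 1 + n)) / 40) := by
      have : V (i + 1 + n) - ((1 - u) * V (i + 1 + n) + u * V (i + 1 + n + 1)
        - u * (1 - u) * (a (i + 1 + n) - b (i + 1 + n)) / 40)
        = u / 20 * (c + u * (a (i + 1 + n) - b (i + 1 + n)) / 2) := by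
        rw [h6, hc]; ring
      rw [this]
      apply mul_le_mul_of_nonneg_left _ (by linarith)
      have : 0 ≤ u * (a (i + 1 + n) - b (i + 1 + n)) / 2 :=
        div_nonneg (mul_nonneg hu0 (by linarith)) (by norm_num)
      linarith
    have e3 : (((i + 1 + n : ℕ) : ℝ) + u - (i + t)) / 20 * c
        = (1 - t) / 20 * c + (n : ℝ) / 20 * c + u / 20 * c := by
      push_cast
      ring
    rw [e3]
    linarith
  · have e : i = j := le_antisymm hij h
    subst e
    have htu : t ≤ u := by linarith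
    have h5 := H.step i hi
    have h8 := H.ab i hi
    rw [h5]
    have e1 : (1 - t) * (V (i + 1) + (a i + b i) / 40) + t * V (i + 1) - t * (1 - t) * (a i - b i) / 40
        - ((1 - u) * (V (i + 1) + (a i + b i) / 40) + u * V (i + 1) - u * (1 - u) * (a i - b i) / 40)
        = ((i : ℝ) + u - (i + t)) / 20 * ((1 - u) * a i + u * b i) + (u - t) * ((u - t) * (a i - b i)) / 40 := by
      ring
    rw [e1]
    have : 0 ≤ (u - t) * ((u - t) * (a i - b i)) / 40 :=
      div_nonneg (mul_nonneg (by linarith) (mul_nonneg (by linarith) (by linarith))) (by norm_num)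
    linarith

end gen

/-- The product of `s` and the function. -/
lemma tab_sf (a b : ℕ → ℝ) (i : ℕ) (s t : ℝ) (h : 20 * s = i + t) (h0 : 0 ≤ t) (h1 : t < 1)
    (hab : b i ≤ a i) :
    (1 - t) * ((i : ℝ) / 20 * a i) + t * (((i : ℝ) + 1) / 20 * b i) ≤ s * tab_pl a b s := by
  rw [tab_pl_eq a b i s t h h0 h1]
  have hs : s = ((i : ℝ) + t) / 20 := by linarith
  rw [hs]
  have e : ((i : ℝ) + t) / 20 * ((1 - t) * a i + t * b i)
      = (1 - t) * ((i : ℝ) / 20 * a i) + t * (((i : ℝ) + 1) / 20 * b i)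
        + t * ((1 - t) * (a i - b i)) / 20 := by ring
  rw [e]
  have : 0 ≤ t * ((1 - t) * (a i - b i)) / 20 :=
    div_nonneg (mul_nonneg h0 (mul_nonneg (by linarith) (by linarith))) (by norm_num)
  linarith

/-! ### The values beyond `8` -/

lemma tab_tS_pos (i : ℕ) : 0 < tS i := by unfold tS; positivity

lemma tab_tS_blk (i : ℕ) (h1 : 160 ≤ i) (h2 : i < 180) : tS i = 30 / 10 ^ 6 := by
  unfold tS
  have : (i - 160) / 20 = 0 := by omega
  rw [this]; norm_num

lemma tab_tS_anti (i : ℕ) : tS (i + 1) ≤ tS i := by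
  unfold tS
  apply div_le_div_of_nonneg_left (by norm_num) (by positivity)
  exact pow_le_pow_right₀ (by norm_num) (Nat.div_le_div_right (by omega))

/-- the tail of the integral -/
noncomputable def tab_T (i : ℕ) : ℝ := tS i * (79 / 40 - ((i % 20 : ℕ) : ℝ) / 20)

lemma tab_T_nn (i : ℕ) : 0 ≤ tab_T i := by
  unfold tab_T
  apply mul_nonneg (tab_tS_pos i).le
  have : i % 20 < 20 := Nat.mod_lt _ (by norm_num)
  have : ((i % 20 : ℕ) : ℝ) ≤ 19 := by exact_mod_cast (by omega : i % 20 ≤ 19)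
  linarith

lemma tab_T_160 : tab_T 160 = 2370 / (40 * 10 ^ 6) := by
  unfold tab_T
  rw [tab_tS_blk 160 (by norm_num) (by norm_num)]
  norm_num

lemma tab_T_step (i : ℕ) (hi : 160 ≤ i) : tab_T i = tab_T (i + 1) + (tS i + tS (i + 1)) / 40 := by
  unfold tab_T tS
  by_cases h : i % 20 = 19
  · have h1 : (i + 1 - 160) / 20 = (i - 160) / 20 + 1 := by omega
    have h2 : (i + 1) % 20 = 0 := by omega
    rw [h1, h2, h, pow_succ (2 : ℝ) ((i - 160) / 20)]
    have : (0 : ℝ) < 2 ^ ((i - 160) / 20) := by positivity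
    generalize (2 : ℝ) ^ ((i - 160) / 20) = q at this ⊢
    field_simp
    norm_num
  · have h1 : (i + 1 - 160) / 20 = (i - 160) / 20 := by omega
    have h2 : (i + 1) % 20 = i % 20 + 1 := by omega
    rw [h1, h2]
    have : (0 : ℝ) < 2 ^ ((i - 160) / 20) := by positivity
    push_cast
    field_simp
    ring

lemma tab_T_low (i : ℕ) (h : 180 ≤ i) :
    (1 + 1 / 1000) * tab_T (i - 20) ≤ (i : ℝ) / 20 * tS i := by
  obtain ⟨j, rfl⟩ : ∃ j, i = j + 20 := ⟨i - 20, by omega⟩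
  rw [Nat.add_sub_cancel]
  have h1 : tS j = 2 * tS (j + 20) := by
    unfold tS
    have : (j + 20 - 160) / 20 = (j - 160) / 20 + 1 := by omega
    rw [this, pow_succ (2 : ℝ) ((j - 160) / 20)]
    have : (0 : ℝ) < 2 ^ ((j - 160) / 20) := by positivity
    generalize (2 : ℝ) ^ ((j - 160) / 20) = q at this ⊢
    field_simp
  unfold tab_T
  rw [h1]
  have h2 := tab_tS_pos (j + 20)
  have h3 : (0 : ℝ) ≤ ((j % 20 : ℕ) : ℝ) / 20 := by positivity
  have h4 : (180 : ℝ) ≤ ((j + 20 : ℕ) : ℝ) := by exact_mod_cast h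
  have h5 : (1 + 1 / 1000) * (2 * tS (j + 20) * (79 / 40 - ((j % 20 : ℕ) : ℝ) / 20))
      = ((1 + 1 / 1000) * (2 * (79 / 40 - ((j % 20 : ℕ) : ℝ) / 20))) * tS (j + 20) := by ring
  rw [h5]
  apply mul_le_mul_of_nonneg_right _ h2.le
  linarith

/-! ### Finite checks -/

lemma tab_c1 : ∀ i < 140, tu.getD (i + 1) 0 ≤ tu.getD i 0 := by decide +kernel
lemma tab_c2 : ∀ i < 120, tl.getD (i + 1) 0 ≤ tl.getD i 0 := by decide +kernel
lemma tab_c3 : ∀ i < 141, 30 ≤ tu.getD i 0 := by decide +kernel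
lemma tab_c4 : ∀ i < 121, 30 ≤ tl.getD i 0 := by decide +kernel
lemma tab_c5 : ∀ i < 140, i ≠ 39 → tU.getD i 0 = tU.getD (i + 1) 0 + tu.getD i 0 + tu.getD (i + 1) 0 := by
  decide +kernel
lemma tab_c5' : tU.getD 39 0 = tU.getD 40 0 + tu.getD 39 0 + 190800 := by decide +kernel
lemma tab_c6 : ∀ i < 120, tL.getD i 0 = tL.getD (i + 1) 0 + tl.getD i 0 + tl.getD (i + 1) 0 := by
  decide +kernel
lemma tab_c7 : 190800 ≤ tu.getD 39 0 := by decide +kernel
lemma tab_c7' : tu.getD 40 0 ≤ 190800 := by decide +kernel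
lemma tab_c8 : tu.getD 140 0 = 30 ∧ tl.getD 120 0 = 30 ∧ tU.getD 140 0 = 2370 ∧ tL.getD 120 0 = 2370 := by
  decide +kernel
lemma tab_c9 : ∀ i < 121, 1001 * tU.getD i 0 ≤ 2000 * (i + 40) * tl.getD i 0 := by decide +kernel
lemma tab_c10 : ∀ i < 101, 1001 * tL.getD i 0 ≤ 2000 * (i + 60) * tu.getD (i + 40) 0 := by decide +kernel
lemma tab_c11 : ∀ i < 20, 1001 * tU.getD (i + 121) 0 ≤ 2000 * (i + 161) * 30 := by decide +kernel
lemma tab_c12 : ∀ i < 20, 1001 * tL.getD (i + 101) 0 ≤ 2000 * (i + 161) * 30 := by decide +kernel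
lemma tab_c13 : ∀ i < 40, 3572400 * 20 ≤ (i + 20) * (10 ^ 6 + tu.getD i 0) := by decide +kernel
lemma tab_c14 : tu.getD 40 0 = 189596 := by decide +kernel

/-! ### The node values -/

noncomputable def tab_U (i : ℕ) : ℝ :=
  if i < 160 then ((tU.getD (i - 20) 0 : ℕ) : ℝ) / (40 * 10 ^ 6) else tab_T i

noncomputable def tab_L (i : ℕ) : ℝ :=
  if i < 160 then ((tL.getD (i - 40) 0 : ℕ) : ℝ) / (40 * 10 ^ 6) else tab_T i

lemma tab_U_le (j : ℕ) (h : j ≤ 140) : tab_U (j + 20) = ((tU.getD j 0 : ℕ) : ℝ) / (40 * 10 ^ 6) := by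
  unfold tab_U
  by_cases h1 : j + 20 < 160
  · rw [if_pos h1, Nat.add_sub_cancel]
  · rw [if_neg h1]
    have : j = 140 := by omega
    subst this
    rw [tab_T_160, tab_c8.2.2.1]
    norm_num

lemma tab_L_le (j : ℕ) (h : j ≤ 120) : tab_L (j + 40) = ((tL.getD j 0 : ℕ) : ℝ) / (40 * 10 ^ 6) := by
  unfold tab_L
  by_cases h1 : j + 40 < 160
  · rw [if_pos h1, Nat.add_sub_cancel]
  · rw [if_neg h1]
    have : j = 120 := by omega
    subst this
    rw [tab_T_160, tab_c8.2.2.2]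
    norm_num

lemma tab_U_ge (i : ℕ) (h : 160 ≤ i) : tab_U i = tab_T i := by
  unfold tab_U
  rw [if_neg (by omega)]

lemma tab_L_ge (i : ℕ) (h : 160 ≤ i) : tab_L i = tab_T i := by
  unfold tab_L
  rw [if_neg (by omega)]

lemma tab_uN_le (j : ℕ) (h : j ≤ 140) : uN (j + 20) = ((tu.getD j 0 : ℕ) : ℝ) / 10 ^ 6 := by
  unfold uN
  rw [if_pos (by omega), Nat.add_sub_cancel]

lemma tab_lN_le (j : ℕ) (h : j ≤ 120) : lN (j + 40) = ((tl.getD j 0 : ℕ) : ℝ) / 10 ^ 6 := by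
  unfold lN
  rw [if_pos (by omega), Nat.add_sub_cancel]

lemma tab_uN_ge (i : ℕ) (h : 160 ≤ i) : uN i = tS i := by
  by_cases h1 : i ≤ 160
  · have : i = 160 := by omega
    subst this
    rw [tab_uN_le 140 le_rfl, tab_c8.1, tab_tS_blk 160 (by norm_num) (by norm_num)]
    norm_num
  · unfold uN
    rw [if_neg h1]

lemma tab_lN_ge (i : ℕ) (h : 160 ≤ i) : lN i = tS i := by
  by_cases h1 : i ≤ 160
  · have : i = 160 := by omega
    subst this
    rw [tab_lN_le 120 le_rfl, tab_c8.2.1, tab_tS_blk 160 (by norm_num) (by norm_num)]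
    norm_num
  · unfold lN
    rw [if_neg h1]

lemma tab_uN_anti (i : ℕ) (h : 20 ≤ i) : uN (i + 1) ≤ uN i := by
  by_cases h1 : i < 160
  · obtain ⟨j, rfl⟩ : ∃ j, i = j + 20 := ⟨i - 20, by omega⟩
    rw [show j + 20 + 1 = (j + 1) + 20 by ring, tab_uN_le (j + 1) (by omega), tab_uN_le j (by omega)]
    have := tab_c1 j (by omega)
    have : ((tu.getD (j + 1) 0 : ℕ) : ℝ) ≤ ((tu.getD j 0 : ℕ) : ℝ) := by exact_mod_cast this
    exact div_le_div_of_nonneg_right this (by norm_num)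
  · rw [tab_uN_ge i (by omega), tab_uN_ge (i + 1) (by omega)]
    exact tab_tS_anti i

lemma tab_lN_anti (i : ℕ) (h : 40 ≤ i) : lN (i + 1) ≤ lN i := by
  by_cases h1 : i < 160
  · obtain ⟨j, rfl⟩ : ∃ j, i = j + 40 := ⟨i - 40, by omega⟩
    rw [show j + 40 + 1 = (j + 1) + 40 by ring, tab_lN_le (j + 1) (by omega), tab_lN_le j (by omega)]
    have := tab_c2 j (by omega)
    have : ((tl.getD (j + 1) 0 : ℕ) : ℝ) ≤ ((tl.getD j 0 : ℕ) : ℝ) := by exact_mod_cast this
    exact div_le_div_of_nonneg_right this (by norm_num)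
  · rw [tab_lN_ge i (by omega), tab_lN_ge (i + 1) (by omega)]
    exact tab_tS_anti i

lemma tab_uN_pos (i : ℕ) (h : 20 ≤ i) : 0 < uN i := by
  by_cases h1 : i < 160
  · obtain ⟨j, rfl⟩ : ∃ j, i = j + 20 := ⟨i - 20, by omega⟩
    rw [tab_uN_le j (by omega)]
    have := tab_c3 j (by omega)
    have : (30 : ℝ) ≤ ((tu.getD j 0 : ℕ) : ℝ) := by exact_mod_cast this
    have : (0 : ℝ) < ((tu.getD j 0 : ℕ) : ℝ) := by linarith
    positivity
  · rw [tab_uN_ge i (by omega)]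
    exact tab_tS_pos i

lemma tab_lN_pos (i : ℕ) (h : 40 ≤ i) : 0 < lN i := by
  by_cases h1 : i < 160
  · obtain ⟨j, rfl⟩ : ∃ j, i = j + 40 := ⟨i - 40, by omega⟩
    rw [tab_lN_le j (by omega)]
    have := tab_c4 j (by omega)
    have : (30 : ℝ) ≤ ((tl.getD j 0 : ℕ) : ℝ) := by exact_mod_cast this
    have : (0 : ℝ) < ((tl.getD j 0 : ℕ) : ℝ) := by linarith
    positivity
  · rw [tab_lN_ge i (by omega)]
    exact tab_tS_pos i

lemma tab_uR_of (i : ℕ) (h : i ≠ 59) : uR i = uN (i + 1) := by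
  unfold uR
  rw [if_neg h]

lemma tab_uR_59 : uR 59 = 190800 / 10 ^ 6 := by
  unfold uR
  rw [if_pos rfl]

lemma tab_PU : tab_P 20 uN uR tab_U where
  ab := by
    intro i hi
    by_cases h : i = 59
    · subst h
      rw [tab_uR_59, show (59 : ℕ) = 39 + 20 by norm_num, tab_uN_le 39 (by norm_num)]
      have : (190800 : ℝ) ≤ ((tu.getD 39 0 : ℕ) : ℝ) := by exact_mod_cast tab_c7
      exact div_le_div_of_nonneg_right this (by norm_num)
    · rw [tab_uR_of i h]
      exact tab_uN_anti i hi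
  ba := by
    intro i hi
    by_cases h : i = 59
    · subst h
      rw [tab_uR_59, show (59 + 1 : ℕ) = 40 + 20 by norm_num, tab_uN_le 40 (by norm_num)]
      have : ((tu.getD 40 0 : ℕ) : ℝ) ≤ (190800 : ℝ) := by exact_mod_cast tab_c7'
      exact div_le_div_of_nonneg_right this (by norm_num)
    · rw [tab_uR_of i h]
  pos := tab_uN_pos
  step := by
    intro i hi
    by_cases h1 : i < 160
    · obtain ⟨j, rfl⟩ : ∃ j, i = j + 20 := ⟨i - 20, by omega⟩
      rw [show j + 20 + 1 = (j + 1) + 20 by ring, tab_U_le (j + 1) (by omega), tab_U_le j (by omega),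
        tab_uN_le j (by omega)]
      by_cases h : j = 39
      · subst h
        rw [show (39 + 20 : ℕ) = 59 by norm_num, tab_uR_59, tab_c5']
        push_cast
        ring
      · rw [tab_uR_of _ (by omega), show j + 20 + 1 = (j + 1) + 20 by ring,
          tab_uN_le (j + 1) (by omega), tab_c5 j (by omega) h]
        push_cast
        ring
    · rw [tab_uR_of i (by omega), tab_uN_ge i (by omega), tab_uN_ge (i + 1) (by omega),
        tab_U_ge i (by omega), tab_U_ge (i + 1) (by omega)]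
      exact tab_T_step i (by omega)
  nn := by
    intro i _
    unfold tab_U
    split_ifs
    · positivity
    · exact tab_T_nn i

lemma tab_PL : tab_P 40 lN (fun i => lN (i + 1)) tab_L where
  ab := fun i hi => tab_lN_anti i hi
  ba := fun i _ => le_rfl
  pos := tab_lN_pos
  step := by
    intro i hi
    by_cases h1 : i < 160
    · obtain ⟨j, rfl⟩ : ∃ j, i = j + 40 := ⟨i - 40, by omega⟩
      show tab_L (j + 40) = tab_L (j + 40 + 1) + (lN (j + 40) + lN (j + 40 + 1)) / 40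
      rw [show j + 40 + 1 = (j + 1) + 40 by ring, tab_L_le (j + 1) (by omega), tab_L_le j (by omega),
        tab_lN_le j (by omega), tab_lN_le (j + 1) (by omega), tab_c6 j (by omega)]
      push_cast
      ring
    · show tab_L i = tab_L (i + 1) + (lN i + lN (i + 1)) / 40
      rw [tab_lN_ge i (by omega), tab_lN_ge (i + 1) (by omega),
        tab_L_ge i (by omega), tab_L_ge (i + 1) (by omega)]
      exact tab_T_step i (by omega)
  nn := by
    intro i _
    unfold tab_L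
    split_ifs
    · positivity
    · exact tab_T_nn i

lemma tab_nlow (j : ℕ) (hj : 20 ≤ j) :
    (1 + 1 / 1000) * tab_U j ≤ ((j + 20 : ℕ) : ℝ) / 20 * lN (j + 20) := by
  rcases Nat.lt_or_ge j 160 with h | h
  · obtain ⟨k, rfl⟩ : ∃ k, j = k + 20 := ⟨j - 20, by omega⟩
    rw [tab_U_le k (by omega), show k + 20 + 20 = k + 40 by ring]
    rcases Nat.lt_or_ge k 121 with h1 | h1
    · rw [tab_lN_le k (by omega)]
      have h2 : (1001 : ℝ) * ((tU.getD k 0 : ℕ) : ℝ) ≤ 2000 * ((k : ℝ) + 40) * ((tl.getD k 0 : ℕ) : ℝ) := by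
        exact_mod_cast tab_c9 k h1
      push_cast
      linarith
    · rw [tab_lN_ge (k + 40) (by omega), tab_tS_blk (k + 40) (by omega) (by omega)]
      obtain ⟨m, rfl⟩ : ∃ m, k = m + 121 := ⟨k - 121, by omega⟩
      have h2 : (1001 : ℝ) * ((tU.getD (m + 121) 0 : ℕ) : ℝ) ≤ 2000 * ((m : ℝ) + 161) * 30 := by
        exact_mod_cast tab_c11 m (by omega)
      push_cast
      linarith
  · rw [tab_U_ge j h, tab_lN_ge (j + 20) (by omega)]
    have := tab_T_low (j + 20) (by omega)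
    rwa [Nat.add_sub_cancel] at this

lemma tab_nup (j : ℕ) (hj : 40 ≤ j) :
    (1 + 1 / 1000) * tab_L j ≤ ((j + 20 : ℕ) : ℝ) / 20 * uN (j + 20) := by
  rcases Nat.lt_or_ge j 160 with h | h
  · obtain ⟨k, rfl⟩ : ∃ k, j = k + 40 := ⟨j - 40, by omega⟩
    rw [tab_L_le k (by omega)]
    rcases Nat.lt_or_ge k 101 with h1 | h1
    · rw [tab_uN_le (k + 40) (by omega)]
      have h2 : (1001 : ℝ) * ((tL.getD k 0 : ℕ) : ℝ)
          ≤ 2000 * ((k : ℝ) + 60) * ((tu.getD (k + 40) 0 : ℕ) : ℝ) := by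
        exact_mod_cast tab_c10 k h1
      push_cast
      linarith
    · rw [tab_uN_ge (k + 40 + 20) (by omega), tab_tS_blk (k + 40 + 20) (by omega) (by omega)]
      obtain ⟨m, rfl⟩ : ∃ m, k = m + 101 := ⟨k - 101, by omega⟩
      have h2 : (1001 : ℝ) * ((tL.getD (m + 101) 0 : ℕ) : ℝ) ≤ 2000 * ((m : ℝ) + 161) * 30 := by
        exact_mod_cast tab_c12 m (by omega)
      push_cast
      linarith
  · rw [tab_L_ge j h, tab_uN_ge (j + 20) (by omega)]
    have := tab_T_low (j + 20) (by omega)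
    rwa [Nat.add_sub_cancel] at this

lemma tab_nmid (i : ℕ) (h1 : 20 ≤ i) (h2 : i < 60) :
    (35724 / 10000 : ℝ) ≤ (i : ℝ) / 20 * (1 + uN i) := by
  obtain ⟨j, rfl⟩ : ∃ j, i = j + 20 := ⟨i - 20, by omega⟩
  rw [tab_uN_le j (by omega)]
  have h3 : (3572400 : ℝ) * 20 ≤ ((j : ℝ) + 20) * (10 ^ 6 + ((tu.getD j 0 : ℕ) : ℝ)) := by
    exact_mod_cast tab_c13 j (by omega)
  push_cast
  have e : ((j : ℝ) + 20) / 20 * (1 + ((tu.getD j 0 : ℕ) : ℝ) / 10 ^ 6)
      = ((j : ℝ) + 20) * (10 ^ 6 + ((tu.getD j 0 : ℕ) : ℝ)) / (20 * 10 ^ 6) := by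
    field_simp
  rw [e, le_div_iff₀ (by norm_num)]
  linarith

lemma tab_nmid' (i : ℕ) (h1 : 20 ≤ i) (h2 : i < 60) :
    (35724 / 10000 : ℝ) ≤ ((i : ℝ) + 1) / 20 * (1 + uR i) := by
  by_cases h : i = 59
  · subst h
    rw [tab_uR_59]
    norm_num
  · rw [tab_uR_of i h]
    have := tab_nmid (i + 1) (by omega) (by omega)
    push_cast at this
    exact this

lemma tab_uS (s : ℝ) : uS s = tab_pl uN uR s := rfl

lemma tab_lS (s : ℝ) : lS s = tab_pl lN (fun i => lN (i + 1)) s := rfl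

theorem p_tab : S_tab := by
  refine ⟨tab_pi uN uR tab_U, tab_pi lN (fun i => lN (i + 1)) tab_L, ?_⟩
  refine
    { u_anti := ?_, l_anti := ?_, u_pos := ?_, l_pos := ?_, U_int := ?_, L_int := ?_, U_nn := ?_,
      L_nn := ?_, low := ?_, up := ?_, mid := ?_, K3 := ?_ }
  · intro x y hx hxy
    exact tab_PU.f_anti x y (by push_cast; linarith) hxy
  · intro x y hx hxy
    exact tab_PL.f_anti x y (by push_cast; linarith) hxy
  · intro x hx
    exact tab_PU.f_pos x (by push_cast; linarith)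
  · intro x hx
    exact tab_PL.f_pos x (by push_cast; linarith)
  · intro x y hx hxy
    exact tab_PU.F_int x y (by push_cast; linarith) hxy
  · intro x y hx hxy
    exact tab_PL.F_int x y (by push_cast; linarith) hxy
  · intro x hx
    exact tab_PU.F_nn x (by push_cast; linarith)
  · intro x hx
    exact tab_PL.F_nn x (by push_cast; linarith)
  · intro s hs
    obtain ⟨i, t, hi, ht0, ht1, hst⟩ := tab_cell 40 s (by push_cast; linarith)
    obtain ⟨j, rfl⟩ : ∃ j, i = j + 20 := ⟨i - 20, by omega⟩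
    have hst' : 20 * (s - 1) = (j : ℝ) + t := by
      push_cast at hst
      linarith
    have h1 := tab_PU.F_le j (s - 1) t (by omega) ht0 ht1 hst'
    have h2 := tab_sf lN (fun i => lN (i + 1)) (j + 20) s t hst ht0 ht1 (tab_lN_anti (j + 20) (by omega))
    have h3 := tab_nlow j (by omega)
    have h4 := tab_nlow (j + 1) (by omega)
    have h5 : (1 - t) * ((1 + 1 / 1000) * tab_U j) ≤ (1 - t) * (((j + 20 : ℕ) : ℝ) / 20 * lN (j + 20)) :=
      mul_le_mul_of_nonneg_left h3 (by linarith)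
    have h6 : t * ((1 + 1 / 1000) * tab_U (j + 1)) ≤ t * (((j + 1 + 20 : ℕ) : ℝ) / 20 * lN (j + 1 + 20)) :=
      mul_le_mul_of_nonneg_left h4 ht0
    have e1 : ((j + 1 + 20 : ℕ) : ℝ) = ((j + 20 : ℕ) : ℝ) + 1 := by push_cast; ring
    have e2 : j + 1 + 20 = j + 20 + 1 := by ring
    rw [e1, e2] at h6
    rw [tab_lS]
    linarith
  · intro s hs
    obtain ⟨i, t, hi, ht0, ht1, hst⟩ := tab_cell 60 s (by push_cast; linarith)
    obtain ⟨j, rfl⟩ : ∃ j, i = j + 20 := ⟨i - 20, by omega⟩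
    have hst' : 20 * (s - 1) = (j : ℝ) + t := by
      push_cast at hst
      linarith
    have h1 := tab_PL.F_le j (s - 1) t (by omega) ht0 ht1 hst'
    have h2 := tab_sf uN uR (j + 20) s t hst ht0 ht1 (tab_PU.ab (j + 20) (by omega))
    rw [tab_uR_of (j + 20) (by omega)] at h2
    have h3 := tab_nup j (by omega)
    have h4 := tab_nup (j + 1) (by omega)
    have h5 : (1 - t) * ((1 + 1 / 1000) * tab_L j) ≤ (1 - t) * (((j + 20 : ℕ) : ℝ) / 20 * uN (j + 20)) :=
      mul_le_mul_of_nonneg_left h3 (by linarith)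
    have h6 : t * ((1 + 1 / 1000) * tab_L (j + 1)) ≤ t * (((j + 1 + 20 : ℕ) : ℝ) / 20 * uN (j + 1 + 20)) :=
      mul_le_mul_of_nonneg_left h4 ht0
    have e1 : ((j + 1 + 20 : ℕ) : ℝ) = ((j + 20 : ℕ) : ℝ) + 1 := by push_cast; ring
    have e2 : j + 1 + 20 = j + 20 + 1 := by ring
    rw [e1, e2] at h6
    rw [tab_uS]
    linarith
  · intro s hs1 hs3
    obtain ⟨i, t, hi, ht0, ht1, hst⟩ := tab_cell 20 s (by push_cast; linarith)
    have hi2 : i < 60 := by
      have : (i : ℝ) < 60 := by linarith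
      exact_mod_cast this
    have h2 := tab_sf uN uR i s t hst ht0 ht1 (tab_PU.ab i hi)
    have h3 := mul_le_mul_of_nonneg_left (tab_nmid i hi hi2) (by linarith : (0 : ℝ) ≤ 1 - t)
    have h4 := mul_le_mul_of_nonneg_left (tab_nmid' i hi hi2) ht0
    rw [tab_uS, div_le_iff₀ (by linarith)]
    have e : s = (1 - t) * ((i : ℝ) / 20) + t * (((i : ℝ) + 1) / 20) := by linarith
    linarith
  · have h : tab_pl uN uR 3 = uN 60 := by
      rw [tab_pl_eq uN uR 60 3 0 (by push_cast; norm_num) le_rfl (by norm_num)]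
      ring
    rw [tab_uS, h, show (60 : ℕ) = 40 + 20 by norm_num, tab_uN_le 40 (by norm_num), tab_c14]
    push_cast
    norm_num

end Pool.Agent.CA.FP
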