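import Pool.Agent.Lib.MP_d610d0_nt.CA.FP.Stm

set_option autoImplicit false

/-!
Project CA, section FP: upper bound for the number of the prime factors in `[za, ya)`.
-/

namespace Pool.Agent.CA.FP

open Finset Filter
open Pool.Agent.CH (wJ Rough VV Wt dsum thP EE)
open Pool.Agent.CH.F (mu)

private lemma tqA_VV (z : ℝ) : 0 ≤ VV z := by
  unfold VV
  refine prod_nonneg fun p hp => ?_
  rw [mem_filter] at hp
  have h1 : (3 : ℝ) ≤ (p : ℝ) := by exact_mod_cast hp.2.2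
  have h2 : 1 / ((p : ℝ) - 1) ≤ 1 := by
    rw [div_le_one (by linarith)]
    linarith
  linarith

private lemma tqA_th (p : ℕ) : 0 ≤ thP p := by
  unfold thP
  split_ifs with h
  · exact Real.log_nonneg (by exact_mod_cast h.one_le)
  · exact le_rfl

private lemma tqA_qs {J : ℕ} (hJ : 1 < (J : ℝ)) {q : ℕ} (hq : q ∈ QS J) :
    q.Prime ∧ 64 ≤ mA J q ∧ mA J q < 224 := by
  rw [QS, mem_filter] at hq
  obtain ⟨-, hp, h1, h2⟩ := hq
  have hL : 0 < Real.log J := Real.log_pos hJ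
  have hJ0 : (0 : ℝ) < J := by linarith
  have hq0 : (0 : ℝ) < q := by exact_mod_cast hp.pos
  have e1 : 1 / 11 * Real.log J ≤ Real.log q := by
    rw [← Real.log_rpow hJ0]
    exact Real.log_le_log (Real.rpow_pos_of_pos hJ0 _) h1
  have e2 : Real.log q < 7 / 22 * Real.log J := by
    rw [← Real.log_rpow hJ0]
    exact Real.log_lt_log hq0 h2
  refine ⟨hp, ?_, ?_⟩
  · rw [mA, Nat.le_floor_iff' (by norm_num), le_div_iff₀ hL]
    push_cast
    linarith
  · rw [mA, Nat.floor_lt' (by norm_num), div_lt_iff₀ hL]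
    push_cast
    linarith

private lemma tqA_sqrt : ∀ᶠ J : ℕ in atTop, (J : ℝ) ^ (4996 / 10000 : ℝ) ≤ Nat.sqrt J := by
  have h1 : Tendsto (fun J : ℕ => (J : ℝ) ^ (4 / 10000 : ℝ)) atTop atTop :=
    (tendsto_rpow_atTop (by norm_num)).comp tendsto_natCast_atTop_atTop
  filter_upwards [h1.eventually_ge_atTop 2, eventually_ge_atTop 1] with J h2 hJ1
  have hJ : (1 : ℝ) ≤ J := by exact_mod_cast hJ1
  have hJ0 : (0 : ℝ) < J := by linarith
  have e1 : Real.sqrt J < Nat.sqrt J + 1 := by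
    rw [Real.sqrt_lt' (by positivity)]
    exact_mod_cast Nat.lt_succ_sqrt' J
  have e2 : (J : ℝ) ^ (4996 / 10000 : ℝ) * (J : ℝ) ^ (4 / 10000 : ℝ) = Real.sqrt J := by
    rw [← Real.rpow_add hJ0, Real.sqrt_eq_rpow]
    norm_num
  have e3 : (1 : ℝ) ≤ (J : ℝ) ^ (4996 / 10000 : ℝ) := Real.one_le_rpow hJ (by norm_num)
  nlinarith

open Classical in
theorem p_tqA : S_tqA := by
  intro hwin hsw htqW hcell hnum htab
  obtain ⟨U, L, hSS⟩ := htab
  filter_upwards [htqW, hcell, tqA_sqrt, eventually_ge_atTop 5] with J hW hC hsq hJ5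
  intro cm cx cq WW j hj hg
  have hJ : 1 < (J : ℝ) := by
    have : (5 : ℝ) ≤ J := by exact_mod_cast hJ5
    linarith
  have hJ0 : (0 : ℝ) < J := by linarith
  obtain ⟨hw1, hw2, -, -⟩ := hwin J hJ5 j hj
  have hV : 0 ≤ VV (za J) := tqA_VV _
  -- the weights of the cells
  have hcq : ∀ c : ℕ, 64 ≤ c → c < 224 →
      Wt (za J) ((J : ℝ) ^ (4995 / 10000 - ((c : ℝ) + 1) / 704 + 1 / 10000 : ℝ)) (cq c) := by
    intro c h1 h2
    obtain ⟨cr, hr⟩ := WW.w3 c h1 h2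
    exact hr.wp
  obtain ⟨C, hCW, hCd, hCs⟩ := hW cq hcq
  -- step 1
  have step1 : Ta J j ≤ ∑ p ∈ Icc 1 (27 * J ^ 3), thP p * wJ J j p * dsum C (p + 2) := by
    rw [Ta]
    refine sum_le_sum fun p hp => ?_
    by_cases h0 : thP p * wJ J j p = 0
    · rw [h0, zero_mul, zero_mul]
    refine mul_le_mul_of_nonneg_left ?_ (mul_nonneg (tqA_th p) (hw1 p).1)
    have hpp : p.Prime := by
      by_contra h
      apply h0
      rw [thP, if_neg h, zero_mul]
    have hwp : wJ J j p ≠ 0 := fun h => h0 (by rw [h, mul_zero])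
    have hp3 : J ^ 3 < p := (hw2 p hpp.one_le hwp).2.2.1
    have hp2 : p ≠ 2 := by
      have : 5 ^ 3 ≤ J ^ 3 := Nat.pow_le_pow_left hJ5 3
      omega
    have hodd : Odd (p + 2) := (hpp.odd_of_ne_two hp2).add_even (by decide)
    rw [hCd (p + 2) (by omega)]
    have hup : ∀ q ∈ (QS J).filter (fun q => q ∣ p + 2),
        (if Rough (za J) (p + 2) then (1 : ℝ) else 0) ≤ dsum (cq (mA J q)) (p + 2) := by
      intro q hq
      rw [mem_filter] at hq
      obtain ⟨-, h3, h4⟩ := tqA_qs hJ hq.1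
      obtain ⟨cr, hr⟩ := WW.w3 _ h3 h4
      exact hr.up (p + 2) hodd
    have h6 := sum_le_sum hup
    rw [sum_const, nsmul_eq_mul] at h6
    refine le_trans (le_of_eq ?_) h6
    split_ifs
    · rw [mul_one]
    · rw [mul_zero]
  -- step 2
  obtain ⟨hsw1, -⟩ := hsw J j thP C (ya J) ((J : ℝ) ^ (4996 / 10000 : ℝ)) (by omega) hCW hsq
  rw [hsw1] at step1
  have hg1 := (abs_le.1 (hg.g1 C hCW)).2
  -- step 3: the main term
  set G : ℕ → ℝ := fun c => (1 + 1 / 5000) *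
    (1 + uS ((4995 / 10000 - ((c : ℝ) + 1) / 704) / (1 / 11))) * VV (za J) with hG
  have huS : ∀ c : ℕ, c < 224 →
      0 ≤ uS ((4995 / 10000 - ((c : ℝ) + 1) / 704) / (1 / 11)) := by
    intro c hc
    refine (hSS.u_pos _ ?_).le
    rw [le_div_iff₀ (by norm_num)]
    have : (c : ℝ) + 1 ≤ 224 := by exact_mod_cast hc
    linarith
  have hG0 : ∀ c : ℕ, c < 224 → 0 ≤ G c := fun c hc => by
    have := huS c hc
    rw [hG]
    positivity
  have step3 : ∑ m ∈ Icc 1 (Nat.sqrt J), C m / (Nat.totient m : ℝ) ≤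
      ∑ c ∈ Ico 64 224, aA c * G c := by
    rw [hCs _ hsq]
    have h1 : ∀ q ∈ QS J, 1 / ((q : ℝ) - 1) *
        ∑ d ∈ Icc 1 (Nat.sqrt J), cq (mA J q) d / (Nat.totient d : ℝ) ≤
          1 / ((q : ℝ) - 1) * G (mA J q) := by
      intro q hq
      obtain ⟨hp, h3, h4⟩ := tqA_qs hJ hq
      obtain ⟨cr, hr⟩ := WW.w3 _ h3 h4
      have hq1 : (2 : ℝ) ≤ q := by exact_mod_cast hp.two_le
      refine mul_le_mul_of_nonneg_left ?_ (by
        apply div_nonneg zero_le_one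
        linarith)
      have h5 := hr.mp (Nat.sqrt J) (le_trans (Real.rpow_le_rpow_of_exponent_le hJ.le (by
        have : (0 : ℝ) ≤ (mA J q : ℝ) := Nat.cast_nonneg _
        have h6 : (0 : ℝ) ≤ ((mA J q : ℝ) + 1) / 704 := by positivity
        linarith)) hsq)
      rw [hG]
      exact h5
    refine (sum_le_sum h1).trans ?_
    have hmap : ∀ q ∈ QS J, mA J q ∈ Ico 64 224 := fun q hq => by
      obtain ⟨-, h3, h4⟩ := tqA_qs hJ hq
      exact mem_Ico.2 ⟨h3, h4⟩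
    rw [← sum_fiberwise_of_maps_to hmap]
    refine sum_le_sum fun c hc => ?_
    rw [mem_Ico] at hc
    have h2 : ∑ q ∈ (QS J).filter (fun q => mA J q = c), 1 / ((q : ℝ) - 1) * G (mA J q) =
        (∑ q ∈ (QS J).filter (fun q => mA J q = c), 1 / ((q : ℝ) - 1)) * G c := by
      rw [sum_mul]
      refine sum_congr rfl fun q hq => ?_
      rw [(mem_filter.1 hq).2]
    rw [h2]
    refine mul_le_mul_of_nonneg_right ?_ (hG0 c hc.2)
    refine hC _ c hc.1 (by omega) fun q hq => ?_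
    rw [mem_filter] at hq
    exact ⟨(tqA_qs hJ hq.1).1, hq.2⟩
  have hS0 : 0 ≤ ∑ n ∈ Icc 1 (27 * J ^ 3), thP n * wJ J j n :=
    sum_nonneg fun n _ => mul_nonneg (tqA_th n) (hw1 n).1
  have haA : ∀ c : ℕ, 0 ≤ aA c := fun c => by
    rw [aA]
    positivity
  have hX0 : 0 ≤ ∑ c ∈ Ico 64 224, aA c * G c := sum_nonneg fun c hc =>
    mul_nonneg (haA c) (hG0 c (mem_Ico.1 hc).2)
  have hmu : 0 ≤ mu J j := by
    rw [mu]
    positivity
  have e1 : (∑ q ∈ Icc 1 (Nat.sqrt J), C q / (Nat.totient q : ℝ)) *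
      ∑ n ∈ Icc 1 (27 * J ^ 3), thP n * wJ J j n ≤
        (∑ c ∈ Ico 64 224, aA c * G c) * (1.0001 * mu J j) :=
    (mul_le_mul_of_nonneg_right step3 hS0).trans (mul_le_mul_of_nonneg_left hg.g5 hX0)
  have e2 : (∑ c ∈ Ico 64 224, aA c * G c) * (1.0001 * mu J j) =
      ((1 + 1 / 5000) * 1.0001 * ∑ c ∈ Ico 64 224,
        aA c * (1 + uS ((4995 / 10000 - ((c : ℝ) + 1) / 704) / (1 / 11)))) *
          (VV (za J) * mu J j) := by
    have e3 : ∑ c ∈ Ico 64 224, aA c * G c = (1 + 1 / 5000) * (∑ c ∈ Ico 64 224,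
        aA c * (1 + uS ((4995 / 10000 - ((c : ℝ) + 1) / 704) / (1 / 11)))) * VV (za J) := by
      rw [mul_sum, sum_mul]
      refine sum_congr rfl fun c _ => ?_
      rw [hG]
      ring
    rw [e3]
    ring
  have e4 := mul_le_mul_of_nonneg_right hnum.2.1 (mul_nonneg hV hmu)
  rw [e2] at e1
  linarith

end Pool.Agent.CA.FP
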