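import Pool.Agent.Lib.MP_d610d0_nt.CA.FP.Stm

set_option autoImplicit false

/-!
Project CA, section FP: the combined weights.
-/

namespace Pool.Agent.CA.FP

open Finset Filter
open Pool.Agent.CH (Wt dsum)

private lemma tqW_sum_Icc (q N : ℕ) (hq : 0 < q) (F : ℕ → ℝ) :
    ∑ m ∈ (Icc 1 N).filter (fun m => q ∣ m), F m = ∑ d ∈ Icc 1 (N / q), F (q * d) := by
  refine Finset.sum_nbij' (fun m => m / q) (fun d => q * d) ?_ ?_ ?_ ?_ ?_
  · intro m hm
    rw [mem_filter, mem_Icc] at hm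
    obtain ⟨⟨h1, h2⟩, d, rfl⟩ := hm
    rw [Nat.mul_div_cancel_left _ hq, mem_Icc]
    refine ⟨?_, ?_⟩
    · rcases Nat.eq_zero_or_pos d with rfl | h
      · simp at h1
      · exact h
    · rw [Nat.le_div_iff_mul_le hq, mul_comm]
      exact h2
  · intro d hd
    rw [mem_Icc] at hd
    rw [mem_filter, mem_Icc]
    refine ⟨⟨Nat.mul_pos hq hd.1, ?_⟩, Nat.dvd_mul_right _ _⟩
    have := (Nat.le_div_iff_mul_le hq).1 hd.2
    rwa [mul_comm] at this
  · intro m hm
    rw [mem_filter] at hm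
    exact Nat.mul_div_cancel' hm.2
  · intro d _
    exact Nat.mul_div_cancel_left _ hq
  · intro m hm
    rw [mem_filter] at hm
    rw [Nat.mul_div_cancel' hm.2]

private lemma tqW_sum_div (q n : ℕ) (hq : 0 < q) (hn : n ≠ 0) (hqn : q ∣ n) (F : ℕ → ℝ) :
    ∑ m ∈ n.divisors.filter (fun m => q ∣ m), F m = ∑ d ∈ (n / q).divisors, F (q * d) := by
  refine Finset.sum_nbij' (fun m => m / q) (fun d => q * d) ?_ ?_ ?_ ?_ ?_
  · intro m hm
    rw [mem_filter, Nat.mem_divisors] at hm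
    obtain ⟨⟨h1, h2⟩, d, rfl⟩ := hm
    rw [Nat.mul_div_cancel_left _ hq, Nat.mem_divisors]
    refine ⟨?_, ?_⟩
    · obtain ⟨k, rfl⟩ := h1
      rw [mul_assoc, Nat.mul_div_cancel_left _ hq]
      exact Nat.dvd_mul_right _ _
    · exact (Nat.div_pos (Nat.le_of_dvd (Nat.pos_of_ne_zero hn) hqn) hq).ne'
  · intro d hd
    rw [Nat.mem_divisors] at hd
    rw [mem_filter, Nat.mem_divisors]
    refine ⟨⟨?_, hn⟩, Nat.dvd_mul_right _ _⟩
    obtain ⟨k, rfl⟩ := hqn
    rw [Nat.mul_div_cancel_left _ hq] at hd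
    exact Nat.mul_dvd_mul_left q hd.1
  · intro m hm
    rw [mem_filter] at hm
    exact Nat.mul_div_cancel' hm.2
  · intro d _
    exact Nat.mul_div_cancel_left _ hq
  · intro m hm
    rw [mem_filter] at hm
    rw [Nat.mul_div_cancel' hm.2]

/-- the facts on the primes of `QS` -/
private lemma tqW_qs {J : ℕ} (hJ : 1 < (J : ℝ)) {q : ℕ} (hq : q ∈ QS J) :
    q.Prime ∧ za J ≤ q ∧ (q : ℝ) < ya J ∧ 64 ≤ mA J q ∧ mA J q < 224 ∧
      (q : ℝ) < (J : ℝ) ^ (((mA J q : ℝ) + 1) / 704) := by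
  rw [QS, mem_filter] at hq
  obtain ⟨-, hp, h1, h2⟩ := hq
  have hL : 0 < Real.log J := Real.log_pos hJ
  have hJ0 : (0 : ℝ) < J := by linarith
  have hq0 : (0 : ℝ) < q := by exact_mod_cast hp.pos
  have e1 : 1 / 11 * Real.log J ≤ Real.log q := by
    rw [← Real.log_rpow hJ0]
    exact Real.log_le_log (Real.rpow_pos_of_pos hJ0 _) h1
  have e2 : Real.log q < 7 / 22 * Real.log J := by
    rw [← Real.log_rpow hJ0]
    exact Real.log_lt_log hq0 h2
  refine ⟨hp, h1, h2, ?_, ?_, ?_⟩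
  · rw [mA, Nat.le_floor_iff' (by norm_num), le_div_iff₀ hL]
    push_cast
    linarith
  · rw [mA, Nat.floor_lt' (by norm_num), div_lt_iff₀ hL]
    push_cast
    linarith
  · have e3 := Nat.lt_floor_add_one (704 * Real.log q / Real.log J)
    rw [div_lt_iff₀ hL] at e3
    have e4 : Real.log q < ((mA J q : ℝ) + 1) / 704 * Real.log J := by
      rw [mA]
      linarith
    rw [← Real.log_rpow hJ0] at e4
    exact (Real.log_lt_log_iff hq0 (Real.rpow_pos_of_pos hJ0 _)).1 e4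

theorem p_tqW : S_tqW := by
  have hlarge : ∀ᶠ J : ℕ in atTop, 2 < za J := by
    have h1 : Tendsto (fun J : ℕ => (J : ℝ) ^ (1 / 11 : ℝ)) atTop atTop :=
      (tendsto_rpow_atTop (by norm_num)).comp tendsto_natCast_atTop_atTop
    exact h1.eventually_gt_atTop 2
  filter_upwards [hlarge, eventually_gt_atTop 1] with J h2z hJ1
  intro cq hcq
  have hJ : 1 < (J : ℝ) := by exact_mod_cast hJ1
  have hJ0 : (0 : ℝ) < J := by linarith
  have hzy : za J ≤ ya J := Real.rpow_le_rpow_of_exponent_le hJ.le (by norm_num)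
  -- the weights of a prime
  have hw : ∀ q ∈ QS J, ∀ d, cq (mA J q) d ≠ 0 → Squarefree d ∧ Odd d ∧
      (∀ p : ℕ, p.Prime → p ∣ d → (p : ℝ) < za J) ∧ ¬ q ∣ d ∧
        ((q * d : ℕ) : ℝ) ≤ (J : ℝ) ^ (4996 / 10000 : ℝ) := by
    intro q hq d hd
    obtain ⟨hp, h1, h2, h3, h4, h5⟩ := tqW_qs hJ hq
    have W := hcq _ h3 h4
    refine ⟨W.sqf d hd, W.odd d hd, W.small d hd, fun h => ?_, ?_⟩
    · exact absurd (W.small d hd q hp h) (not_lt.2 h1)
    · have e1 := W.le d hd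
      push_cast
      have e2 : (q : ℝ) * d ≤ (J : ℝ) ^ (((mA J q : ℝ) + 1) / 704) *
          (J : ℝ) ^ (4995 / 10000 - ((mA J q : ℝ) + 1) / 704 + 1 / 10000 : ℝ) :=
        mul_le_mul h5.le e1 (Nat.cast_nonneg _) (Real.rpow_nonneg hJ0.le _)
      rw [← Real.rpow_add hJ0] at e2
      refine e2.trans_eq ?_
      congr 1
      ring
  let C : ℕ → ℝ := fun m => ∑ q ∈ (QS J).filter (fun q => q ∣ m ∧ m ≠ 0), cq (mA J q) (m / q)
  have hC : ∀ m, C m ≠ 0 → ∃ q ∈ QS J, ∃ d, m = q * d ∧ cq (mA J q) d ≠ 0 ∧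
      C m = cq (mA J q) d := by
    intro m hm
    obtain ⟨q, hq, hne⟩ := Finset.exists_ne_zero_of_sum_ne_zero hm
    rw [mem_filter] at hq
    obtain ⟨hqS, ⟨d, rfl⟩, hm0⟩ := hq
    have hp := (tqW_qs hJ hqS).1
    rw [Nat.mul_div_cancel_left _ hp.pos] at hne
    refine ⟨q, hqS, d, rfl, hne, ?_⟩
    change ∑ q' ∈ (QS J).filter (fun q' => q' ∣ q * d ∧ q * d ≠ 0),
      cq (mA J q') (q * d / q') = _
    rw [Finset.sum_eq_single q]
    · rw [Nat.mul_div_cancel_left _ hp.pos]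
    · intro q' hq' hne'
      rw [mem_filter] at hq'
      obtain ⟨hqS', hdvd, -⟩ := hq'
      obtain ⟨hp', h1', -⟩ := tqW_qs hJ hqS'
      exfalso
      rcases (Nat.Prime.dvd_mul hp').1 hdvd with h | h
      · exact hne' ((Nat.prime_dvd_prime_iff_eq hp' hp).1 h)
      · exact absurd ((hw q hqS d hne).2.2.1 q' hp' h) (not_lt.2 h1')
    · intro h
      exact absurd (mem_filter.2 ⟨hqS, Nat.dvd_mul_right _ _, hm0⟩) h
  refine ⟨C, ⟨?_, ?_, ?_, ?_, ?_⟩, ?_, ?_⟩
  · intro m hm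
    obtain ⟨q, hq, d, rfl, hd, -⟩ := hC m hm
    obtain ⟨h1, -, -, h4, -⟩ := hw q hq d hd
    have hp := (tqW_qs hJ hq).1
    exact (Nat.squarefree_mul ((Nat.Prime.coprime_iff_not_dvd hp).2 h4)).2
      ⟨hp.prime.squarefree, h1⟩
  · intro m hm
    obtain ⟨q, hq, d, rfl, hd, -⟩ := hC m hm
    obtain ⟨hp, h1, -⟩ := tqW_qs hJ hq
    refine Odd.mul ?_ (hw q hq d hd).2.1
    refine hp.odd_of_ne_two fun h => ?_
    rw [h] at h1
    push_cast at h1
    linarith
  · intro m hm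
    obtain ⟨q, hq, d, rfl, hd, -⟩ := hC m hm
    exact (hw q hq d hd).2.2.2.2
  · intro m hm p hp hpm
    obtain ⟨q, hq, d, rfl, hd, -⟩ := hC m hm
    obtain ⟨hq', -, h2, -⟩ := tqW_qs hJ hq
    rcases (Nat.Prime.dvd_mul hp).1 hpm with h | h
    · rw [(Nat.prime_dvd_prime_iff_eq hp hq').1 h]
      exact h2
    · exact ((hw q hq d hd).2.2.1 p hp h).trans_le hzy
  · intro m
    by_cases hm : C m = 0
    · rw [hm, abs_zero]
      norm_num
    · obtain ⟨q, hq, d, -, -, hd⟩ := hC m hm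
      obtain ⟨-, -, -, h3, h4, -⟩ := tqW_qs hJ hq
      rw [hd]
      exact (hcq _ h3 h4).bd d
  · intro n hn
    have e1 : dsum C n = ∑ q ∈ QS J, ∑ m ∈ n.divisors.filter (fun m => q ∣ m),
        cq (mA J q) (m / q) := by
      rw [dsum]
      have e2 : ∀ m ∈ n.divisors, C m = ∑ q ∈ QS J, if q ∣ m then cq (mA J q) (m / q) else 0 := by
        intro m hm
        have hm0 : m ≠ 0 := (Nat.pos_of_mem_divisors hm).ne'
        change ∑ q ∈ (QS J).filter (fun q => q ∣ m ∧ m ≠ 0), cq (mA J q) (m / q) = _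
        rw [← Finset.sum_filter]
        refine Finset.sum_congr (Finset.filter_congr fun q _ => ?_) fun _ _ => rfl
        exact ⟨fun h => h.1, fun h => ⟨h, hm0⟩⟩
      rw [Finset.sum_congr rfl e2, Finset.sum_comm]
      refine Finset.sum_congr rfl fun q _ => ?_
      rw [Finset.sum_filter]
    rw [e1, Finset.sum_filter]
    refine Finset.sum_congr rfl fun q hq => ?_
    obtain ⟨hp, -⟩ := tqW_qs hJ hq
    by_cases hqn : q ∣ n
    · rw [if_pos hqn, tqW_sum_div q n hp.pos hn hqn, dsum]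
      have e3 : ∀ d ∈ (n / q).divisors, cq (mA J q) (q * d / q) = cq (mA J q) d := fun d _ => by
        rw [Nat.mul_div_cancel_left _ hp.pos]
      rw [Finset.sum_congr rfl e3]
      refine Finset.sum_subset ?_ ?_
      · exact Nat.divisors_subset_of_dvd hn (Nat.div_dvd_of_dvd hqn)
      · intro d hd hd'
        by_contra hne
        apply hd'
        obtain ⟨-, -, -, h4, -⟩ := hw q hq d hne
        rw [Nat.mem_divisors] at hd ⊢
        refine ⟨?_, (Nat.div_pos (Nat.le_of_dvd (Nat.pos_of_ne_zero hn) hqn) hp.pos).ne'⟩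
        have hcop : Nat.Coprime q d := (Nat.Prime.coprime_iff_not_dvd hp).2 h4
        have h5 : q * d ∣ n := Nat.Coprime.mul_dvd_of_dvd_of_dvd hcop hqn hd.1
        obtain ⟨k, rfl⟩ := h5
        rw [mul_assoc, Nat.mul_div_cancel_left _ hp.pos]
        exact Nat.dvd_mul_right _ _
    · rw [if_neg hqn]
      apply Finset.sum_eq_zero
      intro m hm
      rw [mem_filter, Nat.mem_divisors] at hm
      exact absurd (hm.2.trans hm.1.1) hqn
  · intro N hN
    have e1 : ∑ m ∈ Icc 1 N, C m / (Nat.totient m : ℝ) = ∑ q ∈ QS J,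
        ∑ m ∈ (Icc 1 N).filter (fun m => q ∣ m), cq (mA J q) (m / q) / (Nat.totient m : ℝ) := by
      have e2 : ∀ m ∈ Icc 1 N, C m / (Nat.totient m : ℝ) =
          ∑ q ∈ QS J, if q ∣ m then cq (mA J q) (m / q) / (Nat.totient m : ℝ) else 0 := by
        intro m hm
        have hm0 : m ≠ 0 := by
          rw [mem_Icc] at hm
          omega
        change (∑ q ∈ (QS J).filter (fun q => q ∣ m ∧ m ≠ 0), cq (mA J q) (m / q)) / _ = _
        rw [← Finset.sum_filter, Finset.sum_div]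
        refine Finset.sum_congr (Finset.filter_congr fun q _ => ?_) fun _ _ => rfl
        exact ⟨fun h => h.1, fun h => ⟨h, hm0⟩⟩
      rw [Finset.sum_congr rfl e2, Finset.sum_comm]
      refine Finset.sum_congr rfl fun q _ => ?_
      rw [Finset.sum_filter]
    rw [e1]
    refine Finset.sum_congr rfl fun q hq => ?_
    obtain ⟨hp, -⟩ := tqW_qs hJ hq
    rw [tqW_sum_Icc q N hp.pos, Finset.mul_sum]
    have e3 : ∀ d ∈ Icc 1 (N / q), cq (mA J q) (q * d / q) / (Nat.totient (q * d) : ℝ) =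
        1 / ((q : ℝ) - 1) * (cq (mA J q) d / (Nat.totient d : ℝ)) := by
      intro d _
      rw [Nat.mul_div_cancel_left _ hp.pos]
      by_cases hd : cq (mA J q) d = 0
      · rw [hd, zero_div, zero_div, mul_zero]
      · obtain ⟨-, -, -, h4, -⟩ := hw q hq d hd
        have hcop : Nat.Coprime q d := (Nat.Prime.coprime_iff_not_dvd hp).2 h4
        rw [Nat.totient_mul hcop, Nat.totient_prime hp, Nat.cast_mul, Nat.cast_sub hp.one_le,
          Nat.cast_one, one_div, div_eq_mul_inv, mul_inv, div_eq_mul_inv]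
        ring
    rw [Finset.sum_congr rfl e3]
    refine Finset.sum_subset ?_ ?_
    · exact Finset.Icc_subset_Icc le_rfl (Nat.div_le_self _ _)
    · intro d hd hd'
      by_contra hne
      apply hd'
      have hd0 : cq (mA J q) d ≠ 0 := by
        intro h
        rw [h, zero_div, mul_zero] at hne
        exact hne rfl
      obtain ⟨-, -, -, -, h5⟩ := hw q hq d hd0
      rw [mem_Icc] at hd ⊢
      refine ⟨hd.1, (Nat.le_div_iff_mul_le hp.pos).2 ?_⟩
      rw [mul_comm]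
      exact_mod_cast h5.trans hN

end Pool.Agent.CA.FP
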