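import Pool.Agent.Lib.MP_d610d0_nt.CA.FP.Stm

set_option autoImplicit false

/-!
Project CA, section FP: the recursion on the cells by multiplication of big natural numbers (Kronecker substitution).
-/

namespace Pool.Agent.CA.FP

open Finset
open Pool.Agent.CA.SV (Us)

/-- One step of the recursion in natural numbers. -/
def UsN (K : ℕ) (a Φ : ℕ → ℕ) : ℕ → ℕ := fun s => ∑ i ∈ range K, a i * Φ (s + i)

/-- `∑ i < n, f i * B ^ (n - 1 - i)` -/
def evN (f : ℕ → ℕ) (B : ℕ) : ℕ → ℕ
  | 0 => 0
  | n + 1 => evN f B n * B + f n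

/-- The polynomial with the coefficients `f i`, `i < K`. -/
noncomputable def krP (K : ℕ) (f : ℕ → ℕ) : Polynomial ℕ :=
  ∑ i ∈ range K, Polynomial.monomial i (f i)

theorem krP_coeff (K : ℕ) (f : ℕ → ℕ) (m : ℕ) : (krP K f).coeff m = if m < K then f m else 0 := by
  unfold krP
  rw [Polynomial.finsetSum_coeff]
  simp only [Polynomial.coeff_monomial]
  rw [Finset.sum_ite_eq' (range K) m f]
  simp only [mem_range]

theorem krP_eval (K : ℕ) (f : ℕ → ℕ) (B : ℕ) : (krP K f).eval B = ∑ i ∈ range K, f i * B ^ i := by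
  unfold krP
  rw [Polynomial.eval_finsetSum]
  simp only [Polynomial.eval_monomial]

theorem evN_eq (f : ℕ → ℕ) (B : ℕ) : ∀ n, evN f B n = ∑ i ∈ range n, f i * B ^ (n - 1 - i)
  | 0 => by simp [evN]
  | n + 1 => by
      rw [evN, evN_eq f B n, sum_range_succ, sum_mul]
      congr 1
      · apply sum_congr rfl
        intro i hi
        rw [mem_range] at hi
        rw [show n + 1 - 1 - i = (n - 1 - i) + 1 by omega, pow_succ]
        ring
      · simp

/-- evaluation of the polynomial with the coefficients `f (K - 1 - i)` -/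
theorem krP_rev_eval (K : ℕ) (f : ℕ → ℕ) (B : ℕ) :
    (krP K (fun i => f (K - 1 - i))).eval B = evN f B K := by
  rw [krP_eval, evN_eq, ← Finset.sum_range_reflect]
  apply sum_congr rfl
  intro i hi
  rw [mem_range] at hi
  rw [show K - 1 - (K - 1 - i) = i by omega]

/-- digits -/
theorem kr_digit (B : ℕ) : ∀ (n : ℕ) (R : Polynomial ℕ), (∀ i, R.coeff i < B) →
    R.eval B / B ^ n % B = R.coeff n := by
  have hstep : ∀ R : Polynomial ℕ, R.eval B = R.divX.eval B * B + R.coeff 0 := by
    intro R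
    have h := Polynomial.divX_mul_X_add R
    have h2 := congrArg (Polynomial.eval B) h
    rw [Polynomial.eval_add, Polynomial.eval_mul, Polynomial.eval_X, Polynomial.eval_C] at h2
    exact h2.symm
  intro n
  induction n with
  | zero =>
    intro R hR
    rw [pow_zero, Nat.div_one, hstep R, Nat.mul_add_mod_of_lt (hR 0)]
  | succ n ih =>
    intro R hR
    have hB : 0 < B := lt_of_le_of_lt (Nat.zero_le _) (hR 0)
    have h1 : R.eval B / B = R.divX.eval B := by
      rw [hstep R, mul_comm, Nat.mul_add_div hB, Nat.div_eq_of_lt (hR 0), add_zero]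
    rw [pow_succ', ← Nat.div_div_eq_div_mul, h1, ih R.divX (fun i => by
      rw [Polynomial.coeff_divX]; exact hR _), Polynomial.coeff_divX]

/-- the coefficients are at most the value at one -/
theorem kr_coeff_le (R : Polynomial ℕ) (i : ℕ) : R.coeff i ≤ R.eval 1 := by
  rw [Polynomial.eval_eq_sum_range]
  simp only [one_pow, mul_one]
  by_cases h : i ∈ range (R.natDegree + 1)
  · exact Finset.single_le_sum (f := fun j => R.coeff j) (fun j _ => Nat.zero_le _) h
  · rw [mem_range, not_lt] at h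
    rw [Polynomial.coeff_eq_zero_of_natDegree_lt (by omega)]
    exact Nat.zero_le _

/-- one step -/
theorem kr_step (K : ℕ) (a G : ℕ → ℕ) (hG : ∀ i, K ≤ i → G i = 0) (R : Polynomial ℕ)
    (hR : ∀ m, m < K → R.coeff m = G (K - 1 - m)) (m : ℕ) (hm : m < K) :
    (krP K a * R).coeff m = UsN K a G (K - 1 - m) := by
  rw [Polynomial.coeff_mul, Finset.Nat.sum_antidiagonal_eq_sum_range_succ
    (fun i j => (krP K a).coeff i * R.coeff j)]
  unfold UsN
  have h1 : ∑ i ∈ range K, a i * G (K - 1 - m + i) =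
      ∑ i ∈ range (m + 1), a i * G (K - 1 - m + i) := by
    symm
    apply sum_subset
    · intro i hi
      rw [mem_range] at hi ⊢
      omega
    · intro i _ hi
      rw [mem_range, not_lt] at hi
      rw [hG (K - 1 - m + i) (by omega), mul_zero]
  rw [h1]
  apply sum_congr rfl
  intro i hi
  rw [mem_range] at hi
  rw [krP_coeff, if_pos (by omega), hR (m - i) (by omega)]
  congr 2
  omega

theorem kr_supp (K : ℕ) (a Φ : ℕ → ℕ) (h : ∀ i, K ≤ i → Φ i = 0) :
    ∀ r : ℕ, ∀ i, K ≤ i → ((UsN K a)^[r] Φ) i = 0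
  | 0 => h
  | r + 1 => by
      intro i hi
      rw [Function.iterate_succ_apply']
      change ∑ k ∈ range K, a k * ((UsN K a)^[r] Φ) (i + k) = 0
      apply sum_eq_zero
      intro k _
      rw [kr_supp K a Φ h r (i + k) (by omega), mul_zero]

theorem kr_iter (K : ℕ) (a p : ℕ → ℕ) (hp : ∀ i, K ≤ i → p i = 0) :
    ∀ r m : ℕ, m < K → (krP K a ^ r * krP K (fun i => p (K - 1 - i))).coeff m =
      ((UsN K a)^[r] p) (K - 1 - m)
  | 0, m, hm => by
      rw [pow_zero, one_mul, krP_coeff, if_pos hm]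
      rfl
  | r + 1, m, hm => by
      rw [pow_succ', mul_assoc, kr_step K a ((UsN K a)^[r] p) (kr_supp K a p hp r) _
        (kr_iter K a p hp r) m hm, Function.iterate_succ_apply']

/-- Kronecker substitution, one kind of cells. -/
theorem kron1 (K r : ℕ) (a p : ℕ → ℕ) (B : ℕ) (hK : 1 ≤ K) (hp : ∀ i, K ≤ i → p i = 0)
    (hB : (evN (fun i => a (K - 1 - i)) 1 K) ^ r * evN p 1 K < B) :
    ((UsN K a)^[r] p) 0 =
      (evN (fun i => a (K - 1 - i)) B K) ^ r * evN p B K / B ^ (K - 1) % B := by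
  have e : ∀ b : ℕ, (krP K a ^ r * krP K (fun i => p (K - 1 - i))).eval b =
      (evN (fun i => a (K - 1 - i)) b K) ^ r * evN p b K := by
    intro b
    rw [Polynomial.eval_mul, Polynomial.eval_pow, krP_rev_eval,
      ← krP_rev_eval K (fun i => a (K - 1 - i)) b]
    congr 3
    unfold krP
    apply sum_congr rfl
    intro i hi
    rw [mem_range] at hi
    show _ = (Polynomial.monomial i) (a (K - 1 - (K - 1 - i)))
    rw [show K - 1 - (K - 1 - i) = i by omega]
  rw [← e B, kr_digit B (K - 1) _ (fun i => lt_of_le_of_lt (kr_coeff_le _ i) (by rw [e 1]; exact hB)),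
    kr_iter K a p hp r (K - 1) (by omega)]
  rw [Nat.sub_self]

/-- Kronecker substitution, two kinds of cells. -/
theorem kron2 (K r : ℕ) (q a p : ℕ → ℕ) (B : ℕ) (hK : 1 ≤ K) (hp : ∀ i, K ≤ i → p i = 0)
    (hB : evN (fun i => q (K - 1 - i)) 1 K *
      ((evN (fun i => a (K - 1 - i)) 1 K) ^ r * evN p 1 K) < B) :
    UsN K q ((UsN K a)^[r] p) 0 =
      evN (fun i => q (K - 1 - i)) B K *
        ((evN (fun i => a (K - 1 - i)) B K) ^ r * evN p B K) / B ^ (K - 1) % B := by
  have e0 : ∀ (f : ℕ → ℕ) (b : ℕ), (krP K f).eval b = evN (fun i => f (K - 1 - i)) b K := by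
    intro f b
    rw [← krP_rev_eval K (fun i => f (K - 1 - i)) b]
    congr 1
    unfold krP
    apply sum_congr rfl
    intro i hi
    rw [mem_range] at hi
    show _ = (Polynomial.monomial i) (f (K - 1 - (K - 1 - i)))
    rw [show K - 1 - (K - 1 - i) = i by omega]
  have e : ∀ b : ℕ, (krP K q * (krP K a ^ r * krP K (fun i => p (K - 1 - i)))).eval b =
      evN (fun i => q (K - 1 - i)) b K * ((evN (fun i => a (K - 1 - i)) b K) ^ r * evN p b K) := by
    intro b
    rw [Polynomial.eval_mul, Polynomial.eval_mul, Polynomial.eval_pow, krP_rev_eval, e0, e0]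
  rw [← e B, kr_digit B (K - 1) _ (fun i => lt_of_le_of_lt (kr_coeff_le _ i) (by rw [e 1]; exact hB)),
    kr_step K q ((UsN K a)^[r] p) (kr_supp K a p hp r) _ (kr_iter K a p hp r) (K - 1) (by omega)]
  rw [Nat.sub_self]

/-! ### Real and natural numbers -/

/-- comparison with the natural numbers -/
theorem kr_le (K : ℕ) (a Φ : ℕ → ℝ) (aN pN : ℕ → ℕ) (D : ℝ) (hD : 0 ≤ D) (ha0 : ∀ i, 0 ≤ a i)
    (hΦ0 : ∀ i, 0 ≤ Φ i) (ha : ∀ i, i < K → D * a i ≤ aN i) (hΦ : ∀ i, D * Φ i ≤ pN i) :
    ∀ r s : ℕ, 0 ≤ ((Us K a)^[r] Φ) s ∧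
      D ^ (r + 1) * ((Us K a)^[r] Φ) s ≤ (((UsN K aN)^[r] pN) s : ℕ)
  | 0, s => ⟨hΦ0 s, by simpa using hΦ s⟩
  | r + 1, s => by
      have ih := kr_le K a Φ aN pN D hD ha0 hΦ0 ha hΦ r
      rw [Function.iterate_succ_apply', Function.iterate_succ_apply']
      constructor
      · exact Finset.sum_nonneg fun i _ => mul_nonneg (ha0 i) (ih (s + i)).1
      · unfold Us UsN
        push_cast
        rw [mul_sum]
        apply sum_le_sum
        intro i hi
        rw [mem_range] at hi
        calc D ^ (r + 1 + 1) * (a i * ((Us K a)^[r] Φ) (s + i))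
            = (D * a i) * (D ^ (r + 1) * ((Us K a)^[r] Φ) (s + i)) := by ring
          _ ≤ (aN i : ℝ) * (((UsN K aN)^[r] pN) (s + i) : ℕ) := by
              apply mul_le_mul (ha i hi) (ih (s + i)).2 _ (Nat.cast_nonneg _)
              exact mul_nonneg (pow_nonneg hD _) (ih (s + i)).1

/-- shifts -/
theorem kr_shift (K : ℕ) (a Φ : ℕ → ℝ) (c : ℕ) : ∀ r s : ℕ,
    ((Us K a)^[r] (fun i => Φ (c + i))) s = ((Us K a)^[r] Φ) (c + s)
  | 0, s => rfl
  | r + 1, s => by
      rw [Function.iterate_succ_apply', Function.iterate_succ_apply']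
      unfold Us
      apply sum_congr rfl
      intro i _
      have := kr_shift K a Φ c r (s + i)
      unfold Us at this
      rw [this, add_assoc]

/-- upper bound by natural division -/
theorem kr_div (x y : ℕ) : (x : ℝ) / y ≤ ((x / y + 1 : ℕ) : ℝ) := by
  rcases Nat.eq_zero_or_pos y with h | h
  · rw [h]
    simp
  · have hy : (0 : ℝ) < y := by exact_mod_cast h
    rw [div_le_iff₀ hy]
    have h1 : x < (x / y + 1) * y := by
      have := Nat.lt_mul_div_succ x h
      rw [mul_comm]
      exact this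
    exact_mod_cast h1.le

end Pool.Agent.CA.FP
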