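import Pool.Agent.Lib.MP_d610d0_nt.CA.FP.Stm

set_option autoImplicit false

/-!
Project CA, section FP, piece numF: the numerical facts on the sieve functions.
-/

namespace Pool.Agent.CA.FP

open Finset

/-- The table `tu` as a function of the index. -/
def numF_u (i : ℕ) : ℕ := tu.getD (i - 20) 0

/-- The right ends. -/
def numF_r (i : ℕ) : ℕ := if i = 59 then 190800 else numF_u (i + 1)

theorem numF_uN (i : ℕ) (hi : i ≤ 160) : uN i = (numF_u i : ℝ) / 10 ^ 6 := by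
  unfold uN numF_u
  rw [if_pos hi]

theorem numF_uR (i : ℕ) (hi : i + 1 ≤ 160) : uR i = (numF_r i : ℝ) / 10 ^ 6 := by
  unfold uR numF_r
  by_cases h : i = 59
  · rw [if_pos h, if_pos h]
    norm_num
  · rw [if_neg h, if_neg h]
    exact numF_uN (i + 1) hi

theorem numF_floor (X : ℕ) (s : ℝ) (hs : 20 * s = (X : ℝ) / 1600) : ⌊20 * s⌋₊ = X / 1600 := by
  rw [hs]
  have h := Nat.floor_div_eq_div (K := ℝ) X 1600
  push_cast at h
  exact h

theorem numF_frac (X : ℕ) : (X : ℝ) / 1600 - ((X / 1600 : ℕ) : ℝ) = ((X % 1600 : ℕ) : ℝ) / 1600 := by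
  have h := Nat.div_add_mod X 1600
  have h' : (1600 : ℝ) * ((X / 1600 : ℕ) : ℝ) + ((X % 1600 : ℕ) : ℝ) = X := by exact_mod_cast h
  rw [← h']
  ring

/-- The numerator of `uS`. -/
def numF_n (X : ℕ) : ℕ :=
  (1600 - X % 1600) * numF_u (X / 1600) + X % 1600 * numF_r (X / 1600)

theorem numF_uS (X : ℕ) (hX : X / 1600 + 1 ≤ 160) (s : ℝ) (hs : 20 * s = (X : ℝ) / 1600) :
    uS s = (numF_n X : ℝ) / 1600 / 10 ^ 6 := by
  unfold uS
  rw [numF_floor X s hs, hs, numF_frac, numF_uN _ (by omega), numF_uR _ hX]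
  unfold numF_n
  have hr : X % 1600 ≤ 1600 := (Nat.mod_lt _ (by norm_num)).le
  push_cast [Nat.cast_sub hr]
  ring

theorem numF_div (a b : ℕ) : (a : ℝ) / b ≤ ((a / b + 1 : ℕ) : ℝ) := by
  have h := Nat.floor_div_eq_div (K := ℝ) a b
  have h2 := Nat.lt_floor_add_one ((a : ℝ) / b)
  rw [h] at h2
  push_cast
  exact h2.le

/-- Upper bound for `10 ^ 12 * aA c`. -/
def numF_A (c : ℕ) : ℕ := 500250000000 * (2 * c + 1) / (c * (c + 1)) + 1

/-- Upper bound for `10 ^ 6 * (1 + uS s)`. -/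
def numF_B (c : ℕ) : ℕ := 10 ^ 6 + (numF_n (175824 - 500 * (c + 1)) / 1600 + 1)

theorem numF_aA (c : ℕ) (hc : 1 ≤ c) : aA c ≤ (numF_A c : ℝ) / 10 ^ 12 := by
  have h := numF_div (500250000000 * (2 * c + 1)) (c * (c + 1))
  have e : aA c = ((500250000000 * (2 * c + 1) : ℕ) : ℝ) / ((c * (c + 1) : ℕ) : ℝ) / 10 ^ 12 := by
    unfold aA
    have hc' : (0 : ℝ) < c := by exact_mod_cast hc
    push_cast
    field_simp
    ring
  rw [e]
  unfold numF_A
  gcongr

theorem numF_aA_nn (c : ℕ) : 0 ≤ aA c := by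
  unfold aA
  positivity

theorem numF_term (c : ℕ) (h1 : 64 ≤ c) (h2 : c < 224) :
    aA c * (1 + uS ((4995 / 10000 - ((c : ℝ) + 1) / 704) / (1 / 11))) ≤
      ((numF_A c * numF_B c : ℕ) : ℝ) / 10 ^ 18 := by
  have hX : ((175824 - 500 * (c + 1) : ℕ) : ℝ) = 175824 - 500 * ((c : ℝ) + 1) := by
    rw [Nat.cast_sub (by omega)]
    push_cast
    ring
  have hu := numF_uS (175824 - 500 * (c + 1)) (by omega)
    ((4995 / 10000 - ((c : ℝ) + 1) / 704) / (1 / 11)) (by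
      rw [hX]
      ring)
  have hA := numF_aA c (by omega)
  have hB : 1 + uS ((4995 / 10000 - ((c : ℝ) + 1) / 704) / (1 / 11)) ≤ (numF_B c : ℝ) / 10 ^ 6 := by
    rw [hu]
    have h := numF_div (numF_n (175824 - 500 * (c + 1))) 1600
    have e : (numF_B c : ℝ) / 10 ^ 6 =
        1 + ((numF_n (175824 - 500 * (c + 1)) / 1600 + 1 : ℕ) : ℝ) / 10 ^ 6 := by
      unfold numF_B
      push_cast
      ring
    rw [e]
    have h' : (numF_n (175824 - 500 * (c + 1)) : ℝ) / 1600 ≤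
        ((numF_n (175824 - 500 * (c + 1)) / 1600 + 1 : ℕ) : ℝ) := by
      have := h
      push_cast at this ⊢
      exact this
    gcongr
  have hA0 := numF_aA_nn c
  have hBp : (0 : ℝ) ≤ (numF_B c : ℝ) / 10 ^ 6 := div_nonneg (Nat.cast_nonneg _) (by norm_num)
  calc aA c * (1 + uS ((4995 / 10000 - ((c : ℝ) + 1) / 704) / (1 / 11)))
      ≤ aA c * ((numF_B c : ℝ) / 10 ^ 6) := mul_le_mul_of_nonneg_left hB hA0
    _ ≤ ((numF_A c : ℝ) / 10 ^ 12) * ((numF_B c : ℝ) / 10 ^ 6) := mul_le_mul_of_nonneg_right hA hBp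
    _ = ((numF_A c * numF_B c : ℕ) : ℝ) / 10 ^ 18 := by
        push_cast
        ring

theorem numF_sum : ∑ c ∈ Ico 64 224, numF_A c * numF_B c ≤ 1444966000000000000 := by
  decide +kernel

theorem numF_2 : (1 + 1 / 5000) * 1.0001 * ∑ c ∈ Ico 64 224,
    aA c * (1 + uS ((4995 / 10000 - ((c : ℝ) + 1) / 704) / (1 / 11))) ≤ 1.4454 := by
  have h : ∑ c ∈ Ico 64 224, aA c * (1 + uS ((4995 / 10000 - ((c : ℝ) + 1) / 704) / (1 / 11))) ≤
      ((∑ c ∈ Ico 64 224, numF_A c * numF_B c : ℕ) : ℝ) / 10 ^ 18 := by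
    push_cast
    rw [Finset.sum_div]
    refine Finset.sum_le_sum fun c hc => ?_
    rw [Finset.mem_Ico] at hc
    have := numF_term c hc.1 hc.2
    push_cast at this
    exact this
  have h2 : ((∑ c ∈ Ico 64 224, numF_A c * numF_B c : ℕ) : ℝ) ≤ 1444966000000000000 := by
    exact_mod_cast numF_sum
  have h3 : ((∑ c ∈ Ico 64 224, numF_A c * numF_B c : ℕ) : ℝ) / 10 ^ 18 ≤ 1.444966 := by
    rw [div_le_iff₀ (by positivity)]
    refine h2.trans ?_
    norm_num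
  calc (1 + 1 / 5000) * 1.0001 * ∑ c ∈ Ico 64 224,
        aA c * (1 + uS ((4995 / 10000 - ((c : ℝ) + 1) / 704) / (1 / 11)))
      ≤ (1 + 1 / 5000) * 1.0001 * 1.444966 := by
        apply mul_le_mul_of_nonneg_left (h.trans h3)
        norm_num
    _ ≤ 1.4454 := by norm_num

theorem numF_1 : 0.9989 ≤ (1 - lS ((4995 / 10000) / (1 / 11)) - 1 / 2000) * 0.9999 := by
  have hf : ⌊(20 : ℝ) * ((4995 / 10000) / (1 / 11))⌋₊ = 109 := by
    rw [Nat.floor_eq_iff (by norm_num)]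
    norm_num
  have e1 : lN 109 = 553 / 10 ^ 6 := by
    unfold lN
    rw [if_pos (by norm_num)]
    have : tl.getD (109 - 40) 0 = 553 := by decide +kernel
    rw [this]
    norm_num
  have e2 : lN (109 + 1) = 483 / 10 ^ 6 := by
    unfold lN
    rw [if_pos (by norm_num)]
    have : tl.getD (109 + 1 - 40) 0 = 483 := by decide +kernel
    rw [this]
    norm_num
  unfold lS
  rw [hf, e1, e2]
  norm_num

theorem numF_3 :
    (1 + 1 / 5000) * (1 + 1 / 10000) * (16 / 33) * (1 + uS ((4995 / 10000) / (3 / 16))) ≤ 0.65042 := by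
  have h := numF_uS 85248 (by norm_num) ((4995 / 10000) / (3 / 16)) (by norm_num)
  rw [h]
  have e : numF_n 85248 = 545737728 := by decide +kernel
  rw [e]
  norm_num

theorem p_numF : S_numF := ⟨numF_1, numF_2, numF_3⟩

end Pool.Agent.CA.FP
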