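import Pool.Agent.Lib.MP_d610d0_nt.CA.FP.Stm

set_option autoImplicit false

/-!
Piece [CA FP upA] of MP_d610d0_nt: upper bounds for the switched classes (adapted from `CA/SV/p_up.lean`).
-/

namespace Pool.Agent.CA.FP

open Finset Filter
open scoped ArithmeticFunction.Omega
open Pool.Agent.MP89da58 (tri primChars)
open Pool.Agent.CH (zJ wJ wL Rough VV Wt dsum thP EE Rk)
open Pool.Agent.CH.F (mu)
open Pool.Agent.CA.SV (Us Yc GS WS cl De Rc R_tup R_sel R_cls R_gt R_tl)

private lemma upA_VV (z : ℝ) : 0 ≤ VV z := by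
  unfold VV
  refine prod_nonneg fun p hp => ?_
  rw [mem_filter] at hp
  have h1 : (3 : ℝ) ≤ (p : ℝ) := by exact_mod_cast hp.2.2
  have h2 : 1 / ((p : ℝ) - 1) ≤ 1 := by
    rw [div_le_one (by linarith)]
    linarith
  linarith

private lemma upA_th (J p : ℕ) (hJ : 16 ≤ J) (hp : p ∈ Icc 1 (27 * J ^ 3)) :
    0 ≤ thP p ∧ thP p ≤ 3 * Real.log J + 4 := by
  rw [mem_Icc] at hp
  have h2 : (16 : ℝ) ≤ (J : ℝ) := by exact_mod_cast hJ
  have hL : 0 ≤ Real.log J := Real.log_nonneg (by linarith)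
  have hp1 : (1 : ℝ) ≤ (p : ℝ) := by exact_mod_cast hp.1
  have hp2 : (p : ℝ) ≤ 27 * (J : ℝ) ^ 3 := by exact_mod_cast hp.2
  have h27 : Real.log 27 ≤ 4 := by
    rw [Real.log_le_iff_le_exp (by norm_num)]
    have h3 := Real.exp_one_gt_d9
    have h4 : Real.exp 4 = Real.exp 1 ^ 4 := by
      rw [← Real.exp_nat_mul]
      norm_num
    rw [h4]
    have h5 : (2.7 : ℝ) ^ 4 ≤ Real.exp 1 ^ 4 := pow_le_pow_left₀ (by norm_num) (by linarith) 4
    norm_num at h5
    linarith
  unfold thP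
  split_ifs with h
  · refine ⟨Real.log_nonneg hp1, ?_⟩
    have h3 : Real.log p ≤ Real.log (27 * (J : ℝ) ^ 3) := Real.log_le_log (by linarith) hp2
    rw [Real.log_mul (by norm_num) (by positivity), Real.log_pow] at h3
    push_cast at h3
    linarith
  · exact ⟨le_refl _, by linarith⟩

/-- A number counted by a box with large primes is odd. -/
private lemma upA_bx_odd {k : ℕ} {lo hi : Fin k → ℝ} (hz : ∀ i, 2 < lo i) {n : ℕ}
    (h : bx k lo hi n ≠ 0) : Odd n := by
  classical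
  have hne : ((Fintype.piFinset (fun i : Fin k => (range (n + 1)).filter
    (fun p : ℕ => p.Prime ∧ lo i ≤ (p : ℝ) ∧ (p : ℝ) ≤ hi i))).filter
      (fun q => ∏ i, q i = n)).Nonempty := by
    rw [Finset.nonempty_iff_ne_empty]
    intro he
    apply h
    unfold bx
    rw [he]
    simp
  obtain ⟨q, hq⟩ := hne
  rw [Finset.mem_filter, Fintype.mem_piFinset] at hq
  obtain ⟨hq1, hq2⟩ := hq
  by_contra ho
  rw [Nat.not_odd_iff_even] at ho
  have hpn : 2 ∣ n := ho.two_dvd
  rw [← hq2] at hpn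
  obtain ⟨i, -, hi⟩ := (Prime.dvd_finsetProd_iff Nat.prime_two.prime _).1 hpn
  have h3 := hq1 i
  rw [Finset.mem_filter] at h3
  have he : 2 = q i := (Nat.prime_dvd_prime_iff_eq Nat.prime_two h3.2.1).1 hi
  have h4 := h3.2.2.1
  rw [← he] at h4
  have := hz i
  norm_num at h4
  linarith

open Classical in
/-- The general bound: `C` the class, `R` the switched sequence, `big` the exceptional primes. -/
private lemma upA_core (J j : ℕ) (hJ : 16 ≤ J)
    (hw01 : ∀ n, 0 ≤ wJ J j n ∧ wJ J j n ≤ 1)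
    (hwsup : ∀ n, 1 ≤ n → wJ J j n ≠ 0 → j ^ 3 < n ∧ n + 2 < (j + 1) ^ 3 ∧ J ^ 3 < n ∧
      n + 2 < 27 * J ^ 3)
    (hwcard : (((Icc 1 (27 * J ^ 3)).filter (fun n => wJ J j n ≠ 0)).card : ℝ) ≤ 18 * (J : ℝ) ^ 2)
    (hwlip : ∀ n, J ^ 3 ≤ n → wJ J j n ≤ wJ J j (n + 2) + 4 / (J : ℝ) ^ 2)
    (hsw : R_swG) (x Q : ℝ) (hxJ : x ≤ (J : ℝ) ^ 3) (hQ : Q ≤ Nat.sqrt J) (cx : ℕ → ℝ)
    (hW : Wt x Q cx)
    (hup : ∀ n : ℕ, Odd n → (if Rough x n then (1 : ℝ) else 0) ≤ dsum cx n)
    (C big : ℕ → Prop) (R : ℕ → ℝ)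
    (hR0 : ∀ n, 1 ≤ n → 0 ≤ R n) (hRodd : ∀ n, R n ≠ 0 → Odd n)
    (hC : ∀ p : ℕ, p.Prime → wJ J j p ≠ 0 → C (p + 2) → p + 2 ≤ 27 * J ^ 3 → ¬ big p → 1 ≤ R (p + 2))
    (E V M b : ℝ) (hE : |∑ q ∈ Icc 1 (Nat.sqrt J), cx q * EE J R 2 j q| ≤ E)
    (hV : ∑ d ∈ Icc 1 (Nat.sqrt J), cx d / (Nat.totient d : ℝ) ≤ V) (hV0 : 0 ≤ V)
    (hM : ∑ n ∈ Icc 1 (27 * J ^ 3), R n * wJ J j n ≤ M)
    (hb : (((Icc 1 (27 * J ^ 3)).filter big).card : ℝ) ≤ b) :
    ∑ p ∈ Icc 1 (27 * J ^ 3), thP p * wJ J j p * (if C (p + 2) then 1 else 0) ≤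
      (3 * Real.log J + 4) * (72 + E + V * M + b) := by
  have hJR : (16 : ℝ) ≤ (J : ℝ) := by exact_mod_cast hJ
  have hL : 0 < Real.log J := Real.log_pos (by linarith)
  set I := Icc 1 (27 * J ^ 3) with hI
  -- nonnegativity of the comparison term
  have hgnn : ∀ p : ℕ, 0 ≤ R (p + 2) * wJ J j (p + 2) * dsum cx p := by
    intro p
    have r0 := hR0 (p + 2) (by omega)
    by_cases hR : R (p + 2) = 0
    · rw [hR]; simp
    · have ho : Odd p := by
        have := hRodd _ hR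
        rw [Nat.odd_add] at this
        exact this.2 (by decide)
      have hd : 0 ≤ dsum cx p := by
        refine le_trans ?_ (hup p ho)
        split_ifs <;> norm_num
      exact mul_nonneg (mul_nonneg r0 (hw01 _).1) hd
  have hterm : ∀ p ∈ I, thP p * wJ J j p * (if C (p + 2) then 1 else 0)
      ≤ (3 * Real.log J + 4) * ((if big p then 1 else 0)
        + R (p + 2) * wJ J j (p + 2) * dsum cx p
        + (if wJ J j p ≠ 0 then 4 / (J : ℝ) ^ 2 else 0)) := by
    intro p hp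
    obtain ⟨ht0, ht1⟩ := upA_th J p hJ hp
    have hG0 : (0 : ℝ) ≤ (if big p then 1 else 0) := by split_ifs <;> norm_num
    have hC0 : (0 : ℝ) ≤ (if wJ J j p ≠ 0 then 4 / (J : ℝ) ^ 2 else 0) := by
      split_ifs
      · positivity
      · exact le_refl _
    have hA := hgnn p
    have hRHS : 0 ≤ (3 * Real.log J + 4) * ((if big p then 1 else 0)
        + R (p + 2) * wJ J j (p + 2) * dsum cx p
        + (if wJ J j p ≠ 0 then 4 / (J : ℝ) ^ 2 else 0)) :=
      mul_nonneg (by linarith) (by linarith)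
    by_cases hc : C (p + 2)
    swap
    · rw [if_neg hc, mul_zero]
      exact hRHS
    rw [if_pos hc, mul_one]
    by_cases hw : wJ J j p = 0
    · have h0 : thP p * wJ J j p = 0 := by rw [hw, mul_zero]
      exact h0.le.trans hRHS
    by_cases hpp : p.Prime
    swap
    · have : thP p = 0 := by unfold thP; rw [if_neg hpp]
      rw [this, zero_mul]
      exact hRHS
    have hp1 : 1 ≤ p := hpp.one_lt.le
    obtain ⟨w1, w2, w3, w4⟩ := hwsup p hp1 hw
    have hkey : wJ J j p ≤ (if big p then 1 else 0)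
        + R (p + 2) * wJ J j (p + 2) * dsum cx p
        + (if wJ J j p ≠ 0 then 4 / (J : ℝ) ^ 2 else 0) := by
      by_cases hbg : big p
      · rw [if_pos hbg]
        have := (hw01 p).2
        linarith
      have hR1 := hC p hpp hw hc w4.le hbg
      have hpodd : Odd p := by
        refine hpp.odd_of_ne_two ?_
        rintro rfl
        have : 16 ^ 3 ≤ J ^ 3 := Nat.pow_le_pow_left hJ 3
        omega
      have hprough : Rough x p := by
        intro q hq hqp
        have : q = p := (Nat.prime_dvd_prime_iff_eq hq hpp).1 hqp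
        rw [this]
        have h3 : ((J ^ 3 : ℕ) : ℝ) ≤ (p : ℝ) := by exact_mod_cast w3.le
        push_cast at h3
        linarith
      have hd1 : 1 ≤ dsum cx p := by
        have := hup p hpodd
        rwa [if_pos hprough] at this
      have hl := hwlip p w3.le
      have hw2 := (hw01 (p + 2)).1
      have h5 : wJ J j (p + 2) ≤ R (p + 2) * wJ J j (p + 2) * dsum cx p := by
        have h6 : (1 : ℝ) ≤ R (p + 2) * dsum cx p := by
          nlinarith
        nlinarith
      rw [if_pos hw]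
      linarith
    calc thP p * wJ J j p ≤ (3 * Real.log J + 4) * wJ J j p :=
          mul_le_mul_of_nonneg_right ht1 (hw01 p).1
      _ ≤ _ := mul_le_mul_of_nonneg_left hkey (by linarith)
  have hsum := sum_le_sum hterm
  rw [← mul_sum, sum_add_distrib, sum_add_distrib] at hsum
  -- big sum
  have hS4 : ∑ p ∈ I, (if big p then (1 : ℝ) else 0) ≤ b := by
    refine le_trans ?_ hb
    rw [← sum_filter, sum_const, nsmul_eq_mul, mul_one]
  -- third sum
  have hS3 : ∑ p ∈ I, (if wJ J j p ≠ 0 then 4 / (J : ℝ) ^ 2 else 0) ≤ 72 := by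
    rw [← sum_filter, sum_const, nsmul_eq_mul]
    have h1 : (((I.filter (fun n => wJ J j n ≠ 0)).card : ℕ) : ℝ) * (4 / (J : ℝ) ^ 2)
        ≤ 18 * (J : ℝ) ^ 2 * (4 / (J : ℝ) ^ 2) :=
      mul_le_mul_of_nonneg_right hwcard (by positivity)
    have h2 : 18 * (J : ℝ) ^ 2 * (4 / (J : ℝ) ^ 2) = 72 := by
      have : (J : ℝ) ≠ 0 := by linarith
      field_simp
      norm_num
    linarith
  -- second sum
  have hzero : ∀ n, n < 3 → R n * wJ J j n = 0 := by
    intro n hn
    rcases Nat.eq_zero_or_pos n with h0 | h0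
    · have : R 0 = 0 := by
        by_contra h
        have := hRodd 0 h
        exact absurd this (by decide)
      rw [h0, this, zero_mul]
    · by_cases hw : wJ J j n = 0
      · rw [hw, mul_zero]
      · obtain ⟨-, -, w3, -⟩ := hwsup n h0 hw
        have : 16 ^ 3 ≤ J ^ 3 := Nat.pow_le_pow_left hJ 3
        norm_num at this
        omega
  have hS2 : ∑ p ∈ I, R (p + 2) * wJ J j (p + 2) * dsum cx p
      = ∑ n ∈ I, R n * wJ J j n * dsum cx (n - 2) := by
    refine sum_bij_ne_zero (fun p _ _ => p + 2) ?_ ?_ ?_ ?_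
    · intro p hp hne
      have hw : wJ J j (p + 2) ≠ 0 := by
        intro h
        apply hne
        rw [h]; ring
      obtain ⟨-, -, -, w4⟩ := hwsup (p + 2) (by omega) hw
      rw [hI, mem_Icc]
      omega
    · intro a _ _ b _ _ hab
      simpa using hab
    · intro n hn hne
      have hn3 : 3 ≤ n := by
        by_contra h
        push Not at h
        apply hne
        rw [hzero n h, zero_mul]
      rw [hI, mem_Icc] at hn
      refine ⟨n - 2, ?_, ?_, ?_⟩
      · rw [hI, mem_Icc]; omega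
      · have : n - 2 + 2 = n := by omega
        rw [this]
        exact hne
      · show n - 2 + 2 = n
        omega
    · intro p _ _
      simp
  rw [hS2, (hsw J j R cx x Q (by omega) hW hQ).2 hzero] at hsum
  have hS2a : ∑ q ∈ Icc 1 (Nat.sqrt J), cx q * EE J R 2 j q ≤ E :=
    le_trans (le_abs_self _) hE
  have hRn : 0 ≤ ∑ n ∈ Icc 1 (27 * J ^ 3), R n * wJ J j n := by
    refine sum_nonneg fun n hn => ?_
    rw [mem_Icc] at hn
    exact mul_nonneg (hR0 n hn.1) (hw01 n).1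
  have hS2b : (∑ q ∈ Icc 1 (Nat.sqrt J), cx q / (Nat.totient q : ℝ)) *
      ∑ n ∈ Icc 1 (27 * J ^ 3), R n * wJ J j n ≤ V * M :=
    le_trans (mul_le_mul_of_nonneg_right hV hRn) (mul_le_mul_of_nonneg_left hM hV0)
  refine le_trans hsum (mul_le_mul_of_nonneg_left ?_ (by linarith))
  rw [hI] at hS3 hS4
  rw [hI]
  linarith

private lemma upA_RB0_odd (J : ℕ) (hy : 2 < ya J) (n : ℕ) (h : RB0 J n ≠ 0) : Odd n := by
  unfold RB0 at h
  obtain ⟨k, -, hk⟩ := exists_ne_zero_of_sum_ne_zero h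
  have h1 : B0 k J n ≠ 0 := by
    intro h0
    apply hk
    rw [h0, zero_div]
  exact upA_bx_odd (fun _ => hy) h1

private lemma upA_RB1_odd (J : ℕ) (hJ : 1 ≤ J) (hz : 2 < (J : ℝ) ^ (1 / 11 : ℝ)) (hy : 2 < ya J) (n : ℕ)
    (h : RB1 J n ≠ 0) : Odd n := by
  unfold RB1 at h
  obtain ⟨c, hc, h⟩ := exists_ne_zero_of_sum_ne_zero h
  obtain ⟨k, -, hk⟩ := exists_ne_zero_of_sum_ne_zero h
  have h1 : B1 c k J n ≠ 0 := by
    intro h0
    apply hk
    rw [h0, zero_div]
  refine upA_bx_odd (fun i => ?_) h1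
  unfold lo1
  refine Fin.cases ?_ (fun i => ?_) i
  · rw [Fin.cons_zero]
    refine lt_of_lt_of_le hz (Real.rpow_le_rpow_of_exponent_le (by exact_mod_cast hJ) ?_)
    rw [mem_Ico] at hc
    have : (64 : ℝ) ≤ (c : ℝ) := by exact_mod_cast hc.1
    rw [div_le_div_iff₀ (by norm_num) (by norm_num)]
    linarith
  · rw [Fin.cons_succ]
    exact hy

theorem p_upA : S_upA := by
  classical
  intro hwin hsw hrrE hmv hnum htab
  obtain ⟨-, -, hnum3⟩ := hnum
  obtain ⟨U, L0, hSS⟩ := htab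
  have hu0 : 0 < uS ((4995 / 10000) / (3 / 16)) := hSS.u_pos _ (by norm_num)
  have hpow : ∀ᶠ J : ℕ in atTop, 2 < (J : ℝ) ^ (1 / 11 : ℝ) :=
    ((tendsto_rpow_atTop (by norm_num : (0 : ℝ) < 1 / 11)).comp
      tendsto_natCast_atTop_atTop).eventually_gt_atTop 2
  have hpow2 : ∀ᶠ J : ℕ in atTop, 2 < (J : ℝ) ^ (4 / 10000 : ℝ) :=
    ((tendsto_rpow_atTop (by norm_num : (0 : ℝ) < 4 / 10000)).comp
      tendsto_natCast_atTop_atTop).eventually_gt_atTop 2
  filter_upwards [hrrE, hmv (1 / 11) (3 / 16) (1 / 10000) (by norm_num) (by norm_num) (by norm_num),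
    hpow, hpow2, eventually_ge_atTop 16] with J hrr hmvJ hz2 hz3 hJ cm cx cq hWW j hj hG
  obtain ⟨hw01, hwsup, hwcard, hwlip⟩ := hwin J (by omega) j hj
  have hJR : (16 : ℝ) ≤ (J : ℝ) := by exact_mod_cast hJ
  have hL : 0 < Real.log J := Real.log_pos (by linarith)
  have hJ0 : (0 : ℝ) < (J : ℝ) := by linarith
  obtain ⟨cy, hSW⟩ := hWW.w2
  have he : ((4995 / 10000 + 1 / 10000 : ℝ)) = 4996 / 10000 := by norm_num
  -- `J^(4996/10000) ≤ ⌊√J⌋`
  have hQ : (J : ℝ) ^ (4996 / 10000 : ℝ) ≤ (Nat.sqrt J : ℝ) := by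
    have h1 : (J : ℝ) ^ (1 / 2 : ℝ) < (Nat.sqrt J : ℝ) + 1 := by
      rw [← Real.sqrt_eq_rpow]
      rw [Real.sqrt_lt' (by positivity)]
      have := Nat.lt_succ_sqrt J
      have h2 : ((J : ℕ) : ℝ) < ((Nat.sqrt J + 1) * (Nat.sqrt J + 1) : ℕ) := by exact_mod_cast this
      push_cast at h2
      rw [pow_two]
      exact h2
    have h2 : (J : ℝ) ^ (1 / 2 : ℝ) = (J : ℝ) ^ (4996 / 10000 : ℝ) * (J : ℝ) ^ (4 / 10000 : ℝ) := by
      rw [← Real.rpow_add hJ0]
      norm_num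
    have h3 : (1 : ℝ) ≤ (J : ℝ) ^ (4996 / 10000 : ℝ) :=
      Real.one_le_rpow (by linarith) (by norm_num)
    nlinarith
  have hxJ : xa J ≤ (J : ℝ) ^ 3 := by
    unfold xa
    rw [← Real.rpow_natCast (J : ℝ) 3]
    exact Real.rpow_le_rpow_of_exponent_le (by linarith) (by norm_num)
  have hy2 : 2 < ya J := by
    unfold ya
    exact lt_of_lt_of_le hz2 (Real.rpow_le_rpow_of_exponent_le (by linarith) (by norm_num))
  have hWt : Wt (xa J) ((J : ℝ) ^ (4996 / 10000 : ℝ)) cx := by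
    have := hSW.wp
    rw [he] at this
    exact this
  have hup : ∀ n : ℕ, Odd n → (if Rough (xa J) n then (1 : ℝ) else 0) ≤ dsum cx n := by
    intro n hn
    have := hSW.up n hn
    unfold xa
    convert this
  have hV : ∑ d ∈ Icc 1 (Nat.sqrt J), cx d / (Nat.totient d : ℝ) ≤ 0.65042 * VV (za J) := by
    have h1 := hSW.mp (Nat.sqrt J) (by rw [he]; exact hQ)
    refine le_trans h1 ?_
    have h2 : (0 : ℝ) ≤ (1 + 1 / 5000) * (1 + uS ((4995 / 10000) / (3 / 16))) := by positivity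
    have h3 := mul_le_mul_of_nonneg_left hmvJ h2
    refine le_trans h3 ?_
    have hVz : 0 ≤ VV (za J) := upA_VV _
    have h4 : (1 + 1 / 5000) * (1 + uS ((4995 / 10000) / (3 / 16))) *
        ((1 + 1 / 10000) * (1 / 11 / (3 / 16)) * VV ((J : ℝ) ^ (1 / 11 : ℝ))) =
        ((1 + 1 / 5000) * (1 + 1 / 10000) * (16 / 33) * (1 + uS ((4995 / 10000) / (3 / 16)))) *
          VV (za J) := by
      unfold za
      ring
    rw [h4]
    exact mul_le_mul_of_nonneg_right hnum3 hVz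
  have hVz : 0 ≤ VV (za J) := upA_VV _
  have hmu : 0 ≤ mu J j := by
    unfold mu
    positivity
  have hq0 : (0 : ℝ) ≤ VV (za J) * mu J j / (3 * Real.log J) := by positivity
  constructor
  · -- the class without small prime
    have h := upA_core J j hJ hw01 hwsup hwcard hwlip hsw (xa J) ((J : ℝ) ^ (4996 / 10000 : ℝ)) hxJ hQ cx
      hWt hup (fun n => C0 J n)
      (fun p => p.Prime ∧ wJ J j p ≠ 0 ∧ C0 J (p + 2) ∧ ∃ m : ℕ, m.Prime ∧ m ∣ p + 2 ∧ Yc J < m)
      (RB0 J) (fun n hn => (hrr n hn).1.1) (upA_RB0_odd J hy2)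
      (by
        intro p hp hw hc hle hnb
        refine (hrr (p + 2) (by omega)).2.1 hc hle ?_
        intro m hm hmd
        by_contra hlt
        exact hnb ⟨hp, hw, hc, m, hm, hmd, not_le.1 hlt⟩)
      _ _ _ _ (hG.g2 cx hWt) hV (by positivity) hG.g6
      (le_trans (le_of_eq (by unfold bg0; congr)) hG.g9)
    have hT : T0 J j = ∑ p ∈ Icc 1 (27 * J ^ 3), thP p * wJ J j p * (if C0 J (p + 2) then 1 else 0) := by
      unfold T0
      congr
    rw [hT]
    refine le_trans h (mul_le_mul_of_nonneg_left ?_ (by linarith))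
    have h1 : 0.65042 * VV (za J) * (0.0813 * mu J j / (3 * Real.log J)) =
        (0.65042 * 0.0813) * (VV (za J) * mu J j / (3 * Real.log J)) := by ring
    have h2 : 0.0529 * VV (za J) * mu J j / (3 * Real.log J) =
        0.0529 * (VV (za J) * mu J j / (3 * Real.log J)) := by ring
    rw [h1, h2]
    have h3 : (0.65042 * 0.0813) * (VV (za J) * mu J j / (3 * Real.log J)) ≤
        0.0529 * (VV (za J) * mu J j / (3 * Real.log J)) :=
      mul_le_mul_of_nonneg_right (by norm_num) hq0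
    linarith
  · -- the class with a small prime
    have h := upA_core J j hJ hw01 hwsup hwcard hwlip hsw (xa J) ((J : ℝ) ^ (4996 / 10000 : ℝ)) hxJ hQ cx
      hWt hup (fun n => ∃ q : ℕ, C1 J q n)
      (fun p => p.Prime ∧ wJ J j p ≠ 0 ∧
        ∃ q : ℕ, C1 J q (p + 2) ∧ ∃ m : ℕ, m.Prime ∧ m ∣ p + 2 ∧ Y1 (mA J q) J < m)
      (RB1 J) (fun n hn => (hrr n hn).1.2) (upA_RB1_odd J (by omega) hz2 hy2)
      (by
        intro p hp hw hc hle hnb
        obtain ⟨q, hq⟩ := hc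
        refine (hrr (p + 2) (by omega)).2.2 q hq hle ?_
        intro m hm hmd
        by_contra hlt
        exact hnb ⟨hp, hw, q, hq, m, hm, hmd, not_le.1 hlt⟩)
      _ _ _ _ (hG.g3 cx hWt) hV (by positivity) hG.g7
      (le_trans (le_of_eq (by unfold bg1; congr)) hG.g10)
    have hT : T1 J j = ∑ p ∈ Icc 1 (27 * J ^ 3),
        thP p * wJ J j p * (if ∃ q : ℕ, C1 J q (p + 2) then 1 else 0) := by
      unfold T1
      congr
    rw [hT]
    refine le_trans h (mul_le_mul_of_nonneg_left ?_ (by linarith))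
    have h1 : 0.65042 * VV (za J) * (0.6486 * mu J j / (3 * Real.log J)) =
        (0.65042 * 0.6486) * (VV (za J) * mu J j / (3 * Real.log J)) := by ring
    have h2 : 0.4219 * VV (za J) * mu J j / (3 * Real.log J) =
        0.4219 * (VV (za J) * mu J j / (3 * Real.log J)) := by ring
    rw [h1, h2]
    have h3 : (0.65042 * 0.6486) * (VV (za J) * mu J j / (3 * Real.log J)) ≤
        0.4219 * (VV (za J) * mu J j / (3 * Real.log J)) :=
      mul_le_mul_of_nonneg_right (by norm_num) hq0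
    linarith

end Pool.Agent.CA.FP
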