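import Pool.Agent.Lib.MP_d610d0_nt.CA.FP.Stm

/-!
Project CA, section FP, piece winG: primes in a long window.
-/

set_option autoImplicit false

namespace Pool.Agent.CA.FP

open Finset Filter
open Pool.Agent.MP89da58 (tri)
open Pool.Agent.CH.M2 (S_sh)

private def winG_c (N i : ℕ) : ℕ := if i < N then i + 1 else 2 * N - i

private lemma winG_s1 (N : ℕ) : ∑ i ∈ range N, winG_c N i = ∑ i ∈ range N, (i + 1) :=
  Finset.sum_congr rfl fun i hi => by
    unfold winG_c
    rw [if_pos (mem_range.mp hi)]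

private lemma winG_s2 (N : ℕ) : ∑ i ∈ range N, winG_c N (N + i) = ∑ i ∈ range N, (i + 1) := by
  rw [← Finset.sum_range_reflect (fun i => i + 1) N]
  refine Finset.sum_congr rfl fun i hi => ?_
  have := mem_range.mp hi
  unfold winG_c
  rw [if_neg (by omega)]
  omega

private lemma winG_s3 (N : ℕ) : ∑ i ∈ range N, (i + 1) + ∑ i ∈ range N, (i + 1) = N * (N + 1) := by
  induction N with
  | zero => simp
  | succ n ih =>
    rw [Finset.sum_range_succ]
    have : ∑ i ∈ range n, (i + 1) + (n + 1) + (∑ i ∈ range n, (i + 1) + (n + 1)) =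
      (∑ i ∈ range n, (i + 1) + ∑ i ∈ range n, (i + 1)) + 2 * (n + 1) := by ring
    rw [this, ih]
    ring

private lemma winG_csum (N : ℕ) (hN : 0 < N) :
    ∑ i ∈ range (2 * N), (winG_c N i : ℝ) / N = N + 1 := by
  have h : ∑ i ∈ range (2 * N), winG_c N i = N * (N + 1) := by
    rw [two_mul, Finset.sum_range_add, winG_s1, winG_s2, winG_s3]
  have hN' : (N : ℝ) ≠ 0 := by exact_mod_cast hN.ne'
  rw [← Finset.sum_div, ← Nat.cast_sum, h]
  push_cast
  field_simp

private lemma winG_cell (N : ℕ) (hN : 0 < N) (lam y : ℝ) (hl : 0 < lam) (hy : 0 < y) (p : ℕ)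
    (hp : 0 < p) :
    tri (lam * Real.log ((p : ℝ) / y)) ≤ ∑ i ∈ range (2 * N),
      if y * Real.exp (((i : ℝ) - N) / (N * lam)) ≤ p ∧
        (p : ℝ) ≤ y * Real.exp (((i : ℝ) + 1 - N) / (N * lam)) then (winG_c N i : ℝ) / N
      else 0 := by
  generalize hu : Real.log ((p : ℝ) / y) = u
  have hp0 : (0 : ℝ) < p := by exact_mod_cast hp
  have hN0 : (0 : ℝ) < N := by exact_mod_cast hN
  have hpu : (p : ℝ) = y * Real.exp u := by
    rw [← hu, Real.exp_log (by positivity)]
    field_simp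
  by_cases h : 1 ≤ |lam * u|
  · have : tri (lam * u) = 0 := by
      unfold tri
      exact max_eq_left (by linarith)
    rw [this]
    exact Finset.sum_nonneg (fun i _ => by split_ifs <;> positivity)
  · push Not at h
    obtain ⟨h1, h2⟩ := abs_lt.mp h
    have f1 : ((⌊N * (lam * u)⌋ : ℤ) : ℝ) ≤ N * (lam * u) := Int.floor_le _
    have f2 : N * (lam * u) < (⌊N * (lam * u)⌋ : ℤ) + 1 := Int.lt_floor_add_one _
    have g1 : -(N : ℤ) ≤ ⌊N * (lam * u)⌋ := Int.le_floor.mpr (by push_cast; nlinarith)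
    have g2 : ⌊N * (lam * u)⌋ < (N : ℤ) := Int.floor_lt.mpr (by push_cast; nlinarith)
    generalize ⌊N * (lam * u)⌋ = i0 at f1 f2 g1 g2
    obtain ⟨i, hi⟩ : ∃ i : ℕ, (i : ℤ) = i0 + N :=
      ⟨(i0 + N).toNat, Int.toNat_of_nonneg (by omega)⟩
    have hi' : (i : ℝ) = i0 + N := by exact_mod_cast hi
    have hi200 : i < 2 * N := by omega
    have e1 : y * Real.exp (((i : ℝ) - N) / (N * lam)) ≤ p := by
      rw [hpu]
      refine mul_le_mul_of_nonneg_left (Real.exp_le_exp.mpr ?_) hy.le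
      rw [div_le_iff₀ (by positivity)]
      linarith
    have e2 : (p : ℝ) ≤ y * Real.exp (((i : ℝ) + 1 - N) / (N * lam)) := by
      rw [hpu]
      refine mul_le_mul_of_nonneg_left (Real.exp_le_exp.mpr ?_) hy.le
      rw [le_div_iff₀ (by positivity)]
      linarith
    have hc : tri (lam * u) ≤ (winG_c N i : ℝ) / N := by
      unfold tri winG_c
      refine max_le (by positivity) ?_
      rw [le_div_iff₀ hN0]
      split_ifs with h100
      · have hneg : i0 < 0 := by omega
        have hneg' : (i0 : ℝ) + 1 ≤ 0 := by exact_mod_cast hneg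
        have hlu : lam * u < 0 := by
          by_contra hcon
          push Not at hcon
          have : 0 ≤ (N : ℝ) * (lam * u) := by positivity
          linarith
        rw [abs_of_neg hlu]
        push_cast
        nlinarith
      · have hnn : 0 ≤ i0 := by omega
        have hnn' : (0 : ℝ) ≤ i0 := by exact_mod_cast hnn
        have hlu : 0 ≤ lam * u := by
          by_contra hcon
          push Not at hcon
          have : (N : ℝ) * (lam * u) < 0 := mul_neg_of_pos_of_neg hN0 hcon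
          linarith
        rw [abs_of_nonneg hlu, Nat.cast_sub (by omega)]
        push_cast
        nlinarith
    calc tri (lam * u) ≤ (winG_c N i : ℝ) / N := hc
      _ = (if y * Real.exp (((i : ℝ) - N) / (N * lam)) ≤ p ∧
        (p : ℝ) ≤ y * Real.exp (((i : ℝ) + 1 - N) / (N * lam)) then (winG_c N i : ℝ) / N
        else 0) := (if_pos ⟨e1, e2⟩).symm
      _ ≤ _ := Finset.single_le_sum (f := fun i : ℕ =>
        if y * Real.exp (((i : ℝ) - N) / (N * lam)) ≤ p ∧
        (p : ℝ) ≤ y * Real.exp (((i : ℝ) + 1 - N) / (N * lam)) then (winG_c N i : ℝ) / N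
        else 0) (fun i _ => by split_ifs <;> positivity) (mem_range.mpr hi200)

private lemma winG_exp (d x : ℝ) (hd : 0 < d) (hd1 : d ≤ 1) (hx0 : 0 ≤ x) (hx : x ≤ d / 2) :
    Real.exp x ≤ 1 + (1 + d) * x := by
  have h1 : 1 - x ≤ Real.exp (-x) := Real.one_sub_le_exp_neg x
  have h2 : Real.exp x * Real.exp (-x) = 1 := by rw [← Real.exp_add]; simp
  have h3 := Real.exp_pos x
  have h4 : Real.exp x * (1 - x) ≤ 1 := (mul_le_mul_of_nonneg_left h1 h3.le).trans h2.le
  have h6 : 0 < 1 - x := by linarith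
  have h7 : (1 + d) * x ≤ d := by nlinarith
  have h5 : 1 ≤ (1 + (1 + d) * x) * (1 - x) := by nlinarith
  exact le_of_mul_le_mul_right (h4.trans h5) h6

private lemma winG_count (C : ℝ) (hC : 0 ≤ C) (E : ℕ)
    (hsh : ∀ (S : Finset ℕ) (a b : ℝ), 2 ≤ a → a ≤ b →
      (∀ p ∈ S, p.Prime ∧ a ≤ p ∧ (p : ℝ) ≤ b) →
      ∑ p ∈ S, Real.log p ≤ b - a + C * b / Real.log a ^ (E + 1))
    (N : ℕ) (hN : 0 < N) (d : ℝ) (hd : 0 < d) (hd1 : d ≤ 1 / 4)
    (lam y : ℝ) (hl : 2 / d ≤ lam) (hly : 100 ≤ Real.log y) (hy : 0 < y) (S : Finset ℕ) (i : ℕ)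
    (hi : i < 2 * N) (hS : ∀ p ∈ S, p.Prime ∧ y * Real.exp (((i : ℝ) - N) / (N * lam)) ≤ p ∧
        (p : ℝ) ≤ y * Real.exp (((i : ℝ) + 1 - N) / (N * lam))) :
    (S.card : ℝ) ≤ ((1 + d) / (1 - d)) * (y / Real.log y) *
      ((1 + d) / (N * lam) + C / (Real.log y / 2) ^ (E + 1)) := by
  have hN0 : (0 : ℝ) < N := by exact_mod_cast hN
  have hN1 : (1 : ℝ) ≤ N := by exact_mod_cast hN
  have hl0 : 0 < lam := lt_of_lt_of_le (by positivity) hl
  have hi0 : (0 : ℝ) ≤ i := Nat.cast_nonneg i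
  have hi1 : (i : ℝ) + 1 ≤ 2 * N := by exact_mod_cast (show i + 1 ≤ 2 * N by omega)
  have hL0 : 0 < Real.log y := by linarith
  have hil : 1 / lam ≤ d / 2 := by
    have := one_div_le_one_div_of_le (by positivity) hl
    rwa [one_div_div] at this
  have hil0 : 0 < 1 / lam := by positivity
  have hcexp : ((i : ℝ) - N) / (N * lam) = ((i : ℝ) - N) / N * (1 / lam) := by
    field_simp
  have hcexp' : ((i : ℝ) + 1 - N) / (N * lam) = ((i : ℝ) + 1 - N) / N * (1 / lam) := by
    field_simp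
  have hq1 : ((i : ℝ) - N) / N ≤ 1 := by
    rw [div_le_one hN0]
    linarith
  have hq2 : -1 ≤ ((i : ℝ) - N) / N := by
    rw [le_div_iff₀ hN0]
    linarith
  have hq3 : ((i : ℝ) + 1 - N) / N ≤ 1 := by
    rw [div_le_one hN0]
    linarith
  -- t = lower end
  obtain ⟨t, ht⟩ : ∃ t, t = y * Real.exp (((i : ℝ) - N) / (N * lam)) := ⟨_, rfl⟩
  have ht0 : 0 < t := by rw [ht]; positivity
  have htn : y * Real.exp (((i : ℝ) + 1 - N) / (N * lam)) = t * Real.exp (1 / (N * lam)) := by
    rw [ht, mul_assoc, ← Real.exp_add]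
    congr 2
    field_simp
    ring
  have hlt : Real.log t = Real.log y + ((i : ℝ) - N) / (N * lam) := by
    rw [ht, Real.log_mul hy.ne' (Real.exp_pos _).ne', Real.log_exp]
  have hlt1 : (1 - d) * Real.log y ≤ Real.log t := by
    rw [hlt, hcexp]
    have : -1 * (1 / lam) ≤ ((i : ℝ) - N) / N * (1 / lam) :=
      mul_le_mul_of_nonneg_right hq2 hil0.le
    nlinarith
  have he1 : Real.exp (1 / lam) ≤ 1 + d := by
    have := winG_exp d (1 / lam) hd (by linarith) hil0.le hil
    nlinarith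
  have hty : t ≤ (1 + d) * y := by
    rw [ht]
    have h1 : Real.exp (((i : ℝ) - N) / (N * lam)) ≤ 1 + d := by
      refine (Real.exp_le_exp.mpr (?_ : _ ≤ 1 / lam)).trans he1
      rw [hcexp]
      calc ((i : ℝ) - N) / N * (1 / lam) ≤ 1 * (1 / lam) :=
            mul_le_mul_of_nonneg_right hq1 hil0.le
        _ = 1 / lam := one_mul _
    nlinarith
  have htny : t * Real.exp (1 / (N * lam)) ≤ (1 + d) * y := by
    rw [← htn]
    have h1 : Real.exp (((i : ℝ) + 1 - N) / (N * lam)) ≤ 1 + d := by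
      refine (Real.exp_le_exp.mpr (?_ : _ ≤ 1 / lam)).trans he1
      rw [hcexp']
      calc ((i : ℝ) + 1 - N) / N * (1 / lam) ≤ 1 * (1 / lam) :=
            mul_le_mul_of_nonneg_right hq3 hil0.le
        _ = 1 / lam := one_mul _
    nlinarith
  have hh0 : 0 < 1 / (N * lam) := by positivity
  have hh : 1 / (N * lam) ≤ d / 2 := by
    refine le_trans ?_ hil
    refine one_div_le_one_div_of_le hl0 ?_
    nlinarith
  have hdiff : t * Real.exp (1 / (N * lam)) - t ≤ (1 + d) * y * ((1 + d) / (N * lam)) := by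
    have h1 := winG_exp d (1 / (N * lam)) hd (by linarith) hh0.le hh
    have h2 : t * Real.exp (1 / (N * lam)) - t ≤ t * ((1 + d) * (1 / (N * lam))) := by
      have := mul_le_mul_of_nonneg_left h1 ht0.le
      nlinarith
    have h3 : (1 + d) * (1 / (N * lam)) = (1 + d) / (N * lam) := by ring
    rw [h3] at h2
    have h4 : (0 : ℝ) ≤ (1 + d) / (N * lam) := by positivity
    exact h2.trans (mul_le_mul_of_nonneg_right hty h4)
  have hlt0 : 0 < Real.log t := by nlinarith
  have ht2 : 2 ≤ t := by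
    by_contra hcon
    push Not at hcon
    have : Real.log t < Real.log 2 := Real.log_lt_log ht0 hcon
    have h2 := Real.log_two_lt_d9
    nlinarith
  have hexp1 : 1 ≤ Real.exp (1 / (N * lam)) := Real.one_le_exp hh0.le
  have hmain := hsh S t (t * Real.exp (1 / (N * lam))) ht2 (by nlinarith) (by
    intro p hp
    obtain ⟨k1, k2, k3⟩ := hS p hp
    rw [htn] at k3
    rw [← ht] at k2
    exact ⟨k1, k2, k3⟩)
  have hcard : (S.card : ℝ) * Real.log t ≤ ∑ p ∈ S, Real.log p := by
    rw [← nsmul_eq_mul]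
    refine Finset.card_nsmul_le_sum _ _ _ fun p hp => ?_
    have := (hS p hp).2.1
    rw [← ht] at this
    exact Real.log_le_log ht0 this
  have hden : (Real.log y / 2) ^ (E + 1) ≤ Real.log t ^ (E + 1) :=
    pow_le_pow_left₀ (by positivity) (by nlinarith) _
  have hden0 : 0 < (Real.log y / 2) ^ (E + 1) := by positivity
  have h2 : C * (t * Real.exp (1 / (N * lam))) / Real.log t ^ (E + 1) ≤
      (1 + d) * y * (C / (Real.log y / 2) ^ (E + 1)) := by
    calc C * (t * Real.exp (1 / (N * lam))) / Real.log t ^ (E + 1)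
        ≤ C * ((1 + d) * y) / (Real.log y / 2) ^ (E + 1) :=
          div_le_div₀ (by positivity) (mul_le_mul_of_nonneg_left htny hC) hden0 hden
      _ = (1 + d) * y * (C / (Real.log y / 2) ^ (E + 1)) := by ring
  have h3 : (S.card : ℝ) * Real.log t ≤
      (1 + d) * y * ((1 + d) / (N * lam) + C / (Real.log y / 2) ^ (E + 1)) := by
    rw [mul_add]
    linarith
  have h4 : (S.card : ℝ) * ((1 - d) * Real.log y) ≤
      (1 + d) * y * ((1 + d) / (N * lam) + C / (Real.log y / 2) ^ (E + 1)) :=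
    (mul_le_mul_of_nonneg_left hlt1 (Nat.cast_nonneg _)).trans h3
  have h1d : 0 < 1 - d := by linarith
  rw [← le_div_iff₀ (by positivity)] at h4
  refine h4.trans (le_of_eq ?_)
  field_simp

private lemma winG_core (C : ℝ) (hC : 0 ≤ C) (E : ℕ)
    (hsh : ∀ (S : Finset ℕ) (a b : ℝ), 2 ≤ a → a ≤ b →
      (∀ p ∈ S, p.Prime ∧ a ≤ p ∧ (p : ℝ) ≤ b) →
      ∑ p ∈ S, Real.log p ≤ b - a + C * b / Real.log a ^ (E + 1))
    (N : ℕ) (hN : 0 < N) (d : ℝ) (hd : 0 < d) (hd1 : d ≤ 1 / 4) (hNd : 1 ≤ d * N)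
    (lam y : ℝ) (hl : 2 / d ≤ lam) (hly : 100 ≤ Real.log y) (hy : 0 < y) (S : Finset ℕ)
    (hS : ∀ p ∈ S, p.Prime) (hlamy : lam ≤ (12 * Real.log y) ^ E)
    (hlast : N * (2 * 24 ^ E * C) ≤ d * Real.log y) :
    lam * ∑ p ∈ S, tri (lam * Real.log ((p : ℝ) / y)) ≤ (1 + 10 * d) * y / Real.log y := by
  have hN0 : (0 : ℝ) < N := by exact_mod_cast hN
  have hl0 : 0 < lam := lt_of_lt_of_le (by positivity) hl
  have hL0 : 0 < Real.log y := by linarith
  have h1d : 0 < 1 - d := by linarith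
  obtain ⟨X, hX⟩ : ∃ X, X = ((1 + d) / (1 - d)) * (y / Real.log y) *
      ((1 + d) / (N * lam) + C / (Real.log y / 2) ^ (E + 1)) := ⟨_, rfl⟩
  have h1 : ∑ p ∈ S, tri (lam * Real.log ((p : ℝ) / y)) ≤ (N + 1) * X := by
    calc ∑ p ∈ S, tri (lam * Real.log ((p : ℝ) / y))
        ≤ ∑ p ∈ S, ∑ i ∈ range (2 * N),
          (if y * Real.exp (((i : ℝ) - N) / (N * lam)) ≤ p ∧
            (p : ℝ) ≤ y * Real.exp (((i : ℝ) + 1 - N) / (N * lam)) then (winG_c N i : ℝ) / N
          else 0) := Finset.sum_le_sum fun p hp => winG_cell N hN lam y hl0 hy p (hS p hp).pos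
      _ = ∑ i ∈ range (2 * N), ∑ p ∈ S,
          (if y * Real.exp (((i : ℝ) - N) / (N * lam)) ≤ p ∧
            (p : ℝ) ≤ y * Real.exp (((i : ℝ) + 1 - N) / (N * lam)) then (winG_c N i : ℝ) / N
          else 0) := Finset.sum_comm
      _ ≤ ∑ i ∈ range (2 * N), (winG_c N i : ℝ) / N * X := by
          refine Finset.sum_le_sum fun i hi => ?_
          rw [← Finset.sum_filter, Finset.sum_const, nsmul_eq_mul, mul_comm]
          refine mul_le_mul_of_nonneg_left ?_ (by positivity)
          rw [hX]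
          refine winG_count C hC E hsh N hN d hd hd1 lam y hl hly hy _ i (mem_range.mp hi)
            fun p hp => ?_
          obtain ⟨k1, k2⟩ := mem_filter.mp hp
          exact ⟨hS p k1, k2⟩
      _ = (N + 1) * X := by rw [← Finset.sum_mul, winG_csum N hN]
  have h2 : lam * ((N + 1) * X) ≤ (1 + 10 * d) * y / Real.log y := by
    have hpow : (12 * Real.log y) ^ E / (Real.log y / 2) ^ (E + 1) =
        2 * 24 ^ E / Real.log y := by
      rw [mul_pow, div_pow, pow_succ, pow_succ, show (24 : ℝ) = 12 * 2 by norm_num, mul_pow]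
      field_simp
    have h3 : lam * (C / (Real.log y / 2) ^ (E + 1)) ≤ d / N := by
      calc lam * (C / (Real.log y / 2) ^ (E + 1))
          ≤ (12 * Real.log y) ^ E * (C / (Real.log y / 2) ^ (E + 1)) :=
            mul_le_mul_of_nonneg_right hlamy (by positivity)
        _ = C * ((12 * Real.log y) ^ E / (Real.log y / 2) ^ (E + 1)) := by ring
        _ = 2 * 24 ^ E * C / Real.log y := by rw [hpow]; ring
        _ ≤ d / N := by
            rw [div_le_div_iff₀ hL0 hN0]
            linarith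
    have h4 : N * (lam * ((1 + d) / (N * lam) + C / (Real.log y / 2) ^ (E + 1))) ≤
        1 + 2 * d := by
      rw [mul_add]
      have h5 : (N : ℝ) * (lam * ((1 + d) / (N * lam))) = 1 + d := by
        field_simp
      have h6 : N * (lam * (C / (Real.log y / 2) ^ (E + 1))) ≤ d := by
        have := mul_le_mul_of_nonneg_left h3 hN0.le
        rwa [mul_div_cancel₀ _ hN0.ne'] at this
      linarith
    have hyl : 0 < y / Real.log y := by positivity
    have h7 : ((N : ℝ) + 1) / N ≤ 1 + d := by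
      rw [div_le_iff₀ hN0]
      linarith
    have h8 : (1 + d) * ((1 + d) / (1 - d)) * (1 + 2 * d) ≤ 1 + 10 * d := by
      rw [mul_div_assoc', div_mul_eq_mul_div, div_le_iff₀ h1d]
      nlinarith [mul_pos hd hd, mul_pos (mul_pos hd hd) hd]
    have h9 : 0 ≤ N * (lam * ((1 + d) / (N * lam) + C / (Real.log y / 2) ^ (E + 1))) := by
      positivity
    calc lam * ((N + 1) * X) = (((N : ℝ) + 1) / N) * ((1 + d) / (1 - d)) *
          (N * (lam * ((1 + d) / (N * lam) + C / (Real.log y / 2) ^ (E + 1)))) *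
          (y / Real.log y) := by
            rw [hX]
            field_simp
      _ ≤ (1 + d) * ((1 + d) / (1 - d)) * (1 + 2 * d) * (y / Real.log y) := by
          refine mul_le_mul_of_nonneg_right ?_ hyl.le
          refine mul_le_mul ?_ h4 h9 (by positivity)
          exact mul_le_mul_of_nonneg_right h7 (by positivity)
      _ ≤ (1 + 10 * d) * (y / Real.log y) := mul_le_mul_of_nonneg_right h8 hyl.le
      _ = (1 + 10 * d) * y / Real.log y := by ring
  exact (mul_le_mul_of_nonneg_left h1 hl0.le).trans h2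

theorem p_winG : S_winG := by
  intro h ε hε E hE
  obtain ⟨C, hC, hsh⟩ := h (E + 1)
  obtain ⟨d, hd⟩ : ∃ d : ℝ, d = min (ε / 10) (1 / 4) := ⟨_, rfl⟩
  have hd0 : 0 < d := by rw [hd]; exact lt_min (by positivity) (by norm_num)
  have hd1 : d ≤ 1 / 4 := by rw [hd]; exact min_le_right _ _
  have hdε : 10 * d ≤ ε := by
    have : d ≤ ε / 10 := by rw [hd]; exact min_le_left _ _
    linarith
  obtain ⟨N, hN⟩ : ∃ N : ℕ, N = ⌈1 / d⌉₊ := ⟨_, rfl⟩
  have hN0 : 0 < N := by rw [hN]; exact Nat.ceil_pos.mpr (by positivity)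
  have hNd : 1 ≤ d * N := by
    have : 1 / d ≤ N := by rw [hN]; exact Nat.le_ceil _
    rw [div_le_iff₀ hd0] at this
    linarith
  obtain ⟨Q, hQ⟩ : ∃ Q : ℝ, Q = 1200 + 2 / d + 12 * (N * (2 * 24 ^ E * C)) / d := ⟨_, rfl⟩
  refine eventually_atTop.mpr ⟨⌈Real.exp Q⌉₊ + 1, fun J hJ y hy S hS => ?_⟩
  have hJ1 : Real.exp Q ≤ J := by
    refine (Nat.le_ceil _).trans ?_
    exact_mod_cast (show ⌈Real.exp Q⌉₊ ≤ J by omega)
  have hJ0 : (0 : ℝ) < J := lt_of_lt_of_le (Real.exp_pos _) hJ1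
  have hL : Q ≤ Real.log J := (Real.le_log_iff_exp_le hJ0).mpr hJ1
  have hCC : 0 ≤ 12 * (N * (2 * 24 ^ E * C)) / d := by positivity
  have hdd : 0 < 2 / d := by positivity
  have hL1 : 1200 ≤ Real.log J := by linarith
  have hy0 : 0 < y := lt_of_lt_of_le (Real.rpow_pos_of_pos hJ0 _) hy
  have hly : Real.log J / 12 ≤ Real.log y := by
    have := Real.log_le_log (Real.rpow_pos_of_pos hJ0 _) hy
    rw [Real.log_rpow hJ0] at this
    linarith
  have hlam : 2 / d ≤ Real.log J ^ E := by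
    calc 2 / d ≤ Real.log J := by linarith
      _ = Real.log J ^ 1 := (pow_one _).symm
      _ ≤ Real.log J ^ E := pow_le_pow_right₀ (by linarith) hE
  refine (winG_core C hC E hsh N hN0 d hd0 hd1 hNd _ y hlam (by linarith) hy0 S hS ?_ ?_).trans ?_
  · exact pow_le_pow_left₀ (by linarith) (by linarith) E
  · have h1 : 12 * (N * (2 * 24 ^ E * C)) / d ≤ Real.log J := by linarith
    rw [div_le_iff₀ hd0] at h1
    nlinarith
  · have : 0 < Real.log y := by linarith
    refine div_le_div_of_nonneg_right ?_ this.le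
    exact mul_le_mul_of_nonneg_right (by linarith) hy0.le

end Pool.Agent.CA.FP
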